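import Pool.Agent.Lib.MP_751085_ag.ZC.V.D

/-! Block V: restriction of automorphisms, composita. -/

namespace Pool.Agent.ZCy

open scoped Classical WithZero Polynomial PowerSeries LaurentSeries
open WithZero (exp)

variable {A K K' E E' F Ω : Type} [CommRing A] [Field K] [Field K'] [Field E] [Field E'] [Field F]
  [Field Ω] [Algebra K E] [Algebra K' E'] {w u : Vl E} {w' : Vl E'} {g h : E ≃ₐ[K] E}

theorem eq_one_of_adjoin {S : Set E} (hS : IntermediateField.adjoin K S = ⊤)
    (hg : ∀ x ∈ S, g x = x) : g = 1 := by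
  have h : IntermediateField.adjoin K S ≤ IntermediateField.fixedField (Subgroup.zpowers g) :=
    IntermediateField.adjoin_le_iff.2 fun x hx => (IntermediateField.mem_fixedField_iff _ _).2
      fun _ hf => Subgroup.zpowers_le.2 (MulAction.mem_stabilizer_iff.2 (hg x hx)) hf
  exact AlgEquiv.ext fun x => (IntermediateField.mem_fixedField_iff _ _).1
    (h (hS ▸ IntermediateField.mem_top)) g (Subgroup.mem_zpowers g)

theorem mem_range_of_fix [FiniteDimensional K E] [IsGalois K E] {x : E}
    (hx : ∀ g : E ≃ₐ[K] E, g x = x) : ∃ a, algebraMap K E a = x :=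
  (IsGalois.mem_range_algebraMap_iff_fixed x).2 hx

/-- two embeddings of a normal extension differ by an automorphism -/
theorem exists_twist [Normal K E] (j j' : E →+* Ω)
    (e : ∀ a, j' (algebraMap K E a) = j (algebraMap K E a)) :
    ∃ g : E ≃ₐ[K] E, ∀ x, j' x = j (g x) := by
  let : Algebra K Ω := (j.comp (algebraMap K E)).toAlgebra
  let : Algebra E Ω := j.toAlgebra
  have : IsScalarTower K E Ω := .of_algebraMap_eq fun _ => rfl
  let ψ : E →ₐ[K] Ω := { j' with commutes' := e }
  exact ⟨ψ.restrictNormal' E, fun x => (ψ.restrictNormal_commutes E x).symm⟩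

/-- an embedding of a subextension is the restriction of a twist of `j` -/
theorem exists_twist_sub [Normal K E] [Algebra K F] (i : F →+* E) (hi : Sq (RingHom.id K) i)
    (j : E →+* Ω) (j' : F →+* Ω) (e : ∀ a, j' (algebraMap K F a) = j (algebraMap K E a)) :
    ∃ g : E ≃ₐ[K] E, ∀ x, j' x = j (g (i x)) := by
  let : Algebra F E := i.toAlgebra
  have : IsScalarTower K F E := .of_algebraMap_eq fun a => (hi a).symm
  have : Algebra.IsAlgebraic F E := .tower_top (K := K) F
  let : Algebra F (AlgebraicClosure Ω) := ((algebraMap Ω _).comp j').toAlgebra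
  let J : E →ₐ[F] AlgebraicClosure Ω := IsAlgClosed.lift
  obtain ⟨g, hg⟩ := exists_twist (K := K) ((algebraMap Ω (AlgebraicClosure Ω)).comp j)
    (J : E →+* AlgebraicClosure Ω) fun a => by
      rw [RingHom.comp_apply, ← e, IsScalarTower.algebraMap_apply K F E]
      exact J.commutes _
  exact ⟨g, fun x => (algebraMap Ω (AlgebraicClosure Ω)).injective
    ((J.commutes x).symm.trans (hg (i x)))⟩

theorem exists_act [Normal K E] {Γ : Type} [Group Γ] (j : E →+* Ω) (act : Γ →* (Ω ≃+* Ω))
    (e : ∀ γ a, act γ (j (algebraMap K E a)) = j (algebraMap K E a)) :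
    ∃ r : Γ →* (E ≃ₐ[K] E), ∀ γ x, j (r γ x) = act γ (j x) := by
  choose r hr using fun γ => exists_twist (K := K) j ((act γ : Ω →+* Ω).comp j) (e γ)
  have hr' : ∀ γ x, j (r γ x) = act γ (j x) := fun γ x => (hr γ x).symm
  refine ⟨MonoidHom.mk' r fun γ δ => AlgEquiv.ext fun x => j.injective ?_, hr'⟩
  rw [AlgEquiv.mul_apply, hr', hr', hr', map_mul]
  rfl

theorem exists_rs [Normal K E] {φ : K →+* K'} {j : E →+* E'} (hj : Sq φ j) :
    ∃ r : (E' ≃ₐ[K'] E') →* (E ≃ₐ[K] E), Rs j r :=
  exists_act j (MulSemiringAction.toRingAut (E' ≃ₐ[K'] E') E') fun γ a => by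
    rw [hj]
    exact γ.commutes _

theorem exists_emb [Algebra.IsAlgebraic K E] [IsAlgClosed Ω] (φ : K →+* Ω) : Emb E φ := by
  let : Algebra K Ω := φ.toAlgebra
  let j : E →ₐ[K] Ω := IsAlgClosed.lift
  exact ⟨j, j.commutes⟩

variable {j : E →+* E'} {r : (E' ≃ₐ[K'] E') →* (E ≃ₐ[K] E)}

theorem Rs.inj (hr : Rs j r) (hS : IntermediateField.adjoin K' (Set.range j) = ⊤) :
    Function.Injective r :=
  (injective_iff_map_eq_one r).2 fun g hg => eq_one_of_adjoin hS (by
    rintro _ ⟨x, rfl⟩
    rw [← hr, hg, AlgEquiv.one_apply])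

/-- the image of `r` is the group of the elements whose image is fixed -/
theorem Rs.surj [FiniteDimensional K E] [IsGalois K E] (hr : Rs j r)
    (hx : ∀ x, (∀ g : E' ≃ₐ[K'] E', g (j x) = j x) → ∀ g : E ≃ₐ[K] E, g x = x) :
    Function.Surjective r := fun g => by
  have h : g ∈ (IntermediateField.fixedField r.range).fixingSubgroup :=
    (IntermediateField.mem_fixingSubgroup_iff _ _).2 fun x h => hx x (fun g' => by
      rw [← hr, (IntermediateField.mem_fixedField_iff _ _).1 h _ ⟨g', rfl⟩]) g
  rwa [IntermediateField.fixingSubgroup_fixedField] at h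

theorem vgal_top [Algebra K' Ω] {j : E →+* Ω}
    {j' : E →+* IntermediateField.adjoin K' (Set.range j)} (h : ∀ x, (j' x : Ω) = j x) :
    IntermediateField.adjoin K' (Set.range j') = ⊤ := by
  apply IntermediateField.lift_injective
  rw [IntermediateField.lift_adjoin, IntermediateField.lift_top, ← Set.range_comp]
  exact congrArg (fun f : E → Ω => IntermediateField.adjoin K' (Set.range f)) (funext h)

/-- the compositum inside a given field -/
theorem bc_in [FiniteDimensional K E] [IsGalois K E] [Algebra K' Ω] {φ : K →+* K'} {j : E →+* Ω}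
    (hj : Sq φ j) : FiniteDimensional K' (IntermediateField.adjoin K' (Set.range j)) ∧
      IsGalois K' (IntermediateField.adjoin K' (Set.range j)) ∧
      ∃ (j' : E →+* IntermediateField.adjoin K' (Set.range j)) (r : _ →* (E ≃ₐ[K] E)),
        (∀ x, (j' x : Ω) = j x) ∧ Sq φ j' ∧ Rs (K' := K') j' r ∧ Function.Injective r := by
  let : Algebra K K' := φ.toAlgebra
  let : Algebra K Ω := ((algebraMap K' Ω).comp φ).toAlgebra
  have : IsScalarTower K K' Ω := .of_algebraMap_eq fun _ => rfl
  let J : E →ₐ[K] Ω := { j with commutes' := hj }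
  have hi : ∀ x, IsIntegral K' (j x) := fun x => ((IsIntegral.of_finite K x).map J).tower_top
  let j' : E →+* IntermediateField.adjoin K' (Set.range j) :=
    j.codRestrict _ fun x => IntermediateField.subset_adjoin _ _ ⟨x, rfl⟩
  have hs : Sq φ j' := fun a => Subtype.ext (hj a)
  have he : IntermediateField.adjoin K' (Set.range j) =
      IntermediateField.adjoin K' (Set.range fun i => j (Module.finBasis K E i)) := by
    refine le_antisymm (IntermediateField.adjoin_le_iff.2 ?_)
      (IntermediateField.adjoin.mono _ _ _ (Set.range_comp_subset_range _ _))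
    rintro _ ⟨x, rfl⟩
    rw [← (Module.finBasis K E).sum_repr x, map_sum]
    refine sum_mem fun i _ => ?_
    rw [Algebra.smul_def, map_mul, hj]
    exact mul_mem (IntermediateField.algebraMap_mem _ _)
      (IntermediateField.subset_adjoin _ _ ⟨i, rfl⟩)
  have hf : FiniteDimensional K' (IntermediateField.adjoin K' (Set.range j)) := by
    rw [he]
    exact IntermediateField.finiteDimensional_adjoin (by rintro _ ⟨i, rfl⟩; exact hi _)
  have : Normal K' (IntermediateField.adjoin K' (Set.range j)) := normal_iff.2 fun x =>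
    ⟨.of_finite K' x, by
      rw [IntermediateField.minpoly_eq]
      refine IntermediateField.splits_of_mem_adjoin K' Ω ?_ x.2
      rintro _ ⟨y, rfl⟩
      have h1 := (Normal.splits (inferInstance : Normal K E) y).map j'
      refine ⟨hi y, h1.of_dvd (((minpoly.monic (IsIntegral.of_finite K y)).map _).map _).ne_zero ?_⟩
      have h2 := Polynomial.map_dvd (algebraMap K' (IntermediateField.adjoin K' (Set.range j)))
        (minpoly.dvd_map_of_isScalarTower K K' (J y))
      rw [minpoly.algHom_eq J J.injective, Polynomial.map_map] at h2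
      rw [Polynomial.map_map, show j'.comp (algebraMap K E) = (algebraMap K' _).comp φ from
        RingHom.ext hs]
      exact h2⟩
  have : Algebra.IsSeparable K' (IntermediateField.adjoin K' (Set.range j)) :=
    (IntermediateField.isSeparable_adjoin_iff_isSeparable K' Ω).2 (by
      rintro _ ⟨y, rfl⟩
      exact ((Algebra.IsSeparable.isSeparable K y).map J J.injective).tower_top K')
  obtain ⟨r, hr⟩ := exists_rs hs
  exact ⟨hf, {}, j', r, fun _ => rfl, hs, hr, hr.inj (vgal_top fun _ => rfl)⟩

theorem exists_bc (E : Type) [Field E] [Algebra K E] [FiniteDimensional K E] [IsGalois K E]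
    (φ : K →+* K') : ∃ (E' : Type) (_ : Field E') (_ : Algebra K' E') (_ : FiniteDimensional K' E')
      (_ : IsGalois K' E') (j : E →+* E') (r : (E' ≃ₐ[K'] E') →* (E ≃ₐ[K] E)),
      Sq φ j ∧ Rs j r ∧ Function.Injective r ∧
        IntermediateField.adjoin K' (Set.range j) = ⊤ := by
  obtain ⟨j, hj⟩ := exists_emb (E := E) ((algebraMap K' (AlgebraicClosure K')).comp φ)
  obtain ⟨h1, h2, j', r, h3, h4, h5, h6⟩ := bc_in (φ := φ) (j := j) hj
  exact ⟨_, inferInstance, inferInstance, h1, h2, j', r, h4, h5, h6, vgal_top h3⟩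

/-- the Galois closure -/
theorem exists_gc (K E : Type) [Field K] [Field E] [Algebra K E] [FiniteDimensional K E]
    [Algebra.IsSeparable K E] : ∃ (N : Type) (_ : Field N) (_ : Algebra K N) (_ : Algebra E N)
      (_ : IsScalarTower K E N) (_ : FiniteDimensional K N) (_ : IsGalois K N),
      ∀ g : N ≃ₐ[K] N, (∀ (h : N ≃ₐ[K] N) (x : E), g (h (algebraMap E N x)) =
        h (algebraMap E N x)) → g = 1 := by
  let e : E →ₐ[K] SeparableClosure K := IsSepClosed.lift
  let : Algebra E (SeparableClosure K) := (e : E →+* SeparableClosure K).toAlgebra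
  have : IsScalarTower K E (SeparableClosure K) := .of_algebraMap_eq fun a => (e.commutes a).symm
  set N := IntermediateField.normalClosure K E (SeparableClosure K)
  let c : (E →ₐ[K] SeparableClosure K) → E →+* N := fun f =>
    (f : E →+* SeparableClosure K).codRestrict N fun x => f.fieldRange_le_normalClosure ⟨x, rfl⟩
  refine ⟨N, inferInstance, inferInstance, inferInstance, inferInstance, inferInstance,
    inferInstance, fun g hg => eq_one_of_adjoin
      (S := Set.range fun q : (E →ₐ[K] SeparableClosure K) × E => c q.1 q.2) ?_ ?_⟩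
  · apply IntermediateField.lift_injective
    rw [IntermediateField.lift_adjoin, IntermediateField.lift_top]
    refine le_antisymm (IntermediateField.adjoin_le_iff.2 ?_) (normalClosure_le_iff.2 ?_)
    · rintro _ ⟨x, -, rfl⟩
      exact x.2
    · rintro f _ ⟨x, rfl⟩
      exact IntermediateField.subset_adjoin _ _ ⟨_, ⟨(f, x), rfl⟩, rfl⟩
  · rintro _ ⟨⟨f, x⟩, rfl⟩
    obtain ⟨h, hh⟩ := exists_twist_sub (K := K) (algebraMap E N)
      (fun a => (IsScalarTower.algebraMap_apply K E N a).symm) (RingHom.id N) (c f)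
      fun a => Subtype.ext (f.commutes a)
    simp only [hh]
    exact hg h x

end Pool.Agent.ZCy
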