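import Pool.Agent.Lib.MP_751085_ag.ZC.V.D

/-! Block V: completeness of power series rings, Weierstrass primes. -/

namespace Pool.Agent.ZCy

open scoped Classical WithZero Polynomial PowerSeries LaurentSeries
open WithZero (exp)
open IsLocalRing

/-- Weierstrass preparation: the distinguished polynomial is irreducible in `A[X]`, hence prime. -/
theorem prime_of_regular {A : Type} [CommRing A] [IsDomain A] [IsLocalRing A]
    [UniqueFactorizationMonoid A] [IsAdicComplete (maximalIdeal A) A] {g : A⟦X⟧}
    (h : PowerSeries.map (residue A) g ≠ 0) (hi : Irreducible g) : Prime g := by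
  obtain ⟨f, u, H⟩ := PowerSeries.exists_isWeierstrassFactorization h
  have hf : Irreducible (f : A⟦X⟧) := by
    rw [H.eq_mul] at hi
    exact (irreducible_mul_isUnit H.isUnit).1 hi
  have key : ∀ a b : A[X], a.Monic → a * b = f → IsUnit (a : A⟦X⟧) → a = 1 := fun a b ha hab hu => by
    have h1 : a.map (residue A) ∣ Polynomial.X ^ f.natDegree := by
      have h0 : f.map (residue A) = Polynomial.X ^ f.natDegree := H.isDistinguishedAt.map_eq_X_pow
      rw [← h0, ← hab, Polynomial.map_mul]
      exact dvd_mul_right _ _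
    obtain ⟨i, -, h2⟩ := (dvd_prime_pow Polynomial.prime_X _).1 h1
    have h3 := Polynomial.eq_of_monic_of_associated (ha.map _) (Polynomial.monic_X_pow i) h2
    have h4 : i = 0 := by
      by_contra h5
      have h6 := congrArg (fun p => Polynomial.coeff p 0) h3
      simp only [Polynomial.coeff_map, Polynomial.coeff_X_pow, if_neg (Ne.symm h5)] at h6
      have h7 := (PowerSeries.isUnit_iff_constantCoeff.1 hu).map (residue A)
      rw [Polynomial.constantCoeff_coe, h6] at h7
      exact not_isUnit_zero h7
    rw [← ha.natDegree_eq_zero, ← ha.natDegree_map (residue A), h3, h4, pow_zero,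
      Polynomial.natDegree_one]
  have hp : Prime f := by
    refine Irreducible.prime ((Polynomial.irreducible_of_monic H.isDistinguishedAt.monic ?_).2 ?_)
    · rintro rfl
      exact hf.not_isUnit (by simp)
    · intro a b ha hb hab
      exact (hf.isUnit_or_isUnit (by rw [← hab, Polynomial.coe_mul])).imp (key a b ha hab)
        (key b a hb (by rw [mul_comm, hab]))
  have := (Ideal.span_singleton_prime hp.ne_zero).2 hp
  have := MulEquiv.isDomain _ H.algEquivQuotient.symm.toMulEquiv
  exact (Ideal.span_singleton_prime hi.ne_zero).1 ((Ideal.Quotient.isDomain_iff_prime _).1 this)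

theorem vwei_mem {A : Type} [CommRing A] [IsLocalRing A] {f : A⟦X⟧} :
    f ∈ maximalIdeal A⟦X⟧ ↔ PowerSeries.constantCoeff f ∈ maximalIdeal A := by
  simp only [mem_maximalIdeal, mem_nonunits_iff, PowerSeries.isUnit_iff_constantCoeff]

theorem vwei_coeff {A : Type} [CommRing A] [IsLocalRing A] (n : ℕ) :
    ∀ f ∈ maximalIdeal A⟦X⟧ ^ n, ∀ i, PowerSeries.coeff i f ∈ maximalIdeal A ^ (n - i) := by
  induction n with
  | zero => simp
  | succ n ih =>
    intro f hf i
    rw [pow_succ] at hf
    refine Submodule.mul_induction_on hf (fun a ha b hb => ?_) fun a b ha hb => ?_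
    · rw [PowerSeries.coeff_mul]
      refine Ideal.sum_mem _ fun p hp => ?_
      have h1 := Finset.HasAntidiagonal.mem_antidiagonal.1 hp
      by_cases h2 : p.2 = 0
      · refine Ideal.pow_le_pow_right (n := n - p.1 + 1) (by omega) ?_
        rw [pow_succ, h2, PowerSeries.coeff_zero_eq_constantCoeff_apply]
        exact Ideal.mul_mem_mul (ih a ha _) (vwei_mem.1 hb)
      · exact Ideal.mul_mem_right _ _ (Ideal.pow_le_pow_right (by omega) (ih a ha p.1))
    · rw [map_add]; exact Ideal.add_mem _ ha hb

theorem vwei_of_coeff {A : Type} [CommRing A] [IsLocalRing A] (n : ℕ) : ∀ f : A⟦X⟧,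
    (∀ i < n, PowerSeries.coeff i f ∈ maximalIdeal A ^ (n - i)) → f ∈ maximalIdeal A⟦X⟧ ^ n := by
  induction n with
  | zero => simp
  | succ n ih =>
    intro f hf
    rw [PowerSeries.eq_X_mul_shift_add_const f]
    refine Ideal.add_mem _ ?_ ?_
    · rw [pow_succ']
      refine Ideal.mul_mem_mul (vwei_mem.2 (by simp)) (ih _ fun i hi => ?_)
      simpa using hf (i + 1) (by omega)
    · have h1 : (maximalIdeal A).map (PowerSeries.C (R := A)) ≤ maximalIdeal A⟦X⟧ :=
        Ideal.map_le_iff_le_comap.2 fun a ha => vwei_mem.2 (by simpa using ha)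
      refine Ideal.pow_right_mono h1 _ ?_
      rw [← Ideal.map_pow]
      exact Ideal.mem_map_of_mem _ (by simpa using hf 0 (by omega))

theorem isAdicComplete_ps (A : Type) [CommRing A] [IsLocalRing A]
    [IsAdicComplete (maximalIdeal A) A] : IsAdicComplete (maximalIdeal A⟦X⟧) A⟦X⟧ where
  haus' x hx := by
    ext i
    refine IsHausdorff.haus' (I := maximalIdeal A) _ fun n => ?_
    have h1 := hx (n + i)
    simp only [SModEq.zero, smul_eq_mul, Ideal.mul_top] at h1 ⊢
    simpa using vwei_coeff _ _ h1 i
  prec' f hf := by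
    have h1 : ∀ i, ∃ L, ∀ n, PowerSeries.coeff i (f (n + i)) ≡ L
        [SMOD (maximalIdeal A ^ n • ⊤ : Submodule A A)] := fun i =>
      IsPrecomplete.prec' _ fun {a b} hab => by
        have h2 := hf (Nat.add_le_add_right hab i)
        simp only [SModEq.sub_mem, smul_eq_mul, Ideal.mul_top] at h2 ⊢
        simpa using vwei_coeff _ _ h2 i
    choose L hL using h1
    refine ⟨PowerSeries.mk L, fun n => ?_⟩
    simp only [SModEq.sub_mem, smul_eq_mul, Ideal.mul_top] at hL ⊢
    refine vwei_of_coeff _ _ fun i hi => ?_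
    simpa [Nat.sub_add_cancel hi.le] using hL i (n - i)

theorem vwei_congr {A B : Type} [CommRing A] [IsLocalRing A] [CommRing B] [IsLocalRing B]
    (e : A ≃+* B) (h : IsAdicComplete (maximalIdeal A) A) : IsAdicComplete (maximalIdeal B) B := by
  rw [← map_ringEquiv_maximalIdeal e]
  exact (IsAdicComplete.congr_ringEquiv _ e).2 h

theorem isAdicComplete_mv (R σ : Type) [CommRing R] [IsLocalRing R]
    [IsAdicComplete (maximalIdeal R) R] [Finite σ] :
    IsAdicComplete (maximalIdeal (MvPowerSeries σ R)) (MvPowerSeries σ R) := by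
  induction σ using Finite.induction_empty_option with
  | of_equiv e h => exact vwei_congr (MvPowerSeries.renameEquiv R e).toRingEquiv h
  | h_empty => exact vwei_congr (MvPowerSeries.isEmptyEquiv _ R).toRingEquiv.symm inferInstance
  | h_option h =>
    exact vwei_congr (MvPowerSeries.optionEquivLeft _ R).toRingEquiv.symm (isAdicComplete_ps _)

theorem prime_mv_C {σ R : Type} [CommRing R] {π : R} (hπ : Prime π) :
    Prime (MvPowerSeries.C π : MvPowerSeries σ R) := by
  have := (Ideal.span_singleton_prime hπ.ne_zero).2 hπ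
  have key : ∀ f : MvPowerSeries σ R, MvPowerSeries.C π ∣ f ↔
      MvPowerSeries.map (Ideal.Quotient.mk (Ideal.span {π})) f = 0 := fun f => by
    simp only [MvPowerSeries.ext_iff, MvPowerSeries.coeff_map, map_zero,
      Ideal.Quotient.eq_zero_iff_mem, Ideal.mem_span_singleton]
    refine ⟨?_, fun h => ?_⟩
    · rintro ⟨g, rfl⟩ m
      rw [MvPowerSeries.coeff_C_mul]
      exact dvd_mul_right _ _
    · choose g hg using h
      exact ⟨g, MvPowerSeries.ext fun m => by rw [MvPowerSeries.coeff_C_mul, hg]; rfl⟩
  refine ⟨fun h => hπ.ne_zero ?_, fun h => hπ.not_isUnit ?_, fun a b h => ?_⟩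
  · simpa using congrArg MvPowerSeries.constantCoeff h
  · simpa using h.map MvPowerSeries.constantCoeff
  · rwa [key, map_mul, mul_eq_zero, ← key, ← key] at h

end Pool.Agent.ZCy
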