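import Pool.Agent.Lib.MP_751085_ag.ZC.V.Flt

/-! Block V: homogeneous components of power series. -/

namespace Pool.Agent.ZCy

open scoped Classical WithZero Polynomial PowerSeries LaurentSeries
open WithZero (exp)
open IsLocalRing

variable {σ A B : Type} [Fintype σ] [CommRing A] [CommRing B]

theorem vblow_has : MvPowerSeries.HasSubst
    (fun i : σ => (PowerSeries.C (MvPolynomial.X i) * PowerSeries.X : (MvPolynomial σ A)⟦X⟧)) :=
  MvPowerSeries.hasSubst_of_constantCoeff_zero fun i => by
    change PowerSeries.constantCoeff _ = _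
    simp

theorem vblow_eq (f : MvPowerSeries σ A) : blow σ A f = MvPowerSeries.subst
    (fun i : σ => (PowerSeries.C (MvPolynomial.X i) * PowerSeries.X : (MvPolynomial σ A)⟦X⟧)) f :=
  MvPowerSeries.substAlgHom_apply vblow_has f

omit [Fintype σ] in
theorem vblow_prod (d : σ →₀ ℕ) :
    (d.prod fun s e => (PowerSeries.C (MvPolynomial.X s) * PowerSeries.X :
      (MvPolynomial σ A)⟦X⟧) ^ e) =
      PowerSeries.C (MvPolynomial.monomial d 1) * PowerSeries.X ^ d.degree := by
  simp only [mul_pow, Finsupp.prod, Finset.prod_mul_distrib, Finset.prod_pow_eq_pow_sum,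
    ← map_pow, ← map_prod, MvPolynomial.monomial_eq, map_one, one_mul]
  rfl

theorem blow_C (a : A) :
    blow σ A (MvPowerSeries.C a) = PowerSeries.C (MvPolynomial.C a) := by
  have h := (MvPowerSeries.substAlgHom (R := A) (vblow_has (σ := σ) (A := A))).commutes a
  rw [MvPowerSeries.algebraMap_apply, MvPowerSeries.algebraMap_apply] at h
  exact h

theorem blow_X (i : σ) :
    blow σ A (MvPowerSeries.X i) = PowerSeries.C (MvPolynomial.X i) * PowerSeries.X := 
  MvPowerSeries.substAlgHom_X (R := A) vblow_has i

theorem coeff_blow (f : MvPowerSeries σ A) (n : ℕ) (m : σ →₀ ℕ) :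
    (PowerSeries.coeff n (blow σ A f)).coeff m =
      if m.degree = n then MvPowerSeries.coeff m f else 0 := by
  have h1 : ∀ d : σ →₀ ℕ, MvPowerSeries.coeff d f • MvPowerSeries.coeff (Finsupp.single () n)
      (d.prod fun s e => (PowerSeries.C (MvPolynomial.X s) * PowerSeries.X :
        (MvPolynomial σ A)⟦X⟧) ^ e) =
      if d.degree = n then MvPolynomial.monomial d (MvPowerSeries.coeff d f) else 0 := by
    intro d
    rw [vblow_prod]
    change _ • PowerSeries.coeff n _ = _
    rw [PowerSeries.coeff_C_mul, PowerSeries.coeff_X_pow]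
    by_cases h : d.degree = n
    · simp [h, MvPolynomial.smul_monomial]
    · simp [h, Ne.symm h]
  have h2 := MvPowerSeries.coeff_subst_finite (vblow_has (A := A)) f (Finsupp.single () n)
  have h3 : PowerSeries.coeff n (blow σ A f) = _ :=
    (congrArg _ (vblow_eq f)).trans
      (MvPowerSeries.coeff_subst (vblow_has (A := A)) f (Finsupp.single () n))
  rw [h3]
  change MvPolynomial.coeffAddMonoidHom m _ = _
  rw [map_finsum _ h2, finsum_eq_single _ m]
  · rw [h1]
    split_ifs <;> simp
  · intro d hd
    rw [h1]
    split_ifs <;> simp [hd]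

theorem blow_isHomogeneous (f : MvPowerSeries σ A) (n : ℕ) :
    (PowerSeries.coeff n (blow σ A f)).IsHomogeneous n := by
  intro m hm
  rw [coeff_blow] at hm
  by_contra h
  exact hm (if_neg fun e => h (by rw [← e, Finsupp.degree_eq_weight_one]; rfl))

theorem blow_inj : Function.Injective (blow σ A) := fun f g h => by
  ext m
  have := coeff_blow f m.degree m
  rw [h, coeff_blow] at this
  simpa using this.symm

theorem blow_map (g : A →+* B) (f : MvPowerSeries σ A) :
    blow σ B (MvPowerSeries.map g f) = PowerSeries.map (MvPolynomial.map g) (blow σ A f) := by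
  ext n m
  rw [PowerSeries.coeff_map, MvPolynomial.coeff_map, coeff_blow, coeff_blow]
  split_ifs <;> simp

theorem exists_poly_of_blow {f : MvPowerSeries σ A} {N : ℕ}
    (h : ∀ n, N ≤ n → PowerSeries.coeff n (blow σ A f) = 0) :
    ∃ p : MvPolynomial σ A, (p : MvPowerSeries σ A) = f := by
  refine ⟨∑ n ∈ Finset.range N, PowerSeries.coeff n (blow σ A f), ?_⟩
  ext m
  rw [MvPolynomial.coeff_coe, MvPolynomial.coeff_sum]
  simp only [coeff_blow, Finset.sum_ite_eq, Finset.mem_range]
  split_ifs with hm
  · rfl
  · have := coeff_blow f m.degree m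
    rw [h _ (not_lt.1 hm)] at this
    simpa using this

/-- restriction of a power series to the line with direction `d` -/
noncomputable def ray (f : A →+* B) (d : σ → B) : MvPowerSeries σ A →+* B⟦X⟧ :=
  (PowerSeries.map (MvPolynomial.eval₂Hom f d)).comp (blow σ A)

theorem ray_C (f : A →+* B) (d : σ → B) (a : A) :
    ray f d (MvPowerSeries.C a) = PowerSeries.C (f a) := by
  simp [ray, blow_C]

theorem ray_X (f : A →+* B) (d : σ → B) (i : σ) :
    ray f d (MvPowerSeries.X i) = PowerSeries.C (d i) * PowerSeries.X := by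
  simp [ray, blow_X]

theorem ray_inj {f : A →+* B} {d : σ → B} (h : Function.Injective (MvPolynomial.eval₂Hom f d)) :
    Function.Injective (ray f d) := 
  (PowerSeries.map_injective _ h).comp blow_inj

theorem map_ray {C : Type} [CommRing C] (g : B →+* C) (f : A →+* B) (d : σ → B)
    (p : MvPowerSeries σ A) :
    PowerSeries.map g (ray f d p) = ray (g.comp f) (fun i => g (d i)) p := by
  ext n
  simp only [ray, RingHom.comp_apply, PowerSeries.coeff_map]
  exact MvPolynomial.map_eval₂Hom f d g _

theorem ray_map {C : Type} [CommRing C] (g : A →+* B) (f : B →+* C) (d : σ → C)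
    (p : MvPowerSeries σ A) : ray f d (MvPowerSeries.map g p) = ray (f.comp g) d p := by
  ext n
  simp only [ray, RingHom.comp_apply, blow_map, PowerSeries.coeff_map]
  exact MvPolynomial.eval₂Hom_map_hom g d f _

end Pool.Agent.ZCy
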