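import Pool.Agent.Lib.MP_751085_ag.ZC.V.D

/-! Block V: flat maps of polynomial and power series rings. -/

namespace Pool.Agent.ZCy

open scoped Classical WithZero Polynomial PowerSeries LaurentSeries
open WithZero (exp)

variable {A B σ : Type} [CommRing A] [CommRing B] {f : A →+* B} {y : σ → B}

theorem flat_field {k : Type} [Field k] (f : k →+* B) : f.Flat :=
  RingHom.Flat.of_isField (Field.toIsField k) f

theorem flat_pid [IsDomain A] [IsPrincipalIdealRing A] [IsDomain B] (h : Function.Injective f) :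
    f.Flat := by
  let := f.toAlgebra
  have : Module.IsTorsionFree A B := Module.isTorsionFree_iff_algebraMap_injective.2 h
  exact (inferInstance : Module.Flat A B)

theorem flat_mv (h : f.Flat) : (MvPolynomial.map (σ := σ) f).Flat := by
  let := f.toAlgebra
  let : Algebra (MvPolynomial σ A) (MvPolynomial σ B) := MvPolynomial.algebraMvPolynomial
  exact RingHom.Flat.isStableUnderBaseChange A B (MvPolynomial σ A) (MvPolynomial σ B) h

theorem flat_poly (h : f.Flat) : (Polynomial.mapRingHom f).Flat := by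
  let := f.toAlgebra
  let : Algebra A[X] B[X] := Polynomial.algebra A B
  exact RingHom.Flat.isStableUnderBaseChange A B A[X] B[X] h

theorem tr_C (a : A) : tr f y (MvPolynomial.C a) = MvPolynomial.C (f a) := by simp [tr]

theorem tr_X (i : σ) : tr f y (MvPolynomial.X i) = MvPolynomial.C (y i) + MvPolynomial.X i := by
  simp [tr]

theorem vflt_comp : tr f y = (tr (RingHom.id B) y).comp (MvPolynomial.map f) :=
  MvPolynomial.ringHom_ext (fun a => by simp [tr_C]) fun i => by simp [tr_X]

theorem tr_eq (p : MvPolynomial σ A) : tr f y p = tr (RingHom.id B) y (MvPolynomial.map f p) :=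
  RingHom.congr_fun vflt_comp p

theorem vflt_neg (y : σ → B) (p : MvPolynomial σ B) :
    tr (RingHom.id B) (-y) (tr (RingHom.id B) y p) = p :=
  RingHom.congr_fun (f := (tr (RingHom.id B) (-y)).comp (tr (RingHom.id B) y)) (g := RingHom.id _)
    (MvPolynomial.ringHom_ext (fun a => by simp [tr_C]) fun i => by simp [tr_X, tr_C]) p

theorem tr_bij (y : σ → B) : Function.Bijective (tr (RingHom.id B) y) :=
  ⟨Function.LeftInverse.injective (vflt_neg y), fun p =>
    ⟨tr (RingHom.id B) (-y) p, by simpa using vflt_neg (-y) p⟩⟩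

theorem tr_inj (h : Function.Injective f) : Function.Injective (tr f y) := by
  rw [vflt_comp]
  exact (tr_bij y).1.comp (MvPolynomial.map_injective f h)

theorem flat_tr (h : f.Flat) : (tr f y).Flat := by
  rw [vflt_comp]
  exact (flat_mv h).comp (.of_bijective (tr_bij y))

theorem constantCoeff_tr (p : MvPolynomial σ A) :
    MvPolynomial.constantCoeff (tr f y p) = p.eval₂ f y :=
  RingHom.congr_fun (f := MvPolynomial.constantCoeff.comp (tr f y))
    (g := MvPolynomial.eval₂Hom f y)
    (MvPolynomial.ringHom_ext (fun a => by simp [tr_C]) fun i => by simp [tr_X]) p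

theorem vflt_dvd {q p : MvPolynomial σ B} (hq : tr (RingHom.id B) y q = q) :
    q ∣ tr (RingHom.id B) y p ↔ q ∣ p := by
  refine ⟨fun h => ?_, fun h => hq ▸ map_dvd _ h⟩
  have := map_dvd (tr (RingHom.id B) (-y)) (hq.symm ▸ h :
    tr (RingHom.id B) y q ∣ tr (RingHom.id B) y p)
  rwa [vflt_neg, vflt_neg] at this

theorem C_dvd_tr {c : B} {p : MvPolynomial σ A} :
    MvPolynomial.C c ∣ tr f y p ↔ ∀ m, c ∣ f (p.coeff m) := by
  rw [tr_eq, vflt_dvd (tr_C c), MvPolynomial.C_dvd_iff_dvd_coeff]
  simp only [MvPolynomial.coeff_map]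

theorem pt_C (a : A) : pt f y (MvPolynomial.C a) = MvPowerSeries.C (f a) := by simp [pt]

theorem pt_X (i : σ) : pt f y (MvPolynomial.X i) = MvPowerSeries.C (y i) + MvPowerSeries.X i := by
  simp [pt]

theorem vflt_pt : pt f y = MvPolynomial.coeToMvPowerSeries.ringHom.comp (tr f y) :=
  MvPolynomial.ringHom_ext (fun a => by simp [tr_C, pt_C]) fun i => by simp [tr_X, pt_X]

theorem pt_eq (p : MvPolynomial σ A) : pt f y p = (tr f y p : MvPowerSeries σ B) :=
  RingHom.congr_fun vflt_pt p

theorem pt_inj (h : Function.Injective f) : Function.Injective (pt f y) := fun p q e =>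
  tr_inj (y := y) h (MvPolynomial.coe_injective σ B (by simpa only [pt_eq] using e))

theorem constantCoeff_pt (p : MvPolynomial σ A) :
    MvPowerSeries.constantCoeff (pt f y p) = p.eval₂ f y :=
  RingHom.congr_fun (f := MvPowerSeries.constantCoeff.comp (pt f y))
    (g := MvPolynomial.eval₂Hom f y)
    (MvPolynomial.ringHom_ext (fun a => by simp [pt_C]) fun i => by simp [pt_X]) p

theorem map_pt {C : Type} [CommRing C] (g : B →+* C) (p : MvPolynomial σ A) :
    MvPowerSeries.map g (pt f y p) = pt (g.comp f) (fun i => g (y i)) p :=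
  RingHom.congr_fun (f := (MvPowerSeries.map g).comp (pt f y))
    (MvPolynomial.ringHom_ext (fun a => by simp [pt_C]) fun i => by simp [pt_X]) p

theorem flat_coe [Finite σ] [IsNoetherianRing B] :
    (MvPolynomial.coeToMvPowerSeries.ringHom : MvPolynomial σ B →+* MvPowerSeries σ B).Flat := by
  rw [← RingHom.Flat.comp_iff_of_bijective_left
    (g := (MvPowerSeries.toAdicCompletionAlgEquiv σ B).toRingEquiv.toRingHom)
    (MvPowerSeries.toAdicCompletionAlgEquiv σ B).bijective]
  have : (MvPowerSeries.toAdicCompletionAlgEquiv σ B).toRingEquiv.toRingHom.comp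
      MvPolynomial.coeToMvPowerSeries.ringHom = algebraMap (MvPolynomial σ B) _ :=
    RingHom.ext fun p => MvPowerSeries.toAdicCompletion_coe p
  rw [this, RingHom.flat_algebraMap_iff]
  infer_instance

theorem flat_pt [Finite σ] [IsNoetherianRing B] (h : f.Flat) : (pt f y).Flat := by
  rw [vflt_pt]
  exact (flat_tr h).comp flat_coe

/-- `[P, a]` is a weakly regular sequence. -/
theorem dvd_of_flat (h : f.Flat) {P a : A} (hP : Prime P) (ha : ¬P ∣ a) {b : B}
    (hb : f P ∣ f a * b) : f P ∣ b := by
  let := f.toAlgebra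
  have : Module.Flat A B := h
  have h1 : IsSMulRegular (A ⧸ Ideal.span {P}) a :=
    (isSMulRegular_quotient_iff_mem_of_smul_mem _ _).2 fun x hx =>
      Ideal.mem_span_singleton.2 ((hP.dvd_or_dvd (Ideal.mem_span_singleton.1 hx)).resolve_left ha)
  have h2 := ((TensorProduct.quotTensorEquivQuotSMul B (Ideal.span {P})).isSMulRegular_congr a).1
    (h1.rTensor B)
  have h3 (x : B) : x ∈ (Ideal.span {P} • ⊤ : Submodule A B) ↔ f P ∣ x := by
    rw [Ideal.smul_top_eq_map, Submodule.restrictScalars_mem, Ideal.map_span, Set.image_singleton]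
    exact Ideal.mem_span_singleton
  exact (h3 b).1 ((isSMulRegular_quotient_iff_mem_of_smul_mem _ _).1 h2 b ((h3 _).2 hb))

theorem prime_mvX [IsDomain B] (i : σ) : Prime (MvPowerSeries.X i : MvPowerSeries σ B) := by
  let e := (MvPowerSeries.renameEquiv B (Equiv.optionSubtypeNe i).symm).trans
    (MvPowerSeries.optionEquivLeft _ B)
  rw [← MulEquiv.prime_iff e.toMulEquiv]
  have : e.toMulEquiv (MvPowerSeries.X i) = PowerSeries.X := by
    simp [e, MvPowerSeries.renameEquiv, MvPowerSeries.optionEquivLeft_X_none]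
  have : IsDomain (MvPowerSeries {j // j ≠ i} B) := NoZeroDivisors.to_isDomain _
  rw [‹e.toMulEquiv _ = _›]
  exact PowerSeries.X_prime

theorem vflt_X {i : σ} {p : MvPolynomial σ A} :
    MvPolynomial.X i ∣ p ↔ ∀ m : σ →₀ ℕ, m i = 0 → p.coeff m = 0 := by
  rw [MvPolynomial.X_dvd_iff_modMonomial_eq_zero, MvPolynomial.ext_iff]
  refine forall_congr' fun m => ?_
  by_cases h : Finsupp.single i 1 ≤ m
  · rw [MvPolynomial.coeff_modMonomial_of_le _ h]
    rw [Finsupp.single_le_iff] at h
    exact ⟨fun _ h0 => by omega, fun _ => rfl⟩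
  · rw [MvPolynomial.coeff_modMonomial_of_not_le _ h]
    rw [Finsupp.single_le_iff] at h
    exact ⟨fun h0 _ => h0, fun h0 => h0 (by omega)⟩

/-- the hyperplane `ξ_i = 0` at one of its points -/
theorem X_dvd_pt (h : Function.Injective f) {i : σ} (hy : y i = 0) (p : MvPolynomial σ A) :
    MvPowerSeries.X i ∣ pt f y p ↔ MvPolynomial.X i ∣ p := by
  rw [pt_eq, MvPowerSeries.X_dvd_iff]
  simp only [MvPolynomial.coeff_coe]
  rw [← vflt_X, tr_eq, vflt_dvd (by simp [tr_X, hy]), vflt_X, vflt_X]
  simp only [MvPolynomial.coeff_map, map_eq_zero_iff f h]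

end Pool.Agent.ZCy
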