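import Pool.Agent.Lib.MP_751085_ag.ZC.V.Har
import Pool.Agent.Lib.MP_751085_ag.ZC.V.Flt

/-! Block V: centres of valuations under change of rings. -/

namespace Pool.Agent.ZCy

open scoped Classical WithZero Polynomial PowerSeries LaurentSeries
open WithZero (exp)

variable {A A' K K' E E' : Type} [CommRing A] [CommRing A'] [Field K] [Field K'] [Field E]
  [Field E'] {w : Vl E} {Θ : A}

theorem vctr_dvd {φ : A →+* E} (h1 : ∀ a, w (φ a) ≤ 1) {P a : A} (hP : w (φ P) < 1) (h : P ∣ a) :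
    w (φ a) < 1 := by
  obtain ⟨c, rfl⟩ := h
  rw [map_mul, map_mul]
  exact (mul_le_of_le_one_right' (h1 c)).trans_lt hP

theorem vctr_of {φ : A →+* E} (h1 : ∀ a, w (φ a) ≤ 1) {P : A} (hP : w (φ P) < 1)
    (h : ∀ a, w (φ a) < 1 → P ∣ a) : Cen φ w P :=
  ⟨h1, fun a => ⟨h a, vctr_dvd h1 hP⟩⟩

theorem vctr_fac [UniqueFactorizationMonoid A] {φ : A →+* E} (h1 : ∀ a, w (φ a) ≤ 1) (a : A) :
    a ≠ 0 → w (φ a) < 1 → ∃ P, Prime P ∧ P ∣ a ∧ w (φ P) < 1 := by
  induction a using UniqueFactorizationMonoid.induction_on_prime with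
  | h₁ => exact fun h => absurd rfl h
  | h₂ x hx => exact fun _ h => absurd (vctr_dvd h1 h (hx.dvd (a := 1))) (by simp)
  | h₃ a p ha hp ih =>
    intro _ h
    by_cases hl : w (φ p) < 1
    · exact ⟨p, hp, dvd_mul_right _ _, hl⟩
    · rw [map_mul, map_mul, (h1 p).antisymm (not_lt.1 hl), one_mul] at h
      obtain ⟨P, h2, h3, h4⟩ := ih ha h
      exact ⟨P, h2, h3.mul_left _, h4⟩

theorem vctr_split {φ : A →+* E} (h1 : ∀ a, w (φ a) ≤ 1) :
    (∀ a, a ≠ 0 → w (φ a) = 1) ∨ ∃ a, a ≠ 0 ∧ w (φ a) < 1 := by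
  by_contra! h
  obtain ⟨⟨a, h0, h2⟩, h3⟩ := h
  exact h2 ((h1 a).antisymm (h3 a h0))

/-- centres under flat maps -/
theorem cen_of_flat [UniqueFactorizationMonoid A] [IsDomain A] [IsDomain A'] {ψ : A →+* A'}
    (hf : ψ.Flat) (hi : Function.Injective ψ) {φ' : A' →+* E} {P' : A'} (hP : Prime P')
    (h : Cen φ' w P') : (∀ a, a ≠ 0 → w (φ' (ψ a)) = 1) ∨
      ∃ P, Prime P ∧ Cen (φ'.comp ψ) w P := by
  have h1 : ∀ a, w ((φ'.comp ψ) a) ≤ 1 := fun a => h.1 _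
  refine (vctr_split h1).imp id fun ⟨a, h0, ha⟩ => ?_
  obtain ⟨P, hp, -, hl⟩ := vctr_fac h1 a h0 ha
  refine ⟨P, hp, vctr_of h1 hl fun x hx => by_contra fun hn => ?_⟩
  obtain ⟨b, hb⟩ := (h.2 _).1 hl
  obtain ⟨c, hc⟩ := (h.2 _).1 hx
  obtain ⟨d, hd⟩ := dvd_of_flat hf hp hn (b := b) ⟨c, by rw [hb, hc]; ring⟩
  have hb0 : b ≠ 0 := fun e => hp.ne_zero (hi (by rw [hb, e, mul_zero, map_zero]))
  refine hP.not_isUnit (IsUnit.of_mul_eq_one d (mul_left_cancel₀ hb0 ?_))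
  rw [hb] at hd
  linear_combination -hd

/-- a valuation that is trivial on the coefficients -/
theorem cen_poly [UniqueFactorizationMonoid A] [IsDomain A] {φ : A[X] →+* E}
    (h1 : ∀ f, w (φ f) ≤ 1) (h2 : ∀ a, a ≠ 0 → w (φ (Polynomial.C a)) = 1) :
    (∀ f, f ≠ 0 → w (φ f) = 1) ∨ ∃ P, Prime P ∧ Cen φ w P := by
  refine (vctr_split h1).imp id fun ⟨a, h0, ha⟩ => ?_
  have hex : ∃ n, ∃ P : A[X], Prime P ∧ w (φ P) < 1 ∧ P.natDegree = n := by
    obtain ⟨P, hp, -, hl⟩ := vctr_fac h1 a h0 ha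
    exact ⟨_, P, hp, hl, rfl⟩
  obtain ⟨P, hp, hl, hn⟩ := Nat.find_spec hex
  have hC : ∀ c, c ≠ 0 → ¬P ∣ Polynomial.C c := fun c hc hd =>
    (vctr_dvd h1 hl hd).ne (h2 c hc)
  refine ⟨P, hp, vctr_of h1 hl fun f => ?_⟩
  induction hm : f.natDegree using Nat.strong_induction_on generalizing f with
  | _ m ih =>
  intro hf
  by_cases f0 : f = 0
  · simp [f0]
  obtain ⟨Q, hq, hd, hw⟩ := vctr_fac h1 f f0 hf
  have hle : P.natDegree ≤ f.natDegree :=
    (hn.le.trans (Nat.find_min' hex ⟨Q, hq, hw, rfl⟩)).trans (Polynomial.natDegree_le_of_dvd hd f0)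
  have hpos : 0 < f.natDegree := Nat.pos_of_ne_zero fun e => by
    rw [Polynomial.eq_C_of_natDegree_eq_zero e] at hf f0
    exact hf.ne (h2 _ (by simpa using f0))
  have hlt := Polynomial.natDegree_cancelLeads_lt_of_natDegree_le_natDegree hle hpos
  have := ih _ (hm ▸ hlt) (P.cancelLeads f) rfl (by
    rw [Polynomial.cancelLeads, map_sub]
    exact w.map_sub_lt (vctr_dvd h1 hf (dvd_mul_left _ _)) (vctr_dvd h1 hl (dvd_mul_left _ _)))
  rw [Polynomial.cancelLeads, dvd_sub_left (dvd_mul_left _ _), Nat.sub_eq_zero_of_le hle, pow_zero,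
    mul_one] at this
  exact (hp.dvd_or_dvd this).resolve_left (hC _ (Polynomial.leadingCoeff_ne_zero.2 hp.ne_zero))

/-- going up -/
theorem cen_goup [UniqueFactorizationMonoid A] [IsDomain A] [UniqueFactorizationMonoid A']
    [IsDomain A'] {ψ : A →+* A'} (hi : Function.Injective ψ) (hψ : ψ.IsIntegral) {φ' : A' →+* E}
    {P : A} (hP : Prime P) (h : Cen (φ'.comp ψ) w P) : ∃ P', Prime P' ∧ Cen φ' w P' := by
  have h1 : ∀ y, w (φ' y) ≤ 1 := fun y => by
    obtain ⟨p, hm, hp⟩ := hψ y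
    let χ : A →+* w.integer := (φ'.comp ψ).codRestrict _ h.1
    refine (Valuation.integer.integers w).isIntegral_iff_v_le_one.1 ⟨p.map χ, hm.map χ, ?_⟩
    rw [Polynomial.eval₂_map]
    exact (Polynomial.hom_eval₂ p ψ φ' y).symm.trans (by rw [hp, map_zero])
  obtain ⟨P', hp, hd, hl⟩ := vctr_fac h1 (ψ P) (fun e => hP.ne_zero (hi (by rw [e, map_zero])))
    ((h.2 P).2 dvd_rfl)
  refine ⟨P', hp, vctr_of h1 hl fun x hx => by_contra fun hn => ?_⟩
  let J : Ideal A' :=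
    { carrier := {y | w (φ' y) < 1}
      add_mem' := fun ha hb => by
        simp only [Set.mem_ofPred_eq, map_add] at *
        exact w.map_add_lt ha hb
      zero_mem' := by simp
      smul_mem' := fun c y hy => vctr_dvd h1 hy (dvd_mul_left _ _) }
  let _ := ψ.toAlgebra
  have := (Ideal.span_singleton_prime hp.ne_zero).2 hp
  have := Ideal.comap_lt_comap_of_integral_mem_sdiff (R := A) (I := Ideal.span {P'}) (J := J)
    ((Ideal.span_singleton_le_iff_mem _).2 hl) (x := x)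
    ⟨hx, fun e => hn (Ideal.mem_span_singleton.1 e)⟩ (hψ x)
  exact this.not_ge fun a ha =>
    Ideal.mem_span_singleton.2 (hd.trans (map_dvd ψ ((h.2 a).1 ha)))

/-- localisation: `A'` consists of fractions with denominators in `S` -/
theorem cen_local [IsDomain A] [IsDomain A'] {ι : A →+* A'} (hi : Function.Injective ι) (S : Set A)
    (hS : ∀ s ∈ S, IsUnit (ι s)) (hs : ∀ y, ∃ s ∈ S, ∃ a, y * ι s = ι a) {φ' : A' →+* E} {P : A}
    (hP : Prime P) (hn : ∀ s ∈ S, ¬P ∣ s) (h : Cen (φ'.comp ι) w P) :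
    Prime (ι P) ∧ Cen φ' w (ι P) ∧ ∀ a, ι P ∣ ι a → P ∣ a := by
  have key : ∀ y, ∃ s ∈ S, ∃ a, y * ι s = ι a ∧ w (φ' y) = w (φ' (ι a)) := fun y => by
    obtain ⟨s, h1, a, h2⟩ := hs y
    have : w (φ' (ι s)) = 1 := (h.eq_one s).2 (hn s h1)
    exact ⟨s, h1, a, h2, by rw [← h2, map_mul, map_mul, this, mul_one]⟩
  have hc : Cen φ' w (ι P) := by
    refine vctr_of (fun y => ?_) ((h.2 P).2 dvd_rfl) fun y hy => ?_
    · obtain ⟨s, -, a, -, e⟩ := key y
      exact e ▸ h.1 a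
    · obtain ⟨s, h1, a, h2, e⟩ := key y
      exact (hS s h1).dvd_mul_right.1 (h2 ▸ map_dvd ι ((h.2 a).1 (e ▸ hy)))
  exact ⟨hc.prime fun e => hP.ne_zero (hi (by rw [e, map_zero])), hc,
    fun a ha => (h.2 a).1 ((hc.2 _).2 ha)⟩

theorem vctr_rev {φ φ' : A[X] →+* E} (hC : ∀ a, φ' (Polynomial.C a) = φ (Polynomial.C a))
    (hX : φ' Polynomial.X * φ Polynomial.X = 1) (h1 : w (φ' Polynomial.X) = 1) (f : A[X]) :
    w (φ f.reverse) = w (φ' f) := by
  let _ : Invertible (φ' Polynomial.X) := ⟨φ Polynomial.X, by rw [mul_comm, hX], hX⟩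
  have e : ∀ (χ : A[X] →+* E) (g : A[X]),
      χ g = g.eval₂ (χ.comp Polynomial.C) (χ Polynomial.X) := fun χ g => by
    rw [← Polynomial.hom_eval₂, Polynomial.eval₂_C_X]
  have := Polynomial.eval₂_reverse_mul_pow (φ'.comp Polynomial.C) (φ' Polynomial.X) f
  rw [← e, show φ'.comp Polynomial.C = φ.comp Polynomial.C from RingHom.ext hC] at this
  rw [← this, map_mul, map_pow, h1, one_pow, mul_one, e φ]
  rfl

/-- inversion of the variable -/
theorem cen_inv [IsDomain A] {φ φ' : A[X] →+* E} (hC : ∀ a, φ' (Polynomial.C a) = φ (Polynomial.C a))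
    (hX : φ' Polynomial.X * φ Polynomial.X = 1) {P : A[X]} (hP : Prime P)
    (hn : ¬P ∣ Polynomial.X) (h : Cen φ' w P) : Prime P.reverse ∧ Cen φ w P.reverse ∧
      ∀ f, P.reverse ∣ f → P ∣ f.reverse := by
  have h1 : w (φ' Polynomial.X) = 1 := (h.eq_one _).2 hn
  have h2 : w (φ Polynomial.X) = 1 := by rw [← w.map_one, ← hX, map_mul, h1, one_mul]
  have e := vctr_rev (fun a => (hC a).symm) (by rw [mul_comm, hX]) h2
  have hc : Cen φ w P.reverse := by
    refine vctr_of (fun f => e f ▸ h.1 _) (vctr_rev hC hX h1 P ▸ (h.2 P).2 dvd_rfl) fun f hf => ?_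
    obtain ⟨g, hg⟩ := (h.2 _).1 (e f ▸ hf)
    by_cases g0 : g = 0
    · rw [g0, mul_zero, Polynomial.reverse_eq_zero] at hg
      simp [hg]
    have hd := f.reverse_natDegree_le
    rw [hg, Polynomial.natDegree_mul hP.ne_zero g0] at hd
    refine ⟨g.reflect (f.natDegree - P.natDegree), ?_⟩
    rw [Polynomial.reverse, ← Polynomial.reflect_mul _ _ le_rfl (by omega), ← hg,
      Nat.add_sub_cancel' (by omega), Polynomial.reverse, Polynomial.reflect_reflect]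
  exact ⟨hc.prime (mt Polynomial.reverse_eq_zero.1 hP.ne_zero), hc,
    fun f hf => (h.2 _).1 (e f ▸ (hc.2 f).2 hf)⟩

end Pool.Agent.ZCy
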