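import Pool.Agent.Lib.MP_751085_ag.ZC.V.Cv
import Pool.Agent.Lib.MP_751085_ag.ZC.V.Blow
import Pool.Agent.Lib.MP_751085_ag.ZC.V.Ctr
import Pool.Agent.Lib.MP_751085_ag.ZC.CAl1

/-! Block V: the generic line near a good line. -/

namespace Pool.Agent.ZCy

open scoped Classical WithZero Polynomial PowerSeries LaurentSeries
open WithZero (exp)
open IsLocalRing

variable {σ k κ : Type} [Fintype σ] [Field k] [Field κ]

/-- the direction `b + y d` -/
noncomputable def dirn (f : k →+* κ) (b : σ → k) (d : σ → κ) (i : σ) : κ⟦X⟧ :=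
  PowerSeries.C (f (b i)) + PowerSeries.C (d i) * PowerSeries.X

/-- the line `a + τ (b + y d)` over `κ⟦y⟧` -/
noncomputable def gline (f : k →+* κ) (a b : σ → k) (d : σ → κ) : MP σ k →+* κ⟦X⟧[X] :=
  line (PowerSeries.C.comp f) (fun i => PowerSeries.C (f (a i))) (dirn f b d)

variable {f : k →+* κ} {a b : σ → k} {d : σ → κ} {Θ : MP σ k}

omit [Fintype σ] in
theorem vz1a_C {R S : Type} [CommRing R] [CommRing S] (φ : R →+* S) (a b : σ → S) (c : R) :
    line φ a b (MvPolynomial.C c) = Polynomial.C (φ c) := MvPolynomial.eval₂Hom_C _ _ _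

omit [Fintype σ] in
theorem vz1a_X {R S : Type} [CommRing R] [CommRing S] (φ : R →+* S) (a b : σ → S) (i : σ) :
    line φ a b (MvPolynomial.X i) = Polynomial.C (a i) + Polynomial.C (b i) * Polynomial.X :=
  MvPolynomial.eval₂Hom_X' _ _ _

theorem dirn_indep (hd : Function.Injective (MvPolynomial.eval₂Hom f d)) :
    Function.Injective (MvPolynomial.eval₂Hom (PowerSeries.C.comp f) (dirn f b d)) := by
  have e : MvPolynomial.eval₂Hom (PowerSeries.C.comp f) (dirn f b d) =
      (ray f d).comp (pt (RingHom.id k) b) :=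
    MvPolynomial.ringHom_ext (fun c => by simp [pt_C, ray_C]) fun i => by
      simp [pt_X, ray_C, ray_X, dirn]
  rw [e]
  exact (ray_inj hd).comp (pt_inj Function.injective_id)

theorem coe_gline (p : MP σ k) : (gline f a b d p : κ⟦X⟧⟦X⟧) =
    ray (PowerSeries.C.comp f) (dirn f b d) (pt (RingHom.id k) a p) :=
  DFunLike.congr_fun (MvPolynomial.ringHom_ext
    (f := Polynomial.coeToPowerSeries.ringHom.comp (gline f a b d))
    (g := (ray (PowerSeries.C.comp f) (dirn f b d)).comp (pt (RingHom.id k) a))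
    (fun c => by simp [gline, vz1a_C, pt_C, ray_C]) fun i => by
      simp [gline, vz1a_X, pt_X, ray_C, ray_X]) p

theorem gline_inj (hd : Function.Injective (MvPolynomial.eval₂Hom f d)) :
    Function.Injective (gline f a b d) := fun p q h => by
  have h1 := coe_gline (f := f) (a := a) (b := b) (d := d) p
  have h2 := coe_gline (f := f) (a := a) (b := b) (d := d) q
  have h3 : Function.Injective (ray (PowerSeries.C.comp f) (dirn f b d)) := ray_inj (dirn_indep hd)
  rw [h, h2] at h1
  exact pt_inj (f := RingHom.id k) (y := a) (RingHom.injective _) (h3 h1).symm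

theorem map_gline (p : MP σ k) : (gline f a b d p).map PowerSeries.constantCoeff =
    (line (RingHom.id k) a b p).map f :=
  DFunLike.congr_fun (MvPolynomial.ringHom_ext
    (f := (Polynomial.mapRingHom PowerSeries.constantCoeff).comp (gline f a b d))
    (g := (Polynomial.mapRingHom f).comp (line (RingHom.id k) a b))
    (fun c => by simp [gline, vz1a_C]) fun i => by simp [gline, vz1a_X, dirn]) p

theorem deg_line_le {R S : Type} [CommRing R] [CommRing S] (φ : R →+* S) (a b : σ → S)
    (p : MP σ R) : (line φ a b p).natDegree ≤ p.totalDegree := by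
  have h := MvPolynomial.aeval_natDegree_le (n := 1) (MvPolynomial.map φ p)
    (Finset.sup_mono (MvPolynomial.support_map_subset φ p))
    (fun i => Polynomial.C (a i) + Polynomial.C (b i) * Polynomial.X) fun i => by
      rw [add_comm]; exact Polynomial.natDegree_linear_le
  rwa [mul_one, MvPolynomial.aeval_def, MvPolynomial.eval₂_map] at h

theorem gline_good (h : GoodLine Θ a b) : IsUnit (gline f a b d Θ).leadingCoeff ∧
    ((gline f a b d Θ).map (residue κ⟦X⟧)).Separable ∧ IsUnit ((gline f a b d Θ).coeff 0) := by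
  have key : ∀ n, IsUnit ((line (RingHom.id k) a b Θ).coeff n) →
      IsUnit ((gline f a b d Θ).coeff n) := fun n hn => by
    rw [PowerSeries.isUnit_iff_constantCoeff, ← Polynomial.coeff_map, map_gline,
      Polynomial.coeff_map]
    exact hn.map f
  have h1 := key _ h.2.2
  have h2 : residue κ⟦X⟧ = ((residue κ⟦X⟧).comp PowerSeries.C).comp PowerSeries.constantCoeff :=
    RingHom.ext fun x => by
      rw [RingHom.comp_apply, RingHom.comp_apply, ← sub_eq_zero, ← map_sub, residue_eq_zero_iff,
        mem_maximalIdeal, mem_nonunits_iff, PowerSeries.isUnit_iff_constantCoeff]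
      simp
  have h3 : (Polynomial.evalRingHom 0).comp (line (RingHom.id k) a b) = MvPolynomial.eval a :=
    MvPolynomial.ringHom_ext (fun c => by simp [vz1a_C]) fun i => by simp [vz1a_X]
  refine ⟨?_, ?_, key 0 ?_⟩
  · rwa [Polynomial.leadingCoeff, (Polynomial.le_natDegree_of_ne_zero h1.ne_zero).antisymm'
      (deg_line_le _ _ _ Θ)]
  · rw [h2, ← Polynomial.map_map, map_gline]
    exact h.2.1.map.map
  · rw [Polynomial.coeff_zero_eq_eval_zero, ← Polynomial.coe_evalRingHom, ← RingHom.comp_apply, h3]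
    exact h.1

/-- the centre on `k[ξ]` of a valuation that is trivial on `κ⟦y⟧` and has `w τ = 1` -/
theorem cen_gline {E : Type} [Field E] (hd : Function.Injective (MvPolynomial.eval₂Hom f d))
    {φ : κ⟦X⟧[X] →+* E} {w : Vl E} (h1 : ∀ p, w (φ p) ≤ 1)
    (h2 : ∀ c, c ≠ 0 → w (φ (Polynomial.C c)) = 1) (h3 : w (φ Polynomial.X) = 1) :
    (∀ p, p ≠ 0 → w (φ (gline f a b d p)) = 1) ∨
      ∃ P, Prime P ∧ Cen (φ.comp (gline f a b d)) w P := by
  obtain ⟨Ω, _, ρ, hρ, -⟩ := exists_resf w
  obtain ⟨r, hr⟩ : ∃ r : κ⟦X⟧[X] →+* Ω, ∀ p, r p = 0 ↔ w (φ p) < 1 :=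
    ⟨ρ.comp (φ.codRestrict w.integer h1), fun p => hρ _⟩
  let _ : Algebra k Ω := ((r.comp Polynomial.C).comp (PowerSeries.C.comp f)).toAlgebra
  have hx : ∀ p, MvPolynomial.aeval (fun i => r (gline f a b d (MvPolynomial.X i))) p =
      r (gline f a b d p) := fun p => by
    rw [MvPolynomial.aeval_eq_eval₂Hom]
    exact DFunLike.congr_fun (MvPolynomial.ringHom_ext (g := r.comp (gline f a b d))
      (fun c => by simp [gline, vz1a_C, RingHom.algebraMap_toAlgebra]) fun i => by simp) p
  have hτ : r Polynomial.X ≠ 0 := fun h => ((hr _).1 h).ne h3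
  have hD : AlgebraicIndependent k fun i => r (Polynomial.C (dirn f b d i)) := by
    have h4 : Function.Injective ((r.comp Polynomial.C).comp
        (MvPolynomial.eval₂Hom (PowerSeries.C.comp f) (dirn f b d))) :=
      ((injective_iff_map_eq_zero (r.comp Polynomial.C)).2 fun c h => by_contra fun h0 =>
        ((hr _).1 h).ne (h2 c h0)).comp (dirn_indep hd)
    rw [MvPolynomial.comp_eval₂Hom] at h4
    exact injective_eval₂Hom.1 h4
  have hk : (Fintype.card σ : ℕ∞) ≤
      rk k (Set.range fun i => r (gline f a b d (MvPolynomial.X i))) + 1 := by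
    refine ((rk_range_iff.2 hD).trans (rk_le_of_acl ?_)).trans (rk_insert_le (r Polynomial.X) _)
    rintro _ ⟨i, rfl⟩
    have e : r (Polynomial.C (dirn f b d i)) =
        (r (gline f a b d (MvPolynomial.X i)) - algebraMap k Ω (a i)) / r Polynomial.X := by
      rw [eq_div_iff hτ]
      simp [gline, vz1a_X, RingHom.algebraMap_toAlgebra]
    change r (Polynomial.C (dirn f b d i)) ∈ acl k _
    rw [e]
    exact div_mem (sub_mem (mem_acl_of_mem (.inr ⟨i, rfl⟩)) (IntermediateField.algebraMap_mem _ _))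
      (mem_acl_of_mem (.inl rfl))
  by_cases h0 : RingHom.ker (r.comp (gline f a b d)) = ⊥
  · exact .inl fun p hp => (h1 _).eq_of_not_lt fun h => hp (h0.le ((hr _).2 h))
  obtain ⟨P, h4, hP⟩ := (RingHom.ker_isPrime _).exists_mem_prime_of_ne_bot h0
  refine .inr ⟨P, hP, fun p => h1 _, fun p => (hr _).symm.trans ⟨fun h => ?_, ?_⟩⟩
  · exact ht1 hk hP.irreducible ((hx P).trans h4) ((hx p).trans h)
  · rintro ⟨q, rfl⟩
    exact Ideal.mul_mem_right q _ h4

theorem exists_generic_dir (σ k : Type) [Fintype σ] [Field k] :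
    ∃ (κ : Type) (_ : Field κ) (_ : IsAlgClosed κ) (f : k →+* κ) (d : σ → κ),
      Function.Injective (MvPolynomial.eval₂Hom f d) := by
  let g := (algebraMap (RF σ k) (AlgebraicClosure (RF σ k))).comp (algebraMap (MP σ k) (RF σ k))
  refine ⟨AlgebraicClosure (RF σ k), _, inferInstance, g.comp MvPolynomial.C,
    fun i => g (MvPolynomial.X i), ?_⟩
  rw [show MvPolynomial.eval₂Hom (g.comp MvPolynomial.C) _ = g from
    MvPolynomial.ringHom_ext (fun c => by simp) fun i => by simp]
  exact (algebraMap (RF σ k) _).injective.comp (IsFractionRing.injective (MP σ k) (RF σ k))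

end Pool.Agent.ZCy
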