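import Pool.Agent.Lib.MP_751085_ag.ZC.V.Cmp

/-! Block V: extensions of index one with algebraically closed residue field. -/

namespace Pool.Agent.ZCy

open scoped Classical WithZero Polynomial PowerSeries LaurentSeries
open WithZero (exp)
open IsLocalRing

variable {K E : Type} [Field K] [Field E] {v : Vl K}

section

variable {Γ O : Type} [LinearOrderedCommGroupWithZero Γ] [CommRing O] {u : Valuation E Γ}
  {ι : O →+* E} {x : E}

theorem vzor_int (h : ∀ a, u (ι a) ≤ 1) {f : O[X]} (hm : f.Monic) (hx : f.eval₂ ι x = 0) :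
    u x ≤ 1 :=
  (Valuation.integer.integers u).isIntegral_iff_v_le_one.1
    ⟨f.map (ι.codRestrict u.integer h), hm.map _, by rw [Polynomial.eval₂_map]; exact hx⟩

theorem vzor_le (h : ∀ a, u (ι a) ≤ 1) (hx : u x ≤ 1) (q : O[X]) : u (q.eval₂ ι x) ≤ 1 := by
  rw [Polynomial.eval₂_eq_sum_range]
  refine u.map_sum_le fun i _ => ?_
  rw [map_mul, map_pow]
  exact mul_le_one' (h _) (pow_le_one' hx _)

theorem vzor_one {κ : Type} [Field κ] {ρ : O →+* κ} (h : ∀ a, u (ι a) ≤ 1)
    (hρ : ∀ a, ρ a = 0 → u (ι a) < 1) (hs : Function.Surjective ρ) {f q : O[X]} (hm : f.Monic)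
    (hi : Irreducible (f.map ρ)) (hx : f.eval₂ ι x = 0) (h0 : q.map ρ ≠ 0)
    (hd : q.degree < f.degree) : u (q.eval₂ ι x) = 1 := by
  have h1 := vzor_int h hm hx
  obtain ⟨a, b, e⟩ := hi.coprime_iff_not_dvd.2 (Polynomial.not_dvd_of_degree_lt h0
    ((Polynomial.degree_map_le.trans_lt hd).trans_eq (hm.degree_map ρ).symm))
  obtain ⟨a, rfl⟩ := Polynomial.map_surjective ρ hs a
  obtain ⟨b, rfl⟩ := Polynomial.map_surjective ρ hs b
  have h2 : u ((a * f + b * q - 1).eval₂ ι x) < 1 := by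
    rw [Polynomial.eval₂_eq_sum_range]
    refine u.map_sum_lt one_ne_zero fun i _ => ?_
    rw [map_mul, map_pow]
    refine (mul_le_of_le_one_right' (pow_le_one' h1 _)).trans_lt (hρ _ ?_)
    rw [← Polynomial.coeff_map, Polynomial.map_sub, Polynomial.map_add, Polynomial.map_mul,
      Polynomial.map_mul, e, Polynomial.map_one, sub_self, Polynomial.coeff_zero]
  rw [Polynomial.eval₂_sub, Polynomial.eval₂_add, Polynomial.eval₂_mul, hx, mul_zero, zero_add,
    Polynomial.eval₂_mul, Polynomial.eval₂_one] at h2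
  have h3 := u.map_one_add_of_lt h2
  rw [add_sub_cancel, map_mul] at h3
  exact le_antisymm (vzor_le h h1 q) (h3.symm.le.trans (mul_le_of_le_one_left' (vzor_le h h1 b)))

end

/-- Adjoining a root of a monic lift of an irreducible polynomial keeps the value group. -/
theorem val_aeval_mem {Γ : Type} [LinearOrderedCommGroupWithZero Γ] [Algebra K E] (u : Valuation E Γ)
    {κ : Type} [Field κ] (ρ : (u.comap (algebraMap K E)).integer →+* κ)
    (hρ : ∀ a, ρ a = 0 ↔ u (algebraMap K E a) < 1) (hs : Function.Surjective ρ)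
    {f : ((u.comap (algebraMap K E)).integer)[X]} (hm : f.Monic) (hi : Irreducible (f.map ρ)) {x : E}
    (hx : f.eval₂ ((algebraMap K E).comp (Subring.subtype _)) x = 0) {y : E}
    (hy : y ∈ IntermediateField.adjoin K {x}) : ∃ a : K, u y = u (algebraMap K E a) := by
  let ι := (algebraMap K E).comp (u.comap (algebraMap K E)).integer.subtype
  let F := f.map (u.comap (algebraMap K E)).integer.subtype
  have hF : F.Monic := hm.map _
  have hx' : Polynomial.aeval x F = 0 := by
    rw [Polynomial.aeval_def, Polynomial.eval₂_map]; exact hx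
  rw [← IntermediateField.mem_toSubalgebra,
    IntermediateField.adjoin_simple_toSubalgebra_of_isAlgebraic ⟨F, hF.ne_zero, hx'⟩,
    Algebra.adjoin_singleton_eq_range_aeval] at hy
  obtain ⟨p₀, rfl⟩ := hy
  change ∃ a, u (Polynomial.aeval x p₀) = _
  rw [← Polynomial.aeval_modByMonic_eq_self_of_root hx']
  have hd := Polynomial.degree_modByMonic_lt p₀ hF
  generalize p₀ %ₘ F = p at hd
  by_cases h0 : p = 0
  · exact ⟨0, by simp [h0]⟩
  obtain ⟨n, hn, hmax⟩ := p.support.exists_max_image (fun i => u (algebraMap K E (p.coeff i)))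
    (Polynomial.support_nonempty.2 h0)
  have hc : p.coeff n ≠ 0 := Polynomial.mem_support_iff.1 hn
  have hc' : u (algebraMap K E (p.coeff n)) ≠ 0 := by simpa using hc
  obtain ⟨q, hq, hq'⟩ := Polynomial.exists_degree_eq_of_mem_lifts
    (f := (u.comap (algebraMap K E)).integer.subtype) (p := Polynomial.C (p.coeff n)⁻¹ * p)
    ((Polynomial.lifts_iff_coeff_lifts _).2 fun i => ⟨⟨(p.coeff n)⁻¹ * p.coeff i, by
      change u (algebraMap K E _) ≤ 1
      rw [map_mul, map_mul, map_inv₀, map_inv₀]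
      by_cases hi : i ∈ p.support
      · exact inv_mul_le_one_of_le₀ (hmax i hi) zero_le
      · simp [Polynomial.notMem_support_iff.1 hi]⟩, (Polynomial.coeff_C_mul _).symm⟩)
  have h1 : q.coeff n = 1 := Subtype.ext (by
    have := congrArg (Polynomial.coeff · n) hq
    simpa [hc] using this)
  have h2 := vzor_one (u := u) (ι := ι) (q := q) (fun a => a.2) (fun a => (hρ a).1) hs hm hi hx
    (fun e => by simpa [h1] using congrArg (Polynomial.coeff · n) e)
    (by rw [hq', Polynomial.degree_C_mul (inv_ne_zero hc)]; exact hd.trans_eq (hm.degree_map _))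
  rw [← Polynomial.eval₂_map, hq, Polynomial.eval₂_mul, Polynomial.eval₂_C, map_mul, map_inv₀,
    map_inv₀, inv_mul_eq_one₀ hc'] at h2
  exact ⟨_, h2.symm⟩

theorem vzor_ext (v : Vl K) [Algebra K E] : ∃ A : ValuationSubring E,
    v.IsEquiv (A.valuation.comap (algebraMap K E)) := by
  obtain ⟨A, h, hl⟩ :=
    IsLocalRing.exists_factor_valuationRing ((algebraMap K E).comp v.valuationSubring.subtype)
  refine ⟨A, Valuation.isEquiv_iff_val_le_one.2 fun {a} =>
    ⟨fun e => (A.valuation_le_one_iff _).2 (h ⟨a, e⟩), fun e => ?_⟩⟩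
  refine (v.val_le_one_or_val_inv_lt_one a).elim id fun e' => ?_
  by_cases h0 : a = 0
  · simp [h0]
  have h1 : IsUnit (⟨a⁻¹, e'.le⟩ : v.valuationSubring) := hl.1 _ (IsUnit.of_mul_eq_one
    ⟨_, (A.valuation_le_one_iff _).1 e⟩ (Subtype.ext (by simp [h0])))
  exact absurd ((Valuation.valuationSubring.integers v).one_of_isUnit h1) e'.ne

/-- A maximal subfield of the algebraic closure with the value group of `K`. -/
theorem exists_closed_res (hv : Nrm v) : ∃ (L : Type) (_ : Field L) (φ : K →+* L) (w : Vl L)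
    (κ : Type) (_ : Field κ) (ρ : w.integer →+* κ), Idx φ v w 1 ∧ IsRed w ρ ∧
      Function.Surjective ρ ∧ IsAlgClosed κ := by
  obtain ⟨A, hA⟩ := vzor_ext (E := AlgebraicClosure K) v
  let u := A.valuation
  obtain ⟨L, -, hL, hmax⟩ := zorn_le_nonempty₀
    {L : IntermediateField K (AlgebraicClosure K) | ∀ y ∈ L, ∃ a, u y = u (algebraMap K _ a)}
    (fun c hc hch y hy => ⟨⨆ z : c, z.1, fun t ht => by
      have : Nonempty c := ⟨⟨y, hy⟩⟩
      rw [← SetLike.mem_coe,
        IntermediateField.coe_iSup_of_directed hch.directedOn.directed_val] at ht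
      obtain ⟨z, hz⟩ := Set.mem_iUnion.1 ht
      exact hc z.2 t hz, fun z hz => le_iSup (fun z : c => z.1) ⟨z, hz⟩⟩) ⊥
    fun y hy => by obtain ⟨a, rfl⟩ := IntermediateField.mem_bot.1 hy; exact ⟨a, rfl⟩
  choose g hg using fun y : L => hL y y.2
  have he : ∀ (y : L) a, u y = u (algebraMap K _ a) → v (g y) = v a := fun y a e =>
    hA.eq_iff.2 ((hg y).symm.trans e)
  have hle : ∀ y z : L, v (g y) ≤ v (g z) ↔ u y ≤ u z := fun y z => by
    rw [hg, hg]; exact hA _ _
  let w : Vl L :=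
    { toFun := fun y => v (g y)
      map_zero' := (he 0 0 (by simp)).trans v.map_zero
      map_one' := (he 1 1 (by simp)).trans v.map_one
      map_mul' := fun y z => (he _ (g y * g z) (by simp [hg])).trans (v.map_mul _ _)
      map_add_le_max' := fun y z => by
        rw [le_max_iff, hle, hle, ← le_max_iff]; exact u.map_add _ _ }
  have h1 : ∀ y : L, w y ≤ 1 ↔ u y ≤ 1 := fun y => by
    rw [← w.map_one, ← u.map_one]; exact hle y 1
  have h2 : ∀ y : L, w y < 1 ↔ u y < 1 := fun y => by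
    rw [← w.map_one, ← u.map_one, ← not_le, ← not_le]; exact (hle 1 y).not
  obtain ⟨κ, _, ρ, hρ, hs⟩ := exists_resf w
  refine ⟨L, _, algebraMap K L, w, κ, _, ρ, idx_one_iff.2 fun a => he _ a rfl, hρ, hs,
    .of_exists_root _ fun p hp hi => ?_⟩
  let e := RingEquiv.subringCongr (s := (u.comap (algebraMap L _)).integer) (t := w.integer)
    (Subring.ext fun y => (h1 y).symm)
  let ρ' := ρ.comp e.toRingHom
  have hs' : Function.Surjective ρ' := hs.comp e.surjective
  obtain ⟨f, rfl, hd, hm⟩ := Polynomial.lifts_and_degree_eq_and_monic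
    (Polynomial.mem_lifts_of_surjective hs' p) hp
  let ι := (algebraMap L (AlgebraicClosure K)).comp (u.comap (algebraMap L _)).integer.subtype
  have hι : Function.Injective ι := Subtype.val_injective.comp Subtype.val_injective
  obtain ⟨x, hx⟩ := IsAlgClosed.exists_eval₂_eq_zero_of_injective ι hι f
    (hd ▸ (Polynomial.degree_pos_of_irreducible hi).ne')
  have hxL : x ∈ L := hmax (y := (IntermediateField.adjoin L {x}).restrictScalars K)
    (fun y hy => by
      obtain ⟨a, ha⟩ := val_aeval_mem u _ (fun a => (hρ (e a)).trans (h2 a)) hs' hm hi hx hy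
      exact ⟨g a, ha.trans (hg a)⟩)
    (fun y hy => (IntermediateField.adjoin L {x}).algebraMap_mem ⟨y, hy⟩)
    (IntermediateField.mem_adjoin_simple_self L x)
  let x' : (u.comap (algebraMap L _)).integer := ⟨⟨x, hxL⟩, vzor_int (u := u) (fun a => a.2) hm hx⟩
  refine ⟨ρ' x', ?_⟩
  rw [Polynomial.eval_map, Polynomial.eval₂_at_apply, show f.eval x' = 0 from hι
    (by rw [← Polynomial.eval₂_at_apply, map_zero]; exact hx), map_zero]

theorem zorn (hv : Nrm v) : ∃ (R : Type) (_ : CommRing R) (_ : IsDomain R) (_ : CDVR R)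
    (w : Vl (Fr R)) (ψ : K →+* Fr R), IsAlgClosed (ResidueField R) ∧
      IsVR (algebraMap R (Fr R)) w ∧ Idx ψ v w 1 := by
  obtain ⟨L, _, φ, w, κ, _, ρ, hi, hρ, hs, hκ⟩ := exists_closed_res hv
  obtain ⟨R, _, _, _, w', ψ, hR, hi', hd⟩ :=
    exists_cmp (v := w) (hv.elim fun π e => ⟨φ π, (idx_one_iff.1 hi π).trans e⟩)
  obtain ⟨ρ', hρ', hs', -⟩ := hR.exists_red
  have ho := hi'.over one_ne_zero
  obtain ⟨i, e⟩ := hρ.factor hs (hρ'.comp_int ho)
  refine ⟨R, _, _, inferInstance, w', ψ.comp φ,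
    .of_ringEquiv κ _ (.ofBijective i ⟨i.injective, fun z => ?_⟩), hR, hi.comp hi'⟩
  obtain ⟨y, rfl⟩ := hs' z
  obtain ⟨a, ha⟩ := (hd y).exists_lt one_ne_zero
  have h1 : w a ≤ 1 := (ho a).1 (by
    rw [← sub_sub_cancel (y : Fr R) (ψ a)]; exact w'.map_sub_le y.2 ha.le)
  exact ⟨ρ ⟨a, h1⟩, (e _).trans ((hρ'.eq_iff _ _).2 ha).symm⟩

theorem zorn_ring (O : Type) [CommRing O] [IsDomain O] [IsDiscreteValuationRing O] :
    ∃ (R : Type) (_ : CommRing R) (_ : IsDomain R) (_ : CDVR R) (φ : O →+* R),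
      Function.Injective φ ∧ IsAlgClosed (ResidueField R) ∧
      (maximalIdeal O).map φ = maximalIdeal R := by
  obtain ⟨v, hv⟩ := exists_isVR (isFr_alg O (Fr O))
  obtain ⟨R, _, _, _, w, ψ, hc, hw, hi⟩ := zorn hv.1
  obtain ⟨e, he⟩ := hv.exists_equiv
  obtain ⟨e', he'⟩ := hw.exists_equiv
  let φ : O →+* R := (e'.symm : _ →+* R).comp ((hi.over one_ne_zero).int.comp (e : O →+* _))
  have h : ∀ a, algebraMap R (Fr R) (φ a) = ψ (algebraMap O (Fr O) a) := fun a => by
    rw [← he', ← he]; exact congrArg Subtype.val (e'.apply_symm_apply _)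
  refine ⟨R, _, _, inferInstance, φ, fun a b e => hv.2.1 (ψ.injective (by rw [← h, ← h, e])), hc, ?_⟩
  obtain ⟨π, hπ⟩ := IsDiscreteValuationRing.exists_irreducible O
  have h1 : Irreducible (φ π) :=
    hw.irreducible_iff.2 (by rw [h, idx_one_iff.1 hi, hv.irreducible_iff.1 hπ])
  rw [hπ.maximalIdeal_eq, h1.maximalIdeal_eq, Ideal.map_span, Set.image_singleton]

end Pool.Agent.ZCy
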