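import Pool.Agent.Lib.MP_751085_ag.ZC.V.D

/-! Block V: finite groups acting on rings. -/

namespace Pool.Agent.ZCy

open scoped Classical WithZero Polynomial PowerSeries LaurentSeries
open WithZero (exp)

section

variable {B G Ω : Type} [CommRing B] [Group G] [Fintype G] [MulSemiringAction G B] [CommRing Ω]

/-- Places that agree on the invariants are conjugate. -/
theorem place_conj [IsDomain Ω] (ρ ρ' : B →+* Ω) (h : ∀ a, (∀ g : G, g • a = a) → ρ' a = ρ a) :
    ∃ g : G, ∀ x, ρ' x = ρ (g • x) := by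
  by_contra h1
  push Not at h1
  choose x hx using h1
  let Y : B[X] := ∑ g, Polynomial.monomial (Fintype.equivFin G g) (x g)
  have hY : ∀ g, Y.coeff (Fintype.equivFin G g) = x g := fun g => by
    simp [Y, Polynomial.coeff_monomial, Fin.val_inj]
  have h2 : (MulSemiringAction.charpoly G Y).map (Polynomial.mapRingHom ρ') =
      (MulSemiringAction.charpoly G Y).map (Polynomial.mapRingHom ρ) := by
    ext n m
    simp only [Polynomial.coeff_map, Polynomial.coe_mapRingHom]
    exact h _ fun g => by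
      rw [← Polynomial.coeff_smul, MulSemiringAction.smul_coeff_charpoly]
  have h3 := congrArg (Polynomial.eval (Polynomial.mapRingHom ρ' Y)) h2
  rw [Polynomial.eval_map, Polynomial.eval₂_at_apply, MulSemiringAction.eval_charpoly, map_zero,
    MulSemiringAction.charpoly_eq, Polynomial.map_prod, Polynomial.eval_prod, eq_comm,
    Finset.prod_eq_zero_iff] at h3
  obtain ⟨g, -, hg⟩ := h3
  have h4 := congrArg (fun p : Polynomial Ω => p.coeff (Fintype.equivFin G g)) hg
  exact hx g (by simpa [hY, sub_eq_zero] using h4)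

/-- A stable prime is the only prime above its contraction to the invariants. -/
theorem eq_of_stable (n n' : Ideal B) [n.IsPrime] [n'.IsPrime] (hs : ∀ (g : G) x, x ∈ n → g • x ∈ n)
    (h : ∀ a, (∀ g : G, g • a = a) → (a ∈ n' ↔ a ∈ n)) : n' = n := by
  have : Algebra.IsInvariant (FixedPoints.subring B G) B G := ⟨fun b hb => ⟨⟨b, hb⟩, rfl⟩⟩
  obtain ⟨g, rfl⟩ := Algebra.IsInvariant.exists_smul_of_under_eq (FixedPoints.subring B G) B G n n'
    (Ideal.ext fun a => (h a.1 a.2).symm)
  ext x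
  rw [Ideal.mem_pointwise_smul_iff_inv_smul_mem]
  exact ⟨fun hx => by simpa using hs g _ hx, hs _ _⟩

end

section

variable {K E Ω : Type} [Field K] [Field E] [Algebra K E] [FiniteDimensional K E] [CommRing Ω]
  {H : Subgroup (E ≃ₐ[K] E)} {S : Subring E}

theorem Stab.place_conj [IsDomain Ω] (hS : Stab H S) (ρ ρ' : S →+* Ω)
    (h : ∀ a : S, (∀ g ∈ H, g (a : E) = a) → ρ' a = ρ a) :
    ∃ (g : E ≃ₐ[K] E) (hg : g ∈ H), ∀ x, ρ' x = ρ (hS.act hg x) := by
  let _ := hS.msa
  obtain ⟨g, hg⟩ := ZCy.place_conj (G := H) ρ ρ' fun a ha =>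
    h a fun g hg => congrArg Subtype.val (ha ⟨g, hg⟩)
  exact ⟨g, g.2, hg⟩

theorem Stab.eq_of_stable (hS : Stab H S) (n n' : Ideal S) [n.IsPrime] [n'.IsPrime]
    (hs : ∀ g (hg : g ∈ H) x, x ∈ n → hS.act hg x ∈ n)
    (h : ∀ a : S, (∀ g ∈ H, g (a : E) = a) → (a ∈ n' ↔ a ∈ n)) : n' = n := by
  let _ := hS.msa
  exact ZCy.eq_of_stable (G := H) n n' (fun g => hs g g.2) fun a ha =>
    h a fun g hg => congrArg Subtype.val (ha ⟨g, hg⟩)

end

end Pool.Agent.ZCy
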