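import Pool.Agent.Lib.MP_751085_ag.ZC.V.Dec
import Pool.Agent.Lib.MP_751085_ag.ZC.V.Pc

/-! Block V: action on residue fields, towers. -/

namespace Pool.Agent.ZCy

open scoped Classical WithZero Polynomial PowerSeries LaurentSeries
open WithZero (exp)

variable {K E F Ω : Type} [Field K] [Field E] [Field F] [Field Ω] [Algebra K E]
  [FiniteDimensional K E] [IsGalois K E] {v : Vl K} {w : Vl E} {ρ ρ' : w.integer →+* Ω}

/-- residue maps that agree on `K` are conjugate under `D` -/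
theorem red_conj (hρ : IsRed w ρ) (hρ' : IsRed w ρ')
    (h : ∀ (a : K) ha, ρ' ⟨algebraMap K E a, ha⟩ = ρ ⟨algebraMap K E a, ha⟩) :
    ∃ g ∈ Dec K w, ∀ x hx hx', ρ' ⟨x, hx⟩ = ρ ⟨g x, hx'⟩ := by
  obtain ⟨g, hg, e⟩ := (stab_int (K := K) w).place_conj ρ ρ' fun a ha => by
    obtain ⟨b, hb⟩ := (dns_of_dec ha).exists_lt one_ne_zero
    have h1 : w (algebraMap K E b) ≤ 1 := by
      rw [← sub_sub_cancel (a : E) (algebraMap K E b)]
      exact w.map_sub_le a.2 hb.le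
    rw [(hρ.eq_iff a ⟨_, h1⟩).2 hb, (hρ'.eq_iff a ⟨_, h1⟩).2 hb, h]
  exact ⟨g, hg, fun x hx _ => e ⟨x, hx⟩⟩

theorem red_onto (hρ : IsRed w ρ) (γ : Ω →+* Ω)
    (hγ : ∀ (a : K) ha, γ (ρ ⟨algebraMap K E a, ha⟩) = ρ ⟨algebraMap K E a, ha⟩) :
    ∃ g ∈ Dec K w, ∀ x hx hx', ρ ⟨g x, hx'⟩ = γ (ρ ⟨x, hx⟩) :=
  (red_conj hρ (hρ.comp γ) hγ).imp fun _ h => ⟨h.1, fun x hx hx' => (h.2 x hx hx').symm⟩

/-- places above the same place are conjugate -/
theorem place_conj_over {w' : Vl E} (h : Over (algebraMap K E) v w)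
    (h' : Over (algebraMap K E) v w') {ρ' : w'.integer →+* Ω} (hρ : IsRed w ρ) (hρ' : IsRed w' ρ')
    (e : ∀ a, ρ' (h'.int a) = ρ (h.int a)) : ∃ g : E ≃ₐ[K] E, (∀ x, w' x ≤ 1 ↔ w (g x) ≤ 1) ∧
      ∀ x hx hx', ρ' ⟨x, hx⟩ = ρ ⟨g x, hx'⟩ := by
  obtain ⟨s, hs⟩ := conj h h'
  have ho : Over (s.symm : E →+* E) w w' := fun x => (hs _).trans (by simp)
  obtain ⟨g, hg, e'⟩ := red_conj (K := K) hρ (hρ'.comp_int ho) fun a ha =>
    (congrArg ρ' (Subtype.ext (s.symm.commutes a))).trans (e ⟨a, (h a).1 ha⟩)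
  refine ⟨g * s, fun x => (hs x).trans (by rw [AlgEquiv.mul_apply, hg]), fun x hx hx' => ?_⟩
  exact (congrArg ρ' (Subtype.ext (s.symm_apply_apply x).symm)).trans (e' _ ((hs x).1 hx) hx')

omit [FiniteDimensional K E] [IsGalois K E] in
theorem vdecb_ine (hρ : IsRed w ρ) {g s : E ≃ₐ[K] E} (hg : g ∈ Dec K w) (hs : s ∈ Dec K w)
    (h : ∀ x, w x ≤ 1 → ∀ h1 h2, ρ ⟨g x, h1⟩ = ρ ⟨s x, h2⟩) : s⁻¹ * g ∈ Ine K w :=
  ⟨mul_mem (inv_mem hs) hg, fun x hx => by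
    rw [← hs, map_sub, ← AlgEquiv.mul_apply, mul_inv_cancel_left]
    exact (hρ.eq_iff _ _).1 (h x hx ((hg x).trans_le hx) ((hs x).trans_le hx))⟩

/-- SEP -/
theorem mem_of_fix_red (hw : Ine K w = ⊥) {H : Subgroup (E ≃ₐ[K] E)} (hH : H ≤ Dec K w)
    {g : E ≃ₐ[K] E} (hg : g ∈ Dec K w)
    (h : ∀ x, w x ≤ 1 → (∀ s ∈ H, s x = x) → w (g x - x) < 1) : g ∈ H := by
  obtain ⟨κ, _, ρ, hρ, -⟩ := exists_resf w
  have hS : Stab H w.integer := fun s hs => stab_int w s (hH hs)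
  obtain ⟨s, hs, e⟩ := hS.place_conj ρ (ρ.comp ((stab_int w).act hg)) fun a ha =>
    (hρ.eq_iff _ _).2 (h a a.2 ha)
  have := vdecb_ine hρ hg (hH hs) fun x hx _ _ => e ⟨x, hx⟩
  rw [hw, Subgroup.mem_bot, inv_mul_eq_one] at this
  exact this ▸ hs

variable [Algebra K F] {i : F →+* E} {r : (E ≃ₐ[K] E) →* (F ≃ₐ[K] F)} {u : Vl F}

theorem Rs.dec_onto (hi : Sq (RingHom.id K) i) (hr : Rs i r) (ho : Over i u w) {g : F ≃ₐ[K] F}
    (hg : g ∈ Dec K u) : ∃ g' ∈ Dec K w, r g' = g := by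
  obtain ⟨s, hs⟩ := exists_twist_sub i hi (RingHom.id E) (i.comp (g : F →+* F)) fun a =>
    (congrArg i (g.commutes a)).trans (hi a)
  let := i.toAlgebra
  have : IsScalarTower K F E := .of_algebraMap_eq fun a => (hi a).symm
  have : FiniteDimensional F E := Module.Finite.of_restrictScalars_finite K F E
  have : IsGalois F E := IsGalois.tower_top_of_isGalois K F E
  obtain ⟨t, ht⟩ := conj (K := F) (w' := w.comap (s : E →+* E)) ho fun x =>
    (iff_of_eq (congrArg (w · ≤ 1) (hs x).symm)).trans ((ho _).trans (hg x ▸ Iff.rfl))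
  refine ⟨s * t.symm.restrictScalars K, mem_dec.2 fun x => (ht _).trans (by simp),
    AlgEquiv.ext fun x => i.injective ((hr _ x).trans ?_)⟩
  exact (congrArg s (t.symm.commutes x)).trans (hs x).symm

theorem Rs.ine_onto (hi : Sq (RingHom.id K) i) (hr : Rs i r) (ho : Over i u w) {g : F ≃ₐ[K] F}
    (hg : g ∈ Ine K u) : ∃ g' ∈ Ine K w, r g' = g := by
  obtain ⟨s, hs, rfl⟩ := hr.dec_onto hi ho hg.1
  obtain ⟨κ, _, ρ, hρ, -⟩ := exists_resf w
  let := i.toAlgebra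
  have : IsScalarTower K F E := .of_algebraMap_eq fun a => (hi a).symm
  have : FiniteDimensional F E := Module.Finite.of_restrictScalars_finite K F E
  have : IsGalois F E := IsGalois.tower_top_of_isGalois K F E
  have h1 : Over (s : E →+* E) w w := mem_dec.1 hs
  obtain ⟨t, ht, e⟩ := red_conj (K := F) hρ (hρ.comp_int h1) fun a ha => (hρ.eq_iff _ _).2 (by
    change w (s (i a) - i a) < 1
    rw [← hr, ← map_sub, ho.lt_one]
    exact hg.2 a ((ho a).1 ha))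
  refine ⟨(t.restrictScalars K)⁻¹ * s, vdecb_ine hρ hs ht fun x hx _ h2 => e x hx h2,
    AlgEquiv.ext fun x => i.injective ((hr _ x).trans ?_)⟩
  exact (congrArg t.symm (hr s x).symm).trans (t.symm.commutes _)

end Pool.Agent.ZCy
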