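import Pool.Agent.Lib.MP_751085_ag.ZC.V.Int

/-! Block V: localisation of the integral closure, branch loci. -/

namespace Pool.Agent.ZCy

open scoped Classical WithZero Polynomial PowerSeries LaurentSeries
open WithZero (exp)

variable {A A' K K' E E' T : Type} [CommRing A] [UniqueFactorizationMonoid A] [CommRing A']
  [Field K] [Field K'] [Field E] [Field E'] [CommRing T] [Algebra K E] [FiniteDimensional K E]
  [IsGalois K E] {α : A →+* K} {P Θ : A} {w : Vl E} {x : E}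

/-- all coefficients of `∏ g, (X - g x)` have a common denominator prime to `P` -/
theorem Cen.exists_mul_mem (hα : IsFr α) (hP : Prime P) (h : Cen (tE E α) w P)
    (hx : x ∈ IntAt K w) : ∃ a, ¬P ∣ a ∧ tE E α a * x ∈ IntOff (tE E α) 1 := by
  let f := MulSemiringAction.charpoly (E ≃ₐ[K] E) x
  have hm : f.Monic := MulSemiringAction.monic_charpoly _ x
  have h1 : f ∈ Polynomial.lifts w.integer.subtype :=
    ⟨∏ g : E ≃ₐ[K] E, (Polynomial.X - Polynomial.C ⟨g x, mem_intAt.1 hx g⟩), by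
      simp [f, MulSemiringAction.charpoly_eq]⟩
  have h2 : ∀ i, ∃ b, ¬P ∣ b ∧ f.coeff i * tE E α b ∈ (tE E α).range := fun i => by
    obtain ⟨c, hc⟩ := mem_range_of_fix (K := K) (MulSemiringAction.smul_coeff_charpoly x i)
    obtain ⟨y, hy⟩ := (Polynomial.lifts_iff_coeff_lifts _).1 h1 i
    obtain ⟨a, b, hb, e⟩ := (Cen.le_one_iff hα hP (v := w.comap (algebraMap K E)) h c).1
      (by rw [Valuation.comap_apply, hc, ← hy]; exact y.2)
    exact ⟨b, hb, a, by rw [← hc, RingHom.comp_apply, ← e, map_mul]; rfl⟩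
  choose b hb hr using h2
  refine ⟨∏ i ∈ Finset.range f.natDegree, b i, fun u => ?_, ?_⟩
  · obtain ⟨i, -, hi⟩ := (hP.dvd_finsetProd_iff _).1 u
    exact hb i hi
  have h3 : f.scaleRoots (tE E α (∏ i ∈ Finset.range f.natDegree, b i)) ∈
      Polynomial.lifts (tE E α) := (Polynomial.lifts_iff_coeff_lifts _).2 fun n => by
    rw [Polynomial.coeff_scaleRoots]
    change _ ∈ (tE E α).range
    rcases lt_trichotomy n f.natDegree with u | rfl | u
    · obtain ⟨m, hm'⟩ := Nat.exists_eq_succ_of_ne_zero (Nat.sub_ne_zero_of_lt u)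
      obtain ⟨c, hc⟩ := Finset.dvd_prod_of_mem b (Finset.mem_range.2 u)
      rw [hm', hc, pow_succ', map_mul, ← mul_assoc, ← mul_assoc, ← map_mul]
      exact mul_mem (mul_mem (hr n) (RingHom.mem_range_self _ _))
        (pow_mem (RingHom.mem_range_self _ _) _)
    · rw [hm.coeff_natDegree, Nat.sub_self, pow_zero, mul_one]
      exact one_mem _
    · rw [Polynomial.coeff_eq_zero_of_natDegree_lt u, zero_mul]
      exact zero_mem _
  obtain ⟨q, e, -, hq⟩ := Polynomial.lifts_and_natDegree_eq_and_monic h3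
    ((Polynomial.monic_scaleRoots_iff _).2 hm)
  refine mem_intOff_of_int ⟨q, hq, ?_⟩
  rw [← Polynomial.eval_map, e, Polynomial.scaleRoots_eval_mul, MulSemiringAction.eval_charpoly,
    mul_zero]

/-- LOCV -/
theorem Cen.exists_frac (hα : IsFr α) (hP : Prime P) (h : Cen (tE E α) w P) (hx : w x ≤ 1) :
    ∃ s ∈ IntOff (tE E α) 1, w s = 1 ∧ s * x ∈ IntOff (tE E α) 1 := by
  obtain ⟨s, h1, h2, h3⟩ := exists_den (K := K) hx
  obtain ⟨a, ha, ha'⟩ := h.exists_mul_mem hα hP h1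
  obtain ⟨b, hb, hb'⟩ := h.exists_mul_mem hα hP h3
  refine ⟨tE E α b * (tE E α a * s), mul_mem (toInt _ 1 b).2 ha', ?_, ?_⟩
  · rw [map_mul, map_mul, (h.eq_one a).2 ha, (h.eq_one b).2 hb, h2, one_mul, one_mul]
  · rw [show tE E α b * (tE E α a * s) * x = tE E α a * (tE E α b * (s * x)) by ring]
    exact mul_mem (toInt _ 1 a).2 hb'

/-- LOCV for an undecomposed prime -/
theorem Cen.exists_frac_of_dec (hα : IsFr α) (hP : Prime P) (h : Cen (tE E α) w P)
    (hd : Dec K w = ⊤) (hx : w x ≤ 1) : ∃ a, ¬P ∣ a ∧ tE E α a * x ∈ IntOff (tE E α) 1 :=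
  h.exists_mul_mem hα hP (mem_intAt.2 fun g =>
    ((show g ∈ Dec K w from hd ▸ Subgroup.mem_top g) x).trans_le hx)

theorem Cen.sep (hα : IsFr α) (hP : Prime P) (h : Cen (tE E α) w P) (hw : Ine K w = ⊥)
    {g : E ≃ₐ[K] E} (hg : g ≠ 1) : ∃ b ∈ IntOff (tE E α) 1, w (g b - b) = 1 := by
  obtain ⟨b, h1, h2⟩ := sep_intAt hw hg
  obtain ⟨a, ha, ha'⟩ := h.exists_mul_mem hα hP h1
  refine ⟨_, ha', ?_⟩
  rw [map_mul g, RingHom.comp_apply, g.commutes, ← mul_sub, map_mul, h2, mul_one]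
  exact (h.eq_one a).2 ha

/-- an element that is small at all prolongations is divisible by `P` if these have index one -/
theorem Cen.div_mem (hα : IsFr α) (hP : Prime P) (h : Cen (tE E α) w P) (he : E1 K w)
    (hx : x ∈ IntOff (tE E α) Θ) (hs : ∀ g : E ≃ₐ[K] E, w (g x) < 1) :
    x / tE E α P ∈ IntOff (tE E α) Θ := by
  intro Q u hQ hΘ hu
  by_cases e : Q ∣ P
  · obtain ⟨g, hg⟩ := h.conj hα hP (hu.assoc (hQ.associated_of_dvd hP e))
    obtain ⟨c, hc⟩ := he (g x)
    have h0 : w (tE E α P) ≠ 0 := (map_ne_zero w).2 fun z =>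
      hP.ne_zero (hα.1 (((map_eq_zero (algebraMap K E)).1 z).trans α.map_zero.symm))
    rw [hg, map_div₀, RingHom.comp_apply, g.commutes, map_div₀, hc]
    refine div_le_one_of_le₀ ?_ zero_le
    rcases eq_or_ne c 0 with rfl | c0
    · simp
    obtain ⟨n, hn⟩ := Cen.val_zpow hα hP (v := w.comap (algebraMap K E)) h c0
    have h1 : w (tE E α P) < 1 := (h.2 P).2 dvd_rfl
    have h2 : w (algebraMap K E c) = w (tE E α P) ^ n := hn
    have h3 := (zpow_lt_one_iff_right_of_lt_one₀ (zero_lt_iff.2 h0) h1).1 (h2 ▸ hc ▸ hs g)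
    rw [h2]
    exact (zpow_le_zpow_right_of_le_one₀ (zero_lt_iff.2 h0) h1.le h3).trans_eq (zpow_one _)
  · rw [map_div₀, (hu.eq_one P).2 e, div_one]
    exact hx Q u hQ hΘ hu

/-- Only finitely many primes ramify: take an integral primitive element `z` and for `Θ` the
product of all `g z - h z`, `g ≠ h`. -/
theorem exists_unrOff (hα : IsFr α) : ∃ Θ : A, Θ ≠ 0 ∧ UnrOff K (tE E α) Θ := by
  have := hα.isDomain
  have key : ∀ g : E ≃ₐ[K] E, ∃ a : A, a ≠ 0 ∧ ∀ (P : A) (w : Vl E), Prime P → ¬P ∣ a →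
      Cen (tE E α) w P → g ∈ Ine K w → g = 1 := fun g => by
    by_cases hg : g = 1
    · exact ⟨1, one_ne_zero, fun _ _ _ _ _ _ => hg⟩
    obtain ⟨z, hz⟩ := not_forall.1 fun u => hg (AlgEquiv.ext u)
    obtain ⟨b, hb, hb'⟩ := exists_mul_mem_intOff hα z
    obtain ⟨a, ha, ha'⟩ := exists_mul_mem_intOff hα (g (tE E α b * z) - tE E α b * z)⁻¹
    refine ⟨a, ha, fun P w hP hn hc hi => ?_⟩
    have h0 : g (tE E α b * z) - tE E α b * z ≠ 0 := by
      rw [map_mul g, RingHom.comp_apply, g.commutes, ← mul_sub]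
      exact mul_ne_zero ((map_ne_zero _).2 fun u => hb (hα.1 (u.trans α.map_zero.symm)))
        (sub_ne_zero.2 hz)
    have h1 := ha' P w hP hP.not_dvd_one hc
    rw [map_mul, (hc.eq_one a).2 hn, one_mul, map_inv₀,
      inv_le_one₀ (zero_lt_iff.2 ((map_ne_zero w).2 h0))] at h1
    exact absurd (hi.2 _ (hb' P w hP hP.not_dvd_one hc)) h1.not_gt
  choose a ha H using key
  exact ⟨∏ g, a g, Finset.prod_ne_zero_iff.2 fun g _ => ha g, fun P w hP hn hc =>
    (Subgroup.eq_bot_iff_forall _).2 fun g hg => H g P w hP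
      (fun u => hn (u.trans (Finset.dvd_prod_of_mem a (Finset.mem_univ g)))) hc hg⟩

omit [UniqueFactorizationMonoid A] [FiniteDimensional K E] [IsGalois K E] in
/-- DISC: inertia off `Θ` fixes the roots of `χ` -/
theorem Cen.root_fix {χ a b : A[X]} (hm : χ.Monic) {n : ℕ}
    (hb : Polynomial.C (Θ ^ n) = a * χ + b * χ.derivative) (h : Cen (tE E α) w P) (hP : Prime P)
    (hΘ : ¬P ∣ Θ) {g : E ≃ₐ[K] E} (hg : g ∈ Ine K w) (hx : χ.eval₂ (tE E α) x = 0) : g x = x := by
  have h1 : w x ≤ 1 := le_one_of_int h.1 ⟨χ, hm, hx⟩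
  have h2 : ∀ p : A[X], w (p.eval₂ (tE E α) x) ≤ 1 := fun p => by
    rw [Polynomial.eval₂_eq_sum_range]
    exact w.map_sum_le fun i _ => by
      rw [map_mul, map_pow]
      exact mul_le_one' (h.1 _) (pow_le_one' h1 i)
  refine ZCy.root_fix hg (f := χ.map (tE E α)) (fun i => ?_) (fun i => ?_) h1
    ((Polynomial.eval_map _ _).trans hx) ?_
  · rw [Polynomial.coeff_map]
    exact g.commutes _
  · rw [Polynomial.coeff_map]
    exact h.1 _
  have h3 := congrArg (fun p => w (Polynomial.eval₂ (tE E α) x p)) hb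
  simp only [Polynomial.eval₂_C, Polynomial.eval₂_add, Polynomial.eval₂_mul, Polynomial.eval₂_pow,
    hx, mul_zero, zero_add, map_mul, map_pow, (h.eq_one Θ).2 hΘ, one_pow] at h3
  rw [Polynomial.derivative_map, Polynomial.eval_map]
  exact (h2 _).antisymm (h3.trans_le (mul_le_of_le_one_left' (h2 b)))

omit [UniqueFactorizationMonoid A] [FiniteDimensional K E] [IsGalois K E] in
/-- The Galois closure: it suffices that inertia fixes a set whose conjugates generate. -/
theorem unrOff_of_core (S : Set E)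
    (hS : ∀ g : E ≃ₐ[K] E, (∀ (h : E ≃ₐ[K] E), ∀ x ∈ S, g (h x) = h x) → g = 1)
    (h : ∀ (P : A) (w : Vl E), Prime P → ¬P ∣ Θ → Cen (tE E α) w P → ∀ g ∈ Ine K w, ∀ x ∈ S,
      g x = x) : UnrOff K (tE E α) Θ := fun P w hP hn hc =>
  (Subgroup.eq_bot_iff_forall _).2 fun g hg => hS g fun t x hx => by
    have := h P (w.comap (t : E →+* E)) hP hn (by simpa [Cen] using hc) (t⁻¹ * g * t)
      (mem_ine_comap.2 (by simpa [mul_assoc] using hg)) x hx
    exact (t.apply_symm_apply _).symm.trans (congrArg t this)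

end Pool.Agent.ZCy
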