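import Pool.Agent.Lib.MP_751085_ag.ZC.V.Cv
import Pool.Agent.Lib.MP_751085_ag.ZC.V.DecB
import Pool.Agent.Lib.MP_751085_ag.ZC.V.IntB

/-! Block V: finite extensions of complete fields, Hensel embeddings. -/

namespace Pool.Agent.ZCy

open scoped Classical WithZero Polynomial PowerSeries LaurentSeries
open WithZero (exp)
open IsLocalRing

variable {R R' K K' E : Type} [CommRing R] [IsDomain R] [CommRing R'] [IsDomain R'] [Field K]
  [Field K'] [Field E] [Algebra K E] [FiniteDimensional K E] {ι : R →+* K} {ι' : R' →+* K'}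
  {v : Vl K} {v' : Vl K'} {w w' : Vl E}

theorem Cpl.dec_top [IsGalois K E] (hc : Cpl v) (hv : Nrm v) (ho : Over (algebraMap K E) v w) :
    Dec K w = ⊤ := by
  rw [eq_top_iff, ← IntermediateField.fixingSubgroup_fixedField (Dec K w)]
  intro g _
  rw [IntermediateField.mem_fixingSubgroup_iff]
  intro x hx
  obtain ⟨a, rfl⟩ := hc.dns_mem hv ho
    (dns_of_dec fun s hs => (IntermediateField.mem_fixedField_iff _ x).1 hx s hs)
  exact g.commutes a

omit [FiniteDimensional K E] in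
theorem vcf_tower {N : Type} [Field N] [Algebra K N] [Algebra E N] [IsScalarTower K E N] {u : Vl N}
    (ho : Over (algebraMap K E) v w) (hu : Over (algebraMap E N) w u) :
    Over (algebraMap K N) v u := by
  rw [IsScalarTower.algebraMap_eq K E N]; exact ho.trans hu

theorem Cpl.over_unique [Algebra.IsSeparable K E] (hc : Cpl v) (hv : Nrm v)
    (ho : Over (algebraMap K E) v w) (ho' : Over (algebraMap K E) v w') (x : E) :
    w' x ≤ 1 ↔ w x ≤ 1 := by
  obtain ⟨N, _, _, _, _, _, _, -⟩ := exists_gc K E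
  have := Module.Finite.of_restrictScalars_finite K E N
  obtain ⟨u, hu⟩ := exists_over (E := N) w
  obtain ⟨u', hu'⟩ := exists_over (E := N) w'
  rw [← hu x, ← hu' x]
  exact iff_of_dec_top (vcf_tower ho hu) (vcf_tower ho' hu') (hc.dec_top hv (vcf_tower ho hu)) _

theorem vcf_int [Algebra.IsSeparable K E] (hc : Cpl v) (h : IsVR ι v)
    (ho : Over (algebraMap K E) v w) (x : E) : w x ≤ 1 ↔ (tE E ι).IsIntegralElem x := by
  refine ⟨fun hx => ?_, le_one_of_int fun a => (ho _).2 (h.le_one a)⟩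
  obtain ⟨N, _, _, _, _, _, _, -⟩ := exists_gc K E
  have := Module.Finite.of_restrictScalars_finite K E N
  obtain ⟨u, hu⟩ := exists_over (E := N) w
  have := h.dvr
  obtain ⟨p, hp, h0⟩ := (mem_intOff_one h.isFr).1 ((h.mem_intOff (x := algebraMap E N x)).2
    fun u' hu' => (hc.over_unique h.1 (vcf_tower ho hu) hu' _).2 ((hu x).2 hx))
  refine ⟨p, hp, (algebraMap E N).injective ?_⟩
  rw [Polynomial.hom_eval₂, map_zero, ← h0, ← RingHom.comp_assoc, ← IsScalarTower.algebraMap_eq]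

omit [Algebra K E] [FiniteDimensional K E] in
theorem vcf_tel {x : ℕ → E} (hx : ∀ n, w (x (n + 1) - x n) ≤ exp (-(n : ℤ))) {m n : ℕ}
    (h : m ≤ n) : w (x n - x m) ≤ exp (-(m : ℤ)) := by
  induction n, h using Nat.le_induction with
  | base => simp
  | succ n h ih =>
    rw [← sub_add_sub_cancel _ (x n)]
    exact w.map_add_le ((hx n).trans (WithZero.exp_le_exp.2 (by omega))) ih

omit [Algebra K E] [FiniteDimensional K E] in
theorem vcf_lim (hc : Cpl v) (T : E →+ K)
    (hT : ∀ k : ℕ, ∃ N : ℕ, ∀ z, w z ≤ exp (-(N : ℤ)) → v (T z) ≤ exp (-(k : ℤ))) {x : ℕ → E}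
    (hx : ∀ n, w (x (n + 1) - x n) ≤ exp (-(n : ℤ))) :
    ∃ a, ∀ k : ℕ, ∃ N, ∀ n, N ≤ n → v (a - T (x n)) ≤ exp (-(k : ℤ)) := by
  choose N hN using hT
  have key : ∀ k n, ∑ j ∈ Finset.range (k + 1), N j ≤ n →
      v (T (x n) - T (x (∑ j ∈ Finset.range (k + 1), N j))) ≤ exp (-(k : ℤ)) := fun k n h => by
    rw [← map_sub]
    refine hN k _ ((vcf_tel hx h).trans (WithZero.exp_le_exp.2 ?_))
    rw [Finset.sum_range_succ]; omega
  obtain ⟨a, ha⟩ := hc (fun k => T (x (∑ j ∈ Finset.range (k + 1), N j))) fun k =>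
    key k _ (by rw [Finset.sum_range_succ _ (k + 1)]; omega)
  refine ⟨a, fun k => ⟨∑ j ∈ Finset.range (k + 1), N j, fun n hn => ?_⟩⟩
  rw [← sub_sub_sub_cancel_right _ _ (T (x (∑ j ∈ Finset.range (k + 1), N j)))]
  exact v.map_sub_le (ha k) (key k n hn)

theorem Cpl.fin [Algebra.IsSeparable K E] (hc : Cpl v) (hv : Nrm v)
    (ho : Over (algebraMap K E) v w) : Cpl w := by
  intro x hx
  obtain ⟨π, hπ⟩ := id hv
  have hk : ∀ k : ℕ, v (π ^ k) = exp (-(k : ℤ)) := fun k => by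
    rw [map_pow, hπ, ← WithZero.exp_nsmul]; simp
  have h0 : ∀ k : ℕ, π ^ k ≠ 0 := fun k e => by
    have := hk k; rw [e, map_zero] at this; exact WithZero.exp_ne_zero this.symm
  have h0' : ∀ k : ℕ, w (algebraMap K E (π ^ k)) ≠ 0 := fun k => by
    rw [Valuation.ne_zero_iff]; exact (map_ne_zero _).2 (h0 k)
  have h1 : ∀ k : ℕ, w (algebraMap K E (π ^ k)) ≤ exp (-(k : ℤ)) := fun k => by
    rw [← hk, map_pow, map_pow, map_pow, hπ]
    exact pow_le_pow_left' ((lt_one_iff_le_exp _).1 ((ho.lt_one π).2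
      ((lt_one_iff_le_exp _).2 hπ.le))) k
  let b := Module.finBasis K E
  have hb : ∀ (c : Module.Basis (Fin (Module.finrank K E)) K E) i, w (c i) ≠ 0 := fun c i => by
    rw [Valuation.ne_zero_iff]; exact c.ne_zero i
  have hT : ∀ i (k : ℕ), ∃ N : ℕ, ∀ z, w z ≤ exp (-(N : ℤ)) →
      v ((b.traceDual.coord i).toAddMonoidHom z) ≤ exp (-(k : ℤ)) := fun i k => by
    obtain ⟨N, hN⟩ := exists_exp_lt (div_ne_zero (h0' k) (hb b i))
    refine ⟨N, fun z hz => ?_⟩
    have h2 : w ((π ^ k)⁻¹ • (z * b i)) ≤ 1 := by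
      rw [Algebra.smul_def, map_inv₀, map_mul, map_mul, map_inv₀,
        inv_mul_le_one₀ (zero_lt_iff.2 (h0' k)), ← le_div_iff₀ (zero_lt_iff.2 (hb b i))]
      exact hz.trans hN.le
    have h3 : IsIntegral v.integer ((π ^ k)⁻¹ • (z * b i)) := (vcf_int hc hv.isVR ho _).1 h2
    have h4 := le_one_of_int (v := v) (fun a : v.integer => a.2) (Algebra.isIntegral_trace (L := K) h3)
    rw [map_smul, smul_eq_mul, map_mul, map_inv₀, hk,
      inv_mul_le_one₀ (zero_lt_iff.2 WithZero.exp_ne_zero)] at h4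
    simpa using h4
  choose a ha using fun i => vcf_lim hc _ (hT i) hx
  refine ⟨∑ i, a i • b.traceDual i, fun m => ?_⟩
  choose k hk' using fun i =>
    exists_exp_lt (div_ne_zero (WithZero.exp_ne_zero (a := -(m : ℤ))) (hb b.traceDual i))
  choose N hN using fun i => ha i (k i)
  rw [← sub_add_sub_cancel _ (x (m + ∑ i, N i))]
  refine w.map_add_le ?_ (vcf_tel hx (Nat.le_add_right _ _))
  rw [← b.traceDual.sum_repr (x (m + ∑ i, N i)), ← Finset.sum_sub_distrib]
  refine w.map_sum_le fun i _ => ?_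
  rw [← sub_smul, Algebra.smul_def, map_mul, ← le_div_iff₀ (zero_lt_iff.2 (hb _ i))]
  refine (((ho.le_iff _ _).2 ?_).trans (h1 (k i))).trans (hk' i).le
  rw [hk]
  exact hN i _ ((Finset.single_le_sum (fun _ _ => Nat.zero_le _) (Finset.mem_univ i)).trans
    (Nat.le_add_left _ _))

theorem Cpl.le_one_iff_int [Algebra.IsSeparable K E] (hc : Cpl v) (h : IsVR ι v)
    (ho : Over (algebraMap K E) v w) (x : E) : w x ≤ 1 ↔ (tE E ι).IsIntegralElem x :=
  vcf_int hc h ho x

theorem isAlgClosed_res_over {κ κ' : Type} [Field κ] [Field κ'] [IsAlgClosed κ]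
    (ho : Over (algebraMap K E) v w) {ρ : v.integer →+* κ} {ρ' : w.integer →+* κ'} (h : IsRed v ρ)
    (hs : Function.Surjective ρ) (h' : IsRed w ρ') (hs' : Function.Surjective ρ') :
    IsAlgClosed κ' := by
  obtain ⟨i, hi⟩ := h.factor hs (h'.comp_int ho)
  let _ := i.toAlgebra
  have : Algebra.IsAlgebraic κ κ' := ⟨fun y => by
    obtain ⟨x, rfl⟩ := hs' y
    obtain ⟨f, ⟨n, hn⟩, hf⟩ := exists_poly_red ho x
    refine ⟨f.map ρ, fun e => (h.ne_zero _).2 hn ?_, ?_⟩
    · rw [← Polynomial.coeff_map, e, Polynomial.coeff_zero]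
    · rw [Polynomial.aeval_def, Polynomial.eval₂_map,
        show (algebraMap κ κ').comp ρ = ρ'.comp ho.int from RingHom.ext hi,
        ← Polynomial.hom_eval₂, hf, map_zero]⟩
  exact IsAlgClosed.of_ringEquiv κ κ'
    (RingEquiv.ofBijective (algebraMap κ κ') IsAlgClosed.algebraMap_bijective_of_isIntegral)

/-- the ring of integers of a finite separable extension -/
theorem exists_cdvr_ext [CDVR R] [Algebra.IsSeparable K E] (h : IsVR ι v) :
    ∃ (w : Vl E) (_ : CDVR w.integer) (f : R →+* w.integer), Nrm w ∧ Over (algebraMap K E) v w ∧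
      (∀ a, (f a : E) = tE E ι a) ∧ f.Finite ∧ IsLocalHom f ∧
      (IsAlgClosed (ResidueField R) → IsAlgClosed (ResidueField w.integer)) := by
  obtain ⟨w, n, ho⟩ := exists_over_nrm (E := E) h.1
  have := n.isVR.cdvr (h.cpl.fin h.1 ho)
  let f : R →+* w.integer := (tE E ι).codRestrict _ fun a => (ho _).2 (h.le_one a)
  refine ⟨w, this, f, n, ho, fun _ => rfl, ?_,
    ⟨fun a ha => (h.eq_one a).1 ((ho.eq_one _).1 ((n.isVR.eq_one _).2 ha))⟩, fun _ => ?_⟩
  · let _ := ι.toAlgebra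
    let _ := (tE E ι).toAlgebra
    let _ := f.toAlgebra
    have := h.isFr.frac
    have : IsScalarTower R K E := IsScalarTower.of_algebraMap_eq fun _ => rfl
    have : IsScalarTower R w.integer E := IsScalarTower.of_algebraMap_eq fun _ => rfl
    have : IsIntegralClosure w.integer R E := ⟨Subtype.val_injective, fun {x} =>
      ⟨fun hx => ⟨⟨x, (vcf_int h.cpl h ho x).2 hx⟩, rfl⟩,
        fun ⟨y, hy⟩ => hy ▸ (vcf_int h.cpl h ho y).1 y.2⟩⟩
    exact IsIntegralClosure.finite R K E w.integer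
  · obtain ⟨ρ, h1, h2, -⟩ := h.exists_red
    obtain ⟨ρ', h3, h4, -⟩ := n.isVR.exists_red
    exact isAlgClosed_res_over ho h1 h2 h3 h4

theorem cdvr_integralClosure (R : Type) [CommRing R] [IsDomain R] [CDVR R] [Algebra R K]
    [IsFractionRing R K] [Algebra R E] [IsScalarTower R K E] [Algebra.IsSeparable K E] :
    CDVR (integralClosure R E) ∧ Module.Finite R (integralClosure R E) ∧
      IsLocalHom (algebraMap R (integralClosure R E)) := by
  obtain ⟨v, h⟩ := exists_isVR (isFr_alg R K)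
  obtain ⟨w, n, ho⟩ := exists_over_nrm (E := E) h.1
  have hw : IsVR (algebraMap (integralClosure R E) E) w := ⟨n, Subtype.val_injective, fun x => by
    rw [vcf_int h.cpl h ho, tE, ← IsScalarTower.algebraMap_eq]
    exact ⟨fun hx => ⟨⟨x, hx⟩, rfl⟩, fun ⟨y, hy⟩ => hy ▸ y.2⟩⟩
  refine ⟨hw.cdvr (h.cpl.fin h.1 ho), IsIntegralClosure.finite R K E _,
    ⟨fun a ha => (h.eq_one a).1 ((ho.eq_one _).1 ?_)⟩⟩
  rw [← IsScalarTower.algebraMap_apply, IsScalarTower.algebraMap_apply R (integralClosure R E) E]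
  exact (hw.eq_one _).2 ha

end Pool.Agent.ZCy
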