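import Pool.Agent.Lib.MP_751085_ag.ZC.V.Cmp

/-! Block V: coefficient fields. -/

namespace Pool.Agent.ZCy

open scoped Classical WithZero Polynomial PowerSeries LaurentSeries
open WithZero (exp)
open IsLocalRing

variable {K κ k : Type} [Field K] [Field κ] [Field k] {v : Vl K}

/-- COH0: the residue field is formally smooth over `k` -/
theorem exists_section {R : Type} [CommRing R] [IsDomain R] [CDVR R] [CharZero k] (γ : k →+* R) :
    ∃ σ : ResidueField R →+* R, (∀ c, residue R (σ c) = c) ∧ ∀ a, σ (residue R (γ a)) = γ a := by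
  let := γ.toAlgebra
  obtain ⟨s, hs⟩ := exists_isTranscendenceBasis k (ResidueField R)
  have := hs.isAlgebraic_field
  have := Algebra.FormallySmooth.of_algebraicIndependent_of_isSeparable hs.1
  obtain ⟨g, hg⟩ := Algebra.FormallySmooth.exists_mkₐ_comp_eq_of_isAdicComplete (R := k)
    (A := ResidueField R) (I := maximalIdeal R) (AlgHom.id k (ResidueField R))
  exact ⟨g, fun c => DFunLike.congr_fun hg c, fun a => g.commutes a⟩

theorem vcoh_hom {R : Type} [CommRing R] (I : Ideal R) [IsAdicComplete I R] (σ : κ →+* R) {π : R}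
    (hπ : π ∈ I) :
    ∃ e : κ⟦X⟧ →+* R, (∀ c, e (PowerSeries.C c) = σ c) ∧ e PowerSeries.X = π := by
  let : WithIdeal R := ⟨I⟩
  let : UniformSpace κ := ⊥
  obtain ⟨_, _⟩ := (IsAdic.isAdicComplete_iff (I := I) rfl).1 ‹_›
  refine ⟨PowerSeries.eval₂Hom (φ := σ) continuous_of_discreteTopology
    (WithIdeal.isTopologicallyNilpotent_of_mem hπ), fun c => ?_, ?_⟩
  · rw [PowerSeries.coe_eval₂Hom, PowerSeries.eval₂_C]
  · rw [PowerSeries.coe_eval₂Hom, PowerSeries.eval₂_X]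

/-- COH1: evaluation of power series at a uniformiser is bijective -/
theorem exists_ps_equiv {R : Type} [CommRing R] [IsDomain R] [CDVR R] (σ : κ →+* R)
    (hσ : ∀ y : R, ∃ c, residue R (σ c) = residue R y) {π : R} (hπ : Irreducible π) :
    ∃ e : κ⟦X⟧ ≃+* R, (∀ c, e (PowerSeries.C c) = σ c) ∧ e PowerSeries.X = π := by
  obtain ⟨e, h1, h2⟩ := vcoh_hom (maximalIdeal R) σ hπ.not_isUnit
  have hm : (maximalIdeal κ⟦X⟧).map e = maximalIdeal R := by
    rw [PowerSeries.maximalIdeal_eq_span_X, Ideal.map_span, Set.image_singleton, h2,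
      hπ.maximalIdeal_eq]
  refine ⟨.ofBijective e ⟨(injective_iff_map_eq_zero e).2 fun f hf => by_contra fun h0 => ?_, ?_⟩,
    h1, h2⟩
  · obtain ⟨n, u, rfl⟩ :=
      IsDiscreteValuationRing.eq_unit_mul_pow_irreducible h0 PowerSeries.X_irreducible
    rw [map_mul, map_pow, h2] at hf
    exact mul_ne_zero (u.isUnit.map e).ne_zero (pow_ne_zero n hπ.ne_zero) hf
  · have : IsHausdorff ((maximalIdeal κ⟦X⟧).map e) R := hm ▸ inferInstance
    refine surjective_of_mk_map_comp_surjective (I := maximalIdeal κ⟦X⟧) e ?_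
    rw [hm]
    intro y
    obtain ⟨y, rfl⟩ := Ideal.Quotient.mk_surjective y
    obtain ⟨c, hc⟩ := hσ y
    exact ⟨PowerSeries.C c, (congrArg (residue R) (h1 c)).trans hc⟩

/-- COH, ring form -/
theorem coh_ring [CharZero k] {γ : k →+* K} (hγ : Triv γ v) {π : K} (hπ : v π = exp (-1))
    {ρ : v.integer →+* κ} (hρ : IsRed v ρ) (hs : Function.Surjective ρ) :
    ∃ β : v.integer →+* κ⟦X⟧, Function.Injective β ∧
      (∀ x, PowerSeries.constantCoeff (β x) = ρ x) ∧
      (∀ (c : k) (x : v.integer), (x : K) = γ c → β x = PowerSeries.C (ρ x)) ∧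
      ∀ x : v.integer, (x : K) = π → β x = PowerSeries.X := by
  have hv := Nrm.isVR (v := v) ⟨π, hπ⟩
  have := hv.dvr
  obtain ⟨R, _, _, _, φ, hφ, hm, hr⟩ := exists_cmp_ring v.integer
  let γ' : k →+* v.integer := γ.codRestrict _ fun c => by
    by_cases h : c = 0
    · rw [h, map_zero]; exact zero_mem _
    · exact (hγ c h).le
  obtain ⟨σ, h1, h2⟩ := exists_section (φ.comp γ')
  obtain ⟨i, hi⟩ := hρ.factor hs (ρ' := (residue R).comp φ) fun x => by
    refine Iff.trans ?_ (hv.lt_one x).symm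
    rw [RingHom.comp_apply, residue_eq_zero_iff, residue_eq_zero_iff]
    exact ⟨fun h hx => h (hx.map φ), fun h => hm ▸ Ideal.mem_map_of_mem φ h⟩
  obtain ⟨ϖ, rfl⟩ : ∃ ϖ : v.integer, (ϖ : K) = π :=
    ⟨⟨π, ((lt_one_iff_le_exp _).2 hπ.le).le⟩, rfl⟩
  have hϖ : Irreducible (φ ϖ) := by
    rw [IsDiscreteValuationRing.irreducible_iff_uniformizer, ← hm,
      (hv.irreducible_iff.2 hπ).maximalIdeal_eq, Ideal.map_span, Set.image_singleton]
  obtain ⟨e, h3, h4⟩ := exists_ps_equiv (σ.comp i) (fun y => by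
    obtain ⟨a, ha⟩ := hr y
    exact ⟨ρ a, (h1 _).trans ((hi a).trans ha)⟩) hϖ
  refine ⟨(e.symm : R →+* κ⟦X⟧).comp φ, e.symm.injective.comp hφ, fun x => i.injective ?_,
    fun c x hx => e.symm_apply_eq.2 ?_, fun x hx => e.symm_apply_eq.2 ?_⟩
  · obtain ⟨f, hf⟩ := e.surjective (φ x)
    have h5 := congrArg (fun g => residue R (e g)) (PowerSeries.eq_X_mul_shift_add_const f)
    simp only [map_add, map_mul, h3, h4, hf, RingHom.comp_apply, h1,
      (residue_eq_zero_iff _).2 hϖ.not_isUnit, zero_mul, zero_add] at h5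
    rw [hi, RingHom.comp_apply, RingHom.comp_apply, h5, ← hf, RingHom.coe_coe, e.symm_apply_apply]
  · rw [h3, RingHom.comp_apply, hi, show x = γ' c from Subtype.ext hx]
    exact (h2 c).symm
  · rw [h4, Subtype.ext hx]

/-- COH for any presentation of the fraction field of `κ⟦X⟧` -/
theorem coh [CharZero k] {γ : k →+* K} (hγ : Triv γ v) {π : K} (hπ : v π = exp (-1))
    {ρ : v.integer →+* κ} (hρ : IsRed v ρ) (hs : Function.Surjective ρ) {𝕃 : Type} [Field 𝕃]
    {ι : κ⟦X⟧ →+* 𝕃} {u : Vl 𝕃} (hu : IsVR ι u) : ∃ j : K →+* 𝕃, Idx j v u 1 ∧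
      j π = ι PowerSeries.X ∧ (∀ x, Dns j u x) ∧
      (∀ x : v.integer, ∃ y, j x = ι y ∧ PowerSeries.constantCoeff y = ρ x) ∧
      ∀ (c : k) (x : v.integer), (x : K) = γ c → j x = ι (PowerSeries.C (ρ x)) := by
  obtain ⟨β, h0, h1, h2, h3⟩ := coh_ring hγ hπ hρ hs
  obtain ⟨j, hj⟩ := (Nrm.isVR (v := v) ⟨π, hπ⟩).isFr.exists_lift (β := ι.comp β) (hu.2.1.comp h0)
  replace hj : ∀ x : v.integer, j x = ι (β x) := hj
  have hl : ∀ f, PowerSeries.constantCoeff f = 0 → u (ι f) < 1 := fun f hf =>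
    (hu.le_one f).lt_of_ne fun h => (PowerSeries.isUnit_iff_constantCoeff.1
      ((hu.eq_one f).1 h)).ne_zero hf
  have hX : j π = ι PowerSeries.X :=
    (hj ⟨π, ((lt_one_iff_le_exp _).2 hπ.le).le⟩).trans (congrArg ι (h3 _ rfl))
  have ho : Over j v u := fun x => ⟨fun h => le_of_not_gt fun hx => by
    have h4 : v x⁻¹ < 1 := by rw [map_inv₀]; exact inv_lt_one_of_one_lt₀ hx
    have h5 := hl _ ((h1 ⟨x⁻¹, h4.le⟩).trans ((hρ _).2 h4))
    rw [← hj, map_inv₀, map_inv₀, inv_lt_one₀ (zero_lt_iff.2 ((map_ne_zero u).2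
      ((map_ne_zero j).2 fun h0 => by simp [h0] at hx)))] at h5
    exact h5.not_ge h, fun h => (hj ⟨x, h⟩).symm ▸ hu.le_one _⟩
  have hi := ho.idx_one hπ (hX ▸ hu.irreducible_iff.1 PowerSeries.X_irreducible)
  refine ⟨j, hi, hX, dns_of_red ⟨π, hπ⟩ hi fun x hx => ?_, fun x => ⟨β x, hj x, h1 x⟩,
    fun c x hx => by rw [hj, h2 c x hx]⟩
  obtain ⟨f, rfl⟩ := (hu.2.2 x).1 hx
  obtain ⟨a, ha⟩ := hs (PowerSeries.constantCoeff f)
  refine ⟨a, ?_⟩
  rw [hj, ← map_sub]
  exact hl _ (by rw [map_sub, h1, ha, sub_self])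

end Pool.Agent.ZCy
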