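import Pool.Agent.Lib.MP_751085_ag.ZC.V.D

/-! Block V: power series and Laurent series in one variable. -/

namespace Pool.Agent.ZCy

open scoped Classical WithZero Polynomial PowerSeries LaurentSeries
open WithZero (exp)
open IsLocalRing

variable {R K K' : Type} [CommRing R] [IsDomain R] [Field K] [Field K'] {ι : R →+* K} {v : Vl K}
  {π : R}

instance cdvr_ps (κ : Type) [Field κ] : CDVR κ⟦X⟧ :=
  have : IsAdicComplete (maximalIdeal κ⟦X⟧) κ⟦X⟧ := by
    rw [PowerSeries.maximalIdeal_eq_span_X]; infer_instance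
  {}

theorem isAlgClosed_res_ps (κ : Type) [Field κ] [IsAlgClosed κ] :
    IsAlgClosed (ResidueField κ⟦X⟧) :=
  IsAlgClosed.of_ringEquiv κ _ PowerSeries.residueFieldOfPowerSeries.symm

theorem isVR_lval (κ : Type) [Field κ] : IsVR (lau (RingHom.id κ)) (lval κ) :=
  ⟨⟨_, LaurentSeries.valuation_single_zpow κ 1⟩, lau_inj fun _ _ h => h, fun x => by
    simpa [lau, lval] using LaurentSeries.val_le_one_iff_eq_coe κ x⟩

theorem lval_single (κ : Type) [Field κ] (n : ℤ) : lval κ (HahnSeries.single n 1) = exp (-n) :=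
  LaurentSeries.valuation_single_zpow κ n

theorem lau_X {ι : R →+* K} : lau ι PowerSeries.X = HahnSeries.single 1 1 := by simp [lau]

theorem lau_C {ι : R →+* K} (a : R) : lau ι (PowerSeries.C a) = HahnSeries.C (ι a) := by
  simp [lau]

theorem coeff_lau {ι : R →+* K} (f : R⟦X⟧) (n : ℕ) :
    (lau ι f).coeff (n : ℤ) = ι (PowerSeries.coeff n f) := by simp [lau]

theorem vlau_dvd {c : R} {f : R⟦X⟧} :
    PowerSeries.C c ∣ f ↔ ∀ n, c ∣ PowerSeries.coeff n f := by
  refine ⟨fun ⟨g, h⟩ n => ⟨PowerSeries.coeff n g, by rw [h, PowerSeries.coeff_C_mul]⟩, fun h => ?_⟩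
  choose g hg using h
  exact ⟨PowerSeries.mk g, PowerSeries.ext fun n => by
    rw [PowerSeries.coeff_C_mul, PowerSeries.coeff_mk, hg]⟩

theorem prime_ps_C (hπ : Prime π) : Prime (PowerSeries.C π : R⟦X⟧) := by
  have := (Ideal.span_singleton_prime hπ.ne_zero).2 hπ
  have h : ∀ f : R⟦X⟧, PowerSeries.C π ∣ f ↔
      PowerSeries.map (Ideal.Quotient.mk (Ideal.span {π})) f = 0 := fun f => by
    simp [vlau_dvd, PowerSeries.ext_iff, Ideal.Quotient.eq_zero_iff_dvd]
  refine ⟨fun e => hπ.ne_zero (by simpa using congrArg PowerSeries.constantCoeff e),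
    fun e => hπ.not_isUnit (by simpa using e.map PowerSeries.constantCoeff), fun a b => ?_⟩
  simp [h]

theorem ps_C_dvd {c : R} {f : R⟦X⟧} : PowerSeries.C c ∣ f ↔ ∀ n, c ∣ PowerSeries.coeff n f :=
  vlau_dvd

/-- a simple root of the reduction lifts, also if only the leading coefficient is a unit -/
theorem exists_root_lift [CDVR R] {f : R[X]} (hl : IsUnit f.leadingCoeff) {t : R}
    (h0 : residue R (f.eval t) = 0) (h1 : residue R (f.derivative.eval t) ≠ 0) :
    ∃ t', f.eval t' = 0 ∧ residue R t' = residue R t := by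
  obtain ⟨u, hu⟩ := hl
  have hm : (Polynomial.C (↑u⁻¹ : R) * f).Monic :=
    Polynomial.monic_C_mul_of_mul_leadingCoeff_eq_one (by rw [← hu]; simp)
  obtain ⟨a, ha, hb⟩ := HenselianRing.is_henselian (I := maximalIdeal R) _ hm t
    (by
      rw [Polynomial.eval_C_mul]
      exact Ideal.mul_mem_left _ _ ((residue_eq_zero_iff _).1 h0))
    (by
      rw [Polynomial.derivative_C_mul, Polynomial.eval_C_mul]
      exact ((Units.isUnit _).mul ((residue_ne_zero_iff_isUnit _).1 h1)).map _)
  refine ⟨a, ?_, by rwa [← sub_eq_zero, ← map_sub, residue_eq_zero_iff]⟩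
  rw [Polynomial.IsRoot, Polynomial.eval_C_mul] at ha
  exact (mul_eq_zero.1 ha).resolve_left (Units.ne_zero _)

end Pool.Agent.ZCy
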