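import Pool.Agent.Lib.MP_751085_ag.ZC.V.HarB
import Pool.Agent.Lib.MP_751085_ag.ZC.V.Lau

/-! Block V: discrete valuation rings and completeness. -/

namespace Pool.Agent.ZCy

open scoped Classical WithZero Polynomial PowerSeries LaurentSeries
open WithZero (exp)
open IsLocalRing

variable {R K K' : Type} [CommRing R] [IsDomain R] [Field K] [Field K'] {ι : R →+* K} {v : Vl K}
  {π : R}

theorem vcv_pow {p : K} (h : v p = exp (-1)) (n : ℤ) : v (p ^ n) = exp (-n) := by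
  rw [map_zpow₀, h, ← WithZero.exp_zsmul]; simp

theorem vcv_chain {x : ℕ → K} (h : ∀ n, v (x (n + 1) - x n) ≤ exp (-(n : ℤ))) {m n : ℕ}
    (hmn : m ≤ n) : v (x n - x m) ≤ exp (-(m : ℤ)) := by
  induction n, hmn using Nat.le_induction with
  | base => simp
  | succ n hn ih =>
    rw [← sub_add_sub_cancel _ (x n)]
    exact v.map_add_le ((h n).trans (WithZero.exp_le_exp.2 (by omega))) ih

theorem Cen.isVR [IsDiscreteValuationRing R] (hι : IsFr ι) (hπ : Irreducible π) (h : Cen ι v π)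
    (h1 : v (ι π) = exp (-1)) : IsVR ι v := by
  refine ⟨⟨_, h1⟩, hι.1, fun x => ⟨fun hx => ?_, fun ⟨a, e⟩ => e ▸ h.1 a⟩⟩
  obtain ⟨a, b, hb, e⟩ := (h.le_one_iff hι hπ.prime x).1 hx
  obtain ⟨u, rfl⟩ : IsUnit b := by
    by_contra hn
    exact hb (Ideal.mem_span_singleton.1
      ((IsDiscreteValuationRing.irreducible_iff_uniformizer π).1 hπ ▸ (mem_maximalIdeal b).2 hn))
  exact ⟨a * ↑u⁻¹, by rw [map_mul, ← e, mul_assoc, ← map_mul, u.mul_inv, map_one, mul_one]⟩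

theorem exists_isVR [IsDiscreteValuationRing R] (h : IsFr ι) : ∃ v : Vl K, IsVR ι v := by
  obtain ⟨p, hp⟩ := IsDiscreteValuationRing.exists_irreducible R
  obtain ⟨v, h1, h2⟩ := exists_vcen h hp.prime
  exact ⟨v, h1.isVR h hp h2⟩

omit [IsDomain R] in
theorem IsVR.isFr (h : IsVR ι v) : IsFr ι := by
  refine ⟨h.2.1, fun x => ?_⟩
  rcases le_total (v x) 1 with hx | hx
  · obtain ⟨a, rfl⟩ := (h.2.2 x).1 hx
    exact ⟨a, 1, fun e => one_ne_zero (α := K) (by rw [← map_one ι, e, map_zero]), by simp⟩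
  · have h0 : x ≠ 0 := fun e => by simp [e] at hx
    obtain ⟨b, hb⟩ := (h.2.2 x⁻¹).1 (by rw [map_inv₀]; exact inv_le_one_of_one_le₀ hx)
    exact ⟨1, b, fun e => inv_ne_zero h0 (by rw [← hb, e, map_zero]), by simp [hb, h0]⟩

omit [IsDomain R] in
theorem IsVR.le_one (h : IsVR ι v) (a : R) : v (ι a) ≤ 1 := (h.2.2 _).2 ⟨a, rfl⟩

omit [IsDomain R] in
theorem IsVR.dvd_iff (h : IsVR ι v) (a b : R) : a ∣ b ↔ v (ι b) ≤ v (ι a) := by
  refine ⟨fun ⟨c, e⟩ => ?_, fun hb => ?_⟩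
  · rw [e, map_mul, map_mul]; exact mul_le_of_le_one_right' (h.le_one c)
  by_cases h0 : ι a = 0
  · rw [h0, map_zero, le_zero_iff, v.zero_iff, ← map_zero ι] at hb
    exact h.2.1 hb ▸ dvd_zero a
  obtain ⟨c, hc⟩ := (h.2.2 (ι b / ι a)).1 (by rw [map_div₀]; exact div_le_one_of_le₀ hb zero_le)
  exact ⟨c, h.2.1 (by rw [map_mul, hc, mul_div_cancel₀ _ h0])⟩

omit [IsDomain R] in
theorem IsVR.eq_one (h : IsVR ι v) (a : R) : v (ι a) = 1 ↔ IsUnit a := by
  rw [isUnit_iff_dvd_one, h.dvd_iff, map_one, map_one]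
  exact ⟨fun e => e.ge, (h.le_one a).antisymm⟩

omit [IsDomain R] in
theorem vcv_nu (h : IsVR ι v) {a : R} : ¬IsUnit a ↔ v (ι a) ≤ exp (-1) := by
  rw [← h.eq_one, ← lt_one_iff_le_exp, lt_iff_le_and_ne, and_iff_right (h.le_one a)]

omit [IsDomain R] in
theorem vcv_uni (h : IsVR ι v) : ∃ p, v (ι p) = exp (-1) := by
  obtain ⟨p, hp⟩ := h.1
  obtain ⟨a, rfl⟩ := (h.2.2 p).1 (hp ▸ ((lt_one_iff_le_exp _).2 le_rfl).le)
  exact ⟨a, hp⟩

omit [IsDomain R] in
theorem IsVR.irreducible_iff (h : IsVR ι v) : Irreducible π ↔ v (ι π) = exp (-1) := by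
  refine ⟨fun hπ => ?_, fun e => ⟨(vcv_nu h).2 e.le, fun a b hab => ?_⟩⟩
  · obtain ⟨p, hp⟩ := vcv_uni h
    obtain ⟨c, rfl⟩ := (h.dvd_iff p π).2 (hp ▸ (vcv_nu h).1 hπ.not_isUnit)
    rw [map_mul, map_mul, hp, (h.eq_one c).2 ((hπ.isUnit_or_isUnit rfl).resolve_left
      ((vcv_nu h).2 hp.le)), mul_one]
  · by_contra hn
    have := mul_le_mul' ((vcv_nu h).1 (not_or.1 hn).1) ((vcv_nu h).1 (not_or.1 hn).2)
    rw [← map_mul, ← map_mul, ← hab, e, ← WithZero.exp_add, WithZero.exp_le_exp] at this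
    omega

omit [IsDomain R] in
theorem IsVR.cen (h : IsVR ι v) (hπ : Irreducible π) : Cen ι v π :=
  ⟨h.le_one, fun a => by rw [h.dvd_iff, h.irreducible_iff.1 hπ, lt_one_iff_le_exp]⟩

omit [IsDomain R] in
theorem vcv_pow_dvd (h : IsVR ι v) (hp : v (ι π) = exp (-1)) (a : R) (n : ℕ) :
    v (ι (π ^ n)) = exp (-(n : ℤ)) ∧ (π ^ n ∣ a ↔ v (ι a) ≤ exp (-(n : ℤ))) := by
  have : v (ι (π ^ n)) = exp (-(n : ℤ)) := by rw [map_pow, ← zpow_natCast, vcv_pow hp]
  exact ⟨this, by rw [h.dvd_iff, this]⟩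

theorem IsVR.dvr (h : IsVR ι v) : IsDiscreteValuationRing R := by
  obtain ⟨p, hp⟩ := vcv_uni h
  refine IsDiscreteValuationRing.ofHasUnitMulPowIrreducibleFactorization
    ⟨p, h.irreducible_iff.2 hp, fun {x} hx => ?_⟩
  have h0 : ι x ≠ 0 := fun e => hx (h.2.1 (e.trans (map_zero ι).symm))
  obtain ⟨n, hn⟩ := Int.eq_ofNat_of_zero_le ((ord_nonneg_v v h0).2 (h.le_one x))
  have e := exp_neg_ord v h0
  rw [hn, ← (vcv_pow_dvd h hp x n).1] at e
  exact ⟨n, associated_of_dvd_dvd ((h.dvd_iff _ _).2 e.le) ((h.dvd_iff _ _).2 e.ge)⟩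

theorem IsVR.lt_one [IsLocalRing R] (h : IsVR ι v) (a : R) :
    v (ι a) < 1 ↔ residue R a = 0 := by
  rw [residue_eq_zero_iff, mem_maximalIdeal, mem_nonunits_iff, vcv_nu h, lt_one_iff_le_exp]

theorem IsVR.mem_pow [IsLocalRing R] (h : IsVR ι v) (a : R) (n : ℕ) :
    a ∈ maximalIdeal R ^ n ↔ v (ι a) ≤ exp (-(n : ℤ)) := by
  obtain ⟨p, hp⟩ := vcv_uni h
  have : maximalIdeal R = Ideal.span {p} := Ideal.ext fun b => by
    rw [mem_maximalIdeal, mem_nonunits_iff, vcv_nu h, Ideal.mem_span_singleton, h.dvd_iff, hp]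
  rw [this, Ideal.span_singleton_pow, Ideal.mem_span_singleton, (vcv_pow_dvd h hp a n).2]

omit [IsDomain R] in
theorem IsVR.exists_equiv (h : IsVR ι v) : ∃ e : R ≃+* v.integer, ∀ a, (e a : K) = ι a :=
  ⟨RingEquiv.ofBijective (ι.codRestrict v.integer h.le_one)
    ⟨fun _ _ e => h.2.1 (congrArg Subtype.val e), fun x =>
      ((h.2.2 x).1 x.2).imp fun _ e => Subtype.ext e⟩, fun _ => rfl⟩

theorem IsVR.exists_red [IsLocalRing R] (h : IsVR ι v) : ∃ ρ : v.integer →+* ResidueField R,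
    IsRed v ρ ∧ Function.Surjective ρ ∧ ∀ a, ρ ⟨ι a, h.le_one a⟩ = residue R a := by
  obtain ⟨e, he⟩ := h.exists_equiv
  refine ⟨(residue R).comp (e.symm : v.integer →+* R), fun x => ?_,
    residue_surjective.comp e.symm.surjective, fun a => ?_⟩
  · obtain ⟨a, rfl⟩ := e.surjective x
    rw [he, h.lt_one]; simp
  · rw [show (⟨ι a, h.le_one a⟩ : v.integer) = e a from Subtype.ext (he a).symm]; simp

theorem Nrm.isVR (h : Nrm v) : IsVR v.integer.subtype v :=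
  ⟨h, Subtype.val_injective, fun x => ⟨fun hx => ⟨⟨x, hx⟩, rfl⟩, fun ⟨a, e⟩ => e ▸ a.2⟩⟩

/-- for a discrete valuation ring, `IntOff` is given by the prolongations -/
theorem IsVR.mem_intOff {E : Type} [Field E] [Algebra K E] (h : IsVR ι v) {x : E} :
    x ∈ IntOff (tE E ι) 1 ↔ ∀ w : Vl E, Over (algebraMap K E) v w → w x ≤ 1 := by
  have := h.dvr
  obtain ⟨p, hp⟩ := IsDiscreteValuationRing.exists_irreducible R
  exact ⟨fun hx w hw => hx p w hp.prime hp.prime.not_dvd_one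
    (((h.cen hp).over h.isFr hp.prime).2 hw),
    fun hx P w hP _ hw => hx w (((h.cen hP.irreducible).over h.isFr hP).1 hw)⟩

theorem IsVR.unrOff_one {E : Type} [Field E] [Algebra K E] (h : IsVR ι v) :
    UnrOff K (tE E ι) 1 ↔ Unr E v := by
  have := h.dvr
  obtain ⟨p, hp⟩ := IsDiscreteValuationRing.exists_irreducible R
  exact ⟨fun hx w hw => hx p w hp.prime hp.prime.not_dvd_one
    (((h.cen hp).over h.isFr hp.prime).2 hw),
    fun hx P w hP _ hw => hx w (((h.cen hP.irreducible).over h.isFr hP).1 hw)⟩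

theorem vcv_smod [IsLocalRing R] (h : IsVR ι v) {a b : R} {n : ℕ} :
    a ≡ b [SMOD (maximalIdeal R ^ n • ⊤ : Submodule R R)] ↔ v (ι b - ι a) ≤ exp (-(n : ℤ)) := by
  rw [SModEq.sub_mem, smul_eq_mul, Ideal.mul_top, h.mem_pow, map_sub, v.map_sub_swap]

theorem IsVR.cpl [CDVR R] (h : IsVR ι v) : Cpl v := fun x hx => by
  choose a ha using fun n => (h.2.2 (x n - x 0)).1 (by simpa using vcv_chain hx n.zero_le)
  obtain ⟨L, hL⟩ := IsPrecomplete.prec (I := maximalIdeal R) (M := R) inferInstance (f := a)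
    fun hmn => (vcv_smod h).2 (by rw [ha, ha, sub_sub_sub_cancel_right]; exact vcv_chain hx hmn)
  refine ⟨ι L + x 0, fun n => ?_⟩
  have := (vcv_smod h).1 (hL n)
  rwa [ha, ← sub_add, sub_add_eq_add_sub] at this

theorem IsVR.cdvr (h : IsVR ι v) (hc : Cpl v) : CDVR R := by
  have := h.dvr
  refine { haus' := fun x hx => ?_, prec' := fun f hf => ?_ }
  · refine h.2.1 ((eq_zero_of_le_exp v fun n => ?_).trans (map_zero ι).symm)
    simpa using (vcv_smod h).1 (hx n)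
  · obtain ⟨y, hy⟩ := hc (fun n => ι (f n)) fun n => (vcv_smod h).1 (hf n.le_succ)
    obtain ⟨L, rfl⟩ := (h.2.2 y).1 (by
      rw [← sub_add_cancel y (ι (f 0))]
      exact v.map_add_le (by simpa using hy 0) (h.le_one _))
    exact ⟨L, fun n => (vcv_smod h).2 (hy n)⟩

theorem Cpl.dns_mem (hc : Cpl v) {φ : K →+* K'} {v' : Vl K'} (hv : Nrm v) (ho : Over φ v v')
    {x : K'} (hx : Dns φ v' x) : x ∈ φ.range := by
  obtain ⟨e, he, hi⟩ := ho.idx hv
  choose a ha using hx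
  have key : ∀ (d : K) (n : ℕ), v' (φ d) ≤ exp (-((e * n : ℕ) : ℤ)) ↔ v d ≤ exp (-(n : ℤ)) := by
    intro d n
    rcases eq_or_ne d 0 with rfl | hd
    · simp
    rw [hi d hd, ← pow_le_pow_iff_left₀ (a := v d) zero_le zero_le he, ← WithZero.exp_nsmul]
    simp
  obtain ⟨y, hy⟩ := hc (fun n => a (e * n)) fun n => (key _ n).1 (by
    rw [map_sub, ← sub_sub_sub_cancel_left _ _ x]
    exact v'.map_sub_le (ha _) ((ha _).trans (WithZero.exp_le_exp.2 (by push_cast; nlinarith))))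
  refine ⟨y, (sub_eq_zero.1 (eq_zero_of_le_exp v' fun n => ?_)).symm⟩
  have h1 := (key _ n).2 (hy n)
  rw [map_sub] at h1
  rw [← sub_sub_sub_cancel_right _ _ (φ (a (e * n)))]
  refine (v'.map_sub_le (ha _) h1).trans (WithZero.exp_le_exp.2 ?_)
  have := Nat.le_mul_of_pos_left n (Nat.pos_of_ne_zero he)
  omega

/-- if the residue fields and the value groups agree, `K` is dense -/
theorem dns_of_red {φ : K →+* K'} {v' : Vl K'} (hv : Nrm v) (hi : Idx φ v v' 1)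
    (h : ∀ x, v' x ≤ 1 → ∃ a, v' (x - φ a) < 1) (x : K') : Dns φ v' x := fun n => by
  obtain ⟨p, hp⟩ := hv
  have hq : ∀ m : ℤ, v' (φ (p ^ m)) = exp (-m) := fun m => by
    rw [idx_one_iff.1 hi, vcv_pow hp]
  have step : ∀ k : ℕ, ∃ a, v' (x - φ a) ≤ exp (-(ord v' x + k)) := by
    intro k
    induction k with
    | zero =>
      refine ⟨0, ?_⟩
      rcases eq_or_ne x 0 with rfl | hx
      · simp
      · simpa using (exp_neg_ord v' hx).le
    | succ k ih =>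
      obtain ⟨a, ha⟩ := ih
      set m := ord v' x + k
      obtain ⟨b, hb⟩ := h ((x - φ a) * φ (p ^ (-m))) (by
        rw [map_mul, hq]
        refine (mul_le_mul_left ha _).trans_eq ?_
        rw [← WithZero.exp_add]; simp)
      have h0 : φ (p ^ (-m)) * φ (p ^ m) = 1 := by
        rw [← map_mul, ← zpow_add₀ (v.ne_zero_iff.1 (hp ▸ WithZero.exp_ne_zero))]; simp
      refine ⟨a + b * p ^ m, ?_⟩
      have : x - φ (a + b * p ^ m) = ((x - φ a) * φ (p ^ (-m)) - φ b) * φ (p ^ m) := by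
        rw [map_add, map_mul, sub_mul, mul_assoc, h0]; ring
      rw [this, map_mul, hq]
      refine (mul_le_mul_left ((lt_one_iff_le_exp _).1 hb) _).trans_eq ?_
      rw [← WithZero.exp_add]; congr 1; push_cast; ring
  obtain ⟨a, ha⟩ := step (n - ord v' x).toNat
  exact ⟨a, ha.trans (WithZero.exp_le_exp.2 (by omega))⟩

end Pool.Agent.ZCy
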