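import Pool.Agent.Lib.MP_751085_ag.ZC.V.D

/-! Block V: Hensel lemma and substitutions in power series rings. -/

namespace Pool.Agent.ZCy

open scoped Classical WithZero Polynomial PowerSeries LaurentSeries
open WithZero (exp)

variable {A B σ : Type} [CommRing A] [CommRing B] {f : A →+* B} {y : σ → B}

/-- a homomorphism into power series whose coefficients lie in a subring -/
theorem exists_ps_sub (S : Subring B) (β : A →+* B⟦X⟧) (h : ∀ a n, PowerSeries.coeff n (β a) ∈ S) :
    ∃ β' : A →+* S⟦X⟧, ∀ a, PowerSeries.map S.subtype (β' a) = β a := by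
  have hi : Function.Injective (PowerSeries.map S.subtype) :=
    PowerSeries.map_injective _ S.subtype_injective
  have h1 : ∀ a, ∃ b : S⟦X⟧, PowerSeries.map S.subtype b = β a := fun a =>
    ⟨PowerSeries.mk fun n => ⟨_, h a n⟩, PowerSeries.ext fun n => by simp⟩
  choose b hb using h1
  exact ⟨⟨⟨⟨b, hi (by simp [hb])⟩, fun x y => hi (by simp [hb])⟩, hi (by simp [hb]),
    fun x y => hi (by simp [hb])⟩, hb⟩

theorem vhen_ker [Finite σ] : RingHom.ker (MvPowerSeries.constantCoeff : MvPowerSeries σ A →+* A) =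
    Ideal.span (Set.range MvPowerSeries.X) := by
  refine le_antisymm (fun p hp => ?_) (Ideal.span_le.2 ?_)
  · have := Fintype.ofFinite σ
    have h1 : ∀ n : σ →₀ ℕ, ∃ o : Option σ, (n ≠ 0 → o ≠ none) ∧ ∀ i, o = some i → n i ≠ 0 :=
      fun n => by
        by_cases hn : n = 0
        · exact ⟨none, fun h => (h hn).elim, fun i h => by cases h⟩
        · obtain ⟨i, hi⟩ := Finsupp.ne_iff.1 hn
          exact ⟨some i, fun _ => Option.some_ne_none i, fun j h => Option.some.inj h ▸ hi⟩
    choose c hc hc' using h1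
    let g : σ → MvPowerSeries σ A := fun i n =>
      if c (n + Finsupp.single i 1) = some i then MvPowerSeries.coeff (n + Finsupp.single i 1) p else 0
    have h2 : p = ∑ i, MvPowerSeries.X i * g i := by
      ext n
      have h3 : ∀ i, MvPowerSeries.coeff n (MvPowerSeries.X i * g i) =
          if c n = some i then MvPowerSeries.coeff n p else 0 := fun i => by
        rw [MvPowerSeries.X_def, MvPowerSeries.coeff_monomial_mul]
        by_cases hi : Finsupp.single i 1 ≤ n
        · rw [if_pos hi, one_mul]
          change (if c (n - _ + _) = some i then MvPowerSeries.coeff (n - _ + _) p else 0) = _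
          rw [tsub_add_cancel_of_le hi]
        · rw [if_neg hi, if_neg fun h =>
            hi (Finsupp.single_le_iff.2 (Nat.one_le_iff_ne_zero.2 (hc' n i h)))]
      rw [map_sum, Finset.sum_congr rfl fun i _ => h3 i]
      rcases hcn : c n with _ | j
      · have : n = 0 := by_contra fun h => hc n h hcn
        simpa [this] using (RingHom.mem_ker.1 hp)
      · simp
    rw [h2]
    exact Ideal.sum_mem _ fun i _ => Ideal.mul_mem_right _ _ (Ideal.subset_span ⟨i, rfl⟩)
  · rintro _ ⟨i, rfl⟩
    exact MvPowerSeries.constantCoeff_X i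

/-- Hensel's lemma in power series rings -/
theorem mv_hensel [Finite σ] (h : (MvPowerSeries σ A)[X]) (hm : h.Monic) (z₀ : A)
    (h0 : h.eval₂ MvPowerSeries.constantCoeff z₀ = 0)
    (hu : IsUnit (h.derivative.eval₂ MvPowerSeries.constantCoeff z₀)) :
    ∃! z, h.eval z = 0 ∧ MvPowerSeries.constantCoeff z = z₀ := by
  have he : ∀ (q : (MvPowerSeries σ A)[X]) (z : MvPowerSeries σ A),
      MvPowerSeries.constantCoeff (q.eval z) =
        q.eval₂ MvPowerSeries.constantCoeff (MvPowerSeries.constantCoeff z) := fun q z =>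
    (Polynomial.eval₂_at_apply _ _).symm
  have hH : HenselianRing (MvPowerSeries σ A) (Ideal.span (Set.range MvPowerSeries.X)) :=
    inferInstance
  rw [← vhen_ker] at hH
  obtain ⟨z, hz, hz0⟩ := hH.is_henselian h hm (MvPowerSeries.C z₀)
    (by rw [RingHom.mem_ker, he, MvPowerSeries.constantCoeff_C, h0])
    (IsUnit.map _ (MvPowerSeries.isUnit_iff_constantCoeff.2
      (by rwa [he, MvPowerSeries.constantCoeff_C])))
  rw [RingHom.mem_ker, map_sub, MvPowerSeries.constantCoeff_C, sub_eq_zero] at hz0
  refine ⟨z, ⟨hz, hz0⟩, fun w ⟨hw, hw0⟩ => ?_⟩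
  obtain ⟨k, hk⟩ := h.binomExpansion z (w - z)
  rw [add_sub_cancel, hw, hz.eq_zero, zero_add, sq, ← mul_assoc, ← add_mul] at hk
  have hU : IsUnit (h.derivative.eval z + k * (w - z)) :=
    MvPowerSeries.isUnit_iff_constantCoeff.2
      (by rwa [map_add, map_mul, map_sub, hw0, he, hz0, sub_self, mul_zero, add_zero])
  exact sub_eq_zero.1 (hU.mul_right_eq_zero.1 hk.symm)

theorem henselian_ps (A : Type) [CommRing A] :
    HenselianRing A⟦X⟧ (RingHom.ker (PowerSeries.constantCoeff : A⟦X⟧ →+* A)) := by
  have : RingHom.ker (PowerSeries.constantCoeff : A⟦X⟧ →+* A) = Ideal.span {PowerSeries.X} :=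
    Ideal.ext fun a => by rw [RingHom.mem_ker, Ideal.mem_span_singleton, PowerSeries.X_dvd_iff]
  rw [this]
  infer_instance

theorem sbs_C (t : B) (e : ℕ) (a : A) : sbs f t e (Polynomial.C a) = PowerSeries.C (f a) := by
  simp [sbs]

theorem sbs_X (t : B) (e : ℕ) : sbs f t e Polynomial.X = PowerSeries.C t + PowerSeries.X ^ e := by
  simp [sbs]

theorem sbs_eq (t : B) (e : ℕ) (p : A[X]) :
    sbs f t e p = (Polynomial.expand B e (Polynomial.taylor t (p.map f)) : B⟦X⟧) := by
  have : sbs f t e = (Polynomial.coeToPowerSeries.ringHom.comp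
      ((Polynomial.expand B e : B[X] →+* B[X]).comp ((Polynomial.taylorAlgHom t : B[X] →+* B[X]).comp
        (Polynomial.mapRingHom f)))) :=
    Polynomial.ringHom_ext (fun a => by simp [sbs_C]) (by simp [sbs_X, add_comm])
  exact DFunLike.congr_fun this p

theorem map_sbs {C : Type} [CommRing C] (g : B →+* C) (t : B) (e : ℕ) (p : A[X]) :
    PowerSeries.map g (sbs f t e p) = sbs (g.comp f) (g t) e p := by
  have : (PowerSeries.map g).comp (sbs f t e) = sbs (g.comp f) (g t) e :=
    Polynomial.ringHom_ext (fun a => by simp [sbs_C]) (by simp [sbs_X])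
  exact DFunLike.congr_fun this p

theorem sbs_inj (h : Function.Injective f) (t : B) {e : ℕ} (he : e ≠ 0) :
    Function.Injective (sbs f t e) := fun p q hpq => by
  rw [sbs_eq, sbs_eq] at hpq
  exact Polynomial.map_injective f h (Polynomial.taylor_injective t
    (Polynomial.expand_injective (Nat.pos_of_ne_zero he) (Polynomial.coe_injective B hpq)))

end Pool.Agent.ZCy
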