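import Pool.Agent.Lib.MP_751085_ag.ZC.V.IntB
import Pool.Agent.Lib.MP_751085_ag.ZC.V.Ctr

/-! Block V: the branch locus under base change. -/

namespace Pool.Agent.ZCy

open scoped Classical WithZero Polynomial PowerSeries LaurentSeries
open WithZero (exp)

variable {A A' K K' E E' : Type} [CommRing A] [CommRing A'] [Field K] [Field K'] [Field E]
  [Field E'] {w : Vl E} {Θ : A}

variable [Algebra K E] [Algebra K' E'] {α : A →+* K} {α' : A' →+* K'} {φ : K →+* K'} {j : E →+* E'}
  {r : (E' ≃ₐ[K'] E') →* (E ≃ₐ[K] E)} {w' : Vl E'}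

theorem ine_bot_of_cen [Algebra.IsAlgebraic K E] (hα : IsFr α) (hr : Rs j r)
    (hi : Function.Injective r) (hu : UnrOff K (tE E α) Θ) (hΘ : w' (j (tE E α Θ)) = 1)
    (h : (∀ a, a ≠ 0 → w' (j (tE E α a)) = 1) ∨ ∃ P, Prime P ∧ Cen (j.comp (tE E α)) w' P) :
    Ine K' w' = ⊥ := by
  refine hr.ine_bot hi (Over.comap j w') ?_
  rcases h with h | ⟨P, hP, h⟩
  · refine ine_bot_of_triv fun x hx =>
      Triv.eq_one (K := K) (fun y hy => ?_) hx (Algebra.IsAlgebraic.isAlgebraic x)
    obtain ⟨a, b, hb, e⟩ := hα.2 y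
    have ha : a ≠ 0 := by
      rintro rfl
      exact mul_ne_zero hy ((map_ne_zero_iff α hα.1).2 hb) (e.trans (map_zero α))
    have := congrArg (fun z => w' (j (algebraMap K E z))) e
    simp only [map_mul] at this
    exact (mul_one _).symm.trans ((congrArg _ (h b hb).symm).trans (this.trans (h a ha)))
  · exact hu P _ hP ((h.eq_one Θ).1 hΘ) ((cen_of_over (Over.comap j w')).1 h)

theorem unrOff_bc [UniqueFactorizationMonoid A] [IsDomain A'] [Algebra.IsAlgebraic K E]
    (hα : IsFr α) {ψ : A →+* A'} (hf : ψ.Flat) (hψ : Function.Injective ψ)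
    (hc : ∀ a, j (tE E α a) = tE E' α' (ψ a)) (hr : Rs j r) (hi : Function.Injective r)
    (hu : UnrOff K (tE E α) Θ) : UnrOff K' (tE E' α') (ψ Θ) := fun P w' hP hn h => by
  have := hα.isDomain
  have e : j.comp (tE E α) = (tE E' α').comp ψ := RingHom.ext hc
  refine ine_bot_of_cen hα hr hi hu (hc Θ ▸ (h.eq_one _).2 hn) ?_
  simp only [hc, e]
  exact cen_of_flat hf hψ hP h

/-- a prime that divides a nonzero constant divides the uniformiser -/
theorem vbcu_dvd {R : Type} [CommRing R] [IsDomain R] [IsDiscreteValuationRing R] (c : R →+* A)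
    {π a : R} (hπ : Irreducible π) (ha : a ≠ 0) {P : A} (hP : Prime P) (h : P ∣ c a) : P ∣ c π := by
  obtain ⟨n, hn⟩ := IsDiscreteValuationRing.associated_pow_irreducible ha hπ
  exact hP.dvd_of_dvd_pow (map_pow c π n ▸ h.trans (map_dvd c hn.dvd))

/-- base change of `A[X]` along a map to a discrete valuation ring with centre `p` -/
theorem unrOff_bc_dvr {R : Type} [CommRing R] [IsDomain R] [IsDiscreteValuationRing R]
    [UniqueFactorizationMonoid A] [Algebra.IsAlgebraic K E] {α : A[X] →+* K} {α' : R[X] →+* K'}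
    (hα : IsFr α) {ψ : A →+* R} (hψ : Function.Injective ψ) {p : A} (hp : Prime p)
    (hm : ∀ a, ¬IsUnit (ψ a) ↔ p ∣ a) (hc : ∀ f, j (tE E α f) = tE E' α' (f.map ψ)) (hr : Rs j r)
    (hi : Function.Injective r) {Θ : A[X]} (hu : UnrOff K (tE E α) Θ) :
    UnrOff K' (tE E' α') (Θ.map ψ) := fun P w' hP hn h => by
  have := hψ.isDomain
  refine ine_bot_of_cen hα hr hi hu (hc Θ ▸ (h.eq_one _).2 hn) ?_
  have h1 : ∀ f, w' (j.comp (tE E α) f) ≤ 1 := fun f => (congrArg w' (hc f)).trans_le (h.1 _)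
  obtain ⟨π, hπ⟩ := IsDiscreteValuationRing.exists_irreducible R
  by_cases hd : P ∣ Polynomial.C π
  · have h2 := h.assoc (hP.associated_of_dvd (Polynomial.prime_C_iff.2 hπ.prime) hd)
    refine .inr ⟨Polynomial.C p, Polynomial.prime_C_iff.2 hp, h1, fun f => ?_⟩
    rw [RingHom.comp_apply, hc, h2.2, Polynomial.C_dvd_iff_dvd_coeff,
      Polynomial.C_dvd_iff_dvd_coeff]
    refine forall_congr' fun i => ?_
    rw [Polynomial.coeff_map, ← hm, ← Ideal.mem_span_singleton, ← hπ.maximalIdeal_eq]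
    rfl
  · refine cen_poly h1 fun a ha => (congrArg w' (hc _)).trans ((h.eq_one _).2 fun e => hd ?_)
    rw [Polynomial.map_C] at e
    exact vbcu_dvd _ hπ ((map_ne_zero_iff ψ hψ).2 ha) hP e

/-- inverting the nonzero constants -/
theorem vbcu_loc {R : Type} [CommRing R] [IsDomain R] [IsDiscreteValuationRing R] [IsDomain A]
    [IsDomain A'] [Algebra A A'] (c : R →+* A) [IsLocalization ((nonZeroDivisors R).map c) A']
    (hι : Function.Injective (algebraMap A A')) {π : R} (hπ : Irreducible π) {φ : A' →+* E}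
    (hu : UnrOff K φ (algebraMap A A' Θ)) : UnrOff K (φ.comp (algebraMap A A')) (c π * Θ) :=
  fun P w hP hn h => by
  obtain ⟨h1, h2, h3⟩ := cen_local hι ((nonZeroDivisors R).map c)
    (fun s hs => IsLocalization.map_units (M := (nonZeroDivisors R).map c) A' ⟨s, hs⟩)
    (fun y => by
      obtain ⟨⟨a, s⟩, e⟩ := IsLocalization.surj ((nonZeroDivisors R).map c) y
      exact ⟨s, s.2, a, e⟩) hP
    (by
      rintro _ ⟨a, ha, rfl⟩ e
      exact hn ((vbcu_dvd c hπ (nonZeroDivisors.ne_zero ha) hP e).mul_right _)) h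
  exact hu _ w h1 (fun e => hn ((h3 _ e).mul_left _)) h2

/-- from `KK[X]` to `R[X]` -/
theorem unrOff_of_frac_poly {R KK : Type} [CommRing R] [IsDomain R] [IsDiscreteValuationRing R]
    [Field KK] {ι : R →+* KK} (hι : IsFr ι) {π : R} (hπ : Irreducible π) {φ : KK[X] →+* E}
    {Θ : R[X]} (hu : UnrOff K φ (Θ.map ι)) :
    UnrOff K (φ.comp (Polynomial.mapRingHom ι)) (Polynomial.C π * Θ) := by
  let := ι.toAlgebra
  have := hι.frac
  let := Polynomial.algebra R KK
  have := Polynomial.isLocalization (nonZeroDivisors R) KK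
  exact vbcu_loc Polynomial.C (Polynomial.map_injective ι hι.1) hπ hu

theorem unrOff_of_frac_mv {R KK σ : Type} [CommRing R] [IsDomain R] [IsDiscreteValuationRing R]
    [Field KK] {ι : R →+* KK} (hι : IsFr ι) {π : R} (hπ : Irreducible π)
    {φ : MvPolynomial σ KK →+* E} {Θ : MvPolynomial σ R} (hu : UnrOff K φ (Θ.map ι)) :
    UnrOff K (φ.comp (MvPolynomial.map ι)) (MvPolynomial.C π * Θ) := by
  let := ι.toAlgebra
  have := hι.frac
  let : Algebra (MvPolynomial σ R) (MvPolynomial σ KK) := MvPolynomial.algebraMvPolynomial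
  exact vbcu_loc MvPolynomial.C (MvPolynomial.map_injective ι hι.1) hπ hu

theorem unrOff_inv [IsDomain A] {φ φ' : A[X] →+* E}
    (hC : ∀ a, φ' (Polynomial.C a) = φ (Polynomial.C a))
    (hX : φ' Polynomial.X * φ Polynomial.X = 1) {Ψ : A[X]} (hu : UnrOff K φ Ψ) :
    UnrOff K φ' (Polynomial.X * Ψ.reverse) := fun _ w hP hn h =>
  have ⟨h1, h2, h3⟩ := cen_inv hC hX hP (fun e => hn (e.mul_right _)) h
  hu _ w h1 (fun e => hn ((h3 _ e).mul_left _)) h2

end Pool.Agent.ZCy
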