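import Pool.Agent.Lib.MP_751085_ag.ZC.V.D

/-! Block V: presentations of fraction fields. -/

namespace Pool.Agent.ZCy

open scoped Classical WithZero Polynomial PowerSeries LaurentSeries
open WithZero (exp)

variable {A K K' K'' E Ω : Type} [CommRing A] [Field K] [Field K'] [Field K''] [Field E] [Field Ω]
  {v : Vl K} {v' : Vl K'} {v'' : Vl K''} {φ : K →+* K'} {ψ : K' →+* K''} {x y : K}

theorem isFr_alg (A K : Type) [CommRing A] [Field K] [Algebra A K] [IsFractionRing A K] :
    IsFr (algebraMap A K) := by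
  have := (algebraMap A K).domain_nontrivial
  refine ⟨IsFractionRing.injective A K, fun x => ?_⟩
  obtain ⟨⟨a, b⟩, hx⟩ := IsLocalization.surj (nonZeroDivisors A) x
  exact ⟨a, b, nonZeroDivisors.ne_zero b.2, hx⟩

theorem IsFr.vfrc_ne {α : A →+* K} (h : IsFr α) {b : A} (hb : b ≠ 0) : α b ≠ 0 :=
  fun e => hb (h.1 (e.trans (map_zero α).symm))

theorem IsFr.frac {α : A →+* K} (h : IsFr α) : letI := α.toAlgebra; IsFractionRing A K := by
  let := α.toAlgebra
  have : FaithfulSMul A K := (faithfulSMul_iff_algebraMap_injective A K).2 h.1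
  refine IsFractionRing.of_field A K fun x => ?_
  obtain ⟨a, b, hb, hx⟩ := h.2 x
  exact ⟨a, b, eq_div_of_mul_eq (h.vfrc_ne hb) hx⟩

theorem IsFr.isDomain {α : A →+* K} (h : IsFr α) : IsDomain A := h.1.isDomain α

theorem IsFr.exists_lift {α : A →+* K} (h : IsFr α) {β : A →+* K'} (hβ : Function.Injective β) :
    ∃ φ : K →+* K', ∀ a, φ (α a) = β a := by
  let := α.toAlgebra
  have := h.frac
  have := h.isDomain
  exact ⟨IsFractionRing.lift hβ, fun a => IsFractionRing.lift_algebraMap hβ a⟩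

theorem IsFr.hom_ext {α : A →+* K} (h : IsFr α) {φ φ' : K →+* K'} (e : ∀ a, φ (α a) = φ' (α a)) :
    φ = φ' := by
  ext x
  obtain ⟨a, b, hb, hx⟩ := h.2 x
  rw [eq_div_of_mul_eq (h.vfrc_ne hb) hx, map_div₀, map_div₀, e, e]

theorem IsFr.comp_equiv {A' : Type} [CommRing A'] {α : A →+* K} (h : IsFr α) (e : A' ≃+* A) :
    IsFr (α.comp (e : A' →+* A)) := by
  refine ⟨h.1.comp e.injective, fun x => ?_⟩
  obtain ⟨a, b, hb, hx⟩ := h.2 x
  exact ⟨e.symm a, e.symm b, by simpa using hb, by simpa using hx⟩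

theorem vfrc_gen {B C : Type} [CommRing B] [CommRing C] {f : B →+* C} (hf : Function.Injective f)
    {β : C →+* K'} (hβ : IsFr β) (hc : ∀ p : C, ∃ d q : B, f d ≠ 0 ∧ f q = f d * p) :
    IsFr (β.comp f) := by
  have := hβ.isDomain
  refine ⟨hβ.1.comp hf, fun x => ?_⟩
  obtain ⟨p, q, hq, hx⟩ := hβ.2 x
  obtain ⟨d, q', hd, e1⟩ := hc q
  obtain ⟨c, p', hc', e2⟩ := hc p
  refine ⟨p' * d, q' * c, fun e => ?_, ?_⟩
  · have := congrArg f e
    rw [map_mul, map_zero, e1] at this
    exact mul_ne_zero (mul_ne_zero hd hq) hc' this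
  · simp only [RingHom.comp_apply, map_mul, e1, e2, ← hx]
    ring

theorem IsFr.vfrc_poly {α : A →+* K} (h : IsFr α) (p : K[X]) :
    ∃ d q : A[X], Polynomial.mapRingHom α d ≠ 0 ∧
      Polynomial.mapRingHom α q = Polynomial.mapRingHom α d * p := by
  induction p using Polynomial.induction_on' with
  | add p q hp hq =>
    obtain ⟨d, p', hd, e1⟩ := hp
    obtain ⟨c, q', hc, e2⟩ := hq
    refine ⟨d * c, p' * c + q' * d, by rw [map_mul]; exact mul_ne_zero hd hc, ?_⟩
    simp only [map_add, map_mul, e1, e2]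
    ring
  | monomial n x =>
    obtain ⟨a, b, hb, hx⟩ := h.2 x
    refine ⟨Polynomial.C b, Polynomial.monomial n a, by simpa using h.vfrc_ne hb, ?_⟩
    simp [Polynomial.C_mul_monomial, ← hx, mul_comm x]

theorem IsFr.poly {α : A →+* K} (h : IsFr α) {β : K[X] →+* K'} (hβ : IsFr β) :
    IsFr (β.comp (Polynomial.mapRingHom α)) :=
  vfrc_gen (Polynomial.map_injective α h.1) hβ h.vfrc_poly

theorem IsFr.mv {σ : Type} {α : A →+* K} (h : IsFr α) {β : MvPolynomial σ K →+* K'} (hβ : IsFr β) :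
    IsFr (β.comp (MvPolynomial.map α)) := by
  refine vfrc_gen (MvPolynomial.map_injective α h.1) hβ fun p => ?_
  induction p using MvPolynomial.induction_on' with
  | add p q hp hq =>
    obtain ⟨d, p', hd, e1⟩ := hp
    obtain ⟨c, q', hc, e2⟩ := hq
    refine ⟨d * c, p' * c + q' * d, by rw [map_mul]; exact mul_ne_zero hd hc, ?_⟩
    simp only [map_add, map_mul, e1, e2]
    ring
  | monomial n x =>
    obtain ⟨a, b, hb, hx⟩ := h.2 x
    refine ⟨MvPolynomial.C b, MvPolynomial.monomial n a, by simpa using h.vfrc_ne hb, ?_⟩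
    simp [MvPolynomial.C_mul_monomial, ← hx, mul_comm x]

/-- the fraction field of `A[X]` is the fraction field of `K[X]` -/
theorem IsFr.exists_poly {α : A →+* K} (h : IsFr α) {β : A[X] →+* K'} (hβ : IsFr β) :
    ∃ γ : K[X] →+* K', IsFr γ ∧ γ.comp (Polynomial.mapRingHom α) = β := by
  obtain ⟨φ, hφ⟩ := h.exists_lift (β := β.comp Polynomial.C) (hβ.1.comp Polynomial.C_injective)
  have e : (Polynomial.eval₂RingHom φ (β Polynomial.X)).comp (Polynomial.mapRingHom α) = β :=
    Polynomial.ringHom_ext (fun a => by simp [hφ]) (by simp)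
  have e' := RingHom.congr_fun e
  refine ⟨_, ⟨(injective_iff_map_eq_zero _).2 fun p hp => ?_, fun x => ?_⟩, e⟩
  · obtain ⟨d, q, hd, e1⟩ := h.vfrc_poly p
    have hq : β q = 0 := by rw [← e', RingHom.comp_apply, e1, map_mul, hp, mul_zero]
    rw [hβ.1 (hq.trans (map_zero β).symm), map_zero] at e1
    exact (mul_eq_zero.1 e1.symm).resolve_left hd
  · obtain ⟨a, b, hb, hx⟩ := hβ.2 x
    refine ⟨Polynomial.mapRingHom α a, Polynomial.mapRingHom α b, fun e0 => hb ?_, ?_⟩
    · exact Polynomial.map_injective α h.1 (e0.trans (Polynomial.map_zero α).symm)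
    · rw [← e' a, ← e' b] at hx
      exact hx

end Pool.Agent.ZCy
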