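import Pool.Agent.Lib.MP_751085_ag.ZC.V.Red
import Pool.Agent.Lib.MP_751085_ag.ZC.V.Frc

/-! Block V: valuations of primes, integrality. -/

namespace Pool.Agent.ZCy

open scoped Classical WithZero Polynomial PowerSeries LaurentSeries
open WithZero (exp)

variable {A A' K E T κ : Type} [CommRing A] [CommRing A'] [Field K] [Field E] [CommRing T] [Field κ]
  {α : A →+* K} {φ : A →+* E} {P Θ Θ' : A} {v v' : Vl K} {w : Vl E}

theorem Cen.eq_one (h : Cen φ w P) (a : A) : w (φ a) = 1 ↔ ¬P ∣ a := by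
  rw [← h.2, not_lt]
  exact ⟨fun e => e.ge, (h.1 a).antisymm⟩

theorem Cen.congr {u : Vl E} (h : Cen φ w P) (e : ∀ x, u x ≤ 1 ↔ w x ≤ 1) : Cen φ u P :=
  ⟨fun a => (e _).2 (h.1 a), fun a =>
    (Over.lt_one (φ := RingHom.id E) (v := w) (v' := u) e _).trans (h.2 a)⟩

theorem Cen.assoc {Q : A} (h : Cen φ w P) (e : Associated P Q) : Cen φ w Q :=
  ⟨h.1, fun a => (h.2 a).trans e.dvd_iff_dvd_left⟩

theorem Cen.prime (h : Cen φ w P) (h0 : P ≠ 0) : Prime P := by
  refine ⟨h0, fun hu => (h.eq_one 1).1 (by simp) hu.dvd, fun a b hab => ?_⟩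
  by_contra hn
  rw [not_or, ← h.eq_one, ← h.eq_one] at hn
  exact (h.eq_one _).1 (by rw [map_mul, map_mul, hn.1, hn.2, mul_one]) hab

theorem cen_of_over {E' : Type} [Field E'] {j : E →+* E'} {w' : Vl E'} (ho : Over j w w') :
    Cen (j.comp φ) w' P ↔ Cen φ w P :=
  and_congr (forall_congr' fun _ => ho _)
    (forall_congr' fun _ => iff_congr (ho.lt_one _) Iff.rfl)

theorem cen_equiv (e : A' ≃+* A) {Q : A'} : Cen (φ.comp (e : A' →+* A)) w Q ↔ Cen φ w (e Q) := by
  simp only [Cen, e.surjective.forall, map_dvd_iff, RingHom.comp_apply, RingHom.coe_coe]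

theorem intOff_equiv (e : A' ≃+* A) (Q : A') :
    IntOff (φ.comp (e : A' →+* A)) Q = IntOff φ (e Q) :=
  Subring.ext fun _ => (e.surjective.forall.trans (forall₂_congr fun _ _ =>
    imp_congr (MulEquiv.prime_iff e) (imp_congr (map_dvd_iff e).not
      (imp_congr (cen_equiv e).symm Iff.rfl)))).symm

theorem intOff_mono {n : ℕ} (h : Θ ∣ Θ' ^ n) : IntOff φ Θ ≤ IntOff φ Θ' :=
  fun _ hx P w h1 h2 h3 => hx P w h1 (fun h4 => h2 (h1.dvd_of_dvd_pow (h4.trans h))) h3

theorem intOff_of_isUnit (h : IsUnit Θ) : IntOff φ Θ = IntOff φ 1 :=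
  (intOff_mono (n := 1) h.dvd).antisymm (intOff_mono (n := 0) (by simp))

theorem intOff_field (φ : κ →+* E) (Θ : κ) : IntOff φ Θ = ⊤ :=
  eq_top_iff.2 fun _ _ _ _ h1 => (h1.not_isUnit (IsUnit.mk0 _ h1.ne_zero)).elim

theorem isUnit_toInt (h : φ Θ ≠ 0) : IsUnit (toInt φ Θ Θ) :=
  .of_mul_eq_one ⟨(φ Θ)⁻¹, fun _ w _ h2 h3 => by rw [map_inv₀, (h3.eq_one Θ).2 h2, inv_one]⟩
    (Subtype.ext (mul_inv_cancel₀ h))

theorem mem_intOff_of_int {x : E} (hx : φ.IsIntegralElem x) : x ∈ IntOff φ Θ :=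
  fun _ _ _ _ h => le_one_of_int h.1 hx

/-- the valuation of a prime on the ring -/
noncomputable def vhar_val [IsDomain A] [WfDvdMonoid A] (hP : Prime P) : Valuation A ℤᵐ⁰ where
  toFun a := if a = 0 then 0 else exp (-(multiplicity P a : ℤ))
  map_zero' := if_pos rfl
  map_one' := by rw [if_neg one_ne_zero, multiplicity_eq_zero.2 hP.not_dvd_one]; rfl
  map_mul' a b := by
    by_cases ha : a = 0
    · simp [ha]
    by_cases hb : b = 0
    · simp [hb]
    rw [if_neg (mul_ne_zero ha hb), if_neg ha, if_neg hb,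
      multiplicity_mul hP (.of_prime_left hP (mul_ne_zero ha hb)), ← WithZero.exp_add,
      Nat.cast_add, neg_add]
  map_add_le_max' a b := by
    by_cases ha : a = 0
    · simp [ha]
    by_cases hb : b = 0
    · simp [hb]
    by_cases h : a + b = 0
    · simp [h]
    have := (FiniteMultiplicity.of_prime_left hP h).pow_dvd_iff_le_multiplicity.1 (dvd_add
      ((pow_dvd_pow P (min_le_left _ (multiplicity P b))).trans (pow_multiplicity_dvd P a))
      ((pow_dvd_pow P (min_le_right (multiplicity P a) _)).trans (pow_multiplicity_dvd P b)))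
    simp only [if_neg ha, if_neg hb, if_neg h, le_max_iff, WithZero.exp_le_exp]
    omega

theorem vhar_val_apply [IsDomain A] [WfDvdMonoid A] (hP : Prime P) {a : A} (ha : a ≠ 0) :
    vhar_val hP a = exp (-(multiplicity P a : ℤ)) := if_neg ha

/-- the valuation of a prime: `exp (-multiplicity P a)`, extended to the fraction field -/
theorem exists_vcen [WfDvdMonoid A] (hα : IsFr α) (hP : Prime P) :
    ∃ v : Vl K, Cen α v P ∧ v (α P) = exp (-1) := by
  have := hα.isDomain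
  let := α.toAlgebra
  have := hα.frac
  have hS : nonZeroDivisors A ≤ (vhar_val hP).supp.primeCompl := fun a ha h => by
    have h' : vhar_val hP a = 0 := h
    rw [vhar_val_apply hP (nonZeroDivisors.ne_zero ha)] at h'
    exact WithZero.exp_ne_zero h'
  have e : ∀ a, (vhar_val hP).extendToLocalization hS K (α a) = vhar_val hP a :=
    Valuation.extendToLocalization_apply_map_apply _ hS K
  refine ⟨(vhar_val hP).extendToLocalization hS K, ⟨fun a => ?_, fun a => ?_⟩, ?_⟩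
  · rw [e]
    by_cases ha : a = 0
    · simp [ha]
    rw [vhar_val_apply hP ha, ← WithZero.exp_zero, WithZero.exp_le_exp]
    omega
  · rw [e]
    by_cases ha : a = 0
    · simp [ha]
    rw [vhar_val_apply hP ha, ← WithZero.exp_zero, WithZero.exp_lt_exp, ← not_iff_not,
      ← multiplicity_eq_zero]
    omega
  · rw [e, vhar_val_apply hP hP.ne_zero, multiplicity_self, Nat.cast_one]

theorem Cen.exists_zpow [WfDvdMonoid A] (hα : IsFr α) (hP : Prime P) (h : Cen α v P) {x : K}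
    (hx : x ≠ 0) : ∃ (n : ℤ) (a b : A), ¬P ∣ a ∧ ¬P ∣ b ∧ x * α b = α P ^ n * α a := by
  obtain ⟨a, b, hb, e⟩ := hα.2 x
  have h0 : α P ≠ 0 := (map_ne_zero_iff α hα.1).2 hP.ne_zero
  have ha : a ≠ 0 := by
    rintro rfl
    exact mul_ne_zero hx ((map_ne_zero_iff α hα.1).2 hb) (e.trans (map_zero α))
  obtain ⟨n, a, h1, rfl⟩ := WfDvdMonoid.max_power_factor' ha hP.not_isUnit
  obtain ⟨m, b, h2, rfl⟩ := WfDvdMonoid.max_power_factor' hb hP.not_isUnit
  refine ⟨n - m, a, b, h1, h2, mul_left_cancel₀ (pow_ne_zero m h0) ?_⟩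
  rw [map_mul, map_mul, map_pow, map_pow] at e
  rw [mul_left_comm, e, ← mul_assoc, ← zpow_natCast, ← zpow_natCast, ← zpow_add₀ h0,
    add_sub_cancel]

theorem Cen.le_one_iff [WfDvdMonoid A] (hα : IsFr α) (hP : Prime P) (h : Cen α v P) (x : K) :
    v x ≤ 1 ↔ ∃ a b, ¬P ∣ b ∧ x * α b = α a := by
  constructor
  · intro hx
    by_cases h0 : x = 0
    · exact ⟨0, 1, hP.not_dvd_one, by simp [h0]⟩
    obtain ⟨n, a, b, h1, h2, e⟩ := h.exists_zpow hα hP h0
    have e' := congrArg v e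
    rw [map_mul, map_mul, (h.eq_one a).2 h1, (h.eq_one b).2 h2, mul_one, mul_one, map_zpow₀] at e'
    have h3 : 0 < v (α P) := zero_lt_iff.2
      ((Valuation.ne_zero_iff v).2 ((map_ne_zero_iff α hα.1).2 hP.ne_zero))
    rw [e', zpow_le_one_iff_right_of_lt_one₀ h3 ((h.2 P).2 dvd_rfl)] at hx
    lift n to ℕ using hx
    exact ⟨P ^ n * a, b, h2, by rw [e, map_mul, map_pow, zpow_natCast]⟩
  · rintro ⟨a, b, h2, e⟩
    have := h.1 a
    rwa [← e, map_mul, (h.eq_one b).2 h2, mul_one] at this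

theorem Cen.iff [WfDvdMonoid A] (hα : IsFr α) (hP : Prime P) (h : Cen α v P) (h' : Cen α v' P)
    (x : K) : v' x ≤ 1 ↔ v x ≤ 1 :=
  (h'.le_one_iff hα hP x).trans (h.le_one_iff hα hP x).symm

theorem Cen.val_zpow [WfDvdMonoid A] (hα : IsFr α) (hP : Prime P) (h : Cen α v P) {x : K}
    (hx : x ≠ 0) : ∃ n : ℤ, v x = v (α P) ^ n := by
  obtain ⟨n, a, b, h1, h2, e⟩ := h.exists_zpow hα hP hx
  have e' := congrArg v e
  rw [map_mul, map_mul, (h.eq_one a).2 h1, (h.eq_one b).2 h2, mul_one, mul_one, map_zpow₀] at e'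
  exact ⟨n, e'⟩

/-- the residue map of the valuation of a prime -/
theorem Cen.exists_red [WfDvdMonoid A] (hα : IsFr α) (hP : Prime P) (h : Cen α v P) {l : A →+* κ}
    (hl : ∀ a, l a = 0 ↔ P ∣ a) : ∃ ρ : v.integer →+* κ, IsRed v ρ ∧
      (∀ a, ρ ⟨α a, h.1 a⟩ = l a) ∧
      ((∀ y, ∃ a b, l b ≠ 0 ∧ y * l b = l a) → Function.Surjective ρ) := by
  let β : A →+* v.integer := α.codRestrict _ h.1
  let := β.toAlgebra
  let M : Submonoid A := (nonZeroDivisors κ).comap l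
  have hM : ∀ b, b ∈ M ↔ ¬P ∣ b := fun b => mem_nonZeroDivisors_iff_ne_zero.trans (hl b).not
  have hs : ∀ x : v.integer, ∃ a b, ¬P ∣ b ∧ x * β b = β a := fun x =>
    ((h.le_one_iff hα hP x).1 x.2).imp fun _ => .imp fun _ e => ⟨e.1, Subtype.ext e.2⟩
  have : IsLocalization M v.integer := (isLocalization_iff _ _).2
    ⟨fun b => (Valuation.integer.integers v).isUnit_of_one' ((h.eq_one _).2 ((hM _).1 b.2)),
      fun x => (hs x).elim fun a => .rec fun b e => ⟨⟨a, b, (hM b).2 e.1⟩, e.2⟩,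
      fun e => ⟨1, congrArg _ (hα.1 (congrArg Subtype.val e))⟩⟩
  let ρ : v.integer →+* κ := IsLocalization.lift (M := M) (g := l) fun b =>
    .mk0 _ (nonZeroDivisors.ne_zero b.2)
  have hρ : ∀ a, ρ (β a) = l a := IsLocalization.lift_eq _
  refine ⟨ρ, fun x => ?_, hρ, fun hy y => ?_⟩
  · obtain ⟨a, b, hb, e⟩ := hs x
    have e1 : (x : K) * α b = α a := congrArg Subtype.val e
    rw [← mul_eq_zero_iff_right ((hl b).not.2 hb), ← hρ b, ← map_mul, e, hρ, hl, ← h.2, ← e1,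
      map_mul, (h.eq_one b).2 hb, mul_one]
  · obtain ⟨a, b, hb, e⟩ := hy y
    refine ⟨IsLocalization.mk' _ a ⟨b, (hM b).2 ((hl b).not.1 hb)⟩, mul_right_cancel₀ hb ?_⟩
    exact (congrArg _ (hρ b).symm).trans ((map_mul ρ _ _).symm.trans ((congrArg ρ
      (IsLocalization.mk'_spec v.integer a (⟨b, _⟩ : M))).trans ((hρ a).trans e.symm)))

end Pool.Agent.ZCy
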