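import Pool.Agent.Lib.MP_751085_ag.ZC.V.Grp
import Pool.Agent.Lib.MP_751085_ag.Q1

/-! Block V: weak approximation, conjugacy of prolongations. -/

namespace Pool.Agent.ZCy

open scoped Classical WithZero Polynomial PowerSeries LaurentSeries
open WithZero (exp)

variable {K E Ω : Type} [Field K] [Field E] [Field Ω] [Algebra K E] {v : Vl K} {w w' : Vl E}

/-- weak approximation -/
theorem wap {ι : Type} [Finite ι] (v : ι → Vl K) (hv : ∀ i, Nrm (v i)) (y : ι → K)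
    (h : ∀ i j, v i = v j → y i = y j) (n : ℕ) : ∃ x, ∀ i, v i (x - y i) ≤ exp (-(n : ℤ)) := by
  have := Fintype.ofFinite (Set.range v)
  have hn : ∀ u : Set.range v, Nrm u.1 := by
    rintro ⟨_, i, rfl⟩
    exact hv i
  choose p hp using fun u : Set.range v => (hn u).surj (exp (-(n : ℤ)))
  obtain ⟨x, hx⟩ := HZ.weak_approx (fun u : Set.range v => u.1) (fun u => (hn u).surj)
    (fun u u' e => Subtype.ext ((hn u').eq_of_iff (hn u) fun x => SetLike.ext_iff.1 e x))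
    (fun u => y u.2.choose) p fun u e => WithZero.exp_ne_zero ((hp u).symm.trans (by
      rw [e, map_zero]))
  refine ⟨x, fun i => ?_⟩
  have h1 := hx ⟨v i, i, rfl⟩
  rw [hp] at h1
  rwa [h i _ (Exists.choose_spec (⟨i, rfl⟩ : v i ∈ Set.range v)).symm]

theorem vcnj_exp (n : ℕ) : (exp (-(n : ℤ)) : ℤᵐ⁰) ≤ 1 := by
  rw [← WithZero.exp_zero, WithZero.exp_le_exp]
  omega

theorem vcnj_red (w : Vl E) : (∀ x, x ≠ 0 → w x = 1) ∨
    ∃ u : Vl E, Nrm u ∧ (∀ x, w x ≤ 1 ↔ u x ≤ 1) ∧ ∀ x, u x ≤ 1 → w x ≤ u x := by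
  refine or_iff_not_imp_left.2 fun h => ?_
  push Not at h
  obtain ⟨x, h0, h1⟩ := h
  obtain ⟨u, e, hu, he, h2⟩ := exists_nrm h0 h1
  refine ⟨u, hu, h2.over he, fun y hy => ?_⟩
  rcases eq_or_ne y 0 with rfl | h3
  · simp
  · exact (h2 y h3).trans_le (pow_le_of_le_one zero_le hy he)

theorem vcnj_nrm (n : Nrm w) (g : E ≃ₐ[K] E) : Nrm (w.comap (g : E →+* E)) := by
  obtain ⟨π, h⟩ := n
  exact ⟨g.symm π, (congrArg w (g.apply_symm_apply π)).trans h⟩

theorem vcnj_one {x : E} (h : w (x - 1) < 1) : w x = 1 := by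
  rw [← sub_add_cancel x 1, add_comm, w.map_one_add_of_lt h]

theorem vcnj_prod {ι : Type} [Fintype ι] (f : ι → E) (h : ∀ i, w (f i) ≤ 1) (i : ι) :
    w (∏ i, f i) ≤ w (f i) := by
  rw [map_prod, ← Finset.mul_prod_erase _ _ (Finset.mem_univ i)]
  exact mul_le_of_le_one_right' (Finset.prod_le_one' fun j _ => h j)

theorem vcnj_conj [FiniteDimensional K E] [IsGalois K E] (h : Over (algebraMap K E) v w)
    (h' : Over (algebraMap K E) v w') (n : Nrm w) (n' : Nrm w') :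
    ∃ g : E ≃ₐ[K] E, ∀ x, w' x = w (g x) := by
  by_contra hc
  have key : ∀ g g' : E ≃ₐ[K] E, w'.comap (g' : E →+* E) ≠ w.comap (g : E →+* E) := fun g g' e =>
    hc ⟨g * g'⁻¹, fun x => (congrArg w' (g'.apply_symm_apply x)).symm.trans
      (DFunLike.congr_fun e (g'.symm x))⟩
  obtain ⟨x, hx⟩ := wap (ι := (E ≃ₐ[K] E) ⊕ (E ≃ₐ[K] E))
    (Sum.elim (fun g => w'.comap (g : E →+* E)) fun g => w.comap (g : E →+* E))
    (by rintro (g | g); exacts [vcnj_nrm n' g, vcnj_nrm n g]) (Sum.elim (fun _ => 0) fun _ => 1)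
    (by rintro (g | g) (g' | g') e; exacts [rfl, (key _ _ e).elim, (key _ _ e.symm).elim, rfl]) 1
  have h1 : ∀ g : E ≃ₐ[K] E, w' (g x) < 1 := fun g => (lt_one_iff_le_exp _).2 (by
    simpa using hx (Sum.inl g))
  have h2 : ∀ g : E ≃ₐ[K] E, w (g x) = 1 := fun g => vcnj_one ((lt_one_iff_le_exp _).2 (by
    simpa using hx (Sum.inr g)))
  have h3 : w (algebraMap K E (Algebra.norm K x)) = 1 := by
    rw [Algebra.norm_eq_prod_automorphisms, map_prod, Finset.prod_eq_one fun g _ => h2 g]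
  have h4 := (h'.eq_one _).2 ((h.eq_one _).1 h3)
  rw [Algebra.norm_eq_prod_automorphisms] at h4
  exact (h4.symm.trans_le (vcnj_prod _ (fun g => (h1 g).le) 1)).not_gt (h1 1)

theorem vcnj_triv [FiniteDimensional K E] (h : ∀ a, w (algebraMap K E a) ≤ 1) (x : E) : w x ≤ 1 :=
  le_one_of_int h (Algebra.IsIntegral.isIntegral (R := K) x)

theorem vcnj_le (h : ∀ x, x ≠ 0 → w x = 1) (x : E) : w x ≤ 1 := by
  rcases eq_or_ne x 0 with rfl | h0
  · simp
  · exact (h x h0).le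

theorem conj [FiniteDimensional K E] [IsGalois K E] (h : Over (algebraMap K E) v w)
    (h' : Over (algebraMap K E) v w') : ∃ g : E ≃ₐ[K] E, ∀ x, w' x ≤ 1 ↔ w (g x) ≤ 1 := by
  have t : ∀ {w w' : Vl E}, Over (algebraMap K E) v w → Over (algebraMap K E) v w' →
      (∀ x, x ≠ 0 → w x = 1) → ∀ x, w' x ≤ 1 := fun h h' t =>
    vcnj_triv fun a => (h' a).2 ((h a).1 (vcnj_le t _))
  rcases vcnj_red w with t1 | ⟨u, hu, e, -⟩
  · exact ⟨1, fun x => iff_of_true (t h h' t1 x) (vcnj_le t1 _)⟩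
  rcases vcnj_red w' with t1 | ⟨u', hu', e', -⟩
  · exact ⟨1, fun x => iff_of_true (vcnj_le t1 _) (t h' h t1 _)⟩
  obtain ⟨g, hg⟩ := vcnj_conj (fun a => (e _).symm.trans (h a))
    (fun a => (e' _).symm.trans (h' a)) hu hu'
  exact ⟨g, fun x => by rw [e, e', hg]⟩

theorem conj_nrm [FiniteDimensional K E] [IsGalois K E] (h : Over (algebraMap K E) v w)
    (h' : Over (algebraMap K E) v w') (n : Nrm w) (n' : Nrm w') :
    ∃ g : E ≃ₐ[K] E, ∀ x, w' x = w (g x) := vcnj_conj h h' n n'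

theorem unr_of_ine [FiniteDimensional K E] [IsGalois K E] (h : Over (algebraMap K E) v w)
    (hw : Ine K w = ⊥) : Unr E v := fun _ h' =>
  (conj h h').elim fun _ hg => ine_bot_of_conj hg hw

theorem dec_top_of_one [FiniteDimensional K E] [IsGalois K E] (h : Over (algebraMap K E) v w)
    (h' : Over (algebraMap K E) v w') (hw : Dec K w = ⊤) : Dec K w' = ⊤ :=
  (conj h h').elim fun _ hg => dec_top_of_conj hg hw

theorem iff_of_dec_top [FiniteDimensional K E] [IsGalois K E] (h : Over (algebraMap K E) v w)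
    (h' : Over (algebraMap K E) v w') (hw : Dec K w = ⊤) (x : E) : w' x ≤ 1 ↔ w x ≤ 1 := by
  obtain ⟨g, hg⟩ := conj h h'
  have : g ∈ Dec K w := hw ▸ Subgroup.mem_top g
  rw [hg, this x]

theorem vcnj_sub {ι : Type} {c : ℤᵐ⁰} (hc : c ≤ 1) (f : ι → E) (h : ∀ i, w (f i - 1) ≤ c)
    (s : Finset ι) : w (∏ i ∈ s, f i - 1) ≤ c := by
  refine Finset.prod_induction f (fun z => w (z - 1) ≤ c) (fun a b ha hb => ?_) (by simp)
    fun i _ => h i
  rw [show a * b - 1 = (a - 1) * (b - 1) + ((a - 1) + (b - 1)) by ring]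
  refine w.map_add_le ?_ (w.map_add_le ha hb)
  rw [map_mul]
  exact (mul_le_of_le_one_right' (hb.trans hc)).trans ha

/-- an approximate idempotent -/
theorem exists_idem [FiniteDimensional K E] (w : Vl E) (n : ℕ) :
    ∃ y : E, (∀ d ∈ Dec K w, d y = y) ∧ w (y - 1) ≤ exp (-(n : ℤ)) ∧
      ∀ g : E ≃ₐ[K] E, g ∉ Dec K w → w (g y) ≤ exp (-(n : ℤ)) := by
  rcases vcnj_red w with t | ⟨u, hu, e, l⟩
  · exact ⟨1, fun d _ => map_one d, by simp,
      fun g hg => (hg (dec_top_of_triv (K := K) t ▸ Subgroup.mem_top g)).elim⟩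
  rw [dec_congr e]
  have l' : ∀ x, u x ≤ exp (-(n : ℤ)) → w x ≤ exp (-(n : ℤ)) := fun x hx =>
    (l x (hx.trans (vcnj_exp n))).trans hx
  obtain ⟨y, hy⟩ := wap (fun g : E ≃ₐ[K] E => u.comap (g : E →+* E)) (vcnj_nrm hu)
    (fun g => if g ∈ Dec K u then 1 else 0) (fun g g' h => if_congr (forall_congr' fun x => by
      rw [show u (g x) = u (g' x) from DFunLike.congr_fun h x]) rfl rfl) n
  have h0 : ∀ g, g ∉ Dec K u → u (g y) ≤ exp (-(n : ℤ)) := fun g hg => by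
    simpa [hg] using hy g
  refine ⟨∏ d : Dec K u, d.1 y, fun d hd => ?_, l' _ (vcnj_sub (vcnj_exp n) _ (fun d => ?_) _),
    fun g hg => l' _ ?_⟩
  · rw [map_prod]
    exact Fintype.prod_equiv (Equiv.mulLeft (⟨d, hd⟩ : Dec K u)) _ _ fun _ => rfl
  · simpa [d.2] using hy d
  · have h1 : ∀ d : Dec K u, u (g (d.1 y)) ≤ exp (-(n : ℤ)) := fun d =>
      h0 (g * d) fun h => hg ((Subgroup.mul_mem_cancel_right _ d.2).1 h)
    rw [map_prod]
    exact (vcnj_prod _ (fun d => (h1 d).trans (vcnj_exp n)) 1).trans (h1 1)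

theorem vcnj_bd {ι : Type} [Finite ι] (a : ι → ℤᵐ⁰) :
    ∃ n : ℕ, 0 < n ∧ ∀ i, exp (-(n : ℤ)) * a i ≤ 1 := by
  obtain ⟨m, hm⟩ := Finite.exists_le fun i => (WithZero.log (a i)).toNat
  refine ⟨m + 1, m.succ_pos, fun i => ?_⟩
  rcases eq_or_ne (a i) 0 with h | h
  · simp [h]
  · have := hm i
    rw [← WithZero.exp_log h, ← WithZero.exp_add, ← WithZero.exp_zero, WithZero.exp_le_exp]
    omega

theorem vcnj_den [FiniteDimensional K E] {x : E} (hx : w x ≤ 1) :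
    ∃ s ∈ IntAt K w, w s = 1 ∧ s * x ∈ IntAt K w ∧ (∀ d ∈ Dec K w, d s = s) ∧
      ∀ g, g ∉ Dec K w → w (g s) < 1 := by
  obtain ⟨n, hn, h⟩ := vcnj_bd fun g : E ≃ₐ[K] E => w (g x)
  obtain ⟨y, h1, h2, h3⟩ := exists_idem (K := K) w n
  have l : (exp (-(n : ℤ)) : ℤᵐ⁰) < 1 := by
    rw [← WithZero.exp_zero, WithZero.exp_lt_exp]
    omega
  have h4 := vcnj_one (h2.trans_lt l)
  refine ⟨y, mem_intAt.2 fun g => ?_, h4, mem_intAt.2 fun g => ?_, h1,
    fun g hg => (h3 g hg).trans_lt l⟩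
  · by_cases hg : g ∈ Dec K w
    · rw [hg y, h4]
    · exact (h3 g hg).trans l.le
  · by_cases hg : g ∈ Dec K w
    · rwa [hg, map_mul, h4, one_mul]
    · rw [map_mul, map_mul]
      exact (mul_le_mul_left (h3 g hg) _).trans (h g)

/-- the valuation ring is a localisation of `IntAt K w` -/
theorem exists_den [FiniteDimensional K E] {x : E} (hx : w x ≤ 1) :
    ∃ s ∈ IntAt K w, w s = 1 ∧ s * x ∈ IntAt K w := by
  obtain ⟨s, h1, h2, h3, -⟩ := vcnj_den (K := K) hx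
  exact ⟨s, h1, h2, h3⟩

theorem exists_mul_mem_intAt [FiniteDimensional K E] [IsGalois K E] (w : Vl E) (x : E) :
    ∃ a : K, a ≠ 0 ∧ w (algebraMap K E a) ≤ 1 ∧ algebraMap K E a * x ∈ IntAt K w := by
  by_cases t : ∀ a, w (algebraMap K E a) ≤ 1
  · exact ⟨1, one_ne_zero, t 1, mem_intAt.2 fun g => vcnj_triv t _⟩
  push Not at t
  obtain ⟨b, hb⟩ := t
  obtain ⟨n, -, h⟩ := vcnj_bd fun g : E ≃ₐ[K] E => w (g x)
  have h0 : b ≠ 0 := by
    rintro rfl
    simp at hb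
  have h1 : w (algebraMap K E (b⁻¹ ^ n)) ≤ exp (-(n : ℤ)) := by
    rw [map_pow, map_pow, map_inv₀, map_inv₀]
    refine (pow_le_pow_left' ((lt_one_iff_le_exp _).1 (inv_lt_one_of_one_lt₀ hb)) n).trans_eq ?_
    rw [← WithZero.exp_nsmul, smul_neg, nsmul_one]
  refine ⟨b⁻¹ ^ n, pow_ne_zero _ (inv_ne_zero h0), h1.trans (vcnj_exp n), mem_intAt.2 fun g => ?_⟩
  rw [map_mul, map_mul, g.commutes]
  exact (mul_le_mul_left h1 _).trans (h g)

/-- trivial inertia can be seen on `IntAt K w` -/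
theorem sep_intAt [FiniteDimensional K E] (hw : Ine K w = ⊥) {g : E ≃ₐ[K] E} (hg : g ≠ 1) :
    ∃ b ∈ IntAt K w, w (g b - b) = 1 := by
  by_cases hd : g ∈ Dec K w
  · obtain ⟨x, hx, h⟩ : ∃ x, w x ≤ 1 ∧ 1 ≤ w (g x - x) := by
      by_contra! h
      exact hg (Subgroup.mem_bot.1 (hw ▸ (⟨hd, h⟩ : g ∈ Ine K w)))
    obtain ⟨s, -, h2, h3, h4, -⟩ := vcnj_den (K := K) hx
    refine ⟨s * x, h3, ?_⟩
    rw [map_mul, h4 g hd, ← mul_sub, map_mul, h2, one_mul]
    exact le_antisymm (w.map_sub_le ((hd x).trans_le hx) hx) h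
  · obtain ⟨s, h1, h2, -, -, h5⟩ := vcnj_den (K := K) (w := w) w.map_one.le
    exact ⟨s, h1, (w.map_sub_eq_of_lt_right ((h5 g hd).trans_eq h2.symm)).trans h2⟩

end Pool.Agent.ZCy
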