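import Pool.Agent.Lib.MP_751085_ag.ZC.V.Red

/-! Block V: existence and conjugacy of prolongations. -/

namespace Pool.Agent.ZCy

open scoped Classical WithZero Polynomial PowerSeries LaurentSeries
open WithZero (exp)

variable {K E Ω : Type} [Field K] [Field E] [Field Ω] [Algebra K E] {v : Vl K} {w w' : Vl E}

/-- a power of each value comes from the base field -/
theorem vext_pow [FiniteDimensional K E] {Γ : Type} [LinearOrderedCommGroupWithZero Γ]
    (u : Valuation E Γ) (x : E) :
    ∃ a : K, u x ^ (Module.finrank K E).factorial = u (algebraMap K E a) := by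
  rcases eq_or_ne x 0 with rfl | h0
  · exact ⟨0, by rw [map_zero, map_zero, map_zero, zero_pow (Nat.factorial_ne_zero _)]⟩
  have hu : u x ≠ 0 := (Valuation.ne_zero_iff u).2 h0
  obtain ⟨p, hp⟩ : ∃ p, p = minpoly K x := ⟨_, rfl⟩
  have hp0 : p ≠ 0 := hp ▸ minpoly.ne_zero_of_finite K x
  have hd : p.natDegree ≤ Module.finrank K E := hp ▸ minpoly.natDegree_le x
  have hs : ∑ i ∈ p.support, algebraMap K E (p.coeff i) * x ^ i = 0 := by
    have := minpoly.aeval K x
    rwa [← hp, Polynomial.aeval_def, Polynomial.eval₂_eq_sum, Polynomial.sum_def] at this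
  have hne : ∀ i ∈ p.support, u (algebraMap K E (p.coeff i)) ≠ 0 := fun i hi =>
    (Valuation.ne_zero_iff u).2 ((map_ne_zero _).2 (Polynomial.mem_support_iff.1 hi))
  have key : ∀ i ∈ p.support, ∀ j ∈ p.support, i < j →
      u (algebraMap K E (p.coeff i) * x ^ i) = u (algebraMap K E (p.coeff j) * x ^ j) →
      ∃ a : K, u x ^ (Module.finrank K E).factorial = u (algebraMap K E a) := by
    intro i _ j hj hij e
    obtain ⟨k, rfl⟩ := Nat.exists_eq_add_of_le hij.le
    obtain ⟨m, hm⟩ := Nat.dvd_factorial (m := k) (by omega)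
      ((Nat.le_add_left k i).trans ((Polynomial.le_natDegree_of_mem_supp _ hj).trans hd))
    refine ⟨(p.coeff i / p.coeff (i + k)) ^ m, ?_⟩
    rw [map_mul, map_mul, map_pow, map_pow, pow_add, mul_comm (u x ^ i), ← mul_assoc] at e
    rw [hm, pow_mul, map_pow, map_pow, map_div₀, map_div₀, mul_right_cancel₀ (pow_ne_zero i hu) e,
      mul_div_cancel_left₀ _ (hne _ hj)]
  obtain ⟨j, hj, hmax⟩ := p.support.exists_max_image
    (fun i => u (algebraMap K E (p.coeff i) * x ^ i)) (Polynomial.support_nonempty.2 hp0)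
  by_contra hn
  have h1 : u (algebraMap K E (p.coeff j) * x ^ j) ≠ 0 := by
    rw [map_mul, map_pow]
    exact mul_ne_zero (hne j hj) (pow_ne_zero j hu)
  refine h1 ((u.map_sum_eq_of_lt (f := fun i => algebraMap K E (p.coeff i) * x ^ i) hj
    fun i hi => ?_).symm.trans (by rw [hs, map_zero]))
  obtain ⟨hi, hij⟩ := Finset.mem_sdiff.1 hi
  refine lt_of_le_of_ne (hmax i hi) fun e => hn ?_
  rcases lt_or_gt_of_ne (Finset.notMem_singleton.1 hij) with h | h
  · exact key i hi j hj h e
  · exact key j hj i hi h e.symm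

/-- existence of prolongations -/
theorem exists_over [FiniteDimensional K E] (v : Vl K) :
    ∃ w : Vl E, Over (algebraMap K E) v w := by
  obtain ⟨O, hO, hl⟩ := IsLocalRing.exists_factor_valuationRing
    ((algebraMap K E).comp v.valuationSubring.subtype)
  have h1 : ∀ a, O.valuation (algebraMap K E a) ≤ 1 ↔ v a ≤ 1 := fun a => by
    rw [O.valuation_le_one_iff]
    refine ⟨fun h => ?_, fun h => hO ⟨a, h⟩⟩
    by_contra hn
    rw [not_le] at hn
    have a0 : a ≠ 0 := fun e => by simp [e] at hn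
    have h2 : v a⁻¹ < 1 := (v.one_lt_val_iff a0).1 hn
    obtain ⟨b, hb⟩ := (hl.1 ⟨a⁻¹, h2.le⟩ (.of_mul_eq_one ⟨_, h⟩ (Subtype.ext
      ((map_mul (algebraMap K E) a⁻¹ a).symm.trans
        (by rw [inv_mul_cancel₀ a0, map_one]; rfl))))).exists_right_inv
    have h3 : a⁻¹ * b = 1 := congrArg Subtype.val hb
    rw [inv_mul_eq_one₀ a0] at h3
    exact hn.not_ge (h3 ▸ b.2)
  have he : (O.valuation.comap (algebraMap K E)).IsEquiv v :=
    Valuation.isEquiv_iff_val_le_one.2 fun {a} => h1 a
  have hN := Nat.factorial_ne_zero (Module.finrank K E)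
  choose a ha using vext_pow (K := K) O.valuation
  have hle : ∀ x y, O.valuation x ≤ O.valuation y → v (a x) ≤ v (a y) := fun x y h =>
    (he _ _).1 ((ha x).symm.trans_le ((pow_le_pow_left₀ zero_le h _).trans_eq (ha y)))
  refine ⟨{ toFun := fun x => v (a x)
            map_zero' := (he.eq_iff.1 ?_).trans v.map_zero
            map_one' := (he.eq_iff.1 ?_).trans v.map_one
            map_mul' := fun x y => (he.eq_iff.1 ?_).trans (v.map_mul _ _)
            map_add_le_max' := fun x y => ?_ }, fun b => ?_⟩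
  · rw [map_zero, Valuation.comap_apply, ← ha, map_zero, zero_pow hN]
  · rw [map_one, Valuation.comap_apply, ← ha, map_one, one_pow]
  · rw [map_mul, Valuation.comap_apply, Valuation.comap_apply, Valuation.comap_apply, ← ha, ← ha,
      ← ha, map_mul, mul_pow]
  · rcases le_max_iff.1 (O.valuation.map_add x y) with h | h
    · exact (hle _ _ h).trans (le_max_left _ _)
    · exact (hle _ _ h).trans (le_max_right _ _)
  · exact (h1 _).symm.trans (by rw [← ha, pow_le_one_iff_of_nonneg zero_le hN, h1])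

theorem exists_over_nrm [FiniteDimensional K E] (hv : Nrm v) :
    ∃ w : Vl E, Nrm w ∧ Over (algebraMap K E) v w := by
  obtain ⟨w, hw⟩ := exists_over (E := E) v
  obtain ⟨π, hπ⟩ := hv
  have h0 : π ≠ 0 := (Valuation.ne_zero_iff v).1 (hπ ▸ WithZero.exp_ne_zero)
  have h1 : v π ≠ 1 := ((lt_one_iff_le_exp _).2 hπ.le).ne
  obtain ⟨w₀, e, hn, he, hi⟩ := exists_nrm (v := w) ((map_ne_zero (algebraMap K E)).2 h0)
    fun h => h1 ((hw.eq_one π).1 h)
  exact ⟨w₀, hn, fun a => (hi.over he _).symm.trans (hw a)⟩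

/-- The residue of an integral element is a root of a nonzero polynomial over the residue field
(divide the minimal equation by a coefficient of largest value). -/
theorem exists_poly_red [Algebra.IsAlgebraic K E] (h : Over (algebraMap K E) v w) (x : w.integer) :
    ∃ f : (v.integer)[X], (∃ i, v (f.coeff i) = 1) ∧ f.eval₂ h.int x = 0 := by
  obtain ⟨p, hp0, hp⟩ := Algebra.IsAlgebraic.isAlgebraic (R := K) (x : E)
  obtain ⟨j, hj, hmax⟩ := p.support.exists_max_image (fun i => v (p.coeff i))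
    (Polynomial.support_nonempty.2 hp0)
  have hc : p.coeff j ≠ 0 := Polynomial.mem_support_iff.1 hj
  obtain ⟨f, hf⟩ := (Polynomial.mem_lifts _).1 ((Polynomial.lifts_iff_coeff_lifts
    (f := v.integer.subtype) (Polynomial.C (p.coeff j)⁻¹ * p)).2 fun i => by
      refine ⟨⟨(Polynomial.C (p.coeff j)⁻¹ * p).coeff i, ?_⟩, rfl⟩
      rw [Valuation.mem_integer_iff, Polynomial.coeff_C_mul, map_mul, map_inv₀,
        inv_mul_le_one₀ (zero_lt_iff.2 ((Valuation.ne_zero_iff v).2 hc))]
      by_cases hi : i ∈ p.support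
      · exact hmax i hi
      · rw [Polynomial.notMem_support_iff.1 hi, map_zero]
        exact zero_le)
  refine ⟨f, ⟨j, ?_⟩, w.integer.subtype_injective ?_⟩
  · have := congrArg (fun q => Polynomial.coeff q j) hf
    simp only [Polynomial.coeff_map, Polynomial.coeff_C_mul, inv_mul_cancel₀ hc] at this
    exact (congrArg v this).trans v.map_one
  · have := congrArg (Polynomial.aeval (x : E)) hf
    rw [map_mul, hp, mul_zero, Polynomial.aeval_def, Polynomial.eval₂_map] at this
    rw [Polynomial.hom_eval₂, map_zero]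
    exact this

/-- Residue maps into algebraically closed fields extend (`exists_resf`, `IsRed.factor`,
`IsAlgClosed.lift`). -/
theorem exists_red_over [Algebra.IsAlgebraic K E] [IsAlgClosed Ω] (h : Over (algebraMap K E) v w)
    {ρ : v.integer →+* Ω} (hρ : IsRed v ρ) :
    ∃ ρ' : w.integer →+* Ω, IsRed w ρ' ∧ ∀ a, ρ' (h.int a) = ρ a := by
  obtain ⟨κ, _, σ, hσ, hs⟩ := exists_resf v
  obtain ⟨κ', _, σ', hσ', hs'⟩ := exists_resf w
  obtain ⟨i, hi⟩ := hσ.factor hs (hσ'.comp_int h)
  obtain ⟨i₀, hi₀⟩ := hσ.factor hs hρ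
  let : Algebra κ κ' := i.toAlgebra
  let : Algebra κ Ω := i₀.toAlgebra
  have : Algebra.IsAlgebraic κ κ' := ⟨fun y => by
    obtain ⟨x, rfl⟩ := hs' y
    obtain ⟨f, ⟨n, hn⟩, hf⟩ := exists_poly_red h x
    refine ⟨f.map σ, fun e => (hσ.ne_zero _).2 hn ?_, ?_⟩
    · rw [← Polynomial.coeff_map, e, Polynomial.coeff_zero]
    · rw [Polynomial.aeval_def, Polynomial.eval₂_map,
        show (algebraMap κ κ').comp σ = σ'.comp h.int from RingHom.ext hi, ← Polynomial.hom_eval₂,
        hf, map_zero]⟩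
  let l : κ' →ₐ[κ] Ω := IsAlgClosed.lift
  exact ⟨(l : κ' →+* Ω).comp σ', hσ'.comp _, fun a =>
    (congrArg l (hi a).symm).trans ((l.commutes (σ a)).trans (hi₀ a))⟩

end Pool.Agent.ZCy
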