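import Pool.Agent.Lib.MP_751085_ag.ZC.V.Har
import Pool.Agent.Lib.MP_751085_ag.ZC.V.Ext
import Pool.Agent.Lib.MP_751085_ag.ZC.V.Cnj

/-! Block V: Hartogs lemma, centres in extensions. -/

namespace Pool.Agent.ZCy

open scoped Classical WithZero Polynomial PowerSeries LaurentSeries
open WithZero (exp)

variable {A A' K E T κ : Type} [CommRing A] [CommRing A'] [Field K] [Field E] [CommRing T] [Field κ]
  {α : A →+* K} {φ : A →+* E} {P Θ Θ' : A} {v v' : Vl K} {w : Vl E}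

/-- Hartogs -/
theorem hartogs [UniqueFactorizationMonoid A] (hα : IsFr α) {x : K}
    (hx : x ∈ IntOff α Θ) : ∃ (m : ℕ) (a : A), x * α Θ ^ m = α a := by
  obtain ⟨a, b, hb, h⟩ := hα.2 x
  induction b using UniqueFactorizationMonoid.induction_on_prime generalizing x a with
  | h₁ => exact absurd rfl hb
  | h₂ b hu =>
    obtain ⟨c, hc⟩ := hu.exists_right_inv
    exact ⟨0, a * c, by rw [map_mul, ← h, mul_assoc, ← map_mul, hc, map_one, pow_zero]⟩
  | h₃ b p hb0 hp ih =>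
    by_cases hd : p ∣ Θ
    · obtain ⟨c, hc⟩ := hd
      obtain ⟨m, a', e⟩ := ih (mul_mem hx (toInt α Θ Θ).2) (a * c) hb0 (by
        rw [coe_toInt, map_mul, ← h, hc, map_mul, map_mul]
        ring)
      exact ⟨m + 1, a', by rw [← e, coe_toInt, pow_succ', mul_assoc]⟩
    obtain ⟨v, hv, -⟩ := exists_vcen hα hp
    obtain ⟨c, rfl⟩ : p ∣ a := (hv.2 a).1 (by
      rw [← h, map_mul α, mul_left_comm, map_mul, map_mul]
      exact mul_lt_one_of_lt_of_le ((hv.2 p).2 dvd_rfl) (mul_le_one' (hx p v hp hd hv) (hv.1 b)))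
    refine ih hx c hb0 (mul_left_cancel₀ ((map_ne_zero_iff α hα.1).2 hp.ne_zero) ?_)
    rw [← map_mul, ← h, map_mul, mul_left_comm]

theorem exists_hom_intOff [UniqueFactorizationMonoid A] (hα : IsFr α) (h0 : Θ ≠ 0) (ψ : A →+* T)
    (hu : IsUnit (ψ Θ)) : ∃ β : IntOff α Θ →+* T, ∀ a, β (toInt α Θ a) = ψ a := by
  let := (toInt α Θ).toAlgebra
  have : IsLocalization.Away Θ (IntOff α Θ) :=
    IsLocalization.Away.mk Θ (isUnit_toInt ((map_ne_zero_iff α hα.1).2 h0))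
      (fun s => (hartogs hα s.2).imp fun _ h => h.imp fun _ h => Subtype.ext h)
      fun a b h => ⟨0, congrArg _ (hα.1 (congrArg Subtype.val h))⟩
  exact ⟨IsLocalization.Away.lift Θ hu, IsLocalization.Away.lift_eq Θ hu⟩

variable [Algebra K E]

theorem Cen.over [WfDvdMonoid A] (hα : IsFr α) (hP : Prime P) (h : Cen α v P) :
    Cen (tE E α) w P ↔ Over (algebraMap K E) v w :=
  ⟨fun h' => Cen.iff hα hP h (v' := w.comap (algebraMap K E)) h', fun ho => (cen_of_over ho).2 h⟩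

theorem exists_cen_ext [WfDvdMonoid A] [FiniteDimensional K E] (hα : IsFr α) (hP : Prime P) :
    ∃ w : Vl E, Nrm w ∧ Cen (tE E α) w P := by
  obtain ⟨v, hv, h⟩ := exists_vcen hα hP
  obtain ⟨w, hw, ho⟩ := exists_over_nrm (E := E) ⟨_, h⟩
  exact ⟨w, hw, (cen_of_over ho).2 hv⟩

theorem Cen.conj [WfDvdMonoid A] [FiniteDimensional K E] [IsGalois K E] (hα : IsFr α)
    (hP : Prime P) {w' : Vl E} (h : Cen (tE E α) w P) (h' : Cen (tE E α) w' P) :
    ∃ g : E ≃ₐ[K] E, ∀ x, w' x ≤ 1 ↔ w (g x) ≤ 1 := by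
  obtain ⟨v, hv, -⟩ := exists_vcen hα hP
  exact ZCy.conj ((hv.over hα hP).1 h) ((hv.over hα hP).1 h')

theorem unrOff_mono {n : ℕ} (h : Θ ∣ Θ' ^ n) (hu : UnrOff K φ Θ) : UnrOff K φ Θ' :=
  fun P w hP hn => hu P w hP fun d => hn (hP.dvd_of_dvd_pow (d.trans h))

theorem unrOff_equiv (e : A' ≃+* A) {Q : A'} :
    UnrOff K (φ.comp (e : A' →+* A)) Q ↔ UnrOff K φ (e Q) := by
  refine ⟨fun h P w hP hn hc => ?_, fun h P w hP hn hc => h (e P) w ((MulEquiv.prime_iff e).2 hP)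
    (fun d => hn ((map_dvd_iff e).1 d)) ((cen_equiv e).1 hc)⟩
  obtain ⟨P, rfl⟩ := e.surjective P
  exact h P w ((MulEquiv.prime_iff e).1 hP) (fun d => hn (map_dvd e d)) ((cen_equiv e).2 hc)

/-- removing one prime from the branch locus -/
theorem UnrOff.of_mul [IsDomain A] (hP : Prime P) (h : UnrOff K φ (P * Θ))
    (h' : ∀ w, Cen φ w P → Ine K w = ⊥) : UnrOff K φ Θ := fun Q w hQ hn hc => by
  by_cases hd : Q ∣ P * Θ
  · exact h' w (hc.assoc (hQ.associated_of_dvd hP ((hQ.dvd_or_dvd hd).resolve_right hn)))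
  · exact h Q w hQ hd hc

theorem alg_mem_intOff [WfDvdMonoid A] [FiniteDimensional K E] (hα : IsFr α) {x : K} :
    algebraMap K E x ∈ IntOff (tE E α) Θ ↔ x ∈ IntOff α Θ := by
  refine ⟨fun h P v hP hn hc => ?_, fun h P w hP hn hc => h P (w.comap (algebraMap K E)) hP hn hc⟩
  obtain ⟨w, ho⟩ := exists_over (E := E) v
  exact (ho x).1 (h P w hP hn ((cen_of_over ho).2 hc))

end Pool.Agent.ZCy
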