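import Pool.Agent.Lib.MP_751085_ag.ZC.V.DecB

/-! Block V: the residue extension of an unramified extension. -/

namespace Pool.Agent.ZCy

open scoped Classical WithZero Polynomial PowerSeries LaurentSeries
open WithZero (exp)

variable {K E κ Ω : Type} [Field K] [Field E] [Field κ] [Field Ω] [Algebra K E]
  [FiniteDimensional K E] [IsGalois K E] {v : Vl K} {w : Vl E}

theorem vrsg_core [Algebra κ Ω] (ho : Over (algebraMap K E) v w) (hw : Ine K w = ⊥)
    {ρ₀ : v.integer →+* κ} (hs : Function.Surjective ρ₀) {ρ : w.integer →+* Ω} (h : IsRed w ρ)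
    (hs' : Function.Surjective ρ) (hc : ∀ a, ρ (ho.int a) = algebraMap κ Ω (ρ₀ a)) :
    ∃ e : Dec K w ≃* (Ω ≃ₐ[κ] Ω), FiniteDimensional κ Ω ∧ IsGalois κ Ω ∧
      Module.finrank κ Ω = Nat.card (Dec K w) ∧
      ∀ (g : Dec K w) (x : w.integer), e g (ρ x) = ρ ((stab_int w).act g.2 x) := by
  choose f hf using fun g : Dec K w => h.factor hs' (ρ' := ρ.comp ((stab_int w).act g.2))
    fun x => (h _).trans (by rw [Stab.coe_act, g.2 x.1])
  let : MulSemiringAction (Dec K w) Ω :=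
    { smul g y := f g y
      one_smul y := by
        obtain ⟨x, rfl⟩ := hs' y
        exact hf 1 x
      mul_smul g g' y := by
        obtain ⟨x, rfl⟩ := hs' y
        exact (hf _ x).trans ((congrArg (f g) (hf g' x)).trans (hf g _)).symm
      smul_zero g := map_zero (f g)
      smul_add g := map_add (f g)
      smul_one g := map_one (f g)
      smul_mul g := map_mul (f g) }
  have key : ∀ (g : Dec K w) (x : w.integer), g • ρ x = ρ x ↔ w (g.1 x - x) < 1 := fun g x =>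
    (Eq.congr_left (hf g x)).trans (h.eq_iff _ _)
  have : IsGaloisGroup (Dec K w) κ Ω :=
    { faithful := faithfulSMul_iff.2 fun g hg => Subtype.ext (Subgroup.mem_bot.1
        (hw ▸ ⟨g.2, fun x hx => (key g ⟨x, hx⟩).1 (hg _)⟩))
      commutes := ⟨fun g a y => by
        obtain ⟨b, rfl⟩ := hs a
        rw [Algebra.smul_def, Algebra.smul_def, smul_mul', ← hc, (key g _).2 (by simp)]⟩
      isInvariant := ⟨fun y hy => by
        obtain ⟨x, rfl⟩ := hs' y
        obtain ⟨a, ha⟩ := red_of_fix (K := K) x.2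
          (fun g hg => by rw [hw, Subgroup.mem_bot] at hg; rw [hg]; rfl)
          fun g hg => (key ⟨g, hg⟩ x).1 (hy _)
        have h1 : w (algebraMap K E a) ≤ 1 := by
          have := w.map_sub_le x.2 ha.le
          rwa [sub_sub_cancel] at this
        exact ⟨ρ₀ ⟨a, (ho a).1 h1⟩, ((hc _).symm.trans ((h.eq_iff _ _).2 ha).symm)⟩⟩ }
  exact ⟨IsGaloisGroup.mulEquivAlgEquiv _ κ Ω, IsGaloisGroup.finiteDimensional (Dec K w) κ Ω,
    IsGaloisGroup.isGalois (Dec K w) κ Ω, (IsGaloisGroup.card_eq_finrank (Dec K w) κ Ω).symm, hf⟩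

/-- The residue field is Galois with group `D`. -/
theorem res_gal (ho : Over (algebraMap K E) v w) (hw : Ine K w = ⊥) {ρ₀ : v.integer →+* κ}
    (h₀ : IsRed v ρ₀) (hs : Function.Surjective ρ₀) :
    ∃ (κ' : Type) (_ : Field κ') (_ : Algebra κ κ') (_ : FiniteDimensional κ κ') (_ : IsGalois κ κ')
      (ρ : w.integer →+* κ') (e : Dec K w ≃* (κ' ≃ₐ[κ] κ')), IsRed w ρ ∧ Function.Surjective ρ ∧
      (∀ a, ρ (ho.int a) = algebraMap κ κ' (ρ₀ a)) ∧
      ∀ (g : Dec K w) (x : w.integer), e g (ρ x) = ρ ((stab_int w).act g.2 x) := by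
  obtain ⟨κ', _, ρ, h, hs'⟩ := exists_resf w
  obtain ⟨i, hi⟩ := h₀.factor hs (h.comp_int ho)
  let := i.toAlgebra
  obtain ⟨e, h1, h2, -, h3⟩ := vrsg_core ho hw hs h hs' fun a => (hi a).symm
  exact ⟨κ', inferInstance, inferInstance, h1, h2, ρ, e, h, hs', fun a => (hi a).symm, h3⟩

/-- the same inside a given field -/
theorem res_gal_in [Algebra κ Ω] (ho : Over (algebraMap K E) v w) (hw : Ine K w = ⊥)
    {ρ₀ : v.integer →+* κ} (hs : Function.Surjective ρ₀) {ρ : w.integer →+* Ω} (h : IsRed w ρ)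
    (hc : ∀ a, ρ (ho.int a) = algebraMap κ Ω (ρ₀ a)) :
    ∃ (M : IntermediateField κ Ω) (e : Dec K w ≃* (M ≃ₐ[κ] M)), (∀ y, y ∈ M ↔ y ∈ ρ.range) ∧
      FiniteDimensional κ M ∧ IsGalois κ M ∧ Module.finrank κ M = Nat.card (Dec K w) ∧
      ∀ (g : Dec K w) (x : w.integer) (y : M), (y : Ω) = ρ x →
        (e g y : Ω) = ρ ((stab_int w).act g.2 x) := by
  let M : IntermediateField κ Ω := (ρ.range.toSubfield fun y hy => by
    obtain ⟨x, rfl⟩ := hy
    exact h.inv_mem x).toIntermediateField fun a => by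
      obtain ⟨b, rfl⟩ := hs a
      exact ⟨_, hc b⟩
  let ρ' : w.integer →+* M := ρ.codRestrict M fun x => ⟨x, rfl⟩
  obtain ⟨e, h1, h2, h3, h4⟩ := vrsg_core (ρ := ρ') ho hw hs
    (fun x => Subtype.ext_iff.trans (h x)) (fun y => by
      obtain ⟨x, hx⟩ := y.2
      exact ⟨x, Subtype.ext hx⟩) fun a => Subtype.ext (hc a)
  refine ⟨M, e, fun _ => Iff.rfl, h1, h2, h3, fun g x y hy => ?_⟩
  obtain rfl : y = ρ' x := Subtype.ext hy
  exact congrArg Subtype.val (h4 g x)

end Pool.Agent.ZCy
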