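import Pool.Agent.Lib.MP_751085_ag.ZC.VDefs

/-! Block V: additional definitions. -/

namespace Pool.Agent.ZCy

open scoped Classical WithZero Polynomial PowerSeries LaurentSeries

section

variable {A K K' E E' T Ω : Type} [CommRing A] [Field K] [Field K'] [Field E] [Field E']
  [CommRing T] [Field Ω]

/-- `α` presents `K` as the fraction field of `A` -/
def IsFr (α : A →+* K) : Prop :=
  Function.Injective α ∧ ∀ x, ∃ a b, b ≠ 0 ∧ x * α b = α a

/-- the map of `A` to an extension `E` of `K` -/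
abbrev tE (E : Type) [Field E] [Algebra K E] (α : A →+* K) : A →+* E := (algebraMap K E).comp α

/-- the elements that are integral at all primes of `A` that do not divide `Θ` -/
def IntOff (φ : A →+* E) (Θ : A) : Subring E where
  carrier := {x | ∀ (P : A) (w : Vl E), Prime P → ¬P ∣ Θ → Cen φ w P → w x ≤ 1}
  mul_mem' := fun ha hb P w h1 h2 h3 => by
    rw [map_mul]; exact mul_le_one' (ha P w h1 h2 h3) (hb P w h1 h2 h3)
  one_mem' := fun _ w _ _ _ => w.map_one.le
  add_mem' := fun ha hb P w h1 h2 h3 => w.map_add_le (ha P w h1 h2 h3) (hb P w h1 h2 h3)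
  zero_mem' := fun _ w _ _ _ => by simp
  neg_mem' := fun ha P w h1 h2 h3 => by rw [Valuation.map_neg]; exact ha P w h1 h2 h3

/-- the structure map of `IntOff φ Θ` -/
def toInt (φ : A →+* E) (Θ : A) : A →+* IntOff φ Θ :=
  φ.codRestrict _ fun a _ _ _ _ h => h.1 a

@[simp] theorem coe_toInt (φ : A →+* E) (Θ a : A) : (toInt φ Θ a : E) = φ a := rfl

/-- the values of `w` are values of elements of `K` -/
def E1 (K : Type) [Field K] [Algebra K E] (w : Vl E) : Prop :=
  ∀ x, ∃ a : K, w x = w (algebraMap K E a)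

/-- a commutative square of fields -/
def Sq [Algebra K E] [Algebra K' E'] (φ : K →+* K') (j : E →+* E') : Prop :=
  ∀ a, j (algebraMap K E a) = algebraMap K' E' (φ a)

/-- `r` is the restriction of automorphisms along `j` -/
def Rs [Algebra K E] [Algebra K' E'] (j : E →+* E') (r : (E' ≃ₐ[K'] E') →* (E ≃ₐ[K] E)) : Prop :=
  ∀ g x, j (r g x) = g (j x)

/-- completeness -/
def Cpl (w : Vl K) : Prop :=
  ∀ x : ℕ → K, (∀ n, w (x (n + 1) - x n) ≤ WithZero.exp (-(n : ℤ))) →
    ∃ y, ∀ n, w (y - x n) ≤ WithZero.exp (-(n : ℤ))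

/-- `x` is a limit of elements of `K` -/
def Dns (φ : K →+* K') (w : Vl K') (x : K') : Prop :=
  ∀ n : ℕ, ∃ a, w (x - φ a) ≤ WithZero.exp (-(n : ℤ))

/-- the map of valuation rings -/
def Over.int {φ : K →+* K'} {v : Vl K} {v' : Vl K'} (h : Over φ v v') :
    v.integer →+* v'.integer :=
  (φ.comp v.integer.subtype).codRestrict _ fun x => (h x.1).2 x.2

@[simp] theorem Over.coe_int {φ : K →+* K'} {v : Vl K} {v' : Vl K'} (h : Over φ v v')
    (x : v.integer) : (h.int x : K') = φ x := rfl

/-- `S` is stable under `H` -/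
def Stab [Algebra K E] (H : Subgroup (E ≃ₐ[K] E)) (S : Subring E) : Prop :=
  ∀ g ∈ H, ∀ x ∈ S, g x ∈ S

/-- the action on a stable subring -/
def Stab.act [Algebra K E] {H : Subgroup (E ≃ₐ[K] E)} {S : Subring E} (h : Stab H S)
    {g : E ≃ₐ[K] E} (hg : g ∈ H) : S →+* S :=
  ((g : E →+* E).comp S.subtype).codRestrict _ fun x => h g hg x.1 x.2

@[simp] theorem Stab.coe_act [Algebra K E] {H : Subgroup (E ≃ₐ[K] E)} {S : Subring E}
    (h : Stab H S) {g : E ≃ₐ[K] E} (hg : g ∈ H) (x : S) : (h.act hg x : E) = g x := rfl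

/-- the action on a stable subring as an instance -/
@[reducible] def Stab.msa [Algebra K E] {H : Subgroup (E ≃ₐ[K] E)} {S : Subring E} (h : Stab H S) :
    MulSemiringAction H S where
  smul g x := h.act g.2 x
  one_smul _ := Subtype.ext rfl
  mul_smul _ _ _ := Subtype.ext rfl
  smul_zero g := map_zero (h.act g.2)
  smul_add g := map_add (h.act g.2)
  smul_one g := map_one (h.act g.2)
  smul_mul g := map_mul (h.act g.2)

theorem stab_int [Algebra K E] (w : Vl E) : Stab (Dec K w) w.integer :=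
  fun _ hg x hx => (hg x).trans_le hx

theorem stab_intOff [Algebra K E] (α : A →+* K) (Θ : A) :
    Stab (⊤ : Subgroup (E ≃ₐ[K] E)) (IntOff (tE E α) Θ) := fun g _ x hx P w h1 h2 h3 =>
  hx P (w.comap (g : E →+* E)) h1 h2 (by simpa [Cen] using h3)

/-- the Galois action on `IntOff` -/
def gI [Algebra K E] (α : A →+* K) (Θ : A) (g : E ≃ₐ[K] E) :
    IntOff (tE E α) Θ →+* IntOff (tE E α) Θ := (stab_intOff α Θ).act (Subgroup.mem_top g)

@[simp] theorem coe_gI [Algebra K E] (α : A →+* K) (Θ : A) (g : E ≃ₐ[K] E)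
    (x : IntOff (tE E α) Θ) : (gI α Θ g x : E) = g x := rfl

/-- the elements all of whose conjugates are integral at `w` -/
def IntAt (K : Type) [Field K] [Algebra K E] (w : Vl E) : Subring E :=
  ⨅ g : E ≃ₐ[K] E, w.integer.comap (g : E →+* E)

theorem mem_intAt [Algebra K E] {w : Vl E} {x : E} :
    x ∈ IntAt K w ↔ ∀ g : E ≃ₐ[K] E, w (g x) ≤ 1 := by
  simp [IntAt, Subring.mem_iInf, Valuation.mem_integer_iff]

theorem stab_intAt [Algebra K E] (w : Vl E) : Stab (⊤ : Subgroup (E ≃ₐ[K] E)) (IntAt K w) :=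
  fun g _ _ hx => mem_intAt.2 fun h => mem_intAt.1 hx (h * g)

/-- `j` embeds `E` into the fraction field of `T` over `ψ` and maps `S` into `T` -/
def EmbT (φ : A →+* E) (S : Subring E) (ψ : A →+* T) (j : E →+* Fr T) : Prop :=
  (∀ a, j (φ a) = algebraMap T (Fr T) (ψ a)) ∧ ∀ x ∈ S, ∃ y : T, j x = algebraMap T (Fr T) y

/-- the translation `ξ ↦ y + t` -/
noncomputable def tr {σ : Type} (f : A →+* T) (y : σ → T) :
    MvPolynomial σ A →+* MvPolynomial σ T :=
  MvPolynomial.eval₂Hom (MvPolynomial.C.comp f) fun i => MvPolynomial.C (y i) + MvPolynomial.X i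

/-- the expansion at the point `y` -/
noncomputable def pt {σ : Type} (f : A →+* T) (y : σ → T) :
    MvPolynomial σ A →+* MvPowerSeries σ T :=
  MvPolynomial.eval₂Hom (MvPowerSeries.C.comp f) fun i => MvPowerSeries.C (y i) + MvPowerSeries.X i

/-- the substitution `τ ↦ t + s ^ e` -/
noncomputable def sbs (f : A →+* T) (t : T) (e : ℕ) : A[X] →+* T⟦X⟧ :=
  Polynomial.eval₂RingHom (PowerSeries.C.comp f) (PowerSeries.C t + PowerSeries.X ^ e)

/-- power series as Laurent series -/
noncomputable def lau (ι : A →+* K) : A⟦X⟧ →+* K⸨X⸩ :=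
  (HahnSeries.ofPowerSeries ℤ K).comp (PowerSeries.map ι)

theorem lau_inj {ι : A →+* K} (h : Function.Injective ι) : Function.Injective (lau ι) :=
  fun _ _ e => PowerSeries.map_injective ι h
    (HahnSeries.ofPowerSeries_injective (Γ := ℤ) (R := K) e)

/-- the valuation of the field of Laurent series -/
noncomputable def lval (K : Type) [Field K] : Vl K⸨X⸩ := Valued.v

/-- homogeneous components -/
noncomputable def blow (σ A : Type) [Finite σ] [CommRing A] :
    MvPowerSeries σ A →+* (MvPolynomial σ A)⟦X⟧ :=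
  (MvPowerSeries.substAlgHom (R := A)
    (a := fun i => (PowerSeries.C (MvPolynomial.X i) * PowerSeries.X : (MvPolynomial σ A)⟦X⟧))
    (MvPowerSeries.hasSubst_of_constantCoeff_zero fun i => by
      change PowerSeries.constantCoeff _ = _
      simp)).toRingHom

end

end Pool.Agent.ZCy
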