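import Pool.Agent.Lib.MP_751085_ag.ZC.V.IntB
import Pool.Agent.Lib.MP_751085_ag.ZC.V.Ctr

/-! Block V: enlargements, towers, inversion of the variable. -/

namespace Pool.Agent.ZCy

open scoped Classical WithZero Polynomial PowerSeries LaurentSeries
open WithZero (exp)

variable {A A' K K' E E' : Type} [CommRing A] [CommRing A'] [Field K] [Field K'] [Field E]
  [Field E'] {w : Vl E} {Θ : A}

variable [Algebra K E] [Algebra K' E'] {α : A →+* K} {α' : A' →+* K'} {φ : K →+* K'} {j : E →+* E'}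
  {r : (E' ≃ₐ[K'] E') →* (E ≃ₐ[K] E)} {w' : Vl E'}

theorem exists_inv {α : A[X] →+* K} (hα : IsFr α) : ∃ α' : A[X] →+* K, IsFr α' ∧
    (∀ a, α' (Polynomial.C a) = α (Polynomial.C a)) ∧ α' Polynomial.X * α Polynomial.X = 1 := by
  have := hα.isDomain
  have : Nontrivial A := Polynomial.nontrivial_iff.1 inferInstance
  have hx : α Polynomial.X ≠ 0 := (map_ne_zero_iff α hα.1).2 Polynomial.X_ne_zero
  have he : ∀ f, Polynomial.eval₂ (α.comp Polynomial.C) (α Polynomial.X) f = α f := fun f => by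
    rw [← Polynomial.hom_eval₂, Polynomial.eval₂_C_X]
  let β := Polynomial.eval₂RingHom (α.comp Polynomial.C) (α Polynomial.X)⁻¹
  have hX : β Polynomial.X * α Polynomial.X = 1 := by simp [β, hx]
  have h1 : ∀ f, β f.reverse * α Polynomial.X ^ f.natDegree = α f := fun f => by
    let := invertibleOfNonzero hx
    rw [← he f, ← Polynomial.eval₂_reverse_mul_pow, invOf_eq_inv]
    rfl
  have h2 : ∀ f, α f.reverse * (α Polynomial.X)⁻¹ ^ f.natDegree = β f := fun f => by
    let := invertibleOfNonzero (inv_ne_zero hx)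
    rw [← he f.reverse]
    have := Polynomial.eval₂_reverse_mul_pow (α.comp Polynomial.C) (α Polynomial.X)⁻¹ f
    rwa [invOf_eq_inv, inv_inv] at this
  refine ⟨β, ⟨(injective_iff_map_eq_zero β).2 fun f hf => ?_, fun x => ?_⟩, fun a => by simp [β],
    hX⟩
  · rw [← h2, mul_eq_zero, map_eq_zero_iff α hα.1, Polynomial.reverse_eq_zero] at hf
    exact hf.resolve_right (pow_ne_zero _ (inv_ne_zero hx))
  · obtain ⟨a, b, hb, e⟩ := hα.2 x
    refine ⟨a.reverse * Polynomial.X ^ b.natDegree, b.reverse * Polynomial.X ^ a.natDegree,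
      mul_ne_zero (mt Polynomial.reverse_eq_zero.1 hb) (pow_ne_zero _ Polynomial.X_ne_zero), ?_⟩
    rw [← h1 a, ← h1 b] at e
    rw [map_mul, map_mul, map_pow, map_pow, eq_inv_of_mul_eq_one_left hX, inv_pow, inv_pow]
    field_simp
    linear_combination e

/-- integral elements have a pole of finite order at infinity -/
theorem exists_pow_mul_int [UniqueFactorizationMonoid A] [FiniteDimensional K E] [IsGalois K E]
    {α α' : A[X] →+* K} (hα : IsFr α) (hα' : IsFr α')
    (hC : ∀ a, α' (Polynomial.C a) = α (Polynomial.C a))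
    (hX : α' Polynomial.X * α Polynomial.X = 1) {x : E} (hx : x ∈ IntOff (tE E α) 1) :
    ∃ m : ℕ, tE E α' Polynomial.X ^ m * x ∈ IntOff (tE E α') 1 := by
  have := hα.isDomain
  have : IsDomain A := Polynomial.C_injective.isDomain Polynomial.C
  refine exists_pow_mul_mem hα' fun P w hP hn h => ?_
  obtain ⟨h1, h2, -⟩ := cen_inv (φ := tE E α) (fun a => congrArg (algebraMap K E) (hC a))
    (by rw [RingHom.comp_apply, RingHom.comp_apply, ← map_mul, hX, map_one]) hP hn h
  exact hx _ w h1 h1.not_dvd_one h2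

/-- ENL: adjoin the roots of `h`. -/
theorem enl_gen [FiniteDimensional K E] [IsGalois K E] (hu : UnrOff K (tE E α) Θ) {h a b : A[X]}
    (hm : h.Monic) {D : A} (h0 : α D ≠ 0) (hb : Polynomial.C D = a * h + b * h.derivative) {n : ℕ}
    (hD : D ∣ Θ ^ n) :
    ∃ (N : Type) (_ : Field N) (_ : Algebra K N) (_ : Algebra E N) (_ : IsScalarTower K E N)
      (_ : FiniteDimensional K N) (_ : IsGalois K N),
      UnrOff K (tE N α) Θ ∧ (h.map (tE N α)).Splits := by
  have hs : (h.map (tE E α)).Separable := by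
    have e := congrArg (Polynomial.map (tE E α)) hb
    rw [Polynomial.map_C, Polynomial.map_add, Polynomial.map_mul, Polynomial.map_mul,
      ← Polynomial.derivative_map] at e
    have hc : tE E α D ≠ 0 := (map_ne_zero (algebraMap K E)).2 h0
    refine ⟨Polynomial.C (tE E α D)⁻¹ * a.map (tE E α),
      Polynomial.C (tE E α D)⁻¹ * b.map (tE E α), ?_⟩
    rw [mul_assoc, mul_assoc, ← mul_add, ← e, ← map_mul, inv_mul_cancel₀ hc, map_one]
  obtain ⟨c, hD⟩ := hD
  replace hb : Polynomial.C (Θ ^ n) = Polynomial.C c * a * h + Polynomial.C c * b * h.derivative := by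
    rw [hD, map_mul, hb]; ring
  let F := (h.map (tE E α)).SplittingField
  have : IsGalois E F := IsGalois.of_separable_splitting_field hs
  have : FiniteDimensional K F := Module.Finite.trans E F
  have : Algebra.IsSeparable K F := Algebra.IsSeparable.trans K E F
  obtain ⟨N, _, _, _, _, _, _, hN⟩ := exists_gc K F
  let : Algebra E N := ((algebraMap F N).comp (algebraMap E F)).toAlgebra
  have : IsScalarTower E F N := IsScalarTower.of_algebraMap_eq fun _ => rfl
  have : IsScalarTower K E N := IsScalarTower.of_algebraMap_eq fun x => by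
    rw [IsScalarTower.algebraMap_apply K F N, IsScalarTower.algebraMap_apply K E F]; rfl
  have ht : tE N α = (algebraMap E N).comp (tE E α) := by
    rw [← RingHom.comp_assoc, ← IsScalarTower.algebraMap_eq]
  obtain ⟨r, hr⟩ := exists_rs (K := K) (K' := K) (φ := RingHom.id K) (j := algebraMap E N)
    fun x => (IsScalarTower.algebraMap_apply K E N x).symm
  refine ⟨N, _, _, _, ‹_›, ‹_›, ‹_›, unrOff_of_core
    {x | x ∈ Set.range (algebraMap E N) ∨ h.eval₂ (tE N α) x = 0} (fun g hg => hN g fun k x => ?_)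
    fun P w hP hΘ hc g hg x hx => ?_, ?_⟩
  · have hx : x ∈ Algebra.adjoin E ((h.map (tE E α)).rootSet F) := by
      rw [Polynomial.IsSplittingField.adjoin_rootSet]; trivial
    induction hx using Algebra.adjoin_induction with
    | mem y hy =>
      refine hg k _ (Or.inr ?_)
      have := congrArg (algebraMap F N) (Polynomial.aeval_eq_zero_of_mem_rootSet hy)
      rwa [map_zero, Polynomial.aeval_def, Polynomial.eval₂_map, Polynomial.hom_eval₂,
        ← RingHom.comp_assoc, ← IsScalarTower.algebraMap_eq, ← ht] at this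
    | algebraMap y => exact hg k _ (Or.inl ⟨y, rfl⟩)
    | add y z _ _ hy hz => rw [map_add, map_add, map_add, hy, hz]
    | mul y z _ _ hy hz => rw [map_mul, map_mul, map_mul, hy, hz]
  · rcases hx with ⟨y, rfl⟩ | hx
    · have h1 := hr.ine (Over.comap _ w) hg
      rw [hu P _ hP hΘ ((cen_of_over (Over.comap _ w)).1 (ht ▸ hc)), Subgroup.mem_bot] at h1
      rw [← hr, h1, AlgEquiv.one_apply]
    · exact hc.root_fix hm hb hP hΘ hg hx
  · have := (Polynomial.SplittingField.splits (h.map (tE E α))).map (algebraMap F N)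
    rwa [Polynomial.map_map, Polynomial.map_map, ← IsScalarTower.algebraMap_eq, ← ht] at this

theorem enl [FiniteDimensional K E] [IsGalois K E] (hα : Function.Injective α) (h0 : Θ ≠ 0)
    (hu : UnrOff K (tE E α) Θ) {h a b : A[X]} (hm : h.Monic) {n : ℕ}
    (hb : Polynomial.C (Θ ^ n) = a * h + b * h.derivative) :
    ∃ (N : Type) (_ : Field N) (_ : Algebra K N) (_ : Algebra E N) (_ : IsScalarTower K E N)
      (_ : FiniteDimensional K N) (_ : IsGalois K N),
      UnrOff K (tE N α) Θ ∧ (h.map (tE N α)).Splits :=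
  have := hα.isDomain
  enl_gen hu hm ((map_ne_zero_iff _ hα).2 (pow_ne_zero _ h0)) hb dvd_rfl

/-- the Galois closure `E` of a tower `E' / K' / K` -/
theorem unrOff_tower [UniqueFactorizationMonoid A] [UniqueFactorizationMonoid A'] [Normal K' E']
    (hα : IsFr α) (hα' : IsFr α') {ψ : A →+* A'} (hψ : Function.Injective ψ) (hi : ψ.IsIntegral)
    (i : E' →+* E) (hc : ∀ a, i (tE E' α' (ψ a)) = tE E α a)
    (hS : ∀ g : E ≃ₐ[K] E, (∀ (h : E ≃ₐ[K] E) (x : E'), g (h (i x)) = h (i x)) → g = 1)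
    (h1 : ∀ (P : A) (w : Vl E), Prime P → ¬P ∣ Θ → Cen (tE E α) w P → ∀ g ∈ Ine K w, ∀ y : K',
      g (i (algebraMap K' E' y)) = i (algebraMap K' E' y))
    (h2 : UnrOff K' (tE E' α') (ψ Θ)) : UnrOff K (tE E α) Θ := by
  have := hα.isDomain
  have := hα'.isDomain
  refine unrOff_of_core (Set.range i) (fun g hg => hS g fun k x => hg k _ ⟨x, rfl⟩) ?_
  rintro P w hP hΘ hw g hg _ ⟨x, rfl⟩
  obtain ⟨g', hg'⟩ := exists_twist (K := K') i ((g : E →+* E).comp i) (h1 P w hP hΘ hw g hg)
  have e : ∀ y, g (i y) = i (g' y) := hg'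
  have h3 : Cen ((tE E' α').comp ψ) (w.comap i) P :=
    (cen_of_over (Over.comap i w)).1 (by rwa [show i.comp _ = tE E α from RingHom.ext hc])
  obtain ⟨P', hP', h4⟩ := cen_goup hψ hi hP h3
  have h5 : g' ∈ Ine K' (w.comap i) :=
    ⟨fun y => by rw [Valuation.comap_apply, ← e, hg.1]; rfl, fun y hy => by
      rw [Valuation.comap_apply, map_sub, ← e]; exact hg.2 _ hy⟩
  rw [h2 P' _ hP' (fun hd => hΘ ((h3.2 Θ).1 ((h4.2 _).2 hd))) h4, Subgroup.mem_bot] at h5
  rw [e, h5, AlgEquiv.one_apply]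

end Pool.Agent.ZCy
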