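import Pool.Agent.Lib.MP_751085_ag.ZC.V.Tam
import Pool.Agent.Lib.MP_751085_ag.ZC.V.IntB

/-! Block V in the form used by block K. -/

namespace Pool.Agent.ZCy

open scoped Classical WithZero LaurentSeries PowerSeries IntermediateField
open Polynomial

variable {K E E' : Type} [Field K] [Field E] [Field E'] [Algebra K E] [Algebra K E']

theorem kv_exists [FiniteDimensional K E] (v : Vl K) : ∃ w : Vl E, Over (algebraMap K E) v w :=
  exists_over v

theorem kv_conj [FiniteDimensional K E] [IsGalois K E] {v : Vl K} {w w' : Vl E}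
    (h : Over (algebraMap K E) v w) (h' : Over (algebraMap K E) v w') :
    ∃ g : E ≃ₐ[K] E, ∀ x, w' x ≤ 1 ↔ w (g x) ≤ 1 := conj h h'

theorem kv_nrm {w : Vl E} {x : E} (h0 : x ≠ 0) (h : w x < 1) :
    ∃ w' : Vl E, Nrm w' ∧ ∀ x, w' x ≤ 1 ↔ w x ≤ 1 :=
  let ⟨u, _, h1, h2, h3⟩ := exists_nrm h0 h.ne
  ⟨u, h1, fun x => (h3.over h2 x).symm⟩

theorem kv_eq {w w' : Vl E} (h : Nrm w) (h' : Nrm w') (e : ∀ x, w' x ≤ 1 ↔ w x ≤ 1) : w' = w :=
  h.eq_of_iff h' e

theorem kv_dec [FiniteDimensional K E] {w : Vl E} {g : E ≃ₐ[K] E}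
    (h : ∀ x, w (g x) ≤ 1 ↔ w x ≤ 1) : g ∈ Dec K w := mem_dec.2 h

theorem kv_congr [FiniteDimensional K E] {w w' : Vl E} (e : ∀ x, w' x ≤ 1 ↔ w x ≤ 1) :
    Dec K w' = Dec K w ∧ Ine K w' = Ine K w := ⟨dec_congr e, ine_congr e⟩

theorem kv_up [FiniteDimensional K E'] [IsGalois K E] [IsGalois K E'] (j : E →ₐ[K] E')
    {r : (E' ≃ₐ[K] E') → E ≃ₐ[K] E} (hr : ∀ g x, j (r g x) = g (j x)) {w : Vl E} {w' : Vl E'}
    (h : Over (j : E →+* E') w w') :
    (∀ g ∈ Dec K w, ∃ g' ∈ Dec K w', r g' = g) ∧ (∀ g ∈ Ine K w, ∃ g' ∈ Ine K w', r g' = g) ∧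
      (∀ g' ∈ Dec K w', r g' ∈ Dec K w) ∧ ∀ g' ∈ Ine K w', r g' ∈ Ine K w := by
  have hj : Sq (RingHom.id K) (j : E →+* E') := j.commutes
  obtain ⟨s, hs⟩ := exists_rs hj
  obtain rfl : r = s := funext fun g => AlgEquiv.ext fun x => j.injective ((hr g x).trans (hs g x).symm)
  exact ⟨fun _ => hs.dec_onto hj h, fun _ => hs.ine_onto hj h, fun _ => hs.dec h, fun _ => hs.ine h⟩

theorem kv_theta [FiniteDimensional K E] {w : Vl E} {π : E} (hπ : w π = WithZero.exp (-1))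
    {g : E ≃ₐ[K] E} (hg : g ∈ Ine K w) (ho : w (orderOf g : E) = 1) (h : w (g π / π - 1) < 1) :
    g = 1 := eq_one_of_theta hπ hg ho h

theorem kv_cyclic [FiniteDimensional K E] {w : Vl E} (h : Tame K w) : IsCyclic (Ine K w) :=
  ine_cyclic h

theorem kv_fix [FiniteDimensional K E] [IsGalois K E] {w : Vl E} {x : E}
    (h : ∀ g ∈ Ine K w, g x = x) : ∃ y : K, w x = w (algebraMap K E y) := e1_of_ine h

theorem kv_unr [FiniteDimensional K E] [IsGalois K E] {w : Vl E}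
    (ht : w (Nat.card (E ≃ₐ[K] E) : E) = 1) (he : ∀ x, ∃ a : K, w x = w (algebraMap K E a)) :
    Ine K w = ⊥ := ine_bot_of_e1 (tame_of_card ht) he

theorem kv_prime {A : Type} [CommRing A] [IsDomain A] [UniqueFactorizationMonoid A] [Algebra A K]
    [IsFractionRing A K] {P : A} (hP : Prime P) :
    ∃ v : Vl K, Cen (algebraMap A K) v P ∧ v (algebraMap A K P) = WithZero.exp (-1) :=
  exists_vcen (isFr_alg A K) hP

theorem kv_cen {A : Type} [CommRing A] [IsDomain A] [UniqueFactorizationMonoid A] [Algebra A K]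
    [IsFractionRing A K] {P : A} (hP : Prime P) {v v' : Vl K} (h : Cen (algebraMap A K) v P)
    (h' : Cen (algebraMap A K) v' P) : (∀ x, v' x ≤ 1 ↔ v x ≤ 1) ∧
      ∀ x, x ≠ 0 → ∃ z : ℤ, v x = v (algebraMap A K P) ^ z :=
  ⟨h.iff (isFr_alg A K) hP h', fun _ => h.val_zpow (isFr_alg A K) hP⟩

theorem kv_fin {A : Type} [CommRing A] [IsDomain A] [UniqueFactorizationMonoid A] [Algebra A K]
    [IsFractionRing A K] [FiniteDimensional K E] [IsGalois K E] :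
    ∃ Θ : A, Θ ≠ 0 ∧ UnrOff K ((algebraMap K E).comp (algebraMap A K)) Θ :=
  exists_unrOff (isFr_alg A K)

end Pool.Agent.ZCy
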