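import Pool.Agent.Lib.MP_751085_ag.ZC.V.D

/-! Block V: lifting of places along henselian maps. -/

namespace Pool.Agent.ZCy

open scoped Classical WithZero Polynomial PowerSeries LaurentSeries
open WithZero (exp)

section

variable {B G : Type} [CommRing B] [Group G] [Fintype G] [MulSemiringAction G B]

/-- the Lagrange interpolation polynomial -/
noncomputable def lagr (G : Type) [Group G] [Fintype G] [MulSemiringAction G B] (z b : B) : B[X] :=
  ∑ g : G, Polynomial.C (g • b) * ∏ h ∈ Finset.univ.erase g, (Polynomial.X - Polynomial.C (h • z))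

theorem smul_lagr (z b : B) (g : G) (i : ℕ) : g • (lagr G z b).coeff i = (lagr G z b).coeff i := by
  rw [← Polynomial.coeff_smul]
  congr 1
  unfold lagr
  rw [Finset.smul_sum]
  refine Fintype.sum_equiv (Equiv.mulLeft g) _ _ fun k => ?_
  rw [smul_mul', Polynomial.smul_C, Finset.smul_prod', Equiv.coe_mulLeft, mul_smul]
  congr 1
  refine Finset.prod_equiv (Equiv.mulLeft g) (fun h => by simp) fun h _ => ?_
  rw [smul_sub, Polynomial.smul_X, Polynomial.smul_C, Equiv.coe_mulLeft, mul_smul]

theorem eval_lagr (z b : B) (g : G) :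
    (lagr G z b).eval (g • z) = g • b * ∏ h ∈ Finset.univ.erase g, (g • z - h • z) := by
  unfold lagr
  rw [Polynomial.eval_finsetSum, Finset.sum_eq_single g]
  · simp [Polynomial.eval_prod]
  · intro k _ hk
    rw [Polynomial.eval_mul, Polynomial.eval_prod,
      Finset.prod_eq_zero (Finset.mem_erase.2 ⟨hk.symm, Finset.mem_univ g⟩) (by simp), mul_zero]
  · simp

theorem lagr_add (z b c : B) : lagr G z (b + c) = lagr G z b + lagr G z c := by
  simp [lagr, add_mul, Finset.sum_add_distrib]

theorem lagr_one (z : B) :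
    lagr G z 1 = (∏ g : G, (Polynomial.X - Polynomial.C (g • z))).derivative := by
  simp [lagr, Polynomial.derivative_prod_finset]

theorem vlift_smul (z : B) (g : G) (i : ℕ) :
    g • (∏ h : G, (Polynomial.X - Polynomial.C (h • z))).coeff i =
      (∏ h : G, (Polynomial.X - Polynomial.C (h • z))).coeff i := by
  rw [← Polynomial.coeff_smul]
  congr 1
  rw [Finset.smul_prod']
  refine Fintype.prod_equiv (Equiv.mulLeft g) _ _ fun h => ?_
  rw [smul_sub, Polynomial.smul_X, Polynomial.smul_C, Equiv.coe_mulLeft, mul_smul]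

theorem vlift_unit {T : Type} [CommRing T] (ρ : B →+* T) (z : B)
    (hz : ∀ g : G, g ≠ 1 → IsUnit (ρ (g • z - z))) :
    IsUnit (ρ (∏ h ∈ Finset.univ.erase (1 : G), (z - h • z))) := by
  rw [map_prod]
  refine IsUnit.prod_iff.2 fun h hh => ?_
  rw [← neg_sub, map_neg]
  exact (hz h (Finset.mem_erase.1 hh).1).neg

variable {A T T' : Type} [CommRing A] [CommRing T] [CommRing T'] (i : A →+* B) (α : A →+* T)
  (q : T →+* T') (ρ : B →+* T')

/-- `β b = (p b)(t) / f'(t)`, `t` the root of `f` above `ρ z` -/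
theorem lift_place [IsDomain B] (hi : Function.Injective i)
    (hf : ∀ b, (∀ g : G, g • b = b) ↔ b ∈ i.range) (hq : Function.Surjective q)
    [HenselianRing T (RingHom.ker q)] (hc : ∀ a, ρ (i a) = q (α a)) (z : B)
    (hz : ∀ g : G, g ≠ 1 → IsUnit (ρ (g • z - z))) :
    ∃ β : B →+* T, (∀ a, β (i a) = α a) ∧ ∀ b, q (β b) = ρ b := by
  have hu : ∀ t, IsUnit (q t) → IsUnit t := fun t ht => by
    obtain ⟨v, hv⟩ := ht.exists_right_inv
    obtain ⟨v, rfl⟩ := hq v
    have h := Ideal.mem_jacobson_bot.1 (HenselianRing.jac (I := RingHom.ker q)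
      (show t * v - 1 ∈ RingHom.ker q by rw [RingHom.mem_ker, map_sub, map_mul, hv, map_one, sub_self])) 1
    rw [mul_one, sub_add_cancel] at h
    exact isUnit_of_mul_isUnit_left h
  rcases subsingleton_or_nontrivial T' with hT | hT
  · have : Subsingleton T := subsingleton_of_zero_eq_one
      (isUnit_zero_iff.1 (hu 0 (isUnit_of_subsingleton _)))
    exact ⟨⟨⟨⟨fun _ => 0, Subsingleton.elim _ _⟩, fun _ _ => Subsingleton.elim _ _⟩, rfl,
      fun _ _ => Subsingleton.elim _ _⟩, fun _ => Subsingleton.elim _ _, fun _ => Subsingleton.elim _ _⟩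
  have hl : ∀ P : B[X], (∀ (g : G) n, g • P.coeff n = P.coeff n) → ∃ p : A[X], p.map i = P :=
    fun P h => (Polynomial.mem_lifts _).1 ((Polynomial.lifts_iff_coeff_lifts _).2 fun n =>
      (hf _).1 fun g => h g n)
  obtain ⟨f, hF⟩ := hl _ (vlift_smul z)
  choose p hp using fun b => hl _ (smul_lagr z b)
  have hm : f.Monic := by
    rw [hi.monic_map_iff, hF]
    exact Polynomial.monic_prod_X_sub_C _ _
  have hd : f.derivative.map i = lagr G z 1 := by rw [lagr_one, ← hF, Polynomial.derivative_map]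
  have he : ∀ (r : A[X]) (s : T), q s = ρ z → q (r.eval₂ α s) = ρ ((r.map i).eval z) :=
    fun r s hs => by
      rw [Polynomial.eval_map, Polynomial.hom_eval₂, Polynomial.hom_eval₂, hs,
        RingHom.ext (f := ρ.comp i) (g := q.comp α) hc]
  have hD : ∀ s : T, q s = ρ z → q (f.derivative.eval₂ α s) =
      ρ (∏ h ∈ Finset.univ.erase (1 : G), (z - h • z)) := fun s hs => by
    have := eval_lagr z 1 (1 : G)
    rw [one_smul, one_smul, one_mul] at this
    rw [he _ s hs, hd, this]
  obtain ⟨t₀, ht₀⟩ := hq (ρ z)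
  obtain ⟨t, ht, htt⟩ := HenselianRing.is_henselian (I := RingHom.ker q) (f.map α) (hm.map α) t₀
    (by
      rw [RingHom.mem_ker, Polynomial.eval_map, he f t₀ ht₀, hF, Polynomial.eval_prod,
        Finset.prod_eq_zero (Finset.mem_univ (1 : G)) (by simp), map_zero])
    (by
      rw [Polynomial.derivative_map, Polynomial.eval_map]
      exact (hu _ (hD t₀ ht₀ ▸ vlift_unit ρ z hz)).map _)
  rw [RingHom.mem_ker, map_sub, ht₀, sub_eq_zero] at htt
  rw [Polynomial.IsRoot.def, Polynomial.eval_map] at ht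
  obtain ⟨u, hu'⟩ := hu _ (hD t htt ▸ vlift_unit ρ z hz)
  have hinj : Function.Injective fun g : G => g • z := fun g h e => by
    by_contra hne
    have h1 := hz (h⁻¹ * g) fun h1 => hne (by rw [inv_mul_eq_one.1 h1])
    rw [mul_smul, show g • z = h • z from e, inv_smul_smul, sub_self, map_zero] at h1
    exact not_isUnit_zero h1
  have key : ∀ r : A[X], (∀ g : G, (r.map i).eval (g • z) = 0) → r.eval₂ α t = 0 := fun r hr => by
    have h1 : f ∣ r := by
      rw [← Polynomial.map_dvd_map i hi hm, hF]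
      rcases eq_or_ne (r.map i) 0 with h0 | h0
      · rw [h0]
        exact dvd_zero _
      have h2 := (Multiset.prod_X_sub_C_dvd_iff_le_roots h0 (Finset.univ.val.map fun g : G => g • z)).2
        ((Multiset.le_iff_subset (Finset.univ.nodup.map hinj)).2 fun x hx => by
          obtain ⟨g, -, rfl⟩ := Multiset.mem_map.1 hx
          exact (Polynomial.mem_roots h0).2 (hr g))
      rwa [Multiset.map_map] at h2
    obtain ⟨s, rfl⟩ := h1
    rw [Polynomial.eval₂_mul, ht, zero_mul]
  have h1 : ∀ a, (p (i a)).eval₂ α t * ↑u⁻¹ = α a := fun a => by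
    have := key (p (i a) - Polynomial.C a * f.derivative) fun g => by
      simp [hp, hd, eval_lagr, (hf _).2 ⟨a, rfl⟩ g]
    rw [Polynomial.eval₂_sub, Polynomial.eval₂_mul, Polynomial.eval₂_C, ← hu', sub_eq_zero] at this
    rw [this, Units.mul_inv_cancel_right]
  refine ⟨{ toFun := fun b => (p b).eval₂ α t * ↑u⁻¹
            map_one' := by simpa using h1 1
            map_zero' := by simpa using h1 0
            map_mul' := fun b c => ?_
            map_add' := fun b c => ?_ }, h1, fun b => ?_⟩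
  · have := key (p b * p c - f.derivative * p (b * c)) fun g => by
      simp only [Polynomial.map_sub, Polynomial.map_mul, hp, hd, Polynomial.eval_sub,
        Polynomial.eval_mul, eval_lagr, smul_one, smul_mul']
      ring
    rw [Polynomial.eval₂_sub, Polynomial.eval₂_mul, Polynomial.eval₂_mul, ← hu', sub_eq_zero] at this
    rw [mul_mul_mul_comm, this, mul_comm (u : T), mul_assoc, Units.mul_inv_cancel_left]
  · have := key (p (b + c) - (p b + p c)) fun g => by simp [hp, lagr_add]
    rw [Polynomial.eval₂_sub, Polynomial.eval₂_add, sub_eq_zero] at this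
    rw [this, add_mul]
  · have h2 := eval_lagr z b (1 : G)
    rw [one_smul, one_smul] at h2
    change q ((p b).eval₂ α t * ↑u⁻¹) = ρ b
    rw [map_mul, he _ t htt, hp, h2, map_mul, ← hD t htt, ← hu', mul_assoc, ← map_mul,
      Units.mul_inv, map_one, mul_one]

theorem vlift_unique (hq : ∀ t, IsUnit (q t) → IsUnit t) (z : B) (β β' : B →+* T)
    (hz : ∀ g : G, g ≠ 1 → IsUnit (q (β (g • z - z))))
    (h1 : ∀ b, (∀ g : G, g • b = b) → β' b = β b) (h2 : ∀ b, q (β' b) = q (β b)) : β' = β := by
  have hl : ∀ P : B[X], (∀ (g : G) n, g • P.coeff n = P.coeff n) →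
      β' (P.eval z) = (P.map β).eval (β' z) := fun P h => by
    rw [← Polynomial.eval₂_at_apply, ← Polynomial.eval_map]
    congr 1
    ext n
    rw [Polynomial.coeff_map, Polynomial.coeff_map, h1 _ fun g => h g n]
  have hz' : β' z = β z := by
    have h := hl _ (vlift_smul z)
    rw [Polynomial.eval_prod, Finset.prod_eq_zero (Finset.mem_univ (1 : G)) (by simp), map_zero,
      Polynomial.map_prod, Polynomial.eval_prod,
      ← Finset.mul_prod_erase _ _ (Finset.mem_univ (1 : G)), eq_comm, IsUnit.mul_left_eq_zero] at h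
    · simpa [sub_eq_zero] using h
    · refine IsUnit.prod_iff.2 fun g hg => hq _ ?_
      have := (hz g (Finset.mem_erase.1 hg).1).neg
      simpa [h2] using this
  have he : ∀ b, β' (b * ∏ h ∈ Finset.univ.erase (1 : G), (z - h • z)) =
      β (b * ∏ h ∈ Finset.univ.erase (1 : G), (z - h • z)) := fun b => by
    have h := eval_lagr z b (1 : G)
    rw [one_smul, one_smul] at h
    rw [← h, hl _ (smul_lagr z b), hz', Polynomial.eval_map, Polynomial.eval₂_at_apply]
  ext b
  have h3 := he 1
  have h4 := he b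
  rw [one_mul] at h3
  rw [map_mul, map_mul, h3] at h4
  exact (hq _ (vlift_unit (q.comp β) z hz)).mul_right_cancel h4

/-- uniqueness of the lift -/
theorem lift_unique (hf : ∀ b, (∀ g : G, g • b = b) ↔ b ∈ i.range)
    (hq : ∀ t, IsUnit (q t) → IsUnit t) (z : B) (β β' : B →+* T)
    (hz : ∀ g : G, g ≠ 1 → IsUnit (q (β (g • z - z)))) (h1 : ∀ a, β' (i a) = β (i a))
    (h2 : ∀ b, q (β' b) = q (β b)) : β' = β :=
  vlift_unique q hq z β β' hz (fun b hb => by
    obtain ⟨a, rfl⟩ := (hf b).1 hb
    exact h1 a) h2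

end

section

variable {A K E T T' : Type} [CommRing A] [Field K] [Field E] [Algebra K E] [FiniteDimensional K E]
  [CommRing T] [CommRing T'] {H : Subgroup (E ≃ₐ[K] E)} {S : Subring E}

theorem Stab.lift_place (hS : Stab H S) (i : A →+* S) (α : A →+* T) (q : T →+* T') (ρ : S →+* T')
    (hi : Function.Injective i) (hf : ∀ b : S, (∀ g ∈ H, g (b : E) = b) ↔ b ∈ i.range)
    (hq : Function.Surjective q) [HenselianRing T (RingHom.ker q)] (hc : ∀ a, ρ (i a) = q (α a))
    (z : S) (hz : ∀ g (hg : g ∈ H), g ≠ 1 → IsUnit (ρ (hS.act hg z - z))) :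
    ∃ β : S →+* T, (∀ a, β (i a) = α a) ∧ ∀ b, q (β b) = ρ b := by
  let _ := hS.msa
  let _ := Fintype.ofFinite H
  exact ZCy.lift_place (G := H) i α q ρ hi (fun b => Iff.trans
    ⟨fun h g hg => congrArg Subtype.val (h ⟨g, hg⟩), fun h g => Subtype.ext (h g g.2)⟩ (hf b)) hq hc z
    fun g hg => hz g g.2 fun h => hg (Subtype.ext h)

theorem Stab.lift_unique (hS : Stab H S) (q : T →+* T') (hq : ∀ t, IsUnit (q t) → IsUnit t) (z : S)
    (β β' : S →+* T) (hz : ∀ g (hg : g ∈ H), g ≠ 1 → IsUnit (q (β (hS.act hg z - z))))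
    (h1 : ∀ b : S, (∀ g ∈ H, g (b : E) = b) → β' b = β b) (h2 : ∀ b, q (β' b) = q (β b)) :
    β' = β := by
  let _ := hS.msa
  let _ := Fintype.ofFinite H
  exact vlift_unique (G := H) q hq z β β' (fun g hg => hz g g.2 fun h => hg (Subtype.ext h))
    (fun b h => h1 b fun g hg => congrArg Subtype.val (h ⟨g, hg⟩)) h2

end

end Pool.Agent.ZCy
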