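import Pool.Agent.Lib.MP_751085_ag.ZC.V.D

/-! Block V: separating elements. -/

namespace Pool.Agent.ZCy

open scoped Classical WithZero Polynomial PowerSeries LaurentSeries
open WithZero (exp)

section

variable {B G Ω : Type} [CommRing B] [Group G] [Fintype G] [MulSemiringAction G B] [CommRing Ω]

theorem vspe_field (F D : Type) [Field F] [Group D] [Finite D] [MulSemiringAction D F] :
    ∃ θ : F, θ ≠ 0 ∧ ∀ d : D, d • θ = θ → ∀ y : F, d • y = y := by
  obtain ⟨θ, hθ⟩ := Field.exists_primitive_element (FixedPoints.subfield D F) F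
  have H : ∀ d : D, d • θ = θ → ∀ y : F, d • y = y := fun d hd y => by
    have hy : y ∈ IntermediateField.adjoin (FixedPoints.subfield D F) {θ} := hθ ▸ trivial
    induction hy using IntermediateField.adjoin_induction with
    | mem x hx => exact hx ▸ hd
    | algebraMap x => exact x.2 d
    | add x y _ _ hx hy => rw [smul_add, hx, hy]
    | inv x _ hx => rw [smul_inv'', hx]
    | mul x y _ _ hx hy => rw [smul_mul', hx, hy]
  by_cases h0 : θ = 0
  · exact ⟨1, one_ne_zero, fun d _ => H d (by rw [h0, smul_zero])⟩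
  · exact ⟨θ, h0, H⟩

theorem vspe_dom (R D : Type) [CommRing R] [IsDomain R] [Group D] [Fintype D]
    [MulSemiringAction D R] : ∃ x : R, x ≠ 0 ∧ ∀ d : D, d • x = x → ∀ y : R, d • y = y := by
  let := IsFractionRing.mulSemiringAction D R (FractionRing R)
  have hi := IsFractionRing.injective R (FractionRing R)
  obtain ⟨θ, h0, H⟩ := vspe_field (FractionRing R) D
  obtain ⟨a, b, hb, rfl⟩ := IsFractionRing.div_surjective R θ
  have hb0 : algebraMap R (FractionRing R) (∏ d : D, d • b) ≠ 0 :=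
    (map_ne_zero_iff _ hi).2 (Finset.prod_ne_zero_iff.2 fun d _ =>
      (smul_ne_zero_iff_ne d).2 (nonZeroDivisors.ne_zero hb))
  have hx : algebraMap R (FractionRing R) (a * ∏ d ∈ Finset.univ.erase (1 : D), d • b) =
      algebraMap R _ a / algebraMap R _ b * algebraMap R _ (∏ d : D, d • b) := by
    rw [← Finset.mul_prod_erase _ _ (Finset.mem_univ 1), one_smul, map_mul, map_mul, ← mul_assoc,
      div_mul_cancel₀ _ ((map_ne_zero_iff _ hi).2 (nonZeroDivisors.ne_zero hb))]
  refine ⟨_, (map_ne_zero_iff _ hi).1 (hx ▸ mul_ne_zero h0 hb0), fun d hd y => hi ?_⟩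
  rw [algebraMap.smul']
  refine H d (mul_right_cancel₀ hb0 ?_) _
  rw [← hx, ← hd, algebraMap.smul', hx, smul_mul', ← algebraMap.smul', Finset.smul_prod_perm]

open scoped Pointwise in
theorem vspe_stab {n : Ideal B} {g : G} (h : ∀ y, g • y ∈ n → y ∈ n) :
    g ∈ MulAction.stabilizer G n := by
  have h1 : ∀ (m : ℕ) y, g ^ m • y ∈ n → y ∈ n := fun m => by
    induction m with
    | zero => exact fun y hy => one_smul G y ▸ (pow_zero g ▸ hy)
    | succ m ih => exact fun y hy => ih y (h _ (by rwa [← mul_smul, ← pow_succ']))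
  refine Ideal.ext fun y => Ideal.mem_pointwise_smul_iff_inv_smul_mem.trans
    ⟨fun hy => h1 (orderOf g - 1) y ?_, fun hy => h _ (by rwa [smul_inv_smul])⟩
  rwa [pow_sub _ (orderOf_pos g), pow_orderOf_eq_one, one_mul, pow_one]

/-- Separating element. -/
theorem sep_el (n : Ideal B) [n.IsPrime] (h : ∀ g : G, g ≠ 1 → ∃ x, g • x - x ∉ n) :
    ∃ z, ∀ g : G, g ≠ 1 → g • z - z ∉ n := by
  open scoped Pointwise in
  let := MulSemiringAction.compHom (B ⧸ n) (Ideal.Quotient.stabilizerHom n (n.under ℤ) G)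
  obtain ⟨x, h0, hx⟩ := vspe_dom (B ⧸ n) (MulAction.stabilizer G n)
  obtain ⟨x, rfl⟩ := Ideal.Quotient.mk_surjective x
  have : ∀ g : G, ∃ y, y ∉ n ∧ (g ∉ MulAction.stabilizer G n → g • y ∈ n) := fun g => by
    by_contra hc
    push Not at hc
    exact (hc 1 ((Ideal.ne_top_iff_one n).1 Ideal.IsPrime.ne_top')).1
      (vspe_stab fun y hy => by_contra fun hn => (hc y hn).2 hy)
  choose y hy1 hy2 using this
  have hY : ∏ d : MulAction.stabilizer G n, d • ∏ g, y g ∉ n := fun hm => by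
    obtain ⟨d, -, hd⟩ := Ideal.IsPrime.prod_mem_iff.1 hm
    obtain ⟨g, -, hg⟩ := Ideal.IsPrime.prod_mem_iff.1
      ((Ideal.smul_mem_pointwise_smul_iff (a := d.1)).1 (d.2.ge hd))
    exact hy1 g hg
  refine ⟨x * ∏ d : MulAction.stabilizer G n, d • ∏ g, y g, fun g hg hm => ?_⟩
  by_cases hD : g ∈ MulAction.stabilizer G n
  · obtain ⟨w, hw⟩ := h g hg
    have h1 : g • ∏ d : MulAction.stabilizer G n, d • ∏ g, y g = _ :=
      Finset.smul_prod_perm (∏ g, y g) (⟨g, hD⟩ : MulAction.stabilizer G n)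
    rw [smul_mul', h1, ← sub_mul] at hm
    exact hw (Ideal.Quotient.eq.1 (hx ⟨g, hD⟩ (Ideal.Quotient.eq.2
      ((Ideal.IsPrime.mem_or_mem ‹_› hm).resolve_right hY)) (Ideal.Quotient.mk n w)))
  · have h1 : g • (x * ∏ d : MulAction.stabilizer G n, d • ∏ g, y g) ∈ n := by
      rw [← Finset.mul_prod_erase _ _ (Finset.mem_univ 1), one_smul,
        ← Finset.mul_prod_erase _ _ (Finset.mem_univ g), smul_mul', smul_mul', smul_mul']
      exact n.mul_mem_left _ (n.mul_mem_right _ (n.mul_mem_right _ (hy2 g hD)))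
    exact (Ideal.IsPrime.mem_or_mem ‹_› ((n.sub_mem_iff_right h1).1 hm)).elim
      (fun h2 => h0 (Ideal.Quotient.eq_zero_iff_mem.2 h2)) hY

end

section

variable {K E Ω : Type} [Field K] [Field E] [Algebra K E] [FiniteDimensional K E] [CommRing Ω]
  {H : Subgroup (E ≃ₐ[K] E)} {S : Subring E}

theorem Stab.sep_el (hS : Stab H S) (n : Ideal S) [n.IsPrime]
    (h : ∀ g (hg : g ∈ H), g ≠ 1 → ∃ x, hS.act hg x - x ∉ n) :
    ∃ z, ∀ g (hg : g ∈ H), g ≠ 1 → hS.act hg z - z ∉ n := by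
  let := hS.msa
  obtain ⟨z, hz⟩ := ZCy.sep_el (G := H) n fun g hg => h g.1 g.2 fun e => hg (Subtype.ext e)
  exact ⟨z, fun g hg e => hz ⟨g, hg⟩ fun e' => e (congrArg Subtype.val e')⟩

end

end Pool.Agent.ZCy
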