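import Pool.Agent.Lib.MP_751085_ag.ZC.V.Cf
import Pool.Agent.Lib.MP_751085_ag.ZC.V.Lift
import Pool.Agent.Lib.MP_751085_ag.ZC.V.Spe

/-! Block V: lifting of residue extensions. -/

namespace Pool.Agent.ZCy

open scoped Classical WithZero Polynomial PowerSeries LaurentSeries
open WithZero (exp)
open IsLocalRing

variable {R R' K K' E : Type} [CommRing R] [IsDomain R] [CommRing R'] [IsDomain R'] [Field K]
  [Field K'] [Field E] [Algebra K E] [FiniteDimensional K E] {ι : R →+* K} {ι' : R' →+* K'}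
  {v : Vl K} {v' : Vl K'} {w w' : Vl E}

omit [FiniteDimensional K E] in
theorem vhns_le (w : Vl E) : IntAt K w ≤ w.integer := fun _ hx => mem_intAt.1 hx 1

/-- the map of `v.integer` into `IntAt K w` -/
def vhns_i (ho : Over (algebraMap K E) v w) : v.integer →+* IntAt K w :=
  ((algebraMap K E).comp v.integer.subtype).codRestrict _ fun a => mem_intAt.2 fun g => by
    rw [RingHom.comp_apply, AlgEquiv.commutes]
    exact (ho a.1).2 a.2

omit [IsDomain R'] in
theorem vhns_lift [IsGalois K E] [IsLocalRing R'] [IsAdicComplete (maximalIdeal R') R']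
    (ho : Over (algebraMap K E) v w) (hw : Ine K w = ⊥) (α : v.integer →+* R')
    {ρ : w.integer →+* ResidueField R'} (hρ : IsRed w ρ)
    (hc : ∀ a, ρ (ho.int a) = residue R' (α a)) :
    ∃ β : IntAt K w →+* R', (∀ a, β (vhns_i ho a) = α a) ∧
      ∀ b, residue R' (β b) = ρ (Subring.inclusion (vhns_le w) b) := by
  have hS := stab_intAt (K := K) w
  let ρ' := ρ.comp (Subring.inclusion (vhns_le (K := K) w))
  have : HenselianRing R' (RingHom.ker (residue R')) := by
    rw [ker_residue]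
    infer_instance
  have := RingHom.ker_isPrime ρ'
  obtain ⟨z, hz⟩ := hS.sep_el (RingHom.ker ρ') fun g hg h1 => by
    obtain ⟨b, hb, e⟩ := sep_intAt hw h1
    exact ⟨⟨b, hb⟩, (hρ.ne_zero _).2 e⟩
  refine hS.lift_place (vhns_i ho) α (residue R') ρ' (fun a b e => Subtype.ext
    ((algebraMap K E).injective (congrArg Subtype.val e))) (fun b => ⟨fun h => ?_, ?_⟩)
    residue_surjective hc z fun g hg h1 => Ne.isUnit (hz g hg h1)
  · obtain ⟨a, ha⟩ := mem_range_of_fix fun g => h g (Subgroup.mem_top g)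
    exact ⟨⟨a, (ho a).1 (ha ▸ vhns_le w b.2)⟩, Subtype.ext ha⟩
  · rintro ⟨a, rfl⟩ g -
    exact g.commutes a.1

/-- HENS: a residue embedding of an unramified extension lifts to a complete field. -/
theorem hens [IsGalois K E] [CDVR R'] (ho : Over (algebraMap K E) v w) (hw : Ine K w = ⊥)
    (h' : IsVR ι' v') {φ : K →+* K'} (hφ : Over φ v v') {ρ : w.integer →+* ResidueField R'}
    (hρ : IsRed w ρ) (hc : ∀ (a : v.integer) (y : R'), φ a = ι' y → ρ (ho.int a) = residue R' y) :
    ∃ j : E →+* K', (∀ a, j (algebraMap K E a) = φ a) ∧ Over j w v' ∧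
      ∀ x : w.integer, ∃ y, j x = ι' y ∧ residue R' y = ρ x := by
  obtain ⟨e, he⟩ := h'.exists_equiv
  let α : v.integer →+* R' := (e.symm : v'.integer →+* R').comp hφ.int
  have hα : ∀ a, ι' (α a) = φ a := fun a => by
    rw [← he]
    exact congrArg Subtype.val (e.apply_symm_apply (hφ.int a))
  obtain ⟨β, hβ, hr⟩ := vhns_lift ho hw α hρ fun a => hc a _ (hα a).symm
  have hd : ∀ x : E, ∃ (a : v.integer) (c : IntAt K w), (a : K) ≠ 0 ∧
      (c : E) = algebraMap K E a * x := fun x => by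
    obtain ⟨a, h0, h1, h2⟩ := exists_mul_mem_intAt (K := K) w x
    exact ⟨⟨a, (ho a).1 h1⟩, ⟨_, h2⟩, h0, rfl⟩
  have hF : IsFr (IntAt K w).subtype := ⟨Subtype.val_injective, fun x => by
    obtain ⟨a, c, h0, h1⟩ := hd x
    refine ⟨c, vhns_i ho a, fun h => h0 ((algebraMap K E).injective ?_), ?_⟩
    · rw [map_zero]
      exact congrArg Subtype.val h
    · exact (mul_comm _ _).trans h1.symm⟩
  have hI : Function.Injective (ι'.comp β) := by
    refine (injective_iff_map_eq_zero _).2 fun b hb => ?_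
    by_contra hn
    have hb0 : (b : E) ≠ 0 := fun h => hn (Subtype.ext h)
    obtain ⟨a, c, h0, h1⟩ := hd (b : E)⁻¹
    have h2 : c * b = vhns_i ho a := Subtype.ext (by
      rw [Subring.coe_mul, h1, inv_mul_cancel_right₀ hb0]
      rfl)
    have h3 := congrArg (ι'.comp β) h2
    rw [map_mul, hb, mul_zero, RingHom.comp_apply, hβ, hα] at h3
    exact h0 ((map_eq_zero φ).1 h3.symm)
  obtain ⟨j, hj⟩ := hF.exists_lift hI
  have hj' : ∀ b : IntAt K w, j b = ι' (β b) := hj
  have h3 : ∀ x : w.integer, ∃ y, j x = ι' y ∧ residue R' y = ρ x := fun x => by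
    obtain ⟨s, hs, h1, h2⟩ := exists_den (K := K) x.2
    have h4 : residue R' (β ⟨s, hs⟩) ≠ 0 := by
      rw [hr]
      exact (hρ.ne_zero _).2 h1
    obtain ⟨u, hu⟩ := (residue_ne_zero_iff_isUnit _).1 h4
    have h5 : ι' u * j x = ι' (β ⟨_, h2⟩) := by
      rw [hu, ← hj', ← hj', ← map_mul]
    have h6 : residue R' u * ρ x = residue R' (β ⟨_, h2⟩) := by
      rw [hu, hr, hr, ← map_mul]
      rfl
    refine ⟨↑u⁻¹ * β ⟨_, h2⟩, ?_, ?_⟩
    · rw [map_mul, ← h5, ← mul_assoc, ← map_mul, Units.inv_mul, map_one, one_mul]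
    · rw [map_mul, ← h6, ← mul_assoc, ← map_mul, Units.inv_mul, map_one, one_mul]
  have h4 : ∀ a : K, v a ≤ 1 → j (algebraMap K E a) = φ a := fun a ha =>
    (hj' (vhns_i ho ⟨a, ha⟩)).trans (by rw [hβ, hα])
  refine ⟨j, fun a => ?_, fun x => ⟨fun h => ?_, fun h => ?_⟩, h3⟩
  · rcases le_or_gt (v a) 1 with h | h
    · exact h4 a h
    · have h5 := h4 a⁻¹ (by rw [map_inv₀]; exact inv_le_one_of_one_le₀ h.le)
      rw [map_inv₀, map_inv₀, map_inv₀] at h5
      exact inv_injective h5
  · by_contra hn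
    have h5 : w x⁻¹ < 1 := by
      rw [map_inv₀]
      exact inv_lt_one_of_one_lt₀ (not_le.1 hn)
    obtain ⟨y, hy, hz⟩ := h3 ⟨x⁻¹, h5.le⟩
    have h6 := (h'.lt_one y).2 (hz.trans ((hρ _).2 h5))
    have h0 : x ≠ 0 := fun h0 => hn (by simp [h0])
    have h7 : v' (j x) * v' (ι' y) = 1 := by
      rw [← hy, ← map_mul, ← map_mul, mul_inv_cancel₀ h0, map_one, map_one]
    exact (mul_lt_one_of_nonneg_of_lt_one_right h zero_le h6).ne h7
  · obtain ⟨y, hy, -⟩ := h3 ⟨x, h⟩
    exact (congrArg v' hy).trans_le (h'.le_one y)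

/-- an unramified extension embeds into a complete field with algebraically closed residue field -/
theorem hens_closed [IsGalois K E] [CDVR R'] [IsAlgClosed (ResidueField R')]
    (ho : Over (algebraMap K E) v w) (hw : Ine K w = ⊥) (h' : IsVR ι' v') {φ : K →+* K'}
    (hφ : Over φ v v') : ∃ j : E →+* K', (∀ a, j (algebraMap K E a) = φ a) ∧ Over j w v' := by
  obtain ⟨ρ₀, h0, -, h1⟩ := h'.exists_red
  obtain ⟨ρ, h2, h3⟩ := exists_red_over ho (h0.comp_int hφ)
  obtain ⟨j, h4, h5, -⟩ := hens ho hw h' hφ h2 fun a y e => by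
    rw [h3, ← h1]
    exact congrArg ρ₀ (Subtype.ext e)
  exact ⟨j, h4, h5⟩

/-- the integers of an unramified extension map back to `R` -/
theorem exists_retr [IsGalois K E] [CDVR R] [IsAlgClosed (ResidueField R)] (hι : IsFr ι)
    (hu : UnrOff K (tE E ι) 1) : ∃ β : IntOff (tE E ι) 1 →+* R, ∀ a, β (toInt _ 1 a) = a := by
  obtain ⟨v, h⟩ := exists_isVR hι
  obtain ⟨w, ho⟩ := exists_over (E := E) v
  obtain ⟨j, h1, h2⟩ := hens_closed ho (h.unrOff_one.1 hu w ho) h (Over.refl v)
  obtain ⟨e, he⟩ := h.exists_equiv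
  refine ⟨(e.symm : v.integer →+* R).comp ((j.comp (IntOff (tE E ι) 1).subtype).codRestrict _
    fun x => (h2 x.1).2 (h.mem_intOff.1 x.2 w ho)), fun a => ?_⟩
  exact e.symm_apply_eq.2 (Subtype.ext ((h1 (ι a)).trans (he a).symm))

/-- a complete ring in which a uniformiser becomes an `m`-th power: the integers of the splitting
field of `X ^ m - π` -/
theorem exists_root_ext [CDVR R] (h : IsFr ι) {m : ℕ} (hm : (m : R) ≠ 0) (π : R) :
    ∃ (R' : Type) (_ : CommRing R') (_ : IsDomain R') (_ : CDVR R') (f : R →+* R') (r : R'),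
      Function.Injective f ∧ f.Finite ∧ IsLocalHom f ∧ r ^ m = f π ∧
      (IsAlgClosed (ResidueField R) → IsAlgClosed (ResidueField R')) := by
  have hm0 : m ≠ 0 := fun e => hm (by simp [e])
  by_cases h0 : π = 0
  · exact ⟨R, _, _, ‹_›, RingHom.id R, 0, Function.injective_id, RingHom.Finite.id R,
      inferInstance, by simp [h0, hm0], id⟩
  obtain ⟨v, hv⟩ := exists_isVR h
  have hs : (Polynomial.X ^ m - Polynomial.C (ι π)).Separable :=
    Polynomial.separable_X_pow_sub_C _ (fun e => hm (h.1 (by simpa using e)))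
      fun e => h0 (h.1 (by simpa using e))
  let p : K[X] := Polynomial.X ^ m - Polynomial.C (ι π)
  have : IsGalois K p.SplittingField := IsGalois.of_separable_splitting_field hs
  obtain ⟨r, hr⟩ := (Polynomial.SplittingField.splits p).exists_eval_eq_zero (by
    rw [Polynomial.degree_map, Polynomial.degree_X_pow_sub_C (Nat.pos_of_ne_zero hm0)]
    exact_mod_cast hm0)
  have hr' : r ^ m = tE p.SplittingField ι π := by
    simpa [p, sub_eq_zero] using hr
  obtain ⟨w, hw, f, -, -, h1, h2, h3, h4⟩ := exists_cdvr_ext (E := p.SplittingField) hv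
  have h5 : w r ≤ 1 := by
    rw [← pow_le_one_iff hm0, ← map_pow, hr', ← h1]
    exact (f π).2
  refine ⟨w.integer, _, _, hw, f, ⟨r, h5⟩, fun a b e => h.1 ?_, h2,
    h3, Subtype.ext (hr'.trans (h1 π).symm), h4⟩
  exact (algebraMap K p.SplittingField).injective
    ((h1 a).symm.trans ((congrArg Subtype.val e).trans (h1 b)))

end Pool.Agent.ZCy
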