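import Pool.Agent.Lib.MP_751085_ag.ZC.V.Pur1
import Pool.Agent.Lib.MP_751085_ag.ZC.V.Bcu

/-! Block V: purity at a point of affine space. -/

namespace Pool.Agent.ZCy

open scoped Classical WithZero Polynomial PowerSeries LaurentSeries
open WithZero (exp)

theorem vpur_bc {B B' K K' E : Type} [CommRing B] [UniqueFactorizationMonoid B] [CommRing B']
    [IsDomain B'] [Field K] [Field K'] [Field E] [Algebra K E] [FiniteDimensional K E]
    [IsGalois K E] {α : B →+* K} (hα : IsFr α) {α' : B' →+* K'} (hα' : IsFr α') {ψ : B →+* B'}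
    (hf : ψ.Flat) (hψ : Function.Injective ψ) {Θ : B} (hu : UnrOff K (tE E α) Θ) {Θ' : B'}
    (hΘ : ψ Θ = Θ') : ∃ (E' : Type) (_ : Field E') (_ : Algebra K' E')
      (_ : FiniteDimensional K' E') (_ : IsGalois K' E'), UnrOff K' (tE E' α') Θ' ∧
      ∃ τ : IntOff (tE E α) Θ →+* IntOff (tE E' α') Θ',
        ∀ p, τ (toInt _ Θ p) = toInt _ Θ' (ψ p) := by
  subst hΘ
  obtain ⟨φ, hφ⟩ := hα.exists_lift (β := α'.comp ψ) (hα'.1.comp hψ)
  obtain ⟨E', _, _, _, _, j, r, h1, h2, h3, -⟩ := exists_bc E φ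
  have hc : ∀ a, j (tE E α a) = tE E' α' (ψ a) := fun a => (h1 _).trans (congrArg _ (hφ a))
  exact ⟨E', _, _, ‹_›, ‹_›, unrOff_bc hα hf hψ hc h2 h3 hu,
    (j.comp (IntOff _ Θ).subtype).codRestrict _ fun x => intOff_map hα hc x.2,
    fun p => Subtype.ext (hc p)⟩

theorem vpur_opt {A R σ : Type} [CommRing A] [CommRing R] (f : A →+* R)
    (g : MvPolynomial σ A →+* MvPowerSeries σ R)
    (hg : ∀ q, g q = MvPowerSeries.map f (q : MvPowerSeries σ A)) (p : MvPolynomial (Option σ) A) :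
    PowerSeries.map g (MvPolynomial.optionEquivLeft A σ p : (MvPolynomial σ A)⟦X⟧) =
      MvPowerSeries.optionEquivLeft σ R (MvPowerSeries.map f (p : MvPowerSeries _ A)) := by
  induction p using MvPolynomial.induction_on with
  | C a => simp [hg]
  | add p q hp hq => simp only [map_add, Polynomial.coe_add, MvPolynomial.coe_add, hp, hq]
  | mul_X p i hp =>
    simp only [map_mul, Polynomial.coe_mul, MvPolynomial.coe_mul, hp]
    cases i <;> simp [hg]

theorem vpur_aux {A K₀ : Type} [CommRing A] [IsDomain A] [UniqueFactorizationMonoid A]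
    [IsNoetherianRing A] [Field K₀] {α₀ : A →+* K₀} (h₀ : IsFr α₀) {c : A} (hc : c ≠ 0)
    (σ : Type) [Finite σ] : ∀ {K E : Type} [Field K] [Field E] [Algebra K E]
      [FiniteDimensional K E] [IsGalois K E] {α : MvPolynomial σ A →+* K}, IsFr α →
      ∀ {Θ : MvPolynomial σ A}, MvPolynomial.constantCoeff Θ = c → UnrOff K (tE E α) Θ →
    ∃ (E₀ : Type) (_ : Field E₀) (_ : Algebra K₀ E₀) (_ : FiniteDimensional K₀ E₀)
      (_ : IsGalois K₀ E₀), UnrOff K₀ (tE E₀ α₀) c ∧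
      ∃ β : IntOff (tE E α) Θ →+* MvPowerSeries σ (IntOff (tE E₀ α₀) c),
        ∀ p, β (toInt _ Θ p) = MvPowerSeries.map (toInt _ _) (p : MvPowerSeries σ A) := by
  induction σ using Finite.induction_empty_option with
  | @of_equiv σ σ' e ih =>
    intro K E _ _ _ _ _ α hα Θ hΘ hu
    have hb := (MvPolynomial.renameEquiv A e.symm).bijective
    obtain ⟨E', _, _, _, _, hu', τ, hτ⟩ := vpur_bc hα
      (isFr_alg (MvPolynomial σ A) (Fr (MvPolynomial σ A)))
      (ψ := (MvPolynomial.renameEquiv A e.symm).toRingEquiv.toRingHom) (.of_bijective hb) hb.1 hu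
      (Θ' := MvPolynomial.rename e.symm Θ) rfl
    obtain ⟨E₀, _, _, _, _, h1, β, hβ⟩ := ih (isFr_alg _ _)
      ((MvPolynomial.constantCoeff_rename e.symm Θ).trans hΘ) hu'
    refine ⟨E₀, _, _, ‹_›, ‹_›, h1,
      (MvPowerSeries.rename e).toRingHom.comp (β.comp τ), fun p => ?_⟩
    change MvPowerSeries.rename e (β (τ _)) = _
    rw [hτ, hβ, MvPowerSeries.rename_map, MvPowerSeries.rename_coe]
    simp
  | h_empty =>
    intro K E _ _ _ _ _ α hα Θ hΘ hu
    have hb : Function.Bijective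
        (MvPolynomial.constantCoeff : MvPolynomial PEmpty A →+* A) :=
      ⟨(injective_iff_map_eq_zero _).2 fun p hp => by
        rw [p.eq_C_of_isEmpty]; exact (congrArg _ hp).trans (map_zero _),
        fun a => ⟨MvPolynomial.C a, MvPolynomial.constantCoeff_C _ a⟩⟩
    obtain ⟨E', _, _, _, _, hu', τ, hτ⟩ := vpur_bc hα h₀ (.of_bijective hb) hb.1 hu hΘ
    refine ⟨E', _, _, ‹_›, ‹_›, hu', MvPowerSeries.C.comp τ, fun p => ?_⟩
    rw [RingHom.comp_apply, hτ, p.eq_C_of_isEmpty]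
    simp
  | @h_option σ _ ih =>
    intro K E _ _ _ _ _ α hα Θ hΘ hu
    have hb := (MvPolynomial.optionEquivLeft A σ).bijective
    obtain ⟨E', _, _, _, _, hu', τ, hτ⟩ := vpur_bc hα
      (isFr_alg (MvPolynomial σ A)[X] (Fr (MvPolynomial σ A)[X]))
      (ψ := (MvPolynomial.optionEquivLeft A σ).toRingEquiv.toRingHom) (.of_bijective hb) hb.1 hu
      (Θ' := MvPolynomial.optionEquivLeft A σ Θ) rfl
    have h1 : MvPolynomial.constantCoeff ((MvPolynomial.optionEquivLeft A σ Θ).coeff 0) = c := by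
      have := MvPolynomial.optionEquivLeft_coeff_some_coeff_none A σ 0 Θ
      rw [Finsupp.some_zero] at this
      exact this.trans hΘ
    obtain ⟨E₁, _, _, _, _, hu₁, β₁, hβ₁⟩ := pur1 (isFr_alg _ (Fr (MvPolynomial σ A)))
      (isFr_alg _ _) (fun h => hc (h1.symm.trans ((congrArg _ h).trans (map_zero _)))) hu'
    obtain ⟨E₀, _, _, _, _, h2, β, hβ⟩ := ih (isFr_alg _ _) h1 hu₁
    refine ⟨E₀, _, _, ‹_›, ‹_›, h2, (MvPowerSeries.optionEquivLeft σ _).symm.toRingHom.comp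
      ((PowerSeries.map β).comp (β₁.comp τ)), fun p => ?_⟩
    change (MvPowerSeries.optionEquivLeft σ _).symm (PowerSeries.map β (β₁ (τ _))) = _
    rw [hτ, hβ₁, AlgEquiv.symm_apply_eq, ← vpur_opt _ (β.comp (toInt _ _)) hβ]
    rfl

/-- PUR. Induction on `σ`. -/
theorem pur {A K₀ : Type} [CommRing A] [IsDomain A] [UniqueFactorizationMonoid A]
    [IsNoetherianRing A] [Field K₀] {α₀ : A →+* K₀} (h₀ : IsFr α₀) (σ : Type) [Finite σ]
    {K E : Type} [Field K] [Field E] [Algebra K E] [FiniteDimensional K E] [IsGalois K E]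
    {α : MvPolynomial σ A →+* K} (hα : IsFr α) {Θ : MvPolynomial σ A}
    (hΘ : MvPolynomial.constantCoeff Θ ≠ 0) (hu : UnrOff K (tE E α) Θ) :
    ∃ (E₀ : Type) (_ : Field E₀) (_ : Algebra K₀ E₀) (_ : FiniteDimensional K₀ E₀)
      (_ : IsGalois K₀ E₀), UnrOff K₀ (tE E₀ α₀) (MvPolynomial.constantCoeff Θ) ∧
      ∃ β : IntOff (tE E α) Θ →+*
          MvPowerSeries σ (IntOff (tE E₀ α₀) (MvPolynomial.constantCoeff Θ)),
        ∀ p, β (toInt _ Θ p) = MvPowerSeries.map (toInt _ _) (p : MvPowerSeries σ A) :=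
  vpur_aux h₀ hΘ σ hα rfl hu

variable {σ k M K E : Type} [Finite σ] [Field k] [Field M] [Field K] [Field E] [Algebra K E]
  [FiniteDimensional K E] [IsGalois K E] {α : MvPolynomial σ k →+* K} {Θ : MvPolynomial σ k}

/-- ZNP in every characteristic: base change along `tr f y` (`exists_bc`, `unrOff_bc`,
`intOff_map`), then `pur` over the field `M`. -/
theorem znp_hom (hα : IsFr α) (hu : UnrOff K (tE E α) Θ) (f : k →+* M) (y : σ → M)
    (hy : Θ.eval₂ f y ≠ 0) : ∃ (M' : Type) (_ : Field M') (_ : Algebra M M')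
      (_ : FiniteDimensional M M') (_ : IsGalois M M')
      (β : IntOff (tE E α) Θ →+* MvPowerSeries σ M'),
      ∀ p, β (toInt _ Θ p) = MvPowerSeries.map (algebraMap M M') (pt f y p) := by
  obtain ⟨E', _, _, _, _, hu', τ, hτ⟩ := vpur_bc hα (isFr_alg _ (Fr (MvPolynomial σ M)))
    (flat_tr (y := y) (flat_field f)) (tr_inj f.injective) hu rfl
  obtain ⟨E₀, _, _, _, _, -, β, hβ⟩ := pur (α₀ := RingHom.id M)
    ⟨Function.injective_id, fun x => ⟨x, 1, one_ne_zero, mul_one x⟩⟩ σ (isFr_alg _ _)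
    (by rwa [constantCoeff_tr]) hu'
  refine ⟨E₀, _, _, ‹_›, ‹_›, (MvPowerSeries.map (Subring.subtype _)).comp (β.comp τ),
    fun p => ?_⟩
  rw [RingHom.comp_apply, RingHom.comp_apply, hτ, hβ, pt_eq]
  rfl

theorem znp (hα : IsFr α) (hu : UnrOff K (tE E α) Θ) (f : k →+* M) (y : σ → M)
    (hy : Θ.eval₂ f y ≠ 0) : ∃ (M' : Type) (_ : Field M') (_ : Algebra M M')
      (_ : FiniteDimensional M M') (_ : IsGalois M M') (j : E →+* Fr (MvPowerSeries σ M')),
      EmbT (tE E α) (IntOff (tE E α) Θ)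
        ((MvPowerSeries.map (algebraMap M M')).comp (pt f y)) j := by
  obtain ⟨M', _, _, _, _, β, hβ⟩ := znp_hom hα hu f y hy
  have : IsDomain (MvPowerSeries σ M') := NoZeroDivisors.to_isDomain _
  obtain ⟨j, hj⟩ := exists_embT hα β fun p q h => pt_inj (y := fun i => algebraMap M M' (y i))
    (f := (algebraMap M M').comp f) (RingHom.injective _) (by
      rw [← map_pt, ← map_pt, ← hβ, ← hβ]; exact h)
  exact ⟨M', _, _, ‹_›, ‹_›, j, fun a => (hj (toInt _ Θ a)).trans (congrArg _ (hβ a)),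
    fun x hx => ⟨_, hj ⟨x, hx⟩⟩⟩

end Pool.Agent.ZCy
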