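import Pool.Agent.Lib.MP_751085_ag.ZC.V.Spe

/-! Block V: Galois coordinates, Lagrange interpolation, lifting of places. -/

namespace Pool.Agent.ZCy

open scoped Classical WithZero Polynomial PowerSeries LaurentSeries
open WithZero (exp)

section

variable {B G : Type} [CommRing B] [Group G] [Fintype G] [MulSemiringAction G B]

/-- the products of differences of conjugates are combinations of the maps `g ↦ g • y` -/
theorem vjid_mem (z : B) : (Pi.single 1 (∏ k ∈ Finset.univ.erase (1 : G), (z - k • z)) : G → B) ∈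
    Submodule.span B (Set.range fun (y : B) (g : G) => g • y) := by
  let e : B →* G → B :=
    { toFun := fun y g => g • y
      map_one' := funext fun g => smul_one g
      map_mul' := fun a b => funext fun g => smul_mul' g a b }
  have h1 : ∏ k ∈ Finset.univ.erase (1 : G), (e z - algebraMap B (G → B) (k • z)) ∈
      Algebra.adjoin B (MonoidHom.mrange e : Set (G → B)) :=
    prod_mem fun k _ => sub_mem (Algebra.subset_adjoin ⟨z, rfl⟩) (Subalgebra.algebraMap_mem _ _)
  rw [← Subalgebra.mem_toSubmodule, Algebra.adjoin_eq_span, Submonoid.closure_eq] at h1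
  refine Set.mem_of_eq_of_mem (funext fun g => Eq.symm ?_) h1
  rw [Finset.prod_apply]
  rcases eq_or_ne g 1 with rfl | hg
  · rw [Pi.single_eq_same]
    exact Finset.prod_congr rfl fun k _ => congrArg (· - k • z) (one_smul G z)
  · rw [Pi.single_eq_of_ne hg]
    exact Finset.prod_eq_zero (Finset.mem_erase.2 ⟨hg, Finset.mem_univ g⟩) (sub_self _)

/-- Galois coordinates -/
theorem gal_coord (n : Ideal B) [n.IsPrime] (h : ∀ g : G, g ≠ 1 → ∃ x, g • x - x ∉ n) :
    ∃ (s : B) (m : ℕ) (x y : Fin m → B), s ∉ n ∧ (∀ g : G, g • s = s) ∧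
      ∀ g : G, ∑ i, x i * g • y i = if g = 1 then s else 0 := by
  obtain ⟨z, hz⟩ := sep_el n h
  let J : Ideal B := (Submodule.span B (Set.range fun (y : B) (g : G) => g • y)).comap
    (LinearMap.single B (fun _ : G => B) 1)
  let P : G → Ideal B := fun g => n.comap (MulSemiringAction.toRingHom G B g)
  have h1 : ¬(J : Set B) ⊆ ⋃ g ∈ ((Finset.univ : Finset G) : Set G), P g := fun hc => by
    obtain ⟨g, -, hg⟩ := (Ideal.subset_union_prime 1 1 fun g _ _ _ =>
      Ideal.comap_isPrime _ n).1 hc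
    obtain ⟨k, hk, hk'⟩ := Ideal.IsPrime.prod_mem_iff.1 (hg (vjid_mem (g⁻¹ • z)))
    refine hz (g * k * g⁻¹) (fun e => Finset.ne_of_mem_erase hk (by simpa using e)) ?_
    have h2 : g • (g⁻¹ • z - k • g⁻¹ • z) ∈ n := hk'
    rw [smul_sub, smul_inv_smul, smul_smul, smul_smul] at h2
    simpa using n.neg_mem h2
  obtain ⟨c, hc, hc'⟩ := Set.not_subset.1 h1
  have h3 : ∏ g : G, g • c ∈ J := by
    rw [← Finset.mul_prod_erase _ _ (Finset.mem_univ (1 : G)), one_smul]
    exact J.mul_mem_right _ hc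
  obtain ⟨m, x, y, hm⟩ := Submodule.mem_span_set'.1 h3
  choose y' hy using fun i => (y i).2
  refine ⟨∏ g : G, g • c, m, x, y', fun hn => ?_, fun g => Finset.smul_prod_perm c g, fun g => ?_⟩
  · obtain ⟨g, hg, hg'⟩ := Ideal.IsPrime.prod_mem_iff.1 hn
    exact hc' (Set.mem_biUnion hg hg')
  · have h4 := congrFun hm g
    simp only [Finset.sum_apply, ← hy, Pi.smul_apply, smul_eq_mul, LinearMap.single_apply,
      Pi.single_apply] at h4
    exact h4

end

section

variable {A K E T T' : Type} [CommRing A] [Field K] [Field E] [Algebra K E] [FiniteDimensional K E]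
  [CommRing T] [CommRing T'] {H : Subgroup (E ≃ₐ[K] E)} {S : Subring E}

theorem Stab.gal_coord (hS : Stab H S) (n : Ideal S) [n.IsPrime]
    (h : ∀ g (hg : g ∈ H), g ≠ 1 → ∃ x, hS.act hg x - x ∉ n) :
    ∃ (s : S) (m : ℕ) (x y : Fin m → S), s ∉ n ∧ (∀ g ∈ H, g (s : E) = s) ∧
      ∀ g ∈ H, ∑ i, (x i : E) * g (y i) = if g = 1 then (s : E) else 0 := by
  let := hS.msa
  let := Fintype.ofFinite H
  obtain ⟨s, m, x, y, h1, h2, h3⟩ := ZCy.gal_coord (G := H) n fun g hg =>
    h g.1 g.2 fun e => hg (Subtype.ext e)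
  refine ⟨s, m, x, y, h1, fun g hg => congrArg Subtype.val (h2 ⟨g, hg⟩), fun g hg => ?_⟩
  have h4 := congrArg S.subtype (h3 ⟨g, hg⟩)
  rw [map_sum, apply_ite S.subtype, map_zero] at h4
  exact h4.trans (by simp)

end

end Pool.Agent.ZCy
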