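import Pool.Agent.Lib.MP_751085_ag.ZC.V.IntB
import Pool.Agent.Lib.MP_751085_ag.ZC.V.Jid
import Pool.Agent.Lib.MP_751085_ag.ZC.V.Pc

/-! Block V: embeddings into flat rings separate the group. -/

namespace Pool.Agent.ZCy

open scoped Classical WithZero Polynomial PowerSeries LaurentSeries
open WithZero (exp)

variable {A K E T T' : Type} [CommRing A] [UniqueFactorizationMonoid A] [IsNoetherianRing A]
  [Field K] [Field E] [CommRing T] [IsDomain T] [CommRing T'] [Algebra K E] [FiniteDimensional K E]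
  [IsGalois K E] {α : A →+* K} {Θ : A}

omit [IsNoetherianRing A] in
/-- the trace dual of the integral closure is integral off `Θ` -/
theorem dual_mem (hα : IsFr α) (hu : UnrOff K (tE E α) Θ) {y : E}
    (hy : ∀ b ∈ IntOff (tE E α) 1, ∃ a, ∑ g : E ≃ₐ[K] E, g (b * y) = tE E α a) :
    y ∈ IntOff (tE E α) Θ := by
  intro P w hP hΘ h
  have hb : ∀ b : IntOff (tE E α) 1, w (b : E) ≤ 1 := fun b => b.2 P w hP hP.not_dvd_one h
  let n : Ideal (IntOff (tE E α) 1) :=
    { carrier := {b | w (b : E) < 1}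
      add_mem' := fun ha hb => w.map_add_lt ha hb
      zero_mem' := by simp
      smul_mem' := fun c x hx => by
        change w ((c : E) * x) < 1
        rw [map_mul]
        exact (mul_le_of_le_one_left' (hb c)).trans_lt hx }
  have hn : ∀ b, b ∉ n ↔ w (b : E) = 1 := fun b =>
    ⟨fun e => le_antisymm (hb b) (not_lt.1 e), fun e => not_lt.2 e.ge⟩
  have : n.IsPrime := ⟨(Ideal.ne_top_iff_one _).2 ((hn 1).2 w.map_one), fun {a b} e => by
    by_contra h1
    rw [not_or, hn, hn] at h1
    refine (hn (a * b)).2 ?_ e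
    rw [Subring.coe_mul, map_mul, h1.1, h1.2, mul_one]⟩
  obtain ⟨s, m, x, z, h1, -, h2⟩ := (stab_intOff α 1).gal_coord n fun g _ hg => by
    obtain ⟨b, hb, e⟩ := h.sep hα hP (hu P w hP hΘ h) hg
    exact ⟨⟨b, hb⟩, (hn _).2 e⟩
  choose a ha using fun i => hy (z i) (z i).2
  have e : (s : E) * y = ∑ i, (x i : E) * tE E α (a i) := by
    simp only [← ha, Finset.mul_sum, map_mul, ← mul_assoc]
    rw [Finset.sum_comm]
    simp only [← Finset.sum_mul, h2 _ (Subgroup.mem_top _)]
    simp
  have h3 : w ((s : E) * y) ≤ 1 := by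
    rw [e]
    refine w.map_sum_le fun i _ => ?_
    rw [map_mul]
    exact mul_le_one' (hb _) (h.1 _)
  rwa [map_mul, (hn s).1 h1, one_mul] at h3

omit [IsNoetherianRing A] in
/-- an additive map that is `A`-linear is given by the trace form -/
theorem exists_trace_rep (hα : IsFr α) (l : IntOff (tE E α) 1 →+ A)
    (hl : ∀ a b, l (toInt _ 1 a * b) = a * l b) :
    ∃ y : E, ∀ b : IntOff (tE E α) 1, ∑ g : E ≃ₐ[K] E, g (b * y) = tE E α (l b) := by
  choose c hc0 hc using fun i => exists_mul_mem_intOff hα (Module.finBasis K E i)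
  have hu : ∀ i, IsUnit (α (c i)) := fun i => ((map_ne_zero_iff α hα.1).2 (hc0 i)).isUnit
  let e := (Module.finBasis K E).isUnitSMul hu
  let b' : Fin (Module.finrank K E) → IntOff (tE E α) 1 := fun i => ⟨_, hc i⟩
  have he : ∀ i, e i = b' i := fun i => by
    rw [Module.Basis.isUnitSMul_apply, Algebra.smul_def]; rfl
  let L : Module.Dual K E := e.constr K fun i => α (l (b' i))
  refine ⟨((Algebra.traceForm K E).toDual (traceForm_nondegenerate K E)).symm L, fun b => ?_⟩
  rw [← trace_eq_sum_automorphisms, mul_comm, ← Algebra.traceForm_apply,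
    LinearMap.BilinForm.apply_toDual_symm_apply, RingHom.comp_apply]
  congr 1
  let := α.toAlgebra
  have := hα.frac
  have := hα.isDomain
  obtain ⟨d, hd⟩ := IsLocalization.exist_integer_multiples_of_finite (nonZeroDivisors A)
    fun i => e.repr b i
  choose a ha using hd
  have ha' : ∀ i, α (a i) = α d * e.repr b i := fun i => (ha i).trans (Algebra.smul_def _ _)
  have h1 : toInt _ 1 (d : A) * b = ∑ i, toInt _ 1 (a i) * b' i := Subtype.ext (by
    conv_lhs => rw [Subring.coe_mul, ← e.sum_repr b]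
    simp only [coe_toInt, AddSubmonoidClass.coe_finsetSum, Subring.coe_mul, RingHom.comp_apply,
      ha', map_mul, Finset.mul_sum, Algebra.smul_def, he, mul_assoc])
  have h2 := congrArg (fun t => α (l t)) h1
  simp only [hl, map_sum, map_mul, ha', mul_assoc, ← Finset.mul_sum] at h2
  rw [mul_left_cancel₀ ((map_ne_zero_iff α hα.1).2 (nonZeroDivisors.coe_ne_zero d)) h2,
    Module.Basis.constr_apply_fintype]
  rfl

/-- Galois coordinates with coefficients in a flat ring -/
theorem flat_coord (hα : IsFr α) (hu : UnrOff K (tE E α) Θ) (β : IntOff (tE E α) Θ →+* T)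
    (hf : (β.comp (toInt _ Θ)).Flat) (hi : Function.Injective (β.comp (toInt _ Θ))) :
    ∃ (m : ℕ) (τ : Fin m → T) (y : Fin m → IntOff (tE E α) Θ),
      ∀ g : E ≃ₐ[K] E, ∑ i, τ i * β (gI α Θ g (y i)) = if g = 1 then 1 else 0 := by
  let ι : IntOff (tE E α) 1 →+* IntOff (tE E α) Θ :=
    Subring.inclusion (intOff_mono (n := 0) (by simp))
  let := (toInt (tE E α) 1).toAlgebra
  let := (β.comp (toInt _ Θ)).toAlgebra
  have : Module.Flat A T := hf
  have : Module.Finite A (IntOff (tE E α) 1) := by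
    obtain ⟨m, b, hb, h⟩ := exists_gen (E := E) hα
    refine ⟨Submodule.fg_def.2 ⟨Set.range fun i => ⟨b i, hb i⟩, Set.finite_range _,
      eq_top_iff.2 fun x _ => ?_⟩⟩
    obtain ⟨a, ha⟩ := h x x.2
    exact (Submodule.mem_span_range_iff_exists_fun A).2 ⟨a, Subtype.ext (by
      rw [ha, AddSubmonoidClass.coe_finsetSum]; rfl)⟩
  have := Module.finitePresentation_of_finite A (IntOff (tE E α) 1)
  let f : IntOff (tE E α) 1 →ₗ[A] T :=
    { toFun := fun b => β (ι b)
      map_add' := fun a b => by rw [map_add, map_add]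
      map_smul' := fun a b => by
        rw [Algebra.smul_def, map_mul, map_mul, RingHom.id_apply, Algebra.smul_def]; rfl }
  obtain ⟨m, h₂, h₃, hh⟩ := Module.Flat.exists_factorization_of_finitePresentation f
  choose y hy using fun i => exists_trace_rep hα ((Finsupp.lapply i ∘ₗ h₂ :) : _ →+ A) fun a b =>
    (Finsupp.lapply i ∘ₗ h₂).map_smul a b
  let y' : Fin m → IntOff (tE E α) Θ := fun i => ⟨y i, dual_mem hα hu fun b hb => ⟨_, hy i ⟨b, hb⟩⟩⟩
  refine ⟨m, fun i => h₃ (Finsupp.single i 1), y', ?_⟩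
  let χ : (E ≃ₐ[K] E) → IntOff (tE E α) 1 →* T := fun g => (β.comp ((gI α Θ g).comp ι) :)
  have hχ : Function.Injective χ := fun g h e => AlgEquiv.ext fun x => by
    obtain ⟨a, h0, ha⟩ := exists_mul_mem_intOff hα x
    have h2 := congrArg Subtype.val (inj_of_toInt hα β hi (DFunLike.congr_fun e ⟨_, ha⟩))
    have h1 : g (tE E α a * x) = h (tE E α a * x) := h2
    rw [map_mul, map_mul, RingHom.comp_apply, g.commutes, h.commutes] at h1
    exact mul_left_cancel₀ ((map_ne_zero _).2 ((map_ne_zero_iff α hα.1).2 h0)) h1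
  have hli := Fintype.linearIndependent_iff.1
    ((linearIndependent_monoidHom (IntOff (tE E α) 1) T).comp χ hχ)
    (fun g => ∑ i, h₃ (Finsupp.single i 1) * β (gI α Θ g (y' i)) - if g = 1 then 1 else 0) ?_
  · exact fun g => sub_eq_zero.1 (hli g)
  funext b
  have h1 : ∀ i, toInt _ Θ (h₂ b i) = ∑ g : E ≃ₐ[K] E, gI α Θ g (ι b) * gI α Θ g (y' i) :=
    fun i => Subtype.ext (by
      rw [AddSubmonoidClass.coe_finsetSum]
      exact (hy i b).symm.trans (Finset.sum_congr rfl fun g _ => map_mul g _ _))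
  have h2 : β (ι b) = ∑ i, h₃ (Finsupp.single i 1) * β (toInt _ Θ (h₂ b i)) := by
    change f b = _
    rw [hh, LinearMap.comp_apply, ← (h₂ b).univ_sum_single, map_sum]
    refine Finset.sum_congr rfl fun i _ => ?_
    rw [(h₂ b).univ_sum_single, ← Finsupp.smul_single_one, map_smul, Algebra.smul_def, mul_comm]
    rfl
  have h3 : ∀ g, χ g b = β (gI α Θ g (ι b)) := fun _ => rfl
  simp only [Finset.sum_apply, Pi.smul_apply, Function.comp_apply, h3, smul_eq_mul, sub_mul,
    Finset.sum_sub_distrib, ite_mul, one_mul, zero_mul, Finset.sum_ite_eq', Finset.mem_univ,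
    if_true, Pi.zero_apply, Finset.sum_mul]
  rw [sub_eq_zero, Finset.sum_comm]
  refine Eq.trans ?_ h2.symm
  refine Finset.sum_congr rfl fun i _ => ?_
  rw [h1, map_sum, Finset.mul_sum]
  exact Finset.sum_congr rfl fun g _ => by rw [map_mul]; ring

theorem flat_sep [Nontrivial T'] (hα : IsFr α) (hu : UnrOff K (tE E α) Θ)
    (β : IntOff (tE E α) Θ →+* T) (hf : (β.comp (toInt _ Θ)).Flat)
    (hi : Function.Injective (β.comp (toInt _ Θ))) (q : T →+* T') {g h : E ≃ₐ[K] E}
    (e : ∀ x, q (β (gI α Θ g x)) = q (β (gI α Θ h x))) : g = h := by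
  obtain ⟨m, τ, y, hy⟩ := flat_coord hα hu β hf hi
  by_contra hne
  have h1 := congrArg q (hy (g * h⁻¹))
  have h2 := congrArg q (hy (h * h⁻¹))
  rw [if_neg fun e => hne (mul_inv_eq_one.1 e), map_zero, map_sum] at h1
  rw [if_pos (mul_inv_cancel h), map_one, map_sum] at h2
  refine zero_ne_one (h1.symm.trans (Eq.trans (Finset.sum_congr rfl fun i _ => ?_) h2))
  rw [map_mul, map_mul]
  exact congrArg _ (e (gI α Θ h⁻¹ (y i)))

theorem flat_unique [Nontrivial T'] (hα : IsFr α) (h0 : Θ ≠ 0) (hu : UnrOff K (tE E α) Θ)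
    (β β' : IntOff (tE E α) Θ →+* T) (hf : (β.comp (toInt _ Θ)).Flat)
    (hi : Function.Injective (β.comp (toInt _ Θ))) (h1 : ∀ a, β' (toInt _ Θ a) = β (toInt _ Θ a))
    (q : T →+* T') {g : E ≃ₐ[K] E} (e : ∀ x, q (β' x) = q (β (gI α Θ g x))) (x) :
    β' x = β (gI α Θ g x) := by
  obtain ⟨g', hm', hg'⟩ := (stab_intOff α Θ).place_conj β β' fun a ha => by
    obtain ⟨m, hm⟩ := exists_pow_mul_mem hα a.2
    obtain ⟨c, hc⟩ := fix_intOff_one hα hm fun s => by
      rw [map_mul, map_pow, ha s (Subgroup.mem_top s), RingHom.comp_apply, s.commutes]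
    have h2 : toInt _ Θ c = toInt _ Θ Θ ^ m * a := Subtype.ext hc
    have h3 := h1 c
    rw [h2, map_mul, map_mul, map_pow, map_pow, h1] at h3
    exact mul_left_cancel₀ (pow_ne_zero _ ((map_ne_zero_iff _ hi).2 h0)) h3
  have : g' = g := flat_sep hα hu β hf hi q fun x => (congrArg q (hg' x)).symm.trans (e x)
  exact this ▸ hg' x

end Pool.Agent.ZCy
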