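import Pool.Agent.Lib.MP_751085_ag.ZC.V.Pur0
import Pool.Agent.Lib.MP_751085_ag.ZC.V.Rsg

/-! Block V: purity, one variable at a time. -/

namespace Pool.Agent.ZCy

open scoped Classical WithZero Polynomial PowerSeries LaurentSeries
open WithZero (exp)

variable {A K₀ K E E₁ T : Type} [CommRing A] [IsDomain A] [UniqueFactorizationMonoid A]
  [IsNoetherianRing A] [Field K₀] [Field K] [Field E] [Field E₁] [CommRing T] [Algebra K E]
  [FiniteDimensional K E] [IsGalois K E] {α₀ : A →+* K₀} {α : A[X] →+* K} {Θ : A[X]}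

/-- PUR1: `E₁` is the residue field of a valuation centred at `X`. -/
theorem pur1 (h₀ : IsFr α₀) (hα : IsFr α) (hΘ : Θ.coeff 0 ≠ 0) (hu : UnrOff K (tE E α) Θ) :
    ∃ (E₁ : Type) (_ : Field E₁) (_ : Algebra K₀ E₁) (_ : FiniteDimensional K₀ E₁)
      (_ : IsGalois K₀ E₁), UnrOff K₀ (tE E₁ α₀) (Θ.coeff 0) ∧
      ∃ β : IntOff (tE E α) Θ →+* (IntOff (tE E₁ α₀) (Θ.coeff 0))⟦X⟧,
        ∀ p, β (toInt _ Θ p) = PowerSeries.map (toInt _ (Θ.coeff 0)) (p : A⟦X⟧) := by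
  have hX : Prime (Polynomial.X : A[X]) := Polynomial.prime_X
  have hXΘ : ¬Polynomial.X ∣ Θ := fun h => hΘ (Polynomial.X_dvd_iff.1 h)
  have h0 : Θ ≠ 0 := fun h => hΘ (by rw [h, Polynomial.coeff_zero])
  obtain ⟨v, hv, -⟩ := exists_vcen hα hX
  obtain ⟨w, -, hw⟩ := exists_cen_ext (E := E) hα hX
  have ho := (Cen.over hα hX hv).1 hw
  have hI := hu _ w hX hXΘ hw
  obtain ⟨ρ₀, hr₀, hl, hs₀⟩ := Cen.exists_red hα hX hv (l := α₀.comp Polynomial.constantCoeff)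
    fun a => (map_eq_zero_iff α₀ h₀.1).trans Polynomial.X_dvd_iff.symm
  obtain ⟨E₁, _, _, _, _, ρ, e, hr, -, hc, he⟩ := res_gal ho hI hr₀ (hs₀ fun y => by
    obtain ⟨a, b, hb, h⟩ := h₀.2 y
    exact ⟨Polynomial.C a, Polynomial.C b, by simpa [map_eq_zero_iff α₀ h₀.1] using hb,
      by simpa using h⟩)
  have hS : IntOff (tE E α) Θ ≤ w.integer := fun x hx => hx _ w hX hXΘ hw
  let σ : IntOff (tE E α) Θ →+* E₁ := ρ.comp (Subring.inclusion hS)
  have hσ (p) : σ (toInt _ Θ p) = tE E₁ α₀ (p.coeff 0) :=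
    (hc ⟨α p, hv.1 p⟩).trans (congrArg _ (hl p))
  have := RingHom.ker_isPrime σ
  obtain ⟨z, hz⟩ := (stab_intOff (E := E) α Θ).sep_el (RingHom.ker σ) fun g _ hg => by
    obtain ⟨b, hb, h⟩ := Cen.sep hα hX hw hI hg
    exact ⟨⟨b, intOff_mono (n := 0) (one_dvd _) hb⟩, (hr.ne_zero _).2 h⟩
  replace hz (g : E ≃ₐ[K] E) (hg : g ≠ 1) : IsUnit (σ (gI α Θ g z - z)) :=
    isUnit_iff_ne_zero.2 (hz g (Subgroup.mem_top g) hg)
  obtain ⟨β, hβ, hβ0⟩ := pur_lift hα h0 (tE E₁ α₀) (isUnit_iff_ne_zero.2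
    ((map_ne_zero (algebraMap K₀ E₁)).2 ((map_ne_zero_iff α₀ h₀.1).2 hΘ))) σ hσ z hz
  refine ⟨E₁, inferInstance, inferInstance, inferInstance, inferInstance,
    fun P u hP hn hu' => (Subgroup.eq_bot_iff_forall _).2 fun s hs => ?_, ?_⟩
  · obtain ⟨h1, y, h2⟩ := pur_sep hα hu σ hσ hP hn hu'
    obtain ⟨g, rfl⟩ := e.surjective s
    by_contra hne
    have h3 := h2 g fun h => hne (by rw [show g = 1 from Subtype.ext h, map_one])
    have h4 : σ (gI α Θ g y) = e g (σ y) := (he g (Subring.inclusion hS y)).symm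
    rw [map_sub, h4] at h3
    exact (hs.2 _ (h1 y)).ne h3
  · obtain ⟨β', h⟩ := exists_ps_sub (IntOff (tE E₁ α₀) (Θ.coeff 0)) β fun x n P u hP hn hu' => by
      obtain ⟨h1, y, h2⟩ := pur_sep hα hu σ hσ hP hn hu'
      have hU (t : u.integer) (ht : u t = 1) : IsUnit t :=
        (Valuation.integer.integers u).isUnit_iff_valuation_eq_one.2 ht
      obtain ⟨γ, hγ, hγ0⟩ := pur_lift hα h0 ((tE E₁ α₀).codRestrict u.integer hu'.1)
        (hU _ ((hu'.eq_one _).2 hn)) (σ.codRestrict u.integer h1) (fun p => Subtype.ext (hσ p)) y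
        fun g hg => hU _ (h2 g hg)
      have := pur_unique hα h0 β ((PowerSeries.map u.integer.subtype).comp γ)
        (fun p => by rw [RingHom.comp_apply, hγ, hβ]; rfl)
        (fun x => (congrArg Subtype.val (hγ0 x)).trans (hβ0 x).symm) z fun g hg => by
          rw [hβ0]; exact hz g hg
      rw [← this]
      exact (PowerSeries.coeff n (γ x)).2
    refine ⟨β', fun p => PowerSeries.map_injective (IntOff (tE E₁ α₀) (Θ.coeff 0)).subtype
      Subtype.val_injective ?_⟩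
    rw [h, hβ]
    rfl

end Pool.Agent.ZCy
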