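import Pool.Agent.Lib.MP_751085_ag.ZC.V.Cnj

/-! Block V: decomposition and inertia fields. -/

namespace Pool.Agent.ZCy

open scoped Classical WithZero Polynomial PowerSeries LaurentSeries
open WithZero (exp)

variable {K E F Ω : Type} [Field K] [Field E] [Field F] [Field Ω] [Algebra K E]
  [FiniteDimensional K E] [IsGalois K E] {v : Vl K} {w : Vl E} {ρ ρ' : w.integer →+* Ω}

omit [FiniteDimensional K E] [IsGalois K E] in
/-- sums over cosets are invariant -/
theorem vdec_tr {G : Type} [Group G] [Finite G] (f : G →* (E ≃ₐ[K] E)) (H : Subgroup G) {z : E}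
    (hz : ∀ h ∈ H, f h z = z) (g : G) :
    f g (∑ᶠ q : G ⧸ H, f q.out z) = ∑ᶠ q : G ⧸ H, f q.out z := by
  have := Fintype.ofFinite (G ⧸ H)
  rw [finsum_eq_sum_of_fintype, map_sum]
  refine Fintype.sum_equiv (MulAction.toPerm g) _ _ fun q => ?_
  obtain ⟨h, e⟩ := QuotientGroup.mk_out_eq_mul H (g * q.out)
  rw [MulAction.toPerm_apply, ← MulAction.Quotient.mk_smul_out, smul_eq_mul, e, map_mul, map_mul,
    AlgEquiv.mul_apply, AlgEquiv.mul_apply, hz h h.2]

/-- DEC. With `y` from `exists_idem`, the sum of `c.out (x * y)` over the cosets `c` of the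
decomposition group is invariant and close to `x`. -/
theorem dns_of_dec {x : E} (hx : ∀ g ∈ Dec K w, g x = x) : Dns (algebraMap K E) w x := fun n => by
  obtain ⟨m, hm⟩ := Finite.bddAbove_range fun g : E ≃ₐ[K] E => WithZero.log (w (g x))
  obtain ⟨y, y1, y2, y3⟩ := exists_idem (K := K) w (n + m.toNat)
  have fx : ∀ g ∈ Dec K w, g (x * y) = x * y := fun g hg => by rw [map_mul, hx g hg, y1 g hg]
  obtain ⟨a, ha⟩ := mem_range_of_fix (vdec_tr (MonoidHom.id _) (Dec K w) fx)
  have key : ∀ (g : E ≃ₐ[K] E) (z : E), w z ≤ exp (-(n + m.toNat : ℕ) : ℤ) →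
      w (g x * z) ≤ exp (-(n : ℤ)) := fun g z hz => by
    rw [map_mul]
    refine (mul_le_mul' (WithZero.le_exp_of_log_le (hm ⟨g, rfl⟩)) hz).trans ?_
    rw [← WithZero.exp_add, WithZero.exp_le_exp]
    omega
  have := Fintype.ofFinite ((E ≃ₐ[K] E) ⧸ Dec K w)
  have one : ∀ q : (E ≃ₐ[K] E) ⧸ Dec K w, q.out ∈ Dec K w ↔ q = (1 : E ≃ₐ[K] E) := fun q => by
    rw [← inv_mem_iff, ← mul_one q.out⁻¹, ← QuotientGroup.eq, QuotientGroup.out_eq']
  refine ⟨a, ?_⟩
  rw [ha, finsum_eq_sum_of_fintype, ← Finset.add_sum_erase _ _ (Finset.mem_univ ↑(1 : E ≃ₐ[K] E)),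
    ← sub_sub, MonoidHom.id_apply, fx _ ((one _).2 rfl)]
  refine w.map_sub_le ?_ (w.map_sum_le fun q hq => ?_)
  · rw [Valuation.map_sub_swap, ← mul_sub_one]
    exact key 1 _ y2
  · rw [MonoidHom.id_apply, map_mul]
    exact key _ _ (y3 _ (mt (one q).1 (Finset.ne_of_mem_erase hq)))

/-- An element of `D` that fixes the residues of the inertia field lies in `I`: for integral
`y` the polynomial `∏ i ∈ I, (X - i y)` is congruent to `(X - y) ^ |I|`; evaluate its conjugate
at `g y`. -/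
theorem mem_ine_of_fix {g : E ≃ₐ[K] E} (hg : g ∈ Dec K w)
    (h : ∀ x, w x ≤ 1 → (∀ s ∈ Ine K w, s x = x) → w (g x - x) < 1) : g ∈ Ine K w := by
  refine ⟨hg, fun y hy => not_le.1 fun hl => ?_⟩
  have := Fintype.ofFinite (Ine K w)
  obtain ⟨p, hp⟩ : ∃ p : E[X], p = ∏ i : Ine K w, (Polynomial.X - Polynomial.C (i.1 y)) := ⟨_, rfl⟩
  have c1 : ∀ k, w (p.coeff k) ≤ 1 := fun k => by
    have : p = (∏ i : Ine K w, (Polynomial.X -
        Polynomial.C (⟨i.1 y, (i.2.1 y).trans_le hy⟩ : w.integer))).map w.integer.subtype := by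
      simp [hp, Polynomial.map_prod]
    rw [this, Polynomial.coeff_map]
    exact (Polynomial.coeff _ k : w.integer).2
  have c2 : ∀ s ∈ Ine K w, p.map (s : E →+* E) = p := fun s hs => by
    rw [hp, Polynomial.map_prod]
    exact Fintype.prod_equiv (Equiv.mulLeft (⟨s, hs⟩ : Ine K w)) _ _ fun i => by simp
  have e : w ((p.map (g : E →+* E) - p).eval (g y)) < 1 := by
    rw [Polynomial.eval_eq_sum_range]
    refine w.map_sum_lt one_ne_zero fun k _ => ?_
    rw [map_mul, map_pow, hg y, Polynomial.coeff_sub, Polynomial.coeff_map]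
    refine mul_lt_one_of_lt_of_le (h _ (c1 k) fun s hs => ?_) (pow_le_one' hy _)
    exact (Polynomial.coeff_map _ _).symm.trans (congrArg (·.coeff k) (c2 s hs))
  have e0 : (p.map (g : E →+* E)).eval (g y) = 0 := by
    rw [hp, Polynomial.map_prod, Polynomial.eval_prod]
    exact Finset.prod_eq_zero (Finset.mem_univ 1) (by simp)
  rw [Polynomial.eval_sub, e0, zero_sub, w.map_neg, hp, Polynomial.eval_prod, map_prod] at e
  refine e.not_ge (Finset.one_le_prod' fun i _ => hl.trans_eq ?_)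
  rw [← w.map_sub_eq_of_lt_left ((i.2.2 y hy).trans_le hl)]
  simp

/-- The cosets of `I` in `D` give distinct multiplicative maps from the integral `I`-invariant
elements to the residue field, so they are linearly independent (`linearIndependent_monoidHom`). -/
theorem exists_sum_unit (c : Dec K w ⧸ (Ine K w).subgroupOf (Dec K w) → E) (h1 : ∀ q, w (c q) ≤ 1)
    (h2 : ∃ q, w (c q) = 1) : ∃ u, w u ≤ 1 ∧ (∀ s ∈ Ine K w, s u = u) ∧
      w (∑ᶠ q, c q * (q.out : E ≃ₐ[K] E) u) = 1 := by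
  obtain ⟨κ, _, ρ, hρ, -⟩ := exists_resf w
  have := Fintype.ofFinite (Dec K w ⧸ (Ine K w).subgroupOf (Dec K w))
  let M : Submonoid w.integer :=
    { carrier := {u | ∀ s ∈ Ine K w, s u = u}
      one_mem' := fun s _ => map_one s
      mul_mem' := fun ha hb s hs => by
        rw [Subring.coe_mul, map_mul, ha s hs, hb s hs] }
  let χ : Dec K w ⧸ (Ine K w).subgroupOf (Dec K w) → M →* κ := fun q =>
    (ρ.comp ((stab_int w).act q.out.2) : w.integer →* κ).comp M.subtype
  have inj : Function.Injective χ := fun q q' e => by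
    rw [← q.out_eq', ← q'.out_eq']
    refine QuotientGroup.eq.2 (mem_ine_of_fix (q.out⁻¹ * q'.out).2 fun x hx hI => ?_)
    have := (hρ.eq_iff _ _).1 (DFunLike.congr_fun e.symm ⟨⟨x, hx⟩, hI⟩)
    rwa [← q.out.2, map_sub, ← AlgEquiv.mul_apply, Subgroup.coe_subtype, ← Subgroup.coe_mul,
      mul_inv_cancel_left]
  by_contra hn
  obtain ⟨q, hq⟩ := h2
  refine (hρ.ne_zero ⟨c q, h1 q⟩).2 hq (Fintype.linearIndependent_iff.1
    ((linearIndependent_monoidHom M κ).comp χ inj) (fun q => ρ ⟨c q, h1 q⟩) (funext fun u => ?_) q)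
  have : ρ (∑ q, ⟨c q, h1 q⟩ * (stab_int w).act q.out.2 u) = 0 := by_contra fun h =>
    hn ⟨u, u.1.2, u.2, by simpa [finsum_eq_sum_of_fintype] using (hρ.ne_zero _).1 h⟩
  simpa [χ] using this

/-- The inertia field has index one: use `c q = q.out x / x`; the sum of `q.out (u * x)` is fixed
by `D` and has the value of `x`. -/
theorem e1_of_ine {x : E} (hx : ∀ g ∈ Ine K w, g x = x) : ∃ a : K, w x = w (algebraMap K E a) := by
  rcases eq_or_ne x 0 with rfl | x0
  · exact ⟨0, by rw [map_zero (algebraMap K E)]⟩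
  have w0 := (map_ne_zero w).2 x0
  have hc : ∀ q : Dec K w ⧸ (Ine K w).subgroupOf (Dec K w), w (q.out.1 x / x) = 1 := fun q => by
    rw [map_div₀, q.out.2 x, div_self w0]
  obtain ⟨u, -, u2, u3⟩ := exists_sum_unit _ (fun q => (hc q).le) ⟨(1 : Dec K w), hc _⟩
  have tr := vdec_tr (Dec K w).subtype ((Ine K w).subgroupOf (Dec K w)) (z := x * u)
    fun h hh => (map_mul h.1 x u).trans (by rw [hx h.1 hh, u2 h.1 hh])
  obtain ⟨a, ha⟩ := (dns_of_dec fun g hg => tr ⟨g, hg⟩).exists_lt w0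
  have e : w (∑ᶠ q : Dec K w ⧸ (Ine K w).subgroupOf (Dec K w), (Dec K w).subtype q.out (x * u)) =
      w x := by
    rw [← mul_one (w x), ← u3, ← map_mul, mul_finsum]
    congr 2 with q
    rw [map_mul, ← mul_assoc, mul_div_cancel₀ _ x0]
    rfl
  rw [← e, Valuation.map_sub_swap] at ha
  exact ⟨a, e.symm.trans (w.map_eq_of_sub_lt ha).symm⟩

theorem e1_of_ine_bot (hw : Ine K w = ⊥) : E1 K w := fun _ => e1_of_ine fun g hg => by
  rw [hw, Subgroup.mem_bot] at hg
  rw [hg, AlgEquiv.one_apply]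

/-- apply `e1_of_ine` to the norm under `I` -/
theorem pow_card_ine (w : Vl E) (x : E) :
    ∃ a : K, w x ^ Nat.card (Ine K w) = w (algebraMap K E a) := by
  have := Fintype.ofFinite (Ine K w)
  obtain ⟨a, ha⟩ := e1_of_ine (K := K) (w := w) (x := ∏ i : Ine K w, i.1 x) fun g hg => by
    rw [map_prod]
    exact Fintype.prod_equiv (Equiv.mulLeft (⟨g, hg⟩ : Ine K w)) _ _ fun _ => rfl
  refine ⟨a, ha ▸ ?_⟩
  rw [map_prod, Finset.prod_congr rfl fun (i : Ine K w) _ => i.2.1 x, Finset.prod_const,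
    Finset.card_univ, Nat.card_eq_fintype_card]

theorem idx_dvd_card {e : ℕ} (hv : Nrm v) (hw : Nrm w) (h : Idx (algebraMap K E) v w e) :
    e ∣ Nat.card (Ine K w) := by
  obtain ⟨π, hπ⟩ := hw
  obtain ⟨a, ha⟩ := pow_card_ine (K := K) w π
  have := congrArg WithZero.log ha
  rw [hπ, WithZero.log_pow, WithZero.log_exp] at this
  refine Int.natCast_dvd_natCast.1 ⟨ord v a, ?_⟩
  rw [← h.ord, ord, ← this]
  simp

/-- Invariant residues come from `K`: with `u` for `c = 1`, use the quotient of the traces of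
`u * x` and `u`. -/
theorem red_of_fix {x : E} (hx : w x ≤ 1) (hI : ∀ g ∈ Ine K w, g x = x)
    (hD : ∀ g ∈ Dec K w, w (g x - x) < 1) : ∃ a : K, w (x - algebraMap K E a) < 1 := by
  obtain ⟨u, u1, u2, u3⟩ := exists_sum_unit (K := K) (w := w) (fun _ => 1) (fun _ => w.map_one.le)
    ⟨(1 : Dec K w), w.map_one⟩
  have t1 := vdec_tr (Dec K w).subtype ((Ine K w).subgroupOf (Dec K w)) fun h hh => u2 _ hh
  have t2 := vdec_tr (Dec K w).subtype ((Ine K w).subgroupOf (Dec K w)) (z := x * u)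
    fun h hh => (map_mul h.1 x u).trans (by rw [hI h.1 hh, u2 h.1 hh])
  have := Fintype.ofFinite (Dec K w ⧸ (Ine K w).subgroupOf (Dec K w))
  simp only [one_mul, finsum_eq_sum_of_fintype, Subgroup.coe_subtype] at t1 t2 u3
  obtain ⟨a, ha⟩ := (dns_of_dec fun g hg => (map_div₀ g _ _).trans
    (congrArg₂ (· / ·) (t2 ⟨g, hg⟩) (t1 ⟨g, hg⟩))).exists_lt one_ne_zero
  refine ⟨a, ?_⟩
  rw [← sub_add_sub_cancel]
  refine w.map_add_lt ?_ ha
  rw [sub_div' ((map_ne_zero w).1 (u3.trans_ne one_ne_zero)), map_div₀, u3, div_one,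
    Finset.mul_sum, ← Finset.sum_sub_distrib]
  refine w.map_sum_lt one_ne_zero fun q _ => ?_
  rw [map_mul, ← sub_mul, map_mul, q.out.2 u, Valuation.map_sub_swap]
  exact mul_lt_one_of_lt_of_le (hD _ q.out.2) u1

end Pool.Agent.ZCy
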