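import Pool.Agent.Lib.MP_751085_ag.ZC.V.Ord

/-! Block V: integral elements, limits, residue maps. -/

namespace Pool.Agent.ZCy

open scoped Classical WithZero Polynomial PowerSeries LaurentSeries
open WithZero (exp)

variable {A K K' K'' E Ω : Type} [CommRing A] [Field K] [Field K'] [Field K''] [Field E] [Field Ω]
  {v : Vl K} {v' : Vl K'} {v'' : Vl K''} {φ : K →+* K'} {ψ : K' →+* K''} {x y : K}

/-- integral elements have value at most one -/
theorem le_one_of_int {f : A →+* K} (h : ∀ a, v (f a) ≤ 1) (hx : f.IsIntegralElem x) : v x ≤ 1 := by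
  obtain ⟨P, hm, hP⟩ := hx
  refine (Valuation.integer.integers v).mem_of_integral
    ⟨P.map (f.codRestrict v.integer h), hm.map _, ?_⟩
  rw [Polynomial.eval₂_map]
  exact hP

/-- a valuation that is trivial on `K` is trivial on algebraic elements -/
theorem Triv.eq_one [Algebra K E] {w : Vl E} (h : Triv (algebraMap K E) w) {x : E} (h0 : x ≠ 0)
    (hx : IsAlgebraic K x) : w x = 1 := by
  have h1 : ∀ a, w (algebraMap K E a) ≤ 1 := fun a => by
    rcases eq_or_ne a 0 with rfl | ha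
    · simp
    · exact (h a ha).le
  have h2 := le_one_of_int h1 hx.inv.isIntegral
  rw [map_inv₀, inv_le_one₀ ((Valuation.pos_iff w).2 h0)] at h2
  exact le_antisymm (le_one_of_int h1 hx.isIntegral) h2

theorem Dns.of_mem (φ : K →+* K') (v' : Vl K') (a : K) : Dns φ v' (φ a) :=
  fun _ => ⟨a, by simp⟩

theorem Dns.exists_lt {z : K'} (h : Dns φ v' z) {c : ℤᵐ⁰} (hc : c ≠ 0) :
    ∃ a, v' (z - φ a) < c := by
  obtain ⟨n, hn⟩ := exists_exp_lt hc
  exact (h n).imp fun _ ha => ha.trans_lt hn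

theorem exists_resf (v : Vl K) : ∃ (κ : Type) (_ : Field κ) (ρ : v.integer →+* κ),
    IsRed v ρ ∧ Function.Surjective ρ :=
  ⟨IsLocalRing.ResidueField v.valuationSubring, inferInstance,
    IsLocalRing.residue v.valuationSubring, fun x =>
      (IsLocalRing.residue_eq_zero_iff (R := v.valuationSubring) x).trans
        (v.mem_maximalIdeal_iff (a := x)),
    IsLocalRing.residue_surjective (R := v.valuationSubring)⟩

theorem IsRed.ne_zero {ρ : v.integer →+* Ω} (h : IsRed v ρ) (x : v.integer) :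
    ρ x ≠ 0 ↔ v x = 1 :=
  (h x).not.trans ⟨(show v x ≤ 1 from x.2).eq_of_not_lt, fun e => e.not_lt⟩

theorem IsRed.eq_iff {ρ : v.integer →+* Ω} (h : IsRed v ρ) (x y : v.integer) :
    ρ x = ρ y ↔ v (x - y) < 1 := by
  rw [← sub_eq_zero, ← map_sub]
  exact h _

theorem IsRed.comp_int {ρ : v'.integer →+* Ω} (h : IsRed v' ρ) (ho : Over φ v v') :
    IsRed v (ρ.comp ho.int) := fun x => (h _).trans (ho.lt_one x)

theorem IsRed.comp {Ω' : Type} [Field Ω'] {ρ : v.integer →+* Ω} (h : IsRed v ρ) (i : Ω →+* Ω') :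
    IsRed v (i.comp ρ) := fun x => (map_eq_zero i).trans (h x)

/-- a residue map factors through every surjective residue map -/
theorem IsRed.factor {Ω' : Type} [Field Ω'] {ρ : v.integer →+* Ω} {ρ' : v.integer →+* Ω'}
    (h : IsRed v ρ) (hs : Function.Surjective ρ) (h' : IsRed v ρ') :
    ∃ i : Ω →+* Ω', ∀ x, i (ρ x) = ρ' x :=
  ⟨ρ.liftOfSurjective hs ⟨ρ', fun x hx => (h' x).2 ((h x).1 hx)⟩, fun x =>
    ρ.liftOfRightInverse_comp_apply _ _ _ x⟩

theorem IsRed.inv_mem {ρ : v.integer →+* Ω} (h : IsRed v ρ) (x : v.integer) :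
    ∃ y : v.integer, ρ y = (ρ x)⁻¹ := by
  rcases eq_or_ne (ρ x) 0 with h0 | h0
  · exact ⟨0, by rw [h0, map_zero, inv_zero]⟩
  have h1 := (h.ne_zero x).1 h0
  have h2 : (x : K) ≠ 0 := fun e => zero_ne_one (by rw [← h1, e, map_zero])
  refine ⟨⟨(x : K)⁻¹, show v _ ≤ 1 by rw [map_inv₀, h1, inv_one]⟩, eq_inv_of_mul_eq_one_left ?_⟩
  rw [← map_mul, ← map_one ρ]
  exact congrArg ρ (Subtype.ext (inv_mul_cancel₀ h2))

end Pool.Agent.ZCy
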