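import Pool.Agent.Lib.MP_751085_ag.ZC.V.DecB

/-! Block V: tame ramification. -/

namespace Pool.Agent.ZCy

open scoped Classical WithZero Polynomial PowerSeries LaurentSeries
open WithZero (exp)

section

variable {K E Ω : Type} [Field K] [Field E] [Field Ω] [Algebra K E] {w : Vl E} {g : E ≃ₐ[K] E}

theorem vtam_dvd {a n : ℕ} (h : a ∣ n) (hn : w (n : E) = 1) : w (a : E) = 1 := by
  obtain ⟨b, rfl⟩ := h
  rw [Nat.cast_mul, map_mul] at hn
  exact le_antisymm (natCast_mem w.integer a)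
    (hn.ge.trans (mul_le_of_le_one_right' (natCast_mem w.integer b)))

theorem vtam_mul {a b : E} (ha : w (a - 1) < 1) (hb : w (b - 1) < 1) : w (a * b - 1) < 1 := by
  have h1 : w a = 1 := (w.map_eq_of_sub_lt (w.map_one.symm ▸ ha)).trans w.map_one
  have : a * b - 1 = a * (b - 1) + (a - 1) := by ring
  rw [this]
  exact w.map_add_lt (by rwa [map_mul, h1, one_mul]) ha

theorem vtam_zpow {a : E} (ha : w (a - 1) < 1) (m : ℤ) : w (a ^ m - 1) < 1 := by
  have hp : ∀ {a : E}, w (a - 1) < 1 → ∀ n : ℕ, w (a ^ n - 1) < 1 := fun ha n => by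
    induction n with
    | zero => simp
    | succ n ih => rw [pow_succ]; exact vtam_mul ih ha
  have h1 : w a = 1 := (w.map_eq_of_sub_lt (w.map_one.symm ▸ ha)).trans w.map_one
  have h0 : a ≠ 0 := w.ne_zero_iff.1 (h1 ▸ one_ne_zero)
  cases m with
  | ofNat n => simpa using hp ha n
  | negSucc n =>
    rw [zpow_negSucc, ← inv_pow]
    refine hp ?_ _
    have : a⁻¹ - 1 = -(a - 1) / a := by field_simp; ring
    rwa [this, map_div₀, h1, div_one, Valuation.map_neg]

theorem vtam_unit (hg : g ∈ Ine K w) {u : E} (hu : w u = 1) : w (g u / u - 1) < 1 := by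
  have h0 : u ≠ 0 := w.ne_zero_iff.1 (hu ▸ one_ne_zero)
  rw [div_sub_one h0, map_div₀, hu, div_one]
  exact hg.2 u hu.le

theorem vtam_lt {x : E} (hx : x ≠ 0) (h : w (g x / x - 1) < 1) : w (g x - x) < w x := by
  rwa [div_sub_one hx, map_div₀, div_lt_one₀ (w.pos_iff.2 hx)] at h

theorem vtam_dec (hg : g ∈ Ine K w) {π x : E} (hπ : w π = exp (-1)) (hx : x ≠ 0) :
    ∃ b, w (b - 1) < 1 ∧ g x / x = b * (g π / π) ^ ord w x := by
  have h0 : π ≠ 0 := w.ne_zero_iff.1 (hπ ▸ WithZero.exp_ne_zero)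
  have h1 : π ^ ord w x ≠ 0 := zpow_ne_zero _ h0
  have h2 : g π ^ ord w x ≠ 0 := zpow_ne_zero _ ((map_ne_zero g).2 h0)
  refine ⟨_, vtam_unit hg (u := x / π ^ ord w x) ((ord_eq_zero_v w (div_ne_zero hx h1)).1 ?_), ?_⟩
  · rw [ord_div_v w hx h1, ord_zpow_v, ord_eq_of w hπ, mul_one, sub_self]
  · rw [map_div₀, map_zpow₀, div_zpow]
    field_simp

theorem vtam_e1 (hg : g ∈ Ine K w) {x : E} (hx : x ≠ 0) {a : K} (e : w x = w (algebraMap K E a)) :
    w (g x - x) < w x := by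
  have h0 : algebraMap K E a ≠ 0 := w.ne_zero_iff.1 (e ▸ w.ne_zero_iff.2 hx)
  have := vtam_unit hg (u := x / algebraMap K E a)
    (by rw [map_div₀, e, div_self (w.ne_zero_iff.2 h0)])
  rw [map_div₀, AlgEquiv.commutes, div_div_div_cancel_right₀ h0] at this
  exact vtam_lt hx this

theorem vtam_rho (ρ : w.integer →+* Ω) {a z : w.integer} (ha : (a : E) ≠ 0) {m : ℤ}
    (hz : (z : E) = (a : E) ^ m) : ρ z = ρ a ^ m := by
  cases m with
  | ofNat n =>
    have : z = a ^ n := Subtype.ext (by simpa using hz)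
    simp [this]
  | negSucc n =>
    have : z * a ^ (n + 1) = 1 := Subtype.ext (by
      rw [Subring.coe_mul, hz, zpow_negSucc, SubmonoidClass.coe_pow,
        inv_mul_cancel₀ (pow_ne_zero _ ha), Subring.coe_one])
    rw [zpow_negSucc, ← map_pow]
    exact eq_inv_of_mul_eq_one_left (by rw [← map_mul, this, map_one])

end

variable {K K' E E' Ω : Type} [Field K] [Field K'] [Field E] [Field E'] [Field Ω] [Algebra K E]
  [Algebra K' E'] [FiniteDimensional K E] {v : Vl K} {w : Vl E} {g : E ≃ₐ[K] E}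

/-- If `y = g x - x ≠ 0` then `0 = ∑ i < orderOf g, g ^ i y = orderOf g * y + smaller terms`. -/
theorem eq_one_of_graded (ho : w (orderOf g : E) = 1) (h : ∀ x, x ≠ 0 → w (g x - x) < w x) :
    g = 1 := by
  ext x
  by_contra hne
  have hy : g x - x ≠ 0 := sub_ne_zero.2 hne
  have h0 := w.ne_zero_iff.2 hy
  have h1 : ∀ i : ℕ, w ((g ^ i) (g x - x) - (g x - x)) < w (g x - x) := fun i => by
    induction i with
    | zero => simpa using w.pos_iff.2 hy
    | succ i ih =>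
      have e := w.map_eq_of_sub_lt ih
      have := h _ (w.ne_zero_iff.1 (e ▸ h0))
      rw [pow_succ', AlgEquiv.mul_apply, ← sub_add_sub_cancel _ ((g ^ i) (g x - x))]
      exact w.map_add_lt (e ▸ this) ih
  have h2 := w.map_sum_lt (s := Finset.range (orderOf g)) h0 fun i _ => h1 i
  have h3 : ∑ i ∈ Finset.range (orderOf g), (g ^ i) (g x - x) = 0 := by
    simp only [map_sub, ← AlgEquiv.mul_apply, ← pow_succ]
    rw [Finset.sum_range_sub fun i => (g ^ i) x, pow_orderOf_eq_one, pow_zero, sub_self]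
  rw [Finset.sum_sub_distrib, h3, zero_sub, Valuation.map_neg, Finset.sum_const, Finset.card_range,
    nsmul_eq_mul, map_mul, ho, one_mul] at h2
  exact h2.false

theorem eq_one_of_theta {π : E} (hπ : w π = exp (-1)) (hg : g ∈ Ine K w)
    (ho : w (orderOf g : E) = 1) (h : w (g π / π - 1) < 1) : g = 1 :=
  eq_one_of_graded ho fun x hx => by
    obtain ⟨b, hb, e⟩ := vtam_dec hg hπ hx
    exact vtam_lt hx (e ▸ vtam_mul hb (vtam_zpow h _))

/-- Cauchy's theorem for the converse direction -/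
theorem tame_iff : Tame K w ↔ ∀ g ∈ Ine K w, w (orderOf g : E) = 1 := by
  refine ⟨fun h g hg => vtam_dvd (Subgroup.orderOf_dvd_natCard _ hg) h, fun h => ?_⟩
  have key : ∀ n : ℕ, n ∣ Nat.card (Ine K w) → w (n : E) = 1 := fun n => by
    induction n using induction_on_primes with
    | zero => exact fun e => (Nat.card_pos.ne' (zero_dvd_iff.1 e)).elim
    | one => simp
    | prime_mul p a hp ih =>
      intro e
      have := Fact.mk hp
      obtain ⟨s, hs⟩ := exists_prime_orderOf_dvd_card' p ((dvd_mul_right p a).trans e)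
      have h1 := h s s.2
      rw [Subgroup.orderOf_coe, hs] at h1
      rw [Nat.cast_mul, map_mul, h1, ih ((dvd_mul_left a p).trans e), one_mul]
  exact key _ dvd_rfl

theorem tame_of_card (h : w (Nat.card (E ≃ₐ[K] E) : E) = 1) : Tame K w :=
  vtam_dvd (Subgroup.card_subgroup_dvd_card _) h

theorem tame_of_nat (h : ∀ n : ℕ, n ≠ 0 → w (n : E) = 1) : Tame K w := h _ Nat.card_pos.ne'

/-- UNR -/
theorem ine_bot_of_e1 (ht : Tame K w) (he : E1 K w) : Ine K w = ⊥ :=
  eq_bot_iff.2 fun g hg => eq_one_of_graded (tame_iff.1 ht g hg) fun x hx =>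
    (he x).elim fun _ e => vtam_e1 hg hx e

theorem ine_bot_of_unif (ht : Tame K w) {π : K} (hπ : w (algebraMap K E π) = exp (-1)) :
    Ine K w = ⊥ :=
  eq_bot_iff.2 fun g hg => eq_one_of_theta hπ hg (tame_iff.1 ht g hg) (by
    rw [AlgEquiv.commutes, div_self (w.ne_zero_iff.1 (hπ ▸ WithZero.exp_ne_zero))]
    simp)

/-- UNR for an embedding of index one -/
theorem unr_of_emb_v [IsGalois K E] {φ : K →+* K'} {v' : Vl K'} (hv : Nrm v) (hi : Idx φ v v' 1)
    (ht : v (Nat.card (E ≃ₐ[K] E) : K) = 1) (h : Emb E φ) : Unr E v := by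
  obtain ⟨j, hj⟩ := h
  obtain ⟨π, hπ⟩ := hv
  have e : ∀ a, v'.comap j (algebraMap K E a) = v a := fun a => by
    rw [Valuation.comap_apply, hj, idx_one_iff.1 hi]
  refine unr_of_ine (w := v'.comap j) (fun a => by rw [e])
    (ine_bot_of_unif (tame_of_card ?_) ((e π).trans hπ))
  rw [← map_natCast (algebraMap K E), e, ht]

/-- the tame character -/
theorem exists_theta (hw : Nrm w) {ρ : w.integer →+* Ω} (hρ : IsRed w ρ) :
    ∃ θ : Ine K w →* Ωˣ, (∀ (g : Ine K w) (x : E) (y : w.integer), x ≠ 0 →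
      (y : E) = (g : E ≃ₐ[K] E) x / x → ρ y = (θ g : Ω) ^ ord w x) ∧
      ∀ g : Ine K w, w (orderOf (g : E ≃ₐ[K] E) : E) = 1 → θ g = 1 → g = 1 := by
  obtain ⟨π, hπ⟩ := hw
  have h0 : π ≠ 0 := w.ne_zero_iff.1 (hπ ▸ WithZero.exp_ne_zero)
  have h1 : ∀ g : Ine K w, w ((g : E ≃ₐ[K] E) π / π) = 1 := fun g => by
    rw [map_div₀, g.2.1 π, div_self (w.ne_zero_iff.2 h0)]
  obtain ⟨a, ha⟩ : ∃ a : Ine K w → w.integer, ∀ g, (a g : E) = (g : E ≃ₐ[K] E) π / π :=
    ⟨fun g => ⟨_, (h1 g).le⟩, fun _ => rfl⟩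
  have h2 : ∀ g, w (a g : E) = 1 := fun g => ha g ▸ h1 g
  refine ⟨MonoidHom.mk' (fun g => Units.mk0 (ρ (a g)) ((hρ.ne_zero _).2 (h2 g))) fun g h => ?_,
    fun g x y hx hy => ?_, fun g ho e => ?_⟩
  · refine Units.ext ?_
    rw [Units.val_mul, Units.val_mk0, Units.val_mk0, Units.val_mk0, ← map_mul, hρ.eq_iff]
    have h3 : (g : E ≃ₐ[K] E) π ≠ 0 := (map_ne_zero _).2 h0
    have : (a (g * h) : E) - (a g * a h : w.integer) =
        a g * ((g : E ≃ₐ[K] E) (a h) - a h) := by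
      rw [Subring.coe_mul, ha, ha, ha, Subgroup.coe_mul, AlgEquiv.mul_apply, map_div₀]
      field_simp
    rw [this, map_mul, h2, one_mul]
    exact g.2.2 _ (h2 h).le
  · obtain ⟨b, hb, e⟩ := vtam_dec g.2 hπ hx
    have h3 : w ((a g : E) ^ ord w x) = 1 := by rw [map_zpow₀, h2, one_zpow]
    rw [MonoidHom.mk'_apply, Units.val_mk0,
      ← vtam_rho ρ (z := ⟨_, h3.le⟩) (w.ne_zero_iff.1 (h2 g ▸ one_ne_zero)) rfl, hρ.eq_iff, hy, e,
      ← ha]
    rwa [← sub_one_mul, map_mul, h3, mul_one]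
  · have h3 : ρ (a g) = ρ 1 := (congrArg Units.val e).trans (map_one ρ).symm
    rw [hρ.eq_iff, ha] at h3
    exact Subtype.ext (eq_one_of_theta hπ g.2 ho h3)

/-- a subgroup of `I` of invertible order is cyclic -/
theorem isCyclic_of_le {H : Subgroup (E ≃ₐ[K] E)} (hH : H ≤ Ine K w) (h : w (Nat.card H : E) = 1) :
    IsCyclic H := by
  by_cases ht : ∀ x, x ≠ 0 → w x = 1
  · rw [ine_bot_of_triv ht, le_bot_iff] at hH
    subst hH
    infer_instance
  push Not at ht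
  obtain ⟨x, h0, h1⟩ := ht
  obtain ⟨u, e, hu, he, hi⟩ := exists_nrm h0 h1
  have ho := hi.over he
  rw [ine_congr (w := u) ho] at hH
  obtain ⟨κ, _, ρ, hρ, -⟩ := exists_resf u
  obtain ⟨θ, -, hθ⟩ := exists_theta (K := K) hu hρ
  refine isCyclic_of_injective_ringHom
    (((Units.coeHom κ).comp θ).comp (Subgroup.inclusion hH)) ((injective_iff_map_eq_one _).2
      fun s hs => Subgroup.inclusion_injective hH ((hθ _ ?_ (Units.ext hs)).trans (map_one _).symm))
  exact (ho.eq_one _).1 (vtam_dvd (Subgroup.orderOf_dvd_natCard _ s.2) h)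

theorem ine_cyclic (h : Tame K w) : IsCyclic (Ine K w) := isCyclic_of_le le_rfl h

/-- In the tame case the index is the order of `I`: `θ g ^ e = 1` and `I` is cyclic. -/
theorem card_ine_eq [IsGalois K E] {e : ℕ} (hv : Nrm v) (hw : Nrm w)
    (h : Idx (algebraMap K E) v w e) (ht : Tame K w) : Nat.card (Ine K w) = e := by
  refine Nat.dvd_antisymm ?_ (idx_dvd_card hv hw h)
  obtain ⟨π, hπ⟩ := hv
  obtain ⟨κ, _, ρ, hρ, -⟩ := exists_resf w
  obtain ⟨θ, h1, h2⟩ := exists_theta (K := K) hw hρ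
  obtain ⟨s, hs⟩ := (ine_cyclic ht).exists_ofOrder_eq_natCard
  have h0 : algebraMap K E π ≠ 0 :=
    (map_ne_zero _).2 (v.ne_zero_iff.1 (hπ ▸ WithZero.exp_ne_zero))
  have h3 := h1 s _ 1 h0 (by rw [AlgEquiv.commutes, div_self h0]; rfl)
  rw [h.ord, ord_eq_of v hπ, mul_one, zpow_natCast, map_one] at h3
  rw [← hs]
  refine orderOf_dvd_of_pow_eq_one (h2 _ (tame_iff.1 ht _ (s ^ e).2) (Units.ext ?_))
  rw [map_pow, Units.val_pow_eq_pow_val, ← h3, Units.val_one]

/-- ABH -/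
theorem abh [IsGalois K E] {φ : K →+* K'} {j : E →+* E'} {r : (E' ≃ₐ[K'] E') →* (E ≃ₐ[K] E)}
    (hj : Sq φ j) (hr : Rs j r) (hi : Function.Injective r) {w' : Vl E'} (ho : Over j w w')
    (ht : Tame K w) {m : ℕ} (hm : m ≠ 0) (hd : Nat.card (Ine K w) ∣ m)
    (h : ∀ a : K, a ≠ 0 → ∃ b : K', w' (algebraMap K' E' (φ a)) = w' (algebraMap K' E' b) ^ m) :
    Ine K' w' = ⊥ := by
  refine eq_bot_iff.2 fun s hs => hi ((eq_one_of_graded (tame_iff.1 ht _ (hr.ine ho hs))
    fun x hx => ?_).trans (map_one r).symm)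
  obtain ⟨c, rfl⟩ := hd
  obtain ⟨a, ha⟩ := pow_card_ine (K := K) w x
  have h0 : a ≠ 0 := fun e => pow_ne_zero _ (w.ne_zero_iff.2 hx) (by rw [ha, e, map_zero, map_zero])
  obtain ⟨b, hb⟩ := h a h0
  rw [← map_pow, ← ho.eq_iff, hj, hb, map_pow, map_pow, mul_comm, pow_mul,
    pow_left_inj₀ zero_le zero_le (left_ne_zero_of_mul hm), ← map_pow, ← map_pow] at ha
  rw [← ho.lt_iff, map_sub, hr]
  exact vtam_e1 hs ((map_ne_zero j).2 hx) ha

end Pool.Agent.ZCy
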