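import Pool.Agent.Lib.MP_751085_ag.ZC.V.Rig0
import Pool.Agent.Lib.MP_751085_ag.ZC.V.Enl

/-! Block V: coverings of the open disc. -/

namespace Pool.Agent.ZCy

open scoped Classical WithZero Polynomial PowerSeries LaurentSeries
open WithZero (exp)
open IsLocalRing

variable {R KK K E : Type} [CommRing R] [IsDomain R] [CDVR R] [Field KK] [Field K] [Field E]
  [Algebra K E] [FiniteDimensional K E] [IsGalois K E] {ι : R →+* KK} {π : R}

variable [IsAlgClosed (ResidueField R)] {α : KK[X] →+* K}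

/-- RIG -/
theorem rig (hι : IsFr ι) (hα : IsFr α) (hG : IsUnit (Nat.card (E ≃ₐ[K] E) : R)) (J : E →+* KK⸨X⸩)
    (hJ : ∀ p, J (tE E α p) = ((p : KK⟦X⟧) : KK⸨X⸩)) {Θ : R[X]} (h0 : IsUnit (Θ.coeff 0))
    (hu : UnrOff K (tE E α) (Polynomial.X * Θ.map ι)) :
    ∃ j : E →+* Fr R⟦X⟧, (∀ x, frMap (lau ι) (lau_inj hι.1) (j x) = J x) ∧
      (∀ x a b, j x * algebraMap R⟦X⟧ _ b = algebraMap R⟦X⟧ _ a → J x * lau ι b = lau ι a) ∧
      (∀ x, ((tE E α).comp (Polynomial.mapRingHom ι)).IsIntegralElem x → ∃ y, J x = lau ι y) ∧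
      ∀ (π : R) (w : Vl E), Irreducible π →
        Cen ((tE E α).comp (Polynomial.mapRingHom ι)) w (Polynomial.C π) → Ine K w = ⊥ := by
  obtain ⟨π, hπ⟩ := IsDiscreteValuationRing.exists_irreducible R
  have hα₀ := hι.poly hα
  set α₀ := α.comp (Polynomial.mapRingHom ι)
  have hJ₀ : ∀ p, J (tE E α₀ p) = lau ι (p : R⟦X⟧) := fun p =>
    (hJ (p.map ι)).trans (congrArg (HahnSeries.ofPowerSeries ℤ KK) Polynomial.polynomial_map_coe)
  have hu₀ : UnrOff K (tE E α₀) (Polynomial.C π * (Polynomial.X * Θ)) :=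
    unrOff_of_frac_poly hι hπ (φ := tE E α) (by rwa [Polynomial.map_mul, Polynomial.map_X])
  have hint : ∀ x ∈ IntOff (tE E α₀) 1, ∃ y, J x = lau ι y := fun x hx =>
    rig_int hι hπ hα₀ hG J hJ₀ h0 hu₀ hx
  set F := frMap (lau ι) (lau_inj hι.1)
  have hF : ∀ a, F (algebraMap R⟦X⟧ _ a) = lau ι a := IsFractionRing.lift_algebraMap _
  have hr : ∀ x, J x ∈ F.fieldRange := fun x => by
    obtain ⟨a, ha, hx⟩ := exists_mul_mem_intOff hα₀ x
    obtain ⟨y, hy⟩ := hint _ hx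
    have h1 : J (tE E α₀ a) ≠ 0 := by
      rw [map_ne_zero, RingHom.comp_apply, map_ne_zero]
      exact fun e => ha (hα₀.1 (e.trans (map_zero _).symm))
    rw [map_mul, mul_comm, ← eq_div_iff h1, hJ₀, ← hF, ← hF, ← map_div₀] at hy
    exact ⟨_, hy.symm⟩
  let j : E →+* Fr R⟦X⟧ :=
    F.rangeRestrictFieldEquiv.symm.toRingHom.comp (J.codRestrict F.fieldRange hr)
  have hj : ∀ x, F (j x) = J x := fun x => F.rangeRestrictFieldEquiv_apply_symm_apply _
  refine ⟨j, hj, fun x a b e => by rw [← hj, ← hF, ← map_mul, e, hF],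
    fun x hx => hint x ((mem_intOff_one hα₀).2 hx), fun ϖ w hϖ hw => ?_⟩
  have hj₀ : ∀ p, j (tE E α₀ p) = algebraMap R⟦X⟧ _ (p : R⟦X⟧) := fun p =>
    F.injective (by rw [hj, hJ₀, hF])
  obtain ⟨u, h1, h2⟩ := exists_vcen (isFr_alg R⟦X⟧ (Fr R⟦X⟧)) (prime_ps_C hϖ.prime)
  have hc : Cen (tE E α₀) (u.comap j) (Polynomial.C ϖ) := by
    refine ⟨fun a => ?_, fun a => ?_⟩ <;> rw [Valuation.comap_apply, hj₀]
    · exact h1.1 _
    · simp only [h1.2, ps_C_dvd, Polynomial.C_dvd_iff_dvd_coeff, Polynomial.coeff_coe]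
  have ht : Tame K (u.comap j) := tame_of_card (by
    rw [← map_natCast (tE E α₀), hc.eq_one, ← map_natCast (Polynomial.C : R →+* R[X]),
      Polynomial.C_dvd_iff_dvd_coeff]
    exact fun h => hϖ.not_isUnit (isUnit_of_dvd_unit (by simpa using h 0) hG))
  obtain ⟨g, hg⟩ := Cen.conj hα₀ (Polynomial.prime_C_iff.2 hϖ.prime) hc hw
  refine ine_bot_of_conj hg (ine_bot_of_unif ht (π := α₀ (Polynomial.C ϖ)) ?_)
  rw [← h2, ← Polynomial.coe_C, ← hj₀]
  rfl

theorem rig_frac (hι : IsFr ι) (hα : IsFr α) (hG : IsUnit (Nat.card (E ≃ₐ[K] E) : R))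
    (J : E →+* KK⸨X⸩) (hJ : ∀ p, J (tE E α p) = ((p : KK⟦X⟧) : KK⸨X⸩)) {Θ : R[X]}
    (h0 : IsUnit (Θ.coeff 0)) (hu : UnrOff K (tE E α) (Polynomial.X * Θ.map ι)) (x : E) :
    ∃ a b : R⟦X⟧, b ≠ 0 ∧ J x * lau ι b = lau ι a := by
  obtain ⟨j, -, h, -⟩ := rig hι hα hG J hJ h0 hu
  obtain ⟨a, b, hb, e⟩ := (isFr_alg R⟦X⟧ (Fr R⟦X⟧)).2 (j x)
  exact ⟨a, b, hb, h x a b e⟩

/-- RIG at infinity -/
theorem rig_inf (hι : IsFr ι) (hα : IsFr α) (hG : IsUnit (Nat.card (E ≃ₐ[K] E) : R))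
    (J : E →+* KK⸨X⸩) (hC : ∀ c, J (tE E α (Polynomial.C c)) = HahnSeries.C c)
    (hX : J (tE E α Polynomial.X) = HahnSeries.single (-1) 1) {Ψ : R[X]}
    (hl : IsUnit Ψ.leadingCoeff) (hu : UnrOff K (tE E α) (Ψ.map ι)) :
    ∃ j : E →+* Fr R⟦X⟧, (∀ x, frMap (lau ι) (lau_inj hι.1) (j x) = J x) ∧
      (∀ x, ((tE E α).comp (Polynomial.mapRingHom ι)).IsIntegralElem x →
        ∃ (m : ℕ) (y : R⟦X⟧), J x * HahnSeries.single (m : ℤ) 1 = lau ι y) ∧
      ∀ (π : R) (w : Vl E), Irreducible π →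
        Cen ((tE E α).comp (Polynomial.mapRingHom ι)) w (Polynomial.C π) → Ine K w = ⊥ := by
  obtain ⟨α', hα', h1, h2⟩ := exists_inv hα
  have h3 : tE E α' Polynomial.X * tE E α Polynomial.X = 1 := by
    simp only [RingHom.comp_apply, ← map_mul, h2, map_one]
  have h4 : J (tE E α' Polynomial.X) = HahnSeries.single 1 1 := by
    have e := congrArg J h3
    rw [map_mul, map_one, hX] at e
    rw [eq_inv_of_mul_eq_one_left e]
    refine inv_eq_of_mul_eq_one_left ?_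
    rw [HahnSeries.single_mul_single]
    simp
  have hJ : ∀ p, J (tE E α' p) = ((p : KK⟦X⟧) : KK⸨X⸩) := fun p => by
    have e : J.comp (tE E α') =
        (HahnSeries.ofPowerSeries ℤ KK).comp Polynomial.coeToPowerSeries.ringHom :=
      Polynomial.ringHom_ext (fun c => by simpa [h1] using hC c) (by simpa using h4)
    exact RingHom.congr_fun e p
  have h5 : (Ψ.map ι).reverse = Ψ.reverse.map ι := by
    rw [Polynomial.reverse, Polynomial.natDegree_map_eq_of_injective hι.1, Polynomial.reflect_map,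
      Polynomial.reverse]
  obtain ⟨j, hj, -, hi, hw⟩ := rig hι hα' hG J hJ (Θ := Ψ.reverse)
    (by rwa [Polynomial.coeff_zero_reverse])
    (h5 ▸ unrOff_inv (fun a => congrArg (algebraMap K E) (h1 a)) h3 hu)
  refine ⟨j, hj, fun x hx => ?_, fun ϖ w hϖ hc => hw ϖ w hϖ ?_⟩
  · obtain ⟨m, hm⟩ := exists_pow_mul_int (hι.poly hα) (hι.poly hα') (fun a => by simp [h1])
      (by simp [h2]) ((mem_intOff_one (hι.poly hα)).2 hx)
    obtain ⟨y, hy⟩ := hi _ ((mem_intOff_one (hι.poly hα')).1 hm)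
    refine ⟨m, y, ?_⟩
    have e : tE E (α'.comp (Polynomial.mapRingHom ι)) Polynomial.X = tE E α' Polynomial.X := by simp
    rw [← hy, map_mul, map_pow, e, h4, HahnSeries.single_pow, mul_comm]
    simp
  · have h := (cen_inv (φ := (tE E α').comp (Polynomial.mapRingHom ι)) (fun a => by simp [h1])
      (by simpa [mul_comm] using h3) (Polynomial.prime_C_iff.2 hϖ.prime) (fun h => hϖ.not_isUnit
        (isUnit_of_dvd_one (by simpa using (Polynomial.C_dvd_iff_dvd_coeff _ _).1 h 1))) hc).2.1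
    rwa [Polynomial.reverse_C] at h

end Pool.Agent.ZCy
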