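import Pool.Agent.Lib.MP_751085_ag.ZC.V.Le0
import Pool.Agent.Lib.MP_751085_ag.ZC.V.Enl

/-! Block V: local expansions over a complete ring with algebraically closed residue field. -/

namespace Pool.Agent.ZCy

open scoped Classical WithZero Polynomial PowerSeries LaurentSeries
open WithZero (exp)
open IsLocalRing

variable {R K E : Type} [CommRing R] [IsDomain R] [CDVR R] [IsAlgClosed (ResidueField R)] [Field K]
  [Field E] [Algebra K E] [FiniteDimensional K E] [IsGalois K E] {α : R[X] →+* K} {Θ Ψ : R[X]}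

theorem le_zero (hα : IsFr α) {e : ℕ} (he : e ≠ 0) (hd : Nat.card (E ≃ₐ[K] E) ∣ e)
    (hG : (Nat.card (E ≃ₐ[K] E) : R) ≠ 0) (h0 : IsUnit (Θ.coeff 0))
    (hu : UnrOff K (tE E α) (Polynomial.X * Θ)) :
    ∃ j : E →+* Fr R⟦X⟧, EmbT (tE E α) (IntOff (tE E α) Θ) (sbs (RingHom.id R) 0 e) j := by
  have hα' := isFr_alg R[X] (Fr R[X])
  obtain ⟨φ, hφ⟩ := hα.exists_lift (β := (algebraMap R[X] (Fr R[X])).comp
    (Polynomial.expand R e : R[X] →+* R[X])) (hα'.1.comp (Polynomial.expand_injective he.pos))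
  obtain ⟨E', _, _, _, _, j, r, hj, hr, hi, -⟩ := exists_bc E φ
  have hc : ∀ p, j (tE E α p) = tE E' (algebraMap R[X] (Fr R[X]))
      ((Polynomial.expand R e : R[X] →+* R[X]) p) := fun p =>
    (hj _).trans (congrArg (algebraMap _ E') (hφ p))
  obtain ⟨β, hβ⟩ := zn_disc hα' (Θ := Polynomial.expand R e Θ)
    (by rwa [← zero_mul e, Polynomial.coeff_expand_mul he.pos])
    (unrOff_expand hα he hd hG hφ hj hr hi hu)
  obtain ⟨j', hj'⟩ := exists_embT hα' β fun p q h => Polynomial.coe_injective R (by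
    rw [← hβ, ← hβ]; exact h)
  refine ⟨j'.comp j, fun p => ?_, fun x hx => ⟨_, hj' ⟨_, intOff_map hα hc hx⟩⟩⟩
  rw [RingHom.comp_apply, hc, sbs_eq, Polynomial.map_id, Polynomial.taylor_zero, ← hβ]
  exact hj' (toInt _ _ _)

/-- LE at a finite point -/
theorem le_fin (hα : IsFr α) {e : ℕ} (he : e ≠ 0) (hd : Nat.card (E ≃ₐ[K] E) ∣ e)
    (hG : (Nat.card (E ≃ₐ[K] E) : R) ≠ 0) (hs : (Ψ.map (residue R)).Separable)
    (hu : UnrOff K (tE E α) Ψ) {t : R} (ht : IsUnit (Ψ.eval t) ∨ Ψ.eval t = 0) :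
    ∃ j : E →+* Fr R⟦X⟧, EmbT (tE E α) (IntOff (tE E α) 1) (sbs (RingHom.id R) t e) j := by
  let ε : R[X] ≃+* R[X] := (Polynomial.taylorEquiv (-t)).toRingEquiv
  have hε : ∀ p, ε (Polynomial.taylor t p) = p := fun p => by
    change Polynomial.taylor (-t) _ = _
    rw [Polynomial.taylor_taylor, neg_add_cancel, Polynomial.taylor_zero]
  have hu' : UnrOff K (tE E (α.comp ε)) (Polynomial.taylor t Ψ) :=
    (unrOff_equiv (φ := tE E α) ε).2 (by rwa [hε])
  obtain ⟨Θ, h0, h1⟩ : ∃ Θ : R[X], IsUnit (Θ.coeff 0) ∧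
      Polynomial.taylor t Ψ ∣ (Polynomial.X * Θ) ^ 1 := by
    rw [← Polynomial.taylor_coeff_zero] at ht
    rcases ht with ht | ht
    · exact ⟨_, ht, by simp⟩
    obtain ⟨Θ, hΘ⟩ := Polynomial.X_dvd_iff.2 ht
    refine ⟨Θ, ?_, by simp [hΘ]⟩
    rw [Polynomial.taylor_coeff_zero] at ht
    have := hs.eval₂_derivative_ne_zero (RingHom.id _) (x := residue R t) (by
      rw [Polynomial.eval₂_map, RingHom.id_comp, Polynomial.eval₂_at_apply, ht, map_zero])
    rwa [Polynomial.derivative_map, Polynomial.eval₂_map, RingHom.id_comp,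
      Polynomial.eval₂_at_apply, residue_ne_zero_iff_isUnit, ← Polynomial.taylor_coeff_one, hΘ,
      Polynomial.coeff_X_mul] at this
  obtain ⟨j, h2, h3⟩ := le_zero (hα.comp_equiv ε) he hd hG h0 (unrOff_mono h1 hu')
  refine ⟨j, fun p => ?_, fun x hx => h3 x (intOff_mono (n := 0) (one_dvd _) ?_)⟩
  · have := h2 (Polynomial.taylor t p)
    rw [sbs_eq, Polynomial.map_id, Polynomial.taylor_zero] at this
    rw [sbs_eq, Polynomial.map_id, ← this]
    exact congrArg (fun q => j (tE E α q)) (hε p).symm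
  · rw [← map_one ε, ← intOff_equiv] at hx
    exact hx

/-- LE at infinity -/
theorem le_inf (hα : IsFr α) {e : ℕ} (he : e ≠ 0) (hd : Nat.card (E ≃ₐ[K] E) ∣ e)
    (hG : (Nat.card (E ≃ₐ[K] E) : R) ≠ 0) (hl : IsUnit Ψ.leadingCoeff) (hu : UnrOff K (tE E α) Ψ) :
    ∃ j : E →+* Fr R⟦X⟧,
      (∀ c, j (tE E α (Polynomial.C c)) = algebraMap R⟦X⟧ _ (PowerSeries.C c)) ∧
      j (tE E α Polynomial.X) * algebraMap R⟦X⟧ _ (PowerSeries.X ^ e) = 1 ∧
      ∀ x ∈ IntOff (tE E α) 1, ∃ (m : ℕ) (y : R⟦X⟧),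
        j x * algebraMap R⟦X⟧ _ (PowerSeries.X ^ (e * m)) = algebraMap R⟦X⟧ _ y := by
  obtain ⟨α', hα', hC, hX⟩ := exists_inv hα
  have hC' : ∀ a, tE E α' (Polynomial.C a) = tE E α (Polynomial.C a) := fun a =>
    congrArg (algebraMap K E) (hC a)
  have hX' : tE E α' Polynomial.X * tE E α Polynomial.X = 1 := by
    rw [RingHom.comp_apply, RingHom.comp_apply, ← map_mul, hX, map_one]
  obtain ⟨j, h2, h3⟩ := le_zero hα' he hd hG (by rwa [Polynomial.coeff_zero_reverse])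
    (unrOff_inv hC' hX' hu)
  have h4 := h2 Polynomial.X
  rw [sbs_X, map_zero, zero_add] at h4
  refine ⟨j, fun c => by rw [← hC', h2, sbs_C, RingHom.id_apply],
    by rw [← h4, ← map_mul, mul_comm, hX', map_one], fun x hx => ?_⟩
  obtain ⟨m, hm⟩ := exists_pow_mul_int hα hα' hC hX hx
  obtain ⟨y, hy⟩ := h3 _ (intOff_mono (n := 0) (one_dvd _) hm)
  exact ⟨m, y, by rw [← hy, pow_mul, map_pow _ _ m, ← h4, map_mul, map_pow, mul_comm]⟩

end Pool.Agent.ZCy
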