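import Pool.Agent.Lib.MP_751085_ag.ZC.V.TaS
import Pool.Agent.Lib.MP_751085_ag.ZC.V.Le

/-! Block V: the Gauss valuation is inert. -/

namespace Pool.Agent.ZCy

open scoped Classical WithZero Polynomial PowerSeries LaurentSeries
open WithZero (exp)
open IsLocalRing

section

variable {R : Type} [CommRing R] [IsDomain R] [CDVR R] {π : R}

theorem vta_res (hπ : Irreducible π) (a : R) : residue R a = 0 ↔ π ∣ a := by
  rw [residue_eq_zero_iff, hπ.maximalIdeal_eq, Ideal.mem_span_singleton]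

theorem vta_ps (hπ : Irreducible π) (y : R⟦X⟧) :
    PowerSeries.C π ∣ y ↔ PowerSeries.map (residue R) y = 0 := by
  refine ⟨fun ⟨z, hz⟩ => by
    rw [hz, map_mul, PowerSeries.map_C, (vta_res hπ π).2 dvd_rfl, map_zero, zero_mul], fun h => ?_⟩
  choose c hc using fun n => (vta_res hπ (PowerSeries.coeff n y)).1 (by
    rw [← PowerSeries.coeff_map, h, map_zero])
  exact ⟨PowerSeries.mk c, PowerSeries.ext fun n => by
    rw [PowerSeries.coeff_C_mul, PowerSeries.coeff_mk, hc]⟩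

theorem vta_sbs (hπ : Irreducible π) (t : R) {e : ℕ} (he : e ≠ 0) (p : R[X]) :
    PowerSeries.C π ∣ sbs (RingHom.id R) t e p ↔ Polynomial.C π ∣ p := by
  have h : sbs ((residue R).comp (RingHom.id R)) (residue R t) e p =
      sbs (RingHom.id _) (residue R t) e (p.map (residue R)) := by
    rw [sbs_eq, sbs_eq, Polynomial.map_id, RingHom.comp_id]
  rw [vta_ps hπ, map_sbs, h, map_eq_zero_iff _ (sbs_inj Function.injective_id _ he),
    Polynomial.C_dvd_iff_dvd_coeff, Polynomial.ext_iff]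
  exact forall_congr' fun n => by rw [Polynomial.coeff_map, Polynomial.coeff_zero, vta_res hπ]

theorem vta_pow (hπ : Irreducible π) (n : ℕ) : ¬PowerSeries.C π ∣ PowerSeries.X ^ n := by
  rw [vta_ps hπ, map_pow, PowerSeries.map_X]
  exact pow_ne_zero _ PowerSeries.X_ne_zero

omit [IsDomain R] [CDVR R] in
theorem vta_rev (p : R[X]) : Polynomial.C π ∣ p.reverse ↔ Polynomial.C π ∣ p := by
  simp only [Polynomial.C_dvd_iff_dvd_coeff, Polynomial.coeff_reverse]
  exact ⟨fun h n => by simpa using h (Polynomial.revAt p.natDegree n), fun h n => h _⟩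

theorem vta_lift {Ψ : R[X]} (hl : IsUnit Ψ.leadingCoeff) (hs : (Ψ.map (residue R)).Separable)
    (c : ResidueField R) : ∃ t, residue R t = c ∧ (IsUnit (Ψ.eval t) ∨ Ψ.eval t = 0) := by
  obtain ⟨a, rfl⟩ := residue_surjective c
  by_cases h : IsUnit (Ψ.eval a)
  · exact ⟨a, rfl, Or.inl h⟩
  obtain ⟨u, hu⟩ := hl
  have h0 : residue R (Ψ.eval a) = 0 := (residue_eq_zero_iff _).2 h
  have h1 : residue R (Ψ.derivative.eval a) ≠ 0 := by
    have h2 := hs.aeval_derivative_ne_zero (x := residue R a) (by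
      rwa [Polynomial.coe_aeval_eq_eval, Polynomial.eval_map, Polynomial.eval₂_at_apply])
    rwa [Polynomial.coe_aeval_eq_eval, Polynomial.derivative_map, Polynomial.eval_map,
      Polynomial.eval₂_at_apply] at h2
  obtain ⟨t, h2, h3⟩ := (IsAdicComplete.henselianRing R (maximalIdeal R)).is_henselian
    (Polynomial.C (↑u⁻¹ : R) * Ψ)
    (Polynomial.monic_C_mul_of_mul_leadingCoeff_eq_one (by rw [← hu, Units.inv_mul])) a
    (by rw [Polynomial.eval_C_mul]; exact Ideal.mul_mem_left _ _ h) (by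
      rw [Polynomial.derivative_C_mul, Polynomial.eval_C_mul, map_mul]
      exact (u⁻¹.isUnit.map _).mul (Ne.isUnit (a := residue R _) h1))
  refine ⟨t, Ideal.Quotient.eq.2 h3, Or.inr ?_⟩
  rwa [Polynomial.IsRoot, Polynomial.eval_C_mul, Units.mul_right_eq_zero] at h2

end

variable {R K E : Type} [CommRing R] [IsDomain R] [CDVR R] [Field K] [Field E] [Algebra K E]
  [FiniteDimensional K E] [IsGalois K E] {α : R[X] →+* K} {Ψ : R[X]} {π : R} {w : Vl E}

omit [IsDomain R] [CDVR R] in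
theorem vta_inf {φ : R[X] →+* E} {i : E →+* Fr R⟦X⟧} {e : ℕ}
    (hC : ∀ c, i (φ (Polynomial.C c)) = algebraMap R⟦X⟧ _ (PowerSeries.C c))
    (hX : i (φ Polynomial.X) * algebraMap R⟦X⟧ _ (PowerSeries.X ^ e) = 1) (p : R[X]) :
    i (φ p) * algebraMap R⟦X⟧ _ ((PowerSeries.X ^ e) ^ p.natDegree) =
      algebraMap R⟦X⟧ _ (sbs (RingHom.id R) 0 e p.reverse) := by
  let _ : Invertible (i (φ Polynomial.X)) := ⟨_, (mul_comm _ _).trans hX, hX⟩
  have h1 := Polynomial.eval₂_reverse_mul_pow ((algebraMap R⟦X⟧ (Fr R⟦X⟧)).comp PowerSeries.C)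
    (i (φ Polynomial.X)) p
  have h2 : Polynomial.eval₂RingHom ((algebraMap R⟦X⟧ (Fr R⟦X⟧)).comp PowerSeries.C)
      (i (φ Polynomial.X)) = i.comp φ := Polynomial.ringHom_ext (fun c => by simp [hC]) (by simp)
  rw [← RingHom.comp_apply i φ p, ← h2, Polynomial.coe_eval₂RingHom, ← h1, map_pow,
    mul_assoc, ← mul_pow, hX, one_pow, mul_one, sbs, Polynomial.coe_eval₂RingHom,
    Polynomial.hom_eval₂, map_zero, zero_add]
  rfl

theorem vta_lim (hπ : Irreducible π) {φ : R[X] →+* E} (hw : Cen φ w (Polynomial.C π)) {m : ℕ}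
    {Q : E → Prop} (h1 : ∀ z, Q z → w z ≤ 1) (h2 : ∀ z, Q z → ∃ (p : R[X]) (z' : E),
      p.natDegree ≤ m ∧ z = φ p + φ (Polynomial.C π) * z' ∧ Q z') {z : E} (hz : Q z) :
    ∃ q, z = φ q := by
  choose p N h3 h4 h5 using fun z : Subtype Q => h2 z.1 z.2
  let y : ℕ → Subtype Q := fun n => (fun z => ⟨N z, h5 z⟩)^[n] ⟨z, hz⟩
  have hy : ∀ n, z = φ (∑ i ∈ Finset.range n, Polynomial.C (π ^ i) * p (y i)) +
      φ (Polynomial.C π) ^ n * y n := fun n => by
    induction n with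
    | zero => simp [y]
    | succ n ih =>
      have e : (y (n + 1) : E) = N (y n) := congrArg Subtype.val (Function.iterate_succ_apply' ..)
      rw [Finset.sum_range_succ, map_add, map_mul, map_pow, map_pow, e]
      rw [h4 (y n)] at ih
      linear_combination ih
  obtain ⟨q, hq⟩ := exists_poly_lim hπ (fun n => p (y n)) fun n => h3 _
  refine ⟨q, sub_eq_zero.1 (eq_zero_of_le_exp w fun n => ?_)⟩
  obtain ⟨r, hr⟩ := hq n
  have e : z - φ q = φ (Polynomial.C π) ^ n * (y n - φ r) := by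
    have h6 := congrArg φ hr
    rw [map_sub, map_mul, map_pow, map_pow] at h6
    linear_combination hy n - h6
  rw [e, map_mul, map_pow]
  refine (mul_le_of_le_one_right' (w.map_sub_le (h1 _ (y n).2) (hw.1 r))).trans
    ((pow_le_pow_left' ((lt_one_iff_le_exp _).1 ((hw.2 _).2 dvd_rfl)) n).trans_eq ?_)
  rw [← WithZero.exp_nsmul]
  simp

/-- TA over `R[X]`: iterate `ta_step` for an integral element fixed by `D`. -/
theorem ta_int [IsAlgClosed (ResidueField R)] (hα : IsFr α)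
    (hG : (Nat.card (E ≃ₐ[K] E) : R) ≠ 0) (hl : IsUnit Ψ.leadingCoeff)
    (hs : (Ψ.map (residue R)).Separable) (hu : UnrOff K (tE E α) Ψ) (hπ : Irreducible π)
    (hw : Cen (tE E α) w (Polynomial.C π)) : Dec K w = ⊤ := by
  have he : Nat.card (E ≃ₐ[K] E) ≠ 0 := Nat.card_pos.ne'
  choose t ht ht' using vta_lift hl hs
  choose j hj using fun c => le_fin hα he dvd_rfl hG hs hu (ht' c)
  choose g hg using fun c => exists_ind hα hπ hw (j c) fun p =>
    ⟨_, 1, pow_zero (PowerSeries.X : R⟦X⟧) ▸ vta_pow hπ 0, by rw [map_one, mul_one, (hj c).1],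
      vta_sbs hπ (t c) he p⟩
  obtain ⟨i, hC, hX, hi⟩ := le_inf hα he dvd_rfl hG hl hu
  obtain ⟨g', hg'⟩ := exists_ind hα hπ hw i fun p =>
    ⟨_, _, by rw [← pow_mul]; exact vta_pow hπ _, vta_inf hC hX p,
      (vta_sbs hπ 0 he _).trans (vta_rev p)⟩
  have hf : ∀ (s : E ≃ₐ[K] E) p, s (tE E α p) = tE E α p := fun s p => s.commutes _
  rw [eq_top_iff, ← IntermediateField.fixingSubgroup_fixedField (Dec K w)]
  refine fun s _ => (IntermediateField.mem_fixingSubgroup_iff _ _).2 fun x hx => ?_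
  obtain ⟨a, ha, hz⟩ := exists_mul_mem_intOff hα x
  obtain ⟨m, hm⟩ := hi _ (stab_intOff α 1 g' trivial _ hz)
  obtain ⟨q, hq⟩ := vta_lim hπ hw (m := m) (Q := fun z => (∀ g ∈ Dec K w, g z = z) ∧
      (∀ c, ∃ y, (j c).comp (g c : E →+* E) z = algebraMap R⟦X⟧ _ y) ∧
      ∃ y, i.comp (g' : E →+* E) z * algebraMap R⟦X⟧ _
        (PowerSeries.X ^ (Nat.card (E ≃ₐ[K] E) * m)) = algebraMap R⟦X⟧ _ y)
    (fun z h => (h.2.1 0).elim fun y hy => (hg 0 z y hy).1)
    (fun z h => ta_step hα hπ hw he t ht _ _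
      (fun c p => (congrArg (j c) (hf _ p)).trans ((hj c).1 p)) hg
      (fun c => (congrArg i (hf _ _)).trans (hC c))
      ((congrArg (fun y => i y * _) (hf g' _)).trans hX) hg' h.1 h.2.1 h.2.2)
    (z := tE E α a * x) ⟨fun d hd => by
      rw [map_mul, hf, (IntermediateField.mem_fixedField_iff _ _).1 hx d hd],
      fun c => (hj c).2 _ (stab_intOff α 1 (g c) trivial _ hz), hm⟩
  refine mul_left_cancel₀ ((map_ne_zero_iff (tE E α)
    ((algebraMap K E).injective.comp hα.1)).2 ha) ?_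
  rw [hq, ← hf s a, ← map_mul, hq, hf]

/-- TA -/
theorem ta [IsAlgClosed (ResidueField R)] {KK : Type} [Field KK] {ι : R →+* KK} (hι : IsFr ι)
    {α : KK[X] →+* K} (hα : IsFr α) (hG : (Nat.card (E ≃ₐ[K] E) : R) ≠ 0)
    (hl : IsUnit Ψ.leadingCoeff) (hs : (Ψ.map (residue R)).Separable)
    (hu : UnrOff K (tE E α) (Ψ.map ι)) (hπ : Irreducible π)
    (hw : Cen ((tE E α).comp (Polynomial.mapRingHom ι)) w (Polynomial.C π)) (h1 : Ine K w = ⊥) :
    Dec K w = ⊤ :=
  have hP := Polynomial.prime_C_iff.2 hπ.prime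
  ta_int (hι.poly hα) hG hl hs (UnrOff.of_mul hP (unrOff_of_frac_poly hι hπ hu) fun _ hw' =>
    (Cen.conj (hι.poly hα) hP hw hw').elim fun _ e => ine_bot_of_conj e h1) hπ hw

end Pool.Agent.ZCy
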