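import Pool.Agent.Lib.MP_751085_ag.ZC.V.D

/-! Block V: elementary facts on discrete valuations. -/

namespace Pool.Agent.ZCy

open scoped Classical WithZero Polynomial PowerSeries LaurentSeries
open WithZero (exp)

variable {A K K' K'' E Ω : Type} [CommRing A] [Field K] [Field K'] [Field K''] [Field E] [Field Ω]
  {v : Vl K} {v' : Vl K'} {v'' : Vl K''} {φ : K →+* K'} {ψ : K' →+* K''} {x y : K}

theorem exp_neg_ord (v : Vl K) (hx : x ≠ 0) : v x = exp (-ord v x) := by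
  rw [ord, neg_neg, WithZero.exp_log (v.ne_zero_iff.2 hx)]

theorem ord_eq_of (v : Vl K) {n : ℤ} (h : v x = exp (-n)) : ord v x = n := by
  rw [ord, h, WithZero.log_exp, neg_neg]

theorem ord_zero (v : Vl K) : ord v 0 = 0 := by simp [ord]

theorem ord_one_v (v : Vl K) : ord v 1 = 0 := by simp [ord]

theorem ord_mul_v (v : Vl K) (hx : x ≠ 0) (hy : y ≠ 0) : ord v (x * y) = ord v x + ord v y := by
  rw [ord, map_mul, WithZero.log_mul (v.ne_zero_iff.2 hx) (v.ne_zero_iff.2 hy), neg_add]; rfl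

theorem ord_inv_v (v : Vl K) (x : K) : ord v x⁻¹ = -ord v x := by
  rw [ord, map_inv₀, WithZero.log_inv]; rfl

theorem ord_div_v (v : Vl K) (hx : x ≠ 0) (hy : y ≠ 0) : ord v (x / y) = ord v x - ord v y := by
  rw [div_eq_mul_inv, ord_mul_v v hx (inv_ne_zero hy), ord_inv_v, sub_eq_add_neg]

theorem ord_zpow_v (v : Vl K) (x : K) (n : ℤ) : ord v (x ^ n) = n * ord v x := by
  rw [ord, map_zpow₀, WithZero.log_zpow, ord, smul_eq_mul, mul_neg]

theorem ord_pow_v (v : Vl K) (x : K) (n : ℕ) : ord v (x ^ n) = n * ord v x := by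
  rw [← zpow_natCast, ord_zpow_v]

theorem ord_prod (v : Vl K) {ι : Type} (s : Finset ι) (f : ι → K) (h : ∀ i ∈ s, f i ≠ 0) :
    ord v (∏ i ∈ s, f i) = ∑ i ∈ s, ord v (f i) := by
  induction s using Finset.induction_on with
  | empty => simpa using ord_one_v v
  | insert a s ha ih =>
    have h' : ∀ i ∈ s, f i ≠ 0 := fun i hi => h i (Finset.mem_insert_of_mem hi)
    rw [Finset.prod_insert ha, Finset.sum_insert ha, ord_mul_v v (h a (Finset.mem_insert_self a s))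
      (Finset.prod_ne_zero_iff.2 h'), ih h']

theorem ord_le_ord (v : Vl K) (hx : x ≠ 0) (hy : y ≠ 0) : ord v x ≤ ord v y ↔ v y ≤ v x := by
  rw [exp_neg_ord v hx, exp_neg_ord v hy, WithZero.exp_le_exp, neg_le_neg_iff]

theorem ord_lt_ord (v : Vl K) (hx : x ≠ 0) (hy : y ≠ 0) : ord v x < ord v y ↔ v y < v x := by
  rw [exp_neg_ord v hx, exp_neg_ord v hy, WithZero.exp_lt_exp, neg_lt_neg_iff]

theorem ord_eq_ord (v : Vl K) (hx : x ≠ 0) (hy : y ≠ 0) : ord v x = ord v y ↔ v x = v y := by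
  rw [exp_neg_ord v hx, exp_neg_ord v hy, WithZero.exp_inj, neg_inj]

theorem ord_nonneg_v (v : Vl K) (hx : x ≠ 0) : 0 ≤ ord v x ↔ v x ≤ 1 := by
  rw [← ord_one_v v, ord_le_ord v one_ne_zero hx, map_one]

theorem ord_pos_v (v : Vl K) (hx : x ≠ 0) : 0 < ord v x ↔ v x < 1 := by
  rw [← ord_one_v v, ord_lt_ord v one_ne_zero hx, map_one]

theorem ord_eq_zero_v (v : Vl K) (hx : x ≠ 0) : ord v x = 0 ↔ v x = 1 := by
  rw [← ord_one_v v, ord_eq_ord v hx one_ne_zero, map_one]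

theorem le_exp_iff (v : Vl K) (hx : x ≠ 0) (n : ℤ) : v x ≤ exp (-n) ↔ n ≤ ord v x := by
  rw [exp_neg_ord v hx, WithZero.exp_le_exp, neg_le_neg_iff]

theorem lt_one_iff_le_exp (a : ℤᵐ⁰) : a < 1 ↔ a ≤ exp (-1) := by
  rw [← WithZero.lt_mul_exp_iff_le WithZero.exp_ne_zero, ← WithZero.exp_add, neg_add_cancel,
    WithZero.exp_zero]

theorem eq_zero_of_le_exp (v : Vl K) (h : ∀ n : ℕ, v x ≤ exp (-(n : ℤ))) : x = 0 := by
  by_contra hx
  obtain ⟨n, hn⟩ := WithZero.exists_exp_neg_natCast_lt (v.ne_zero_iff.2 hx)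
  exact hn.not_ge (h n)

theorem exists_exp_lt {a : ℤᵐ⁰} (ha : a ≠ 0) : ∃ n : ℕ, exp (-(n : ℤ)) < a :=
  WithZero.exists_exp_neg_natCast_lt ha

theorem Nrm.surj (h : Nrm v) : Function.Surjective v := fun a => by
  obtain ⟨π, hπ⟩ := h
  rcases eq_or_ne a 0 with rfl | ha
  · exact ⟨0, map_zero v⟩
  · refine ⟨π ^ (-WithZero.log a), ?_⟩
    rw [map_zpow₀, hπ, ← WithZero.exp_zsmul, smul_eq_mul, mul_neg_one, neg_neg,
      WithZero.exp_log ha]

theorem Nrm.of_surj (h : Function.Surjective v) : Nrm v := h _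

theorem Over.refl (v : Vl K) : Over (RingHom.id K) v v := fun _ => Iff.rfl

theorem Over.comap (φ : K →+* K') (v' : Vl K') : Over φ (v'.comap φ) v' := fun _ => Iff.rfl

theorem Over.trans (h : Over φ v v') (h' : Over ψ v' v'') : Over (ψ.comp φ) v v'' :=
  fun x => (h' (φ x)).trans (h x)

theorem vord_equiv (h : Over φ v v') : (v'.comap φ).IsEquiv v :=
  Valuation.isEquiv_iff_val_le_one.2 fun {x} => h x

theorem Over.lt_one (h : Over φ v v') (x : K) : v' (φ x) < 1 ↔ v x < 1 :=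
  (vord_equiv h).lt_one_iff_lt_one

theorem Over.eq_one (h : Over φ v v') (x : K) : v' (φ x) = 1 ↔ v x = 1 :=
  (vord_equiv h).eq_one_iff_eq_one

theorem Over.le_iff (h : Over φ v v') (x y : K) : v' (φ x) ≤ v' (φ y) ↔ v x ≤ v y :=
  vord_equiv h x y

theorem Over.lt_iff (h : Over φ v v') (x y : K) : v' (φ x) < v' (φ y) ↔ v x < v y := by
  rw [← not_le, ← not_le, h.le_iff]

theorem Over.eq_iff (h : Over φ v v') (x y : K) : v' (φ x) = v' (φ y) ↔ v x = v y := by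
  rw [le_antisymm_iff, le_antisymm_iff, h.le_iff, h.le_iff]

theorem Idx.ord {e : ℕ} (h : Idx φ v v' e) (x : K) : ord v' (φ x) = e * ord v x := by
  rcases eq_or_ne x 0 with rfl | hx
  · rw [map_zero, ord_zero, ord_zero, mul_zero]
  · rw [← ord_pow_v, ZCy.ord, h x hx, ← map_pow]; rfl

theorem Idx.over {e : ℕ} (h : Idx φ v v' e) (he : e ≠ 0) : Over φ v v' := fun x => by
  rcases eq_or_ne x 0 with rfl | hx
  · simp
  · rw [h x hx, pow_le_one_iff_of_nonneg zero_le he]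

theorem Idx.comp {e e' : ℕ} (h : Idx φ v v' e) (h' : Idx ψ v' v'' e') :
    Idx (ψ.comp φ) v v'' (e * e') := fun x hx => by
  rw [RingHom.comp_apply, h' _ ((map_ne_zero φ).2 hx), h x hx, pow_mul]

theorem idx_one_iff : Idx φ v v' 1 ↔ ∀ x, v' (φ x) = v x := by
  refine ⟨fun h x => ?_, fun h x _ => by rw [h, pow_one]⟩
  rcases eq_or_ne x 0 with rfl | hx
  · simp
  · rw [h x hx, pow_one]

theorem idx_zero_iff : Idx φ v v' 0 ↔ Triv φ v' := by simp [Idx, Triv]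

theorem vord_idx (h : Over φ v v') {π : K} {e : ℕ} (h1 : v π = exp (-1))
    (h2 : v' (φ π) = exp (-(e : ℤ))) : Idx φ v v' e := fun x hx => by
  have : v x = v (π ^ ord v x) := by
    rw [map_zpow₀, h1, ← WithZero.exp_zsmul, smul_eq_mul, mul_neg_one, ← exp_neg_ord v hx]
  rw [(h.eq_iff _ _).2 this, map_zpow₀, map_zpow₀, h2, exp_neg_ord v hx, ← WithZero.exp_zsmul,
    ← WithZero.exp_nsmul]
  simp [mul_comm]

/-- `e` is the order of the image of a uniformiser. -/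
theorem Over.idx (h : Over φ v v') (hv : Nrm v) : ∃ e : ℕ, e ≠ 0 ∧ Idx φ v v' e := by
  obtain ⟨π, hπ⟩ := hv
  have h0 : φ π ≠ 0 := (map_ne_zero φ).2 (v.ne_zero_iff.1 (hπ ▸ WithZero.exp_ne_zero))
  have h1 := (ord_pos_v v' h0).2 ((h.lt_one π).2 ((lt_one_iff_le_exp _).2 hπ.le))
  obtain ⟨e, he⟩ := Int.eq_ofNat_of_zero_le h1.le
  exact ⟨e, by omega, vord_idx h hπ (he ▸ exp_neg_ord v' h0)⟩

theorem Over.idx_one (h : Over φ v v') {π : K} (h1 : v π = exp (-1)) (h2 : v' (φ π) = exp (-1)) :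
    Idx φ v v' 1 := vord_idx h h1 h2

/-- All orders are multiples of the least positive order. -/
theorem exists_nrm (h0 : x ≠ 0) (h : v x ≠ 1) :
    ∃ (v₀ : Vl K) (e : ℕ), Nrm v₀ ∧ e ≠ 0 ∧ Idx (RingHom.id K) v₀ v e := by
  have hex : ∃ e : ℕ, e ≠ 0 ∧ ∃ π, π ≠ 0 ∧ ord v π = e := by
    have h1 := mt (ord_eq_zero_v v h0).1 h
    refine ⟨(ord v x).natAbs, by omega, x ^ (ord v x).sign, zpow_ne_zero _ h0, ?_⟩
    rw [ord_zpow_v, Int.sign_mul_self_eq_natAbs]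
  obtain ⟨he, π, hπ, hπe⟩ := Nat.find_spec hex
  have hmin := fun m => Nat.find_min hex (m := m)
  generalize Nat.find hex = e at *
  have he' : (0 : ℤ) < e := by omega
  have hd : ∀ y, (e : ℤ) * (ord v y / e) = ord v y := fun y => by
    rcases eq_or_ne y 0 with rfl | hy
    · simp [ord_zero]
    have h1 := Int.emod_nonneg (ord v y) he'.ne'
    have h2 := Int.emod_lt_of_pos (ord v y) he'
    have h3 := Int.emod_add_mul_ediv (ord v y) e
    by_contra hc
    refine hmin (ord v y % e).toNat (by omega) ⟨by omega, y / π ^ (ord v y / e),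
      div_ne_zero hy (zpow_ne_zero _ hπ), ?_⟩
    rw [ord_div_v v hy (zpow_ne_zero _ hπ), ord_zpow_v, hπe, mul_comm]
    omega
  let f : K → ℤᵐ⁰ := fun y => if y = 0 then 0 else exp (-(ord v y / e))
  have hf : ∀ y, f y ^ e = v y := fun y => by
    rcases eq_or_ne y 0 with rfl | hy
    · simp [f, he]
    · simp only [f, if_neg hy]
      rw [← WithZero.exp_nsmul, nsmul_eq_mul, mul_neg, hd, ← exp_neg_ord v hy]
  have hi : ∀ a b : ℤᵐ⁰, a ^ e ≤ b ^ e ↔ a ≤ b := fun a b =>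
    pow_le_pow_iff_left₀ zero_le zero_le he
  have hj : ∀ a b : ℤᵐ⁰, a ^ e = b ^ e → a = b := fun a b h =>
    le_antisymm ((hi _ _).1 h.le) ((hi _ _).1 h.ge)
  refine ⟨⟨⟨⟨f, if_pos rfl⟩, hj _ _ (by simp [hf]), fun a b => hj _ _ (by simp [hf, mul_pow])⟩,
    fun a b => ?_⟩, e, ⟨π, ?_⟩, he, fun y _ => (hf y).symm⟩
  · change f _ ≤ max (f a) (f b)
    simpa only [le_max_iff, ← hf, hi] using v.map_add a b
  · change f π = _
    simp only [f, if_neg hπ]
    rw [hπe, Int.ediv_self he'.ne']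

theorem Nrm.eq_of_iff {u : Vl K} (h : Nrm v) (h' : Nrm u) (e : ∀ x, u x ≤ 1 ↔ v x ≤ 1) : u = v := by
  obtain ⟨n, -, hn⟩ := Over.idx (φ := RingHom.id K) e h
  obtain ⟨π, hπ⟩ := h'
  have h1 := hn.ord π
  rw [RingHom.id_apply, ord_eq_of u hπ] at h1
  obtain rfl : n = 1 := by exact_mod_cast Int.eq_one_of_mul_eq_one_right (by omega) h1.symm
  exact Valuation.ext (idx_one_iff.1 hn)

end Pool.Agent.ZCy
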