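import Pool.Agent.Lib.MP_751085_ag.ZC.V.IntB
import Pool.Agent.Lib.MP_751085_ag.ZC.V.Pc

/-! Block V: irreducibility of a reduction. -/

namespace Pool.Agent.ZCy

open scoped Classical WithZero Polynomial PowerSeries LaurentSeries
open WithZero (exp)
open IsLocalRing

variable {A A' K : Type} [CommRing A] [IsDomain A] [UniqueFactorizationMonoid A] [CommRing A']
  [IsDomain A'] [Field K] {α : A →+* K} {χ a b : A[X]} {Θ : A} {N : ℕ}

/-- the splitting field of `χ` -/
theorem exists_split_v (hα : IsFr α) (hm : χ.Monic) (hi : Irreducible χ) (h0 : Θ ≠ 0)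
    (hb : Polynomial.C (Θ ^ N) = a * χ + b * χ.derivative) :
    ∃ (E : Type) (_ : Field E) (_ : Algebra K E) (_ : FiniteDimensional K E) (_ : IsGalois K E)
      (s : Multiset (IntOff (tE E α) 1)), Nat.card (E ≃ₐ[K] E) ∣ χ.natDegree.factorial ∧
      UnrOff K (tE E α) Θ ∧ χ.map (toInt _ 1) = (s.map fun x => Polynomial.X - Polynomial.C x).prod ∧
      ∀ x ∈ s, ∀ y ∈ s, ∃ g : E ≃ₐ[K] E, gI α 1 g x = y := by
  let _ := α.toAlgebra
  have := hα.frac
  have hp : Irreducible (χ.map α) := (hm.irreducible_iff_irreducible_map_fraction_map).1 hi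
  have hs : (χ.map α).Separable := by
    have h1 : α (Θ ^ N) ≠ 0 := (map_ne_zero_iff _ hα.1).2 (pow_ne_zero _ h0)
    refine ⟨Polynomial.C (α (Θ ^ N))⁻¹ * a.map α, Polynomial.C (α (Θ ^ N))⁻¹ * b.map α, ?_⟩
    rw [mul_assoc, mul_assoc, ← mul_add, Polynomial.derivative_map, ← Polynomial.map_mul,
      ← Polynomial.map_mul, ← Polynomial.map_add, ← hb, Polynomial.map_C, ← map_mul,
      inv_mul_cancel₀ h1, map_one]
  let E := (χ.map α).SplittingField
  have hG : IsGalois K E := IsGalois.of_separable_splitting_field hs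
  have hS : ((χ.map α).map (algebraMap K E)).Splits := Polynomial.SplittingField.splits _
  have hr : ∀ x : E, x ∈ ((χ.map α).map (algebraMap K E)).roots → χ.eval₂ (tE E α) x = 0 :=
    fun x hx => by
      have := Polynomial.isRoot_of_mem_roots hx
      rwa [Polynomial.map_map, Polynomial.IsRoot, Polynomial.eval_map] at this
  have hI : ∀ x ∈ ((χ.map α).map (algebraMap K E)).roots, x ∈ IntOff (tE E α) 1 :=
    fun x hx => (mem_intOff_one hα).2 ⟨χ, hm, hr x hx⟩
  refine ⟨E, inferInstance, inferInstance, inferInstance, hG, Multiset.pmap Subtype.mk _ hI, ?_,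
    fun P w hP hd hc => (Subgroup.eq_bot_iff_forall _).2 fun g hg => ?_, ?_, fun x hx y hy => ?_⟩
  · have : Fact _ := ⟨hS⟩
    have h1 := Subgroup.card_dvd_of_injective _
      (Polynomial.Gal.galActionHom_injective (χ.map α) E)
    rwa [Nat.card_perm, Nat.card_eq_fintype_card (α := (χ.map α).rootSet E),
      Polynomial.card_rootSet_eq_natDegree hs hS, hm.natDegree_map] at h1
  · refine Polynomial.Gal.ext (χ.map α) (σ := g) (τ := 1) fun x hx => ?_
    exact hc.root_fix hm hb hP hd hg (hr x (Multiset.mem_toFinset.1 hx))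
  · refine Polynomial.map_injective _ (IntOff (tE E α) 1).subtype_injective ?_
    rw [Polynomial.map_multiset_prod, Multiset.map_map, Multiset.map_pmap, Polynomial.map_map]
    simp only [Function.comp, Polynomial.map_sub, Polynomial.map_X, Polynomial.map_C,
      Subring.coe_subtype, Multiset.pmap_eq_map]
    rw [← hS.eq_prod_roots_of_monic ((hm.map _).map _), Polynomial.map_map]
    rfl
  · obtain ⟨x, h1, rfl⟩ := Multiset.mem_pmap.1 hx
    obtain ⟨y, h2, rfl⟩ := Multiset.mem_pmap.1 hy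
    have e : ∀ z : E, Polynomial.aeval z (χ.map α) = χ.eval₂ (tE E α) z := fun z => by
      rw [Polynomial.aeval_def, Polynomial.eval₂_map]
    obtain ⟨g, hg⟩ := minpoly.exists_algEquiv_of_root (K := K) (x := x)
      (Algebra.IsAlgebraic.isAlgebraic y) (by
        rw [← minpoly.eq_of_irreducible_of_monic hp ((e y).trans (hr y h2)) (hm.map _), e, hr x h1])
    exact ⟨g, Subtype.ext hg⟩

/-- two monic factors of the reduction would have a common root -/
theorem irr_core (hα : IsFr α) (hm : χ.Monic) (hi : Irreducible χ)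
    (hb : Polynomial.C (Θ ^ N) = a * χ + b * χ.derivative) {l : A →+* A'}
    (hl : Function.Surjective l) (hΘ : l Θ ≠ 0)
    (H : ∀ (E : Type) [Field E] [Algebra K E] [FiniteDimensional K E] [IsGalois K E],
      Nat.card (E ≃ₐ[K] E) ∣ χ.natDegree.factorial → UnrOff K (tE E α) Θ →
      ∀ n : Ideal (IntOff (tE E α) 1), n.IsPrime → (∀ f, toInt _ 1 f ∈ n ↔ l f = 0) →
        ∀ (g : E ≃ₐ[K] E) (x), x ∈ n → gI α 1 g x ∈ n) : Irreducible (χ.map l) := by
  obtain ⟨E, _, _, _, _, s, h1, h2, h3, h4⟩ :=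
    exists_split_v hα hm hi (fun h => hΘ (by rw [h, map_zero])) hb
  let _ := (toInt (tE E α) 1).toAlgebra
  have : Algebra.IsIntegral A (IntOff (tE E α) 1) := ⟨fun x => by
    obtain ⟨p, hp, h⟩ := (mem_intOff_one hα).1 x.2
    refine ⟨p, hp, (IntOff (tE E α) 1).subtype_injective ?_⟩
    rw [Polynomial.hom_eval₂, map_zero]
    exact h⟩
  have := RingHom.ker_isPrime l
  obtain ⟨n, hn, hc⟩ := Ideal.exists_ideal_over_prime_of_isIntegral_of_isDomain
    (S := IntOff (tE E α) 1) (RingHom.ker l) fun f hf => by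
      have : f = 0 := hα.1 ((algebraMap K E).injective
        ((congrArg Subtype.val hf).trans (map_zero (tE E α)).symm))
      rw [this]
      exact zero_mem _
  have hf : ∀ f, toInt _ 1 f ∈ n ↔ l f = 0 := fun f => SetLike.ext_iff.1 hc f
  let ρ := (toE _ (AlgebraicClosure (Fr (_ ⧸ n)))).comp (Ideal.Quotient.mk n)
  have hρ : ∀ x, ρ x = 0 ↔ x ∈ n := fun x => by
    rw [← Ideal.Quotient.eq_zero_iff_mem]
    exact (map_eq_zero (algebraMap (Fr (_ ⧸ n)) _)).trans
      (map_eq_zero_iff _ (IsFractionRing.injective (_ ⧸ n) _))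
  obtain ⟨ι, hι⟩ : ∃ ι : A' →+* _, ι.comp l = ρ.comp (toInt _ 1) :=
    ⟨_, l.liftOfSurjective_comp hl ⟨ρ.comp (toInt _ 1), fun f h => (hρ _).2 ((hf f).2 h)⟩⟩
  refine (hm.map l).irreducible_iff_natDegree.2 ⟨fun h => hi.ne_one ?_, fun p q hp hq e => ?_⟩
  · rw [← hm.natDegree_eq_zero, ← hm.natDegree_map l, h, Polynomial.natDegree_one]
  have h5 : ∀ r : A'[X], r.Monic → r ∣ χ.map l → r.natDegree ≠ 0 →
      ∃ x ∈ s, r.eval₂ ι (ρ x) = 0 := fun r hr hd h => by
    obtain ⟨z, hz⟩ := IsAlgClosed.exists_root (r.map ι) (by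
      rw [hr.degree_map, Polynomial.degree_eq_natDegree hr.ne_zero]
      exact_mod_cast h)
    have h6 := hz.dvd (Polynomial.map_dvd ι hd)
    rw [Polynomial.map_map, hι, ← Polynomial.map_map, h3, Polynomial.IsRoot, Polynomial.eval_map,
      Polynomial.eval₂_multiset_prod, Multiset.prod_eq_zero_iff, Multiset.map_map] at h6
    obtain ⟨x, hx, h7⟩ := Multiset.mem_map.1 h6
    have h8 : z = ρ x := by simpa [sub_eq_zero] using h7
    exact ⟨x, hx, by rw [← h8, ← Polynomial.eval_map, hz]⟩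
  by_contra h
  obtain ⟨x, hx, h6⟩ := h5 p hp ⟨q, e.symm⟩ (not_or.1 h).1
  obtain ⟨y, hy, h7⟩ := h5 q hq ⟨p, by rw [← e, mul_comm]⟩ (not_or.1 h).2
  obtain ⟨g, rfl⟩ := h4 x hx y hy
  obtain ⟨p, rfl⟩ := Polynomial.map_surjective l hl p
  have h8 : (p.map l).eval₂ ι (ρ (gI α 1 g x)) = 0 := by
    rw [Polynomial.eval₂_map, hι, ← Polynomial.hom_eval₂, hρ] at h6 ⊢
    have h9 := H E h1 h2 n hn hf g _ h6
    rwa [Polynomial.hom_eval₂, show (gI α 1 g).comp (toInt _ 1) = toInt _ 1 from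
      RingHom.ext fun f => Subtype.ext (g.commutes _)] at h9
  have h9 := congrArg (fun r => (r.map l).eval₂ ι (ρ (gI α 1 g x))) hb
  simp only [Polynomial.map_C, Polynomial.eval₂_C, Polynomial.map_add, Polynomial.map_mul,
    ← Polynomial.derivative_map, ← e, Polynomial.derivative_mul, Polynomial.eval₂_add,
    Polynomial.eval₂_mul, h7, h8, mul_zero, zero_mul, add_zero] at h9
  rw [← RingHom.comp_apply, hι, RingHom.comp_apply, hρ, hf, map_pow] at h9
  exact hΘ (eq_zero_of_pow_eq_zero h9)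

/-- one stable prime above the kernel is enough -/
theorem stable_of_exists {E : Type} [Field E] [Algebra K E] [FiniteDimensional K E] [IsGalois K E]
    (hα : IsFr α) (n₀ n : Ideal (IntOff (tE E α) 1)) [n₀.IsPrime] [n.IsPrime]
    (hs : ∀ (g : E ≃ₐ[K] E) (x), x ∈ n₀ → gI α 1 g x ∈ n₀)
    (h : ∀ f, toInt _ 1 f ∈ n ↔ toInt _ 1 f ∈ n₀) (g : E ≃ₐ[K] E) (x) (hx : x ∈ n) :
    gI α 1 g x ∈ n := by
  have e : n = n₀ := (stab_intOff α 1).eq_of_stable n₀ n (fun g _ => hs g) fun a ha => by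
    obtain ⟨f, hf⟩ := fix_intOff_one hα a.2 fun g => ha g trivial
    rw [show a = toInt _ 1 f from Subtype.ext hf.symm]
    exact h f
  subst e
  exact hs g x hx

end Pool.Agent.ZCy
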