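import Pool.Agent.Lib.MP_751085_ag.ZC.V.Ta
import Pool.Agent.Lib.MP_751085_ag.ZC.V.Irr

/-! Block V: irreducibility modulo the uniformiser. -/

namespace Pool.Agent.ZCy

open scoped Classical WithZero Polynomial PowerSeries LaurentSeries
open WithZero (exp)
open IsLocalRing

variable {R : Type} [CommRing R] [IsDomain R] [CDVR R] [IsAlgClosed (ResidueField R)]

/-- `irr_core` with the centre of a valuation above the Gauss valuation (`ta_int`,
`unrOff_mono`) -/
theorem ta_irr {h a b : R[X][X]} (hm : h.Monic) (hi : Irreducible h)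
    (hδ : (h.natDegree.factorial : R) ≠ 0) {Ψ : R[X]} {N : ℕ}
    (hb : Polynomial.C (Ψ ^ N) = a * h + b * h.derivative) (hl : IsUnit Ψ.leadingCoeff)
    (hs : (Ψ.map (residue R)).Separable) :
    Irreducible (h.map (Polynomial.mapRingHom (residue R))) := by
  obtain ⟨π, hπ⟩ := IsDiscreteValuationRing.exists_irreducible R
  have hP : Prime (Polynomial.C π) := Polynomial.prime_C_iff.2 hπ.prime
  have hα := isFr_alg R[X] (Fr R[X])
  refine irr_core hα hm hi hb (Polynomial.map_surjective _ residue_surjective) hs.ne_zero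
    fun E _ _ _ _ hc hu n hn h0 g x hx => ?_
  obtain ⟨w, -, hw⟩ := exists_cen_ext (E := E) hα hP
  have hD := ta_int hα (fun e => hδ (by
    obtain ⟨k, hk⟩ := hc
    rw [hk, Nat.cast_mul, e, zero_mul])) hl hs hu hπ hw
  have h1 : ∀ y : IntOff (tE E (algebraMap R[X] (Fr R[X]))) 1, w y ≤ 1 := fun y =>
    y.2 _ w hP (mt isUnit_of_dvd_one hP.not_isUnit) hw
  let n₀ : Ideal (IntOff (tE E (algebraMap R[X] (Fr R[X]))) 1) :=
    { carrier := {y | w y < 1}
      add_mem' := fun ha hb => w.map_add_lt ha hb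
      zero_mem' := by simp
      smul_mem' := fun c y hy => by
        change w (c * y) < 1
        rw [map_mul]
        exact (mul_le_of_le_one_left' (h1 c)).trans_lt hy }
  have : n₀.IsPrime := ⟨(Ideal.ne_top_iff_one _).2 fun e => (show w 1 < 1 from e).ne w.map_one,
    fun {y z} e => by
      by_contra hc
      rw [not_or] at hc
      have e' : w (y * z) < 1 := e
      rw [map_mul, (h1 y).eq_of_not_lt hc.1, (h1 z).eq_of_not_lt hc.2, mul_one] at e'
      exact e'.false⟩
  refine stable_of_exists hα n₀ n (fun g y hy => ?_) (fun f => (h0 f).trans ?_) g x hx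
  · exact ((hD.ge (Subgroup.mem_top g)) y).trans_lt hy
  · refine Iff.trans ?_ (hw.2 f).symm
    rw [Polynomial.C_dvd_iff_dvd_coeff, Polynomial.ext_iff]
    refine forall_congr' fun i => ?_
    rw [Polynomial.coe_mapRingHom, Polynomial.coeff_map, Polynomial.coeff_zero, residue_eq_zero_iff,
      hπ.maximalIdeal_eq, Ideal.mem_span_singleton]

theorem ta_irr' [CharZero R] (h a b : R[X][X]) (hm : h.Monic)
    (hi : Irreducible (h.map (Polynomial.mapRingHom (algebraMap R (Fr R))))) (Ψ : R[X]) (N : ℕ)
    (hb : Polynomial.C (Ψ ^ N) = a * h + b * h.derivative) (hl : IsUnit Ψ.leadingCoeff)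
    (hs : (Ψ.map (residue R)).Separable) :
    Irreducible (h.map (Polynomial.mapRingHom (residue R))) :=
  ta_irr hm (hm.irreducible_of_irreducible_map _ _ hi)
    (Nat.cast_ne_zero.2 (Nat.factorial_ne_zero _)) hb hl hs

end Pool.Agent.ZCy
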