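import Pool.Agent.Lib.MP_751085_ag.ZC.V.Pur1
import Pool.Agent.Lib.MP_751085_ag.ZC.V.Bcu
import Pool.Agent.Lib.MP_751085_ag.ZC.V.Hns
import Pool.Agent.Lib.MP_751085_ag.ZC.V.Tam

/-! Block V: Abhyankar lemma and purity on a disc. -/

namespace Pool.Agent.ZCy

open scoped Classical WithZero Polynomial PowerSeries LaurentSeries
open WithZero (exp)
open IsLocalRing

/-- ABH along a prime that becomes an `m`-th power. For `a ∈ K` the value is a power of the value
of `P` (`Cen.val_zpow`). -/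
theorem ine_bot_root {A K K' E E' : Type} [CommRing A] [WfDvdMonoid A] [Field K] [Field K']
    [Field E] [Field E'] [Algebra K E] [FiniteDimensional K E] [IsGalois K E] [Algebra K' E']
    {α : A →+* K} {φ : K →+* K'} {j : E →+* E'} {r : (E' ≃ₐ[K'] E') →* (E ≃ₐ[K] E)} (hα : IsFr α)
    (hj : Sq φ j) (hr : Rs j r) (hi : Function.Injective r) {P : A} (hP : Prime P) {w' : Vl E'}
    (hc : Cen (j.comp (tE E α)) w' P) (ht : Tame K (w'.comap j)) {b : K'} {m : ℕ} (hm : m ≠ 0)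
    (hd : Nat.card (E ≃ₐ[K] E) ∣ m) (hb : φ (α P) = b ^ m) : Ine K' w' = ⊥ := by
  refine abh hj hr hi (Over.comap j w') ht hm ((Subgroup.card_subgroup_dvd_card _).trans hd)
    fun a ha => ?_
  obtain ⟨n, hn⟩ := Cen.val_zpow (v := w'.comap (j.comp (algebraMap K E))) hα hP hc ha
  refine ⟨b ^ n, ?_⟩
  have h1 : w' (j (algebraMap K E a)) = w' (j (algebraMap K E (α P))) ^ n := hn
  rw [← hj, h1, hj, hb, map_pow, map_pow, map_zpow₀, map_zpow₀, ← zpow_natCast, ← zpow_natCast,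
    ← zpow_mul, ← zpow_mul, mul_comm]

variable {R K E : Type} [CommRing R] [IsDomain R] [CDVR R] [IsAlgClosed (ResidueField R)] [Field K]
  [Field E] [Algebra K E] [FiniteDimensional K E] [IsGalois K E] {α : R[X] →+* K} {Θ Ψ : R[X]}

/-- `pur1`, then `exists_retr` on the coefficients -/
theorem zn_disc (hα : IsFr α) (h0 : IsUnit (Θ.coeff 0)) (hu : UnrOff K (tE E α) Θ) :
    ∃ β : IntOff (tE E α) Θ →+* R⟦X⟧, ∀ p, β (toInt _ Θ p) = (p : R⟦X⟧) := by
  have hf := isFr_alg R (Fr R)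
  obtain ⟨E₁, _, _, _, _, h1, β, hβ⟩ := pur1 hf hα h0.ne_zero hu
  obtain ⟨γ, hγ⟩ := exists_retr hf (unrOff_mono (n := 1) (h0.dvd) h1)
  let γ' := γ.comp (Subring.inclusion (intOff_of_isUnit h0).le)
  have e : γ'.comp (toInt _ (Θ.coeff 0)) = RingHom.id R := RingHom.ext hγ
  refine ⟨(PowerSeries.map γ').comp β, fun p => ?_⟩
  rw [RingHom.comp_apply, hβ, ← RingHom.comp_apply, ← PowerSeries.map_comp, e, PowerSeries.map_id]
  rfl

omit [IsAlgClosed (ResidueField R)] in
/-- Base change along `Polynomial.expand R e`. Primes of the new ring: the uniformiser (centre the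
uniformiser), `X` (`ine_bot_root`; the residue field has the characteristic of `R`), the others
(`cen_poly`). -/
theorem unrOff_expand {K' E' : Type} [Field K'] [Field E'] [Algebra K' E'] {α' : R[X] →+* K'}
    {φ : K →+* K'} {j : E →+* E'} {r : (E' ≃ₐ[K'] E') →* (E ≃ₐ[K] E)} (hα : IsFr α) {e : ℕ}
    (he : e ≠ 0) (hd : Nat.card (E ≃ₐ[K] E) ∣ e) (hG : (Nat.card (E ≃ₐ[K] E) : R) ≠ 0)
    (hφ : ∀ p, φ (α p) = α' (Polynomial.expand R e p)) (hj : Sq φ j) (hr : Rs j r)
    (hi : Function.Injective r) (hu : UnrOff K (tE E α) (Polynomial.X * Θ)) :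
    UnrOff K' (tE E' α') (Polynomial.expand R e Θ) := by
  intro P' w' hP hΘ hc
  have hp := Nat.pos_of_ne_zero he
  have e1 : ∀ f, j.comp (tE E α) f = tE E' α' (Polynomial.expand R e f) := fun f =>
    (hj _).trans (congrArg _ (hφ f))
  have hcen : ∀ P : R[X], Prime P → P' ∣ P → (∀ f, P ∣ Polynomial.expand R e f ↔ P ∣ f) →
      Cen (j.comp (tE E α)) w' P := fun P h1 h2 h3 => ⟨fun f => e1 f ▸ hc.1 _, fun f => by
    rw [e1, hc.2, (hP.associated_of_dvd h1 h2).dvd_iff_dvd_left, h3]⟩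
  by_cases hX : P' ∣ Polynomial.X
  · have h1 := hcen _ Polynomial.prime_X hX fun f => by
      rw [Polynomial.X_dvd_iff, Polynomial.X_dvd_iff, ← Polynomial.coeff_expand_mul hp f 0, zero_mul]
    refine ine_bot_root hα hj hr hi Polynomial.prime_X h1 (tame_of_card ?_) (b := α' Polynomial.X)
      he hd (by rw [hφ, Polynomial.expand_X, map_pow])
    have h2 := (h1.eq_one (Polynomial.C (Nat.card (E ≃ₐ[K] E) : R))).2 (by
      rwa [Polynomial.X_dvd_iff, Polynomial.coeff_C_zero])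
    rw [map_natCast, map_natCast, ← map_natCast j] at h2
    exact h2
  refine ine_bot_of_cen hα hr hi hu ?_ ?_
  · refine (congrArg w' (e1 _)).trans ((hc.eq_one _).2 fun h => ?_)
    rw [map_mul, Polynomial.expand_X] at h
    exact (hP.dvd_or_dvd h).elim (fun h => hX (hP.dvd_of_dvd_pow h)) hΘ
  by_cases hC : ∀ a : R, a ≠ 0 → ¬P' ∣ Polynomial.C a
  · exact cen_poly (φ := j.comp (tE E α)) (fun f => e1 f ▸ hc.1 _) fun a ha => by
      rw [e1, Polynomial.expand_C]
      exact (hc.eq_one _).2 (hC a ha)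
  obtain ⟨a, ha⟩ := not_forall.1 hC
  obtain ⟨ha0, ha⟩ := Classical.not_imp.1 ha
  obtain ⟨π, hπ⟩ := IsDiscreteValuationRing.exists_irreducible R
  obtain ⟨n, hn⟩ := IsDiscreteValuationRing.associated_pow_irreducible ha0 hπ
  have h1 : Prime (Polynomial.C π) := Polynomial.prime_C_iff.2 hπ.prime
  refine Or.inr ⟨_, h1, hcen _ h1 (hP.dvd_of_dvd_pow (n := n) ?_) fun f => ⟨fun h => ?_, fun h => ?_⟩⟩
  · rw [← map_pow]
    exact (not_not.1 ha).trans (map_dvd _ hn.dvd)
  · rw [Polynomial.C_dvd_iff_dvd_coeff] at h ⊢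
    exact fun i => Polynomial.coeff_expand_mul hp f i ▸ h _
  · exact Polynomial.expand_C e π ▸ map_dvd (Polynomial.expand R e) h

end Pool.Agent.ZCy
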