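import Pool.Agent.Lib.MP_751085_ag.ZC.V.Pur
import Pool.Agent.Lib.MP_751085_ag.ZC.V.Le0

/-! Block V: purity at a point over a complete discrete valuation ring, tame case. -/

namespace Pool.Agent.ZCy

open scoped Classical WithZero Polynomial PowerSeries LaurentSeries
open WithZero (exp)
open IsLocalRing

variable {σ O R K E : Type} [Finite σ] [CommRing O] [IsDomain O] [IsDiscreteValuationRing O]
  [CommRing R] [IsDomain R] [CDVR R] [Field K] [Field E] [Algebra K E] [FiniteDimensional K E]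
  [IsGalois K E]

/-- `pur` over `R`; the ring `IntOff _ 1` of the finite extension is the ring of integers -/
theorem zn_cdvr {α : MvPolynomial σ R →+* K} (hα : IsFr α) {Θ : MvPolynomial σ R}
    (h0 : IsUnit (MvPolynomial.constantCoeff Θ)) (hu : UnrOff K (tE E α) Θ) :
    ∃ (R' : Type) (_ : CommRing R') (_ : IsDomain R') (_ : CDVR R') (f : R →+* R')
      (β : IntOff (tE E α) Θ →+* MvPowerSeries σ R'), Function.Injective f ∧ f.Finite ∧
      IsLocalHom f ∧ ∀ p, β (toInt _ Θ p) = MvPowerSeries.map f (p : MvPowerSeries σ R) := by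
  have h₀ := isFr_alg R (Fr R)
  obtain ⟨E₀, _, _, _, _, -, β, hβ⟩ := pur h₀ σ hα h0.ne_zero hu
  obtain ⟨v, hv⟩ := exists_isVR h₀
  obtain ⟨w, hw, f, -, ho, hf, hfin, hl, -⟩ := exists_cdvr_ext (E := E₀) hv
  have hle : IntOff (tE E₀ (algebraMap R (Fr R))) (MvPolynomial.constantCoeff Θ) ≤ w.integer :=
    fun x hx => hv.mem_intOff.1 (by rwa [intOff_of_isUnit h0] at hx) w ho
  refine ⟨w.integer, inferInstance, inferInstance, hw, f,
    (MvPowerSeries.map (Subring.inclusion hle)).comp β, fun a b e => ?_, hfin, hl, fun p => ?_⟩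
  · refine h₀.1 ((algebraMap (Fr R) E₀).injective ?_)
    exact (hf a).symm.trans ((congrArg Subtype.val e).trans (hf b))
  · have : (Subring.inclusion hle).comp (toInt _ _) = f := RingHom.ext fun a =>
      Subtype.ext (hf a).symm
    rw [RingHom.comp_apply, hβ, ← this, MvPowerSeries.map_comp, RingHom.comp_apply]

theorem vtz_dvd {R₁ : Type} [CommRing R₁] [IsDomain R₁] [IsDiscreteValuationRing R₁]
    (ψ : O →+* R₁) [IsLocalHom ψ] {π : O} (hπ : Irreducible π) {ϖ : R₁} (hϖ : Irreducible ϖ)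
    (c : O) : ϖ ∣ ψ c ↔ π ∣ c := by
  rw [← Ideal.mem_span_singleton, ← Ideal.mem_span_singleton, ← hπ.maximalIdeal_eq,
    ← hϖ.maximalIdeal_eq, mem_maximalIdeal, mem_maximalIdeal, mem_nonunits_iff, mem_nonunits_iff,
    isUnit_map_iff]

/-- TZ. Extract a root of `φ π`, base change along `tr`, then `zn_cdvr`. -/
theorem tz_int {α : MvPolynomial σ O →+* K} (hα : IsFr α) (hG : (Nat.card (E ≃ₐ[K] E) : O) ≠ 0)
    {φ : O →+* R} (hφ : Function.Injective φ) [IsLocalHom φ] {Θ : MvPolynomial σ O} {π : O}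
    (hπ : Irreducible π) (h1 : UnrOff K (tE E α) (MvPolynomial.C π * Θ))
    (h2 : ∀ w : Vl E, Cen (tE E α) w (MvPolynomial.C π) → Tame K w) (y : σ → R)
    (hy : IsUnit (Θ.eval₂ φ y)) :
    ∃ (R' : Type) (_ : CommRing R') (_ : IsDomain R') (_ : CDVR R') (f : R →+* R')
      (j : E →+* Fr (MvPowerSeries σ R')), Function.Injective f ∧ f.Finite ∧ IsLocalHom f ∧
      EmbT (tE E α) (IntOff (tE E α) Θ) ((MvPowerSeries.map f).comp (pt φ y)) j := by
  have hm : (Nat.card (E ≃ₐ[K] E) : R) ≠ 0 := fun h => hG (hφ (by rw [map_natCast, h, map_zero]))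
  obtain ⟨R₁, _, _, _, f₁, r, hi₁, hf₁, hl₁, hr₁, -⟩ :=
    exists_root_ext (isFr_alg R (Fr R)) hm (φ π)
  have hi₀ : Function.Injective (f₁.comp φ) := hi₁.comp hφ
  have hα' := isFr_alg (MvPolynomial σ R₁) (Fr (MvPolynomial σ R₁))
  set α' := algebraMap (MvPolynomial σ R₁) (Fr (MvPolynomial σ R₁))
  set ψ := tr (f₁.comp φ) fun i => f₁ (y i) with hψ
  have hψi : Function.Injective ψ := tr_inj hi₀
  obtain ⟨φ', hφ'⟩ := hα.exists_lift (β := α'.comp ψ) (hα'.1.comp hψi)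
  obtain ⟨E', _, _, _, _, j, rr, hj, hr, hi, -⟩ := exists_bc E φ'
  have hc : ∀ a, j (tE E α a) = tE E' α' (ψ a) := fun a =>
    (hj (α a)).trans (congrArg (algebraMap _ E') (hφ' a))
  obtain ⟨ϖ, hϖ⟩ := IsDiscreteValuationRing.exists_irreducible R₁
  have hu : UnrOff (Fr (MvPolynomial σ R₁)) (tE E' α') (MvPolynomial.C ϖ * ψ Θ) := by
    obtain ⟨n, u, hn⟩ := IsDiscreteValuationRing.eq_unit_mul_pow_irreducible
      (x := (f₁.comp φ) π) (fun h => hπ.ne_zero (hi₀ (h.trans (map_zero _).symm))) hϖ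
    refine unrOff_mono (n := n + 1) ?_
      (unrOff_bc hα (flat_tr (flat_pid hi₀)) hψi hc hr hi h1)
    rw [map_mul, hψ, tr_C, ← hψ, hn, mul_pow, map_mul, map_pow, mul_assoc,
      (u.isUnit.map MvPolynomial.C).mul_left_dvd]
    exact mul_dvd_mul (pow_dvd_pow _ n.le_succ) (dvd_pow_self _ n.succ_ne_zero)
  have hu' : UnrOff (Fr (MvPolynomial σ R₁)) (tE E' α') (ψ Θ) := by
    refine UnrOff.of_mul ((MvPolynomial.prime_C_iff σ).2 hϖ.prime) hu fun w' hw' => ?_
    have hcen : Cen (j.comp (tE E α)) w' (MvPolynomial.C π) := by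
      refine ⟨fun a => ?_, fun a => ?_⟩ <;> rw [RingHom.comp_apply, hc]
      · exact hw'.1 _
      · rw [hw'.2, hψ, C_dvd_tr, MvPolynomial.C_dvd_iff_dvd_coeff]
        exact forall_congr' fun m => vtz_dvd _ hπ hϖ _
    refine ine_bot_root hα hj hr hi ((MvPolynomial.prime_C_iff σ).2 hπ.prime) hcen (h2 _ hcen)
      (b := α' (MvPolynomial.C r)) (fun h => hG (by rw [h, Nat.cast_zero])) dvd_rfl ?_
    rw [hφ', RingHom.comp_apply, hψ, tr_C, ← map_pow, ← map_pow, hr₁, RingHom.comp_apply]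
  have h0 : IsUnit (MvPolynomial.constantCoeff (ψ Θ)) := by
    rw [hψ, constantCoeff_tr, ← constantCoeff_pt, ← map_pt, MvPowerSeries.constantCoeff_map,
      constantCoeff_pt]
    exact hy.map f₁
  obtain ⟨R', _, _, _, f₂, β, hi₂, hf₂, hl₂, hβ⟩ := zn_cdvr hα' h0 hu'
  let γ : IntOff (tE E α) Θ →+* IntOff (tE E' α') (ψ Θ) :=
    (j.comp (IntOff (tE E α) Θ).subtype).codRestrict _ fun x => intOff_map hα hc x.2
  have hb : ∀ p, β.comp γ (toInt _ Θ p) = MvPowerSeries.map (f₂.comp f₁) (pt φ y p) := fun p => by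
    have : γ (toInt _ Θ p) = toInt _ _ (ψ p) := Subtype.ext (hc p)
    rw [RingHom.comp_apply, this, hβ, hψ, ← pt_eq, ← map_pt, MvPowerSeries.map_comp,
      RingHom.comp_apply]
  have : IsDomain (MvPowerSeries σ R') := NoZeroDivisors.to_isDomain _
  obtain ⟨j', hj'⟩ := exists_embT hα (β.comp γ) fun a b e => by
    rw [RingHom.comp_apply, RingHom.comp_apply _ _ b, hb, hb, map_pt, map_pt] at e
    exact pt_inj ((hi₂.comp hi₁).comp hφ) e
  exact ⟨R', inferInstance, inferInstance, inferInstance, f₂.comp f₁, j', hi₂.comp hi₁,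
    hf₂.comp hf₁, inferInstance, fun a => (hj' (toInt _ Θ a)).trans (congrArg _ (hb a)),
    fun x hx => ⟨_, hj' ⟨x, hx⟩⟩⟩

theorem tz {k : Type} [Field k] [CharZero k] {ι : O →+* k} (hι : IsFr ι)
    {α : MvPolynomial σ k →+* K} (hα : IsFr α) {φ : O →+* R} (hφ : Function.Injective φ)
    [IsLocalHom φ] {Θ : MvPolynomial σ O} {π : O} (hπ : Irreducible π)
    (h1 : UnrOff K (tE E α) (Θ.map ι))
    (h2 : ∀ w : Vl E, Cen ((tE E α).comp (MvPolynomial.map ι)) w (MvPolynomial.C π) → Tame K w)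
    (y : σ → R) (hy : IsUnit (Θ.eval₂ φ y)) :
    ∃ (R' : Type) (_ : CommRing R') (_ : IsDomain R') (_ : CDVR R') (_ : Algebra R R')
      (_ : Module.Finite R R') (_ : FaithfulSMul R R') (j : E →+* Fr (MvPowerSeries σ R')),
      IsLocalHom (algebraMap R R') ∧ EmbT ((tE E α).comp (MvPolynomial.map ι))
        (IntOff ((tE E α).comp (MvPolynomial.map ι)) Θ)
        ((MvPowerSeries.map (algebraMap R R')).comp (pt φ y)) j := by
  have hG : (Nat.card (E ≃ₐ[K] E) : O) ≠ 0 := fun h =>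
    (Nat.cast_ne_zero (R := k)).2 (Nat.card_pos (α := E ≃ₐ[K] E)).ne'
      (by rw [← map_natCast ι, h, map_zero])
  obtain ⟨R', _, _, _, f, j, hi, hf, hl, h⟩ :=
    tz_int (hι.mv hα) hG hφ hπ (unrOff_of_frac_mv hι hπ h1) h2 y hy
  let _ := f.toAlgebra
  exact ⟨R', inferInstance, inferInstance, inferInstance, inferInstance, hf,
    (faithfulSMul_iff_algebraMap_injective R R').2 hi, j, hl, h⟩

end Pool.Agent.ZCy
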