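import Pool.Agent.Lib.MP_751085_ag.ZC.V.Reg
import Pool.Agent.Lib.MP_751085_ag.ZC.V.Wei

/-! Block V: power series over a field or a complete discrete valuation ring form a factorial
ring. -/

namespace Pool.Agent.ZCy

open scoped Classical WithZero Polynomial PowerSeries LaurentSeries
open WithZero (exp)
open IsLocalRing

theorem ufd_mv_gen (R σ : Type) [CommRing R] [IsDomain R] [IsLocalRing R] [IsPrincipalIdealRing R]
    [IsAdicComplete (maximalIdeal R) R] [Finite σ] :
    UniqueFactorizationMonoid (MvPowerSeries σ R) := by
  induction σ using Finite.induction_empty_option with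
  | of_equiv e h => exact (MvPowerSeries.renameEquiv R e).toMulEquiv.uniqueFactorizationMonoid h
  | h_empty =>
    exact (MvPowerSeries.isEmptyEquiv _ R).symm.toMulEquiv.uniqueFactorizationMonoid inferInstance
  | @h_option σ _ ih =>
    have := NoZeroDivisors.to_isDomain (MvPowerSeries σ R)
    have := NoZeroDivisors.to_isDomain (MvPowerSeries (Option σ) R)
    have := isAdicComplete_mv R σ
    refine { irreducible_iff_prime := fun {f} => ⟨fun hi => ?_, Prime.irreducible⟩ }
    by_cases h0 : MvPowerSeries.map (residue R) f = 0
    · obtain ⟨π, hπ⟩ := (IsPrincipalIdealRing.principal (maximalIdeal R)).principal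
      have h1 : ∀ m, ∃ c, MvPowerSeries.coeff m f = π * c := fun m => by
        have h2 := congrArg (MvPowerSeries.coeff m) h0
        rw [MvPowerSeries.coeff_map, map_zero, residue_eq_zero_iff, hπ] at h2
        exact Ideal.mem_span_singleton.1 h2
      choose c hc using h1
      have h2 : f = MvPowerSeries.C π * (show MvPowerSeries (Option σ) R from c) := by
        ext m
        rw [MvPowerSeries.coeff_C_mul, hc]
        rfl
      have h3 : π ≠ 0 := fun h => hi.ne_zero (by rw [h2, h, map_zero, zero_mul])
      have h4 : Prime (MvPowerSeries.C π : MvPowerSeries (Option σ) R) :=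
        prime_mv_C ((Ideal.span_singleton_prime h3).1 (hπ ▸ (maximalIdeal.isMaximal R).isPrime :))
      exact (h4.irreducible.associated_of_dvd hi ⟨_, h2⟩).prime h4
    · obtain ⟨e, he⟩ := exists_regular (residue R) h0
      refine (MulEquiv.prime_iff e).1 (prime_of_regular (fun h => he ?_)
        ((MulEquiv.irreducible_iff e).2 hi))
      ext n
      have h2 := congrArg (PowerSeries.coeff n) h
      rw [PowerSeries.coeff_map, map_zero, residue_eq_zero_iff, mem_maximalIdeal, mem_nonunits_iff,
        MvPowerSeries.isUnit_iff_constantCoeff] at h2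
      rw [PowerSeries.coeff_map, map_zero, RingHom.comp_apply, residue_eq_zero_iff]
      exact h2

theorem ufd_mv (κ σ : Type) [Field κ] [Finite σ] :
    UniqueFactorizationMonoid (MvPowerSeries σ κ) :=
  have : IsAdicComplete (maximalIdeal κ) κ := by
    rw [maximalIdeal_eq_bot]
    infer_instance
  ufd_mv_gen κ σ

theorem ufd_mv_cdvr (R σ : Type) [CommRing R] [IsDomain R] [CDVR R] [Finite σ] :
    UniqueFactorizationMonoid (MvPowerSeries σ R) := ufd_mv_gen R σ

theorem isIntegrallyClosed_mv (κ σ : Type) [Field κ] [Finite σ] :
    IsIntegrallyClosed (MvPowerSeries σ κ) :=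
  have := NoZeroDivisors.to_isDomain (MvPowerSeries σ κ)
  have := ufd_mv κ σ
  inferInstance

end Pool.Agent.ZCy
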