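import Pool.Agent.Lib.MP_751085_ag.ZC.V.Z1c
import Pool.Agent.Lib.MP_751085_ag.ZC.V.Sep
import Pool.Agent.Lib.MP_751085_ag.ZC.V.Ufd

/-! Block V: the group at the generic point of a good line. -/

namespace Pool.Agent.ZCy

open scoped Classical WithZero Polynomial PowerSeries LaurentSeries
open WithZero (exp)
open IsLocalRing

/-- two maps to a normal extension with the same kernel differ by an automorphism -/
theorem exists_aut_of_ker {S M M' : Type} [CommRing S] [Field M] [Field M'] [Algebra M M']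
    [Normal M M'] (ρ ρ' : S →+* M') (h : ∀ x, ρ' x = 0 ↔ ρ x = 0)
    (hM : ∀ c : M, ∃ x y, ρ y ≠ 0 ∧ ρ' x = ρ x ∧ ρ' y = ρ y ∧ algebraMap M M' c * ρ y = ρ x) :
    ∃ γ : M' ≃ₐ[M] M', ∀ x, ρ' x = γ (ρ x) := by
  have := RingHom.ker_isPrime ρ
  have hF := isFr_alg (S ⧸ RingHom.ker ρ) (Fr (S ⧸ RingHom.ker ρ))
  obtain ⟨i, hi⟩ := hF.exists_lift (RingHom.kerLift_injective ρ)
  obtain ⟨j, hj⟩ := hF.exists_lift (β := Ideal.Quotient.lift (RingHom.ker ρ) ρ' fun a ha =>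
    (h a).2 ha) (RingHom.lift_injective_of_ker_le_ideal _ _ fun a ha => (h a).1 ha)
  set q := (algebraMap _ (Fr (S ⧸ RingHom.ker ρ))).comp (Ideal.Quotient.mk (RingHom.ker ρ))
  have hi' : ∀ x, i (q x) = ρ x := fun x => hi _
  have hj' : ∀ x, j (q x) = ρ' x := fun x => hj _
  have hc : ∀ c, algebraMap M M' c ∈ i.fieldRange := fun c => by
    obtain ⟨x, y, h0, -, -, e⟩ := hM c
    exact ⟨q x / q y, by rw [map_div₀, hi', hi', div_eq_iff h0, e]⟩
  let θ : M →+* Fr (S ⧸ RingHom.ker ρ) :=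
    (i.rangeRestrictFieldEquiv.symm : _ →+* _).comp ((algebraMap M M').codRestrict _ hc)
  have hθ : ∀ c, i (θ c) = algebraMap M M' c := fun c =>
    i.rangeRestrictFieldEquiv_apply_symm_apply _
  let _ := θ.toAlgebra
  obtain ⟨g, hg⟩ := exists_twist_sub (K := M) i hθ (RingHom.id _) j fun c => by
    obtain ⟨x, y, h0, e1, e2, e⟩ := hM c
    have : θ c * q y = q x := i.injective (by rw [map_mul, hθ, hi', hi', e])
    have := congrArg j this
    rw [map_mul, hj', hj', e1, e2, ← e] at this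
    exact mul_right_cancel₀ h0 this
  exact ⟨g, fun x => by rw [← hj', hg, hi']; rfl⟩

variable {σ k K E M : Type} [Fintype σ] [Field k] [Field K] [Field E] [Field M] [Algebra K E]
  [FiniteDimensional K E] [IsGalois K E] {α : MP σ k →+* K} {Θ : MP σ k} {a b : σ → k}
  {μ : k[X] →+* M}

/-- the generic point of the line -/
noncomputable def lpt (μ : k[X] →+* M) (a b : σ → k) (i : σ) : M :=
  μ (Polynomial.C (a i) + Polynomial.C (b i) * Polynomial.X)

theorem eval₂_lpt (p : MP σ k) :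
    p.eval₂ (μ.comp Polynomial.C) (lpt μ a b) = μ (line (RingHom.id k) a b p) := by
  rw [line, MvPolynomial.coe_eval₂Hom, MvPolynomial.eval₂_comp_left]
  rfl

omit [Fintype σ] in
theorem vz1o_surj (h0 : b ≠ 0) : Function.Surjective (line (RingHom.id k) a b) := by
  obtain ⟨i, hi⟩ := Function.ne_iff.1 h0
  have : (line (RingHom.id k) a b).comp (Polynomial.eval₂RingHom MvPolynomial.C
      (MvPolynomial.C (b i)⁻¹ * (MvPolynomial.X i - MvPolynomial.C (a i)))) = RingHom.id _ := by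
    refine Polynomial.ringHom_ext (fun c => by simp [line]) ?_
    simp [line, ← mul_assoc, ← map_mul, inv_mul_cancel₀ (show b i ≠ 0 from hi)]
  exact fun p => ⟨_, RingHom.congr_fun this p⟩

omit [Fintype σ] [FiniteDimensional K E] [IsGalois K E] in
theorem vz1o_pt {M' : Type} [Field M'] [Algebra M M'] {β : IntOff (tE E α) Θ →+* MvPowerSeries σ M'}
    (hβ : ∀ p, β (toInt _ Θ p) =
      MvPowerSeries.map (algebraMap M M') (pt (μ.comp Polynomial.C) (lpt μ a b) p)) :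
    β.comp (toInt _ Θ) = pt ((algebraMap M M').comp (μ.comp Polynomial.C))
      fun i => algebraMap M M' (lpt μ a b i) :=
  RingHom.ext fun p => (hβ p).trans (map_pt _ p)

/-- Z1 -/
theorem z1_onto (hα : IsFr α) (hG : (Nat.card (E ≃ₐ[K] E) : k) ≠ 0) (hu : UnrOff K (tE E α) Θ)
    (hg : GoodLine Θ a b) (h0 : b ≠ 0) (hμ : IsFr μ) {M' : Type} [Field M'] [Algebra M M']
    [Normal M M'] (β : IntOff (tE E α) Θ →+* MvPowerSeries σ M')
    (hβ : ∀ p, β (toInt _ Θ p) =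
      MvPowerSeries.map (algebraMap M M') (pt (μ.comp Polynomial.C) (lpt μ a b) p))
    (g : E ≃ₐ[K] E) : ∃ γ : M' ≃ₐ[M] M', ∀ x,
      β (gI α Θ g x) = MvPowerSeries.map (γ : M' →+* M') (β x) := by
  have : IsDomain (MvPowerSeries σ M') := NoZeroDivisors.to_isDomain _
  set ρ := MvPowerSeries.constantCoeff.comp β with hρ
  have h1 : ∀ p, ρ (toInt _ Θ p) = algebraMap M M' (μ (line (RingHom.id k) a b p)) := fun p => by
    rw [hρ, RingHom.comp_apply, hβ, MvPowerSeries.constantCoeff_map, constantCoeff_pt, eval₂_lpt]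
  have h2 : ∀ p, ρ (toInt _ Θ p) = 0 ↔ line (RingHom.id k) a b p = 0 := fun p => by
    rw [h1, map_eq_zero, map_eq_zero_iff _ hμ.1]
  have h3 : ∀ p, gI α Θ g (toInt _ Θ p) = toInt _ Θ p := fun p => Subtype.ext (g.commutes _)
  obtain ⟨γ, hγ⟩ := exists_aut_of_ker (M := M) ρ (ρ.comp (gI α Θ g))
    (fun x => ⟨fun e => by
      have := z1_stable hα hG hu hg ρ h2 g⁻¹ e
      rwa [show gI α Θ g⁻¹ (gI α Θ g x) = x from Subtype.ext (g.symm_apply_apply _)] at this,
      z1_stable hα hG hu hg ρ h2 g⟩) fun c => by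
      obtain ⟨p, q, hq, e⟩ := hμ.2 c
      obtain ⟨p, rfl⟩ := vz1o_surj (a := a) h0 p
      obtain ⟨q, rfl⟩ := vz1o_surj (a := a) h0 q
      exact ⟨toInt _ Θ p, toInt _ Θ q, mt (h2 q).1 hq, congrArg ρ (h3 p), congrArg ρ (h3 q),
        by rw [h1, h1, ← map_mul, e]⟩
  refine ⟨γ, fun x => (flat_unique hα (fun e => hg.2.1.ne_zero (by rw [e, map_zero])) hu β
    ((MvPowerSeries.map (γ : M' →+* M')).comp β) (vz1o_pt hβ ▸ flat_pt (flat_field _))
    (vz1o_pt hβ ▸ pt_inj (RingHom.injective _)) (fun p => ?_) MvPowerSeries.constantCoeff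
    (fun x => ?_) x).symm⟩
  · rw [RingHom.comp_apply, hβ, ← RingHom.comp_apply (MvPowerSeries.map _),
      ← MvPowerSeries.map_comp, show (γ : M' →+* M').comp (algebraMap M M') = algebraMap M M' from
        RingHom.ext γ.commutes]
  · exact (hγ x).symm

/-- ZL -/
theorem zl (hα : IsFr α) (hG : (Nat.card (E ≃ₐ[K] E) : k) ≠ 0) (hu : UnrOff K (tE E α) Θ)
    (hg : GoodLine Θ a b) (h0 : b ≠ 0) (hμ : IsFr μ) : ∃ (M' : Type) (_ : Field M')
      (_ : Algebra M M') (_ : FiniteDimensional M M') (_ : IsGalois M M')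
      (j : E →+* Fr (MvPowerSeries σ M')), EmbT (tE E α) (IntOff (tE E α) Θ)
        ((MvPowerSeries.map (algebraMap M M')).comp (pt (μ.comp Polynomial.C) (lpt μ a b))) j ∧
      ∀ g : E ≃ₐ[K] E, ∃ γ : M' ≃ₐ[M] M', ∀ (x : E) (u u' : MvPowerSeries σ M'),
        j x * algebraMap _ _ u' = algebraMap _ _ u →
        j (g x) * algebraMap _ _ (MvPowerSeries.map (γ : M' →+* M') u') =
          algebraMap _ _ (MvPowerSeries.map (γ : M' →+* M') u) := by
  obtain ⟨M', _, _, _, _, β, hβ⟩ := znp_hom hα hu (μ.comp Polynomial.C) (lpt μ a b) (by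
    rw [eval₂_lpt, map_ne_zero_iff _ hμ.1]; exact hg.2.1.ne_zero)
  have : IsDomain (MvPowerSeries σ M') := NoZeroDivisors.to_isDomain _
  obtain ⟨j, hj⟩ := exists_embT hα β (vz1o_pt hβ ▸ pt_inj (RingHom.injective _))
  refine ⟨M', _, _, ‹_›, ‹_›, j, ⟨fun p => (hj (toInt _ Θ p)).trans (congrArg _ (hβ p)),
    fun x hx => ⟨_, hj ⟨x, hx⟩⟩⟩, fun g => ?_⟩
  obtain ⟨γ, hγ⟩ := z1_onto hα hG hu hg h0 hμ β hβ g
  refine ⟨γ, fun x u u' e => ?_⟩
  obtain ⟨p, hp, hx⟩ := exists_mul_mem_intOff hα x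
  let z : IntOff (tE E α) Θ := ⟨_, intOff_mono (n := 0) (one_dvd _) hx⟩
  have h1 : β z * u' = β (toInt _ Θ p) * u :=
    IsFractionRing.injective _ (Fr (MvPowerSeries σ M')) (by
      rw [map_mul, map_mul, ← hj, ← hj, ← e, ← mul_assoc, ← map_mul]; rfl)
  have h2 := congrArg (fun t => algebraMap _ (Fr (MvPowerSeries σ M'))
    (MvPowerSeries.map (γ : M' →+* M') t)) h1
  simp only [map_mul, ← hγ, ← hj, coe_gI, coe_toInt, z, mul_assoc] at h2
  exact mul_left_cancel₀ (by simpa [map_eq_zero_iff _ hα.1] using hp) h2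

/-- Z1H -/
theorem z1h (hα : IsFr α) (hG : (Nat.card (E ≃ₐ[K] E) : k) ≠ 0) (hu : UnrOff K (tE E α) Θ)
    (hg : GoodLine Θ a b) (h0 : b ≠ 0) {i : σ} (ha : a i = 0) (hb : b i = 0) :
    Inert K (tE E α) (MvPolynomial.X i) := by
  obtain ⟨M', _, _, _, _, j, ⟨hj, -⟩, h⟩ := zl hα hG hu hg h0 (isFr_alg k[X] (Fr k[X]))
  have : IsDomain (MvPowerSeries σ M') := NoZeroDivisors.to_isDomain _
  have := ufd_mv M' σ
  have hT := isFr_alg (MvPowerSeries σ M') (Fr (MvPowerSeries σ M'))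
  obtain ⟨v, hv, -⟩ := exists_vcen hT (prime_mvX i)
  have hc : Cen (tE E α) (v.comap j) (MvPolynomial.X i) := ⟨fun p => (congrArg v (hj p)).trans_le
    (hv.1 _), fun p => by
      rw [Valuation.comap_apply, hj, hv.2, RingHom.comp_apply, map_pt,
        X_dvd_pt (RingHom.injective _) (by simp [lpt, ha, hb])]⟩
  have h1 : ∀ (g : E ≃ₐ[K] E) x, v (j x) ≤ 1 → v (j (g x)) ≤ 1 := fun g x hx => by
    obtain ⟨γ, hγ⟩ := h g
    obtain ⟨u, u', hn, e⟩ := (hv.le_one_iff hT (prime_mvX i) _).1 hx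
    refine (hv.le_one_iff hT (prime_mvX i) _).2 ⟨_, _, fun d => hn ?_, hγ x u u' e⟩
    have := map_dvd (MvPowerSeries.map (γ.symm : M' →+* M')) d
    rwa [MvPowerSeries.map_X, ← RingHom.comp_apply, ← MvPowerSeries.map_comp,
      show (γ.symm : M' →+* M').comp (γ : M' →+* M') = RingHom.id _ from
        RingHom.ext γ.symm_apply_apply, MvPowerSeries.map_id] at this
  intro w hw
  obtain ⟨g, e⟩ := hc.conj hα MvPolynomial.X_prime hw
  exact dec_top_of_conj e (eq_top_iff.2 fun s _ => mem_dec.2 fun x =>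
    ⟨fun hx => by simpa using h1 s.symm _ hx, h1 s x⟩)

end Pool.Agent.ZCy
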