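import Pool.Agent.Lib.MP_751085_ag.ZC.V.AbE
import Pool.Agent.Lib.MP_751085_ag.ZC.V.Cf
import Pool.Agent.Lib.MP_751085_ag.ZC.V.Zor
import Pool.Agent.Lib.MP_751085_ag.ZC.V.Hen
import Pool.Agent.Lib.MP_751085_ag.ZC.V.Ufd
import Pool.Agent.Lib.MP_751085_ag.ZC.Iface

/-! Block V in the form used by block T. -/

namespace Pool.Agent.ZCy

open scoped Classical WithZero
open Polynomial

variable {K E Ω : Type} [Field K] [Field E] [Field Ω] [Algebra K E]

theorem nv_exists [FiniteDimensional K E] (v : Vl K) : ∃ w : Vl E, Over (algebraMap K E) v w :=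
  exists_over v

theorem nv_conj [FiniteDimensional K E] [IsGalois K E] {v : Vl K} {w w' : Vl E}
    (h : Over (algebraMap K E) v w) (h' : Over (algebraMap K E) v w') :
    ∃ g : E ≃ₐ[K] E, ∀ x, w' x ≤ 1 ↔ w (g x) ≤ 1 := conj h h'

theorem nv_onto [FiniteDimensional K E] [IsGalois K E] {w : Vl E} {ρ : w.integer →+* Ω}
    (hρ : IsRed w ρ) (γ : Ω ≃+* Ω) (hγ : ∀ (a : K) h, γ (ρ ⟨algebraMap K E a, h⟩) = ρ ⟨_, h⟩) :
    ∃ g ∈ Dec K w, ∀ x h h', ρ ⟨g x, h⟩ = γ (ρ ⟨x, h'⟩) :=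
  (red_onto hρ (γ : Ω →+* Ω) hγ).imp fun _ H => ⟨H.1, fun x h h' => H.2 x h' h⟩

theorem nv_unr [FiniteDimensional K E] [IsGalois K E] {w : Vl E}
    (ht : w (Nat.card (E ≃ₐ[K] E) : E) = 1) (he : ∀ x, ∃ a : K, w x = w (algebraMap K E a)) :
    Ine K w = ⊥ := ine_bot_of_e1 (tame_of_card ht) he

theorem nv_prime {A : Type} [CommRing A] [IsDomain A] [UniqueFactorizationMonoid A] {P : A}
    (hP : Prime P) : ∃ v : Vl (Fr A), Cen (algebraMap A (Fr A)) v P ∧
      v (algebraMap A (Fr A) P) = WithZero.exp (-1) := exists_vcen (isFr_alg A _) hP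

theorem nv_hensel {A σ : Type} [CommRing A] [Finite σ] (h : (MvPowerSeries σ A)[X]) (hm : h.Monic)
    (z₀ : A) (h0 : h.eval₂ MvPowerSeries.constantCoeff z₀ = 0)
    (hu : IsUnit (h.derivative.eval₂ MvPowerSeries.constantCoeff z₀)) :
    ∃! z, h.eval z = 0 ∧ MvPowerSeries.constantCoeff z = z₀ := mv_hensel h hm z₀ h0 hu

theorem nv_cdvr (R : Type) [CommRing R] [IsDomain R] [CDVR R] [Algebra R K] [IsFractionRing R K]
    [Algebra R E] [IsScalarTower R K E] [FiniteDimensional K E] [Algebra.IsSeparable K E] :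
    CDVR (integralClosure R E) ∧ Module.Finite R (integralClosure R E) ∧
      IsLocalHom (algebraMap R (integralClosure R E)) := cdvr_integralClosure (K := K) R

theorem nv_zorn (O : Type) [CommRing O] [IsDomain O] [IsDiscreteValuationRing O] :
    ∃ (R : Type) (_ : CommRing R) (_ : IsDomain R) (_ : CDVR R) (φ : O →+* R),
      Function.Injective φ ∧ IsAlgClosed (IsLocalRing.ResidueField R) ∧
      (IsLocalRing.maximalIdeal O).map φ = IsLocalRing.maximalIdeal R := zorn_ring O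

theorem nv_onto2 [FiniteDimensional K E] [IsGalois K E] {w : Vl E} {ρ₁ ρ₂ : w.integer →+* Ω}
    (h₁ : IsRed w ρ₁) (h₂ : IsRed w ρ₂)
    (h : ∀ (a : K) (y : w.integer), (y : E) = algebraMap K E a → ρ₁ y = ρ₂ y) :
    ∃ d ∈ Dec K w, Cmp d ρ₂ ρ₁ id :=
  let ⟨g, hg, H⟩ := red_conj (K := K) h₁ h₂ fun a _ => (h a _ rfl).symm
  ⟨g, hg, fun y ⟨_, hy⟩ e => by obtain rfl : _ = g y := e; exact (H _ y.2 hy).symm⟩

theorem nv_redext [FiniteDimensional K E] [IsAlgClosed Ω] {v : Vl K} {w : Vl E}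
    (h : Over (algebraMap K E) v w) {ρ : v.integer →+* Ω} (hρ : IsRed v ρ) :
    ∃ ρ' : w.integer →+* Ω, IsRed w ρ' ∧ Cmp (algebraMap K E) ρ ρ' id :=
  (exists_red_over h hρ).imp fun _ H => ⟨H.1, fun x y e =>
    (congrArg _ (Subtype.ext e : y = h.int x)).trans (H.2 x)⟩

theorem nv_redprime {A : Type} [CommRing A] [IsDomain A] [UniqueFactorizationMonoid A] [Algebra A K]
    [IsFractionRing A K] {P : A} (hP : Prime P) {v : Vl K} (h : Cen (algebraMap A K) v P) :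
    (∀ x, v x ≤ 1 → ∃ a b : A, ¬P ∣ b ∧ x * algebraMap A K b = algebraMap A K a) ∧
    ∀ ψ : A →+* Ω, (∀ a, ψ a = 0 ↔ P ∣ a) → ∃ ρ : v.integer →+* Ω, IsRed v ρ ∧
      ∀ (a : A) (y : v.integer), (y : K) = algebraMap A K a → ρ y = ψ a :=
  ⟨fun x => (h.le_one_iff (isFr_alg A K) hP x).1, fun _ hψ =>
    (h.exists_red (isFr_alg A K) hP hψ).imp fun _ H => ⟨H.1, fun a _ e =>
      (congrArg _ (Subtype.ext e)).trans (H.2.1 a)⟩⟩

theorem nv_isVR (O : Type) [CommRing O] [IsDomain O] [IsDiscreteValuationRing O] [Algebra O K]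
    [IsFractionRing O K] : ∃ v : Vl K, IsVR (algebraMap O K) v := exists_isVR (isFr_alg O K)

theorem nv_hens (O : Type) [CommRing O] [IsDomain O] [CDVR O] [Algebra O K] [IsFractionRing O K]
    {v : Vl K} (h : IsVR (algebraMap O K) v) : Hens v := fun _ _ _ _ _ _ ho =>
  h.cpl.dec_top h.1 ho

theorem nv_ufd' (R ι : Type) [CommRing R] [IsDomain R] [CDVR R] [Fintype ι] :
    UniqueFactorizationMonoid (MvPowerSeries ι R) := ufd_mv_cdvr R ι

theorem nv_ufd (κ : Type) [Field κ] (n : ℕ) : UniqueFactorizationMonoid (MvPowerSeries (Fin n) κ) :=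
  ufd_mv κ _

theorem nv_abh [CharZero K] [FiniteDimensional K E] [IsGalois K E] {v : Vl K} {π : K}
    (hπ : v π = WithZero.exp (-1)) (ht : ∀ w : Vl E, Over (algebraMap K E) v w → Tame K w) {n : ℕ}
    (hn : v (n : K) = 1) :
    ∃ (e : ℕ) (E' : Type) (_ : Field E') (_ : Algebra K E') (_ : Algebra E E')
      (_ : IsScalarTower K E E') (_ : FiniteDimensional K E') (_ : IsGalois K E') (ϖ ζ : E'),
      v (e : K) = 1 ∧ ϖ ^ e = algebraMap K E' π ∧ IsPrimitiveRoot ζ (n * e) ∧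
      (∀ w : Vl E', Over (algebraMap K E') v w → ∀ g ∈ Ine K w, g ϖ = ϖ → g = 1) ∧
      ∀ w : Vl E', w (algebraMap K E' π) = 1 → w ((n * e : ℕ) : E') = 1 → ∀ g ∈ Ine K w,
        (∀ x : E, g (algebraMap E E' x) = algebraMap E E' x) → g = 1 := abh_enl hπ ht hn

end Pool.Agent.ZCy
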