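import Pool.Agent.Lib.MP_751085_ag.ZC.V.Tam
import Pool.Agent.Lib.MP_751085_ag.ZC.V.Ext

/-! Block V: Abhyankar lemma as an enlargement. -/

namespace Pool.Agent.ZCy

open scoped Classical WithZero Polynomial PowerSeries LaurentSeries
open WithZero (exp)
open IsLocalRing Polynomial

variable {K E : Type} [Field K] [Field E] [Algebra K E]

/-- adjoin a root of `X ^ e - π` and a primitive root of unity of order `m` -/
theorem exists_root_field [CharZero K] [FiniteDimensional K E] [IsGalois K E] (π : K) {e m : ℕ}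
    (he : e ≠ 0) (hm : m ≠ 0) (hd : e ∣ m) :
    ∃ (E' : Type) (_ : Field E') (_ : Algebra K E') (_ : Algebra E E')
      (_ : IsScalarTower K E E') (_ : FiniteDimensional K E') (_ : IsGalois K E') (ϖ ζ : E'),
      ϖ ^ e = algebraMap K E' π ∧ IsPrimitiveRoot ζ m ∧ ∀ g : E' ≃ₐ[K] E',
        (∀ x : E, g (algebraMap E E' x) = algebraMap E E' x) → g ϖ = ϖ → g ζ = ζ → g = 1 := by
  obtain ⟨p, hp, _⟩ := IsGalois.is_separable_splitting_field K E
  have h1 := monic_X_pow_sub_C π he
  have h2 := monic_X_pow_sub_C (1 : K) hm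
  set q := (X ^ e - C π) * (X ^ m - C 1) with hq
  let E' := (q.map (algebraMap K E)).SplittingField
  have := IsSplittingField.mul E' p q hp.ne_zero (h1.mul h2).ne_zero (K := E)
  have := IsSplittingField.finiteDimensional E' (p * q)
  have := Normal.of_isSplittingField (E := E') (p * q)
  have : CharZero E' := charZero_of_injective_algebraMap (algebraMap K E').injective
  have : NeZero m := ⟨hm⟩
  have e1 : (q.map (algebraMap K E)).map (algebraMap E E') =
      (X ^ e - C (algebraMap K E' π)) * (X ^ m - 1) := by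
    simp [hq, ← IsScalarTower.algebraMap_apply]
  have h3 := SplittingField.splits (q.map (algebraMap K E))
  have h4 := e1 ▸ (((h1.mul h2).map (algebraMap K E)).map (algebraMap E E')).ne_zero
  rw [e1] at h3
  obtain ⟨ϖ, hϖ⟩ := (h3.of_dvd h4 (dvd_mul_right _ _)).exists_eval_eq_zero
    (by rw [degree_X_pow_sub_C (Nat.pos_of_ne_zero he)]; exact_mod_cast he)
  obtain ⟨ζ, hζ⟩ := (h3.of_dvd h4 ((cyclotomic.dvd_X_pow_sub_one m E').mul_left _)).exists_eval_eq_zero
    (degree_cyclotomic_pos m E' (Nat.pos_of_ne_zero hm)).ne'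
  have hζ' : IsPrimitiveRoot ζ m := isRoot_cyclotomic_iff.1 hζ
  have hϖ' : ϖ ^ e = algebraMap K E' π := by simpa [sub_eq_zero] using hϖ
  refine ⟨E', inferInstance, inferInstance, inferInstance, inferInstance, inferInstance, {}, ϖ, ζ,
    hϖ', hζ', fun g g1 g2 g3 => ?_⟩
  have h5 : ∀ y : E', y ^ m = 1 → g y = y := fun y hy => by
    obtain ⟨i, -, rfl⟩ := hζ'.eq_pow_of_pow_eq_one hy
    rw [map_pow, g3]
  have h6 : ({ (g : E' →+* E') with commutes' := g1 } : E' →ₐ[E] E') = AlgHom.id E E' := by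
    refine AlgHom.ext_of_adjoin_eq_top (SplittingField.adjoin_rootSet _) fun y hy => ?_
    have h7 := aeval_eq_zero_of_mem_rootSet hy
    rw [← eval_map_algebraMap, e1] at h7
    simp only [eval_mul, eval_sub, eval_pow, eval_X, eval_C, eval_one, mul_eq_zero, sub_eq_zero,
      ← hϖ'] at h7
    refine h7.elim (fun h7 => ?_) (h5 y)
    by_cases h0 : ϖ = 0
    · rw [h0, zero_pow he, pow_eq_zero_iff he] at h7
      rw [h7, map_zero, map_zero]
    · obtain ⟨c, rfl⟩ := hd
      have h8 := h5 (y / ϖ) (by rw [pow_mul, div_pow, h7, div_self (pow_ne_zero _ h0), one_pow])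
      rw [map_div₀, g2] at h8
      exact (div_left_inj' h0).1 h8
  exact AlgEquiv.ext fun x => DFunLike.congr_fun h6 x

theorem vabe_kum {w : Vl E} {g : E ≃ₐ[K] E} (hg : g ∈ Ine K w) {M : ℕ} (hM : w (M : E) = 1) {r : E}
    {a : K} (hr : r ^ M = algebraMap K E a) (ha : w (algebraMap K E a) = 1) : g r = r := by
  have h0 : M ≠ 0 := by
    rintro rfl
    simp at hM
  refine kum hg hM (by rw [hr, g.commutes]) (map_one g) ?_
  rwa [← hr, map_pow, pow_eq_one_iff_left h0, ← w.map_one] at ha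

/-- `e` is the order of the inertia groups -/
theorem abh_enl [CharZero K] [FiniteDimensional K E] [IsGalois K E] {v : Vl K} {π : K}
    (hπ : v π = WithZero.exp (-1)) (ht : ∀ w : Vl E, Over (algebraMap K E) v w → Tame K w) {n : ℕ}
    (hn : v (n : K) = 1) :
    ∃ (e : ℕ) (E' : Type) (_ : Field E') (_ : Algebra K E') (_ : Algebra E E')
      (_ : IsScalarTower K E E') (_ : FiniteDimensional K E') (_ : IsGalois K E') (ϖ ζ : E'),
      v (e : K) = 1 ∧ ϖ ^ e = algebraMap K E' π ∧ IsPrimitiveRoot ζ (n * e) ∧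
      (∀ w : Vl E', Over (algebraMap K E') v w → ∀ g ∈ Ine K w, g ϖ = ϖ → g = 1) ∧
      ∀ w : Vl E', w (algebraMap K E' π) = 1 → w ((n * e : ℕ) : E') = 1 → ∀ g ∈ Ine K w,
        (∀ x : E, g (algebraMap E E' x) = algebraMap E E' x) → g = 1 := by
  obtain ⟨w₀, h0⟩ := exists_over (E := E) v
  have he : Nat.card (Ine K w₀) ≠ 0 := Nat.card_pos.ne'
  have h1 : v (Nat.card (Ine K w₀) : K) = 1 := (h0.eq_one _).1 (by rw [map_natCast]; exact ht _ h0)
  have h2 : ∀ u : Vl E, Over (algebraMap K E) v u → Nat.card (Ine K u) = Nat.card (Ine K w₀) :=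
    fun u hu => by
      obtain ⟨g, hg⟩ := conj h0 hu
      rw [ine_congr (w := w₀.comap (g : E →+* E)) hg, card_ine_comap]
  generalize Nat.card (Ine K w₀) = e at he h1 h2
  have hn0 : n ≠ 0 := by
    rintro rfl
    simp at hn
  have hπ0 : π ≠ 0 := by
    rintro rfl
    exact WithZero.exp_ne_zero (hπ.symm.trans (map_zero v))
  obtain ⟨E', _, _, _, _, _, _, ϖ, ζ, hϖ, hζ, H⟩ :=
    exists_root_field (E := E) π he (mul_ne_zero hn0 he) (dvd_mul_left e n)
  have h3 : ∀ w : Vl E', w ((n * e : ℕ) : E') = 1 → ∀ g ∈ Ine K w, g ζ = ζ := fun w hw g hg =>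
    vabe_kum hg hw (hζ.pow_eq_one.trans (map_one _).symm) (by simp)
  refine ⟨e, E', _, _, _, ‹_›, ‹_›, ‹_›, ϖ, ζ, h1, hϖ, hζ, fun w hw g hg g2 => ?_,
    fun w hw hM g hg g1 => H g g1 (vabe_kum hg hM (a := π ^ n) ?_ ?_) (h3 w hM g hg)⟩
  · obtain ⟨r, hr⟩ := exists_rs (φ := RingHom.id K) (j := algebraMap E E')
      fun a => (IsScalarTower.algebraMap_apply K E E' a).symm
    have hu : Over (algebraMap K E) v (w.comap (algebraMap E E')) := fun a => by
      rw [Valuation.comap_apply, ← IsScalarTower.algebraMap_apply]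
      exact hw a
    have h4 : ϖ ≠ 0 := by
      rintro rfl
      exact (_root_.map_ne_zero _).2 hπ0 (hϖ.symm.trans (zero_pow he))
    have h5 : r g = 1 := eq_one_of_graded (tame_iff.1 (ht _ hu) _ (hr.ine (Over.comap _ w) hg))
      fun x hx => by
        obtain ⟨a, ha⟩ := pow_card_ine (K := K) (w.comap (algebraMap E E')) x
        rw [h2 _ hu, Valuation.comap_apply, Valuation.comap_apply,
          ← IsScalarTower.algebraMap_apply] at ha
        have h6 : a ≠ 0 := by
          rintro rfl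
          simp [he, hx] at ha
        have h7 : v a = v (π ^ ord v a) := by
          rw [map_zpow₀, hπ, exp_neg_ord v h6, ← WithZero.exp_zsmul]
          simp
        rw [(hw.eq_iff _ _).2 h7, map_zpow₀, ← hϖ, ← zpow_natCast ϖ, ← zpow_mul, mul_comm, zpow_mul,
          zpow_natCast, map_pow, pow_left_inj₀ zero_le zero_le he] at ha
        have h8 := (w.ne_zero_iff).2 (zpow_ne_zero (ord v a) h4)
        have h9 := hg.2 (algebraMap E E' x / ϖ ^ ord v a) (by rw [map_div₀, ha, div_self h8])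
        rw [map_div₀, map_zpow₀, g2, ← sub_div, map_div₀, div_lt_one₀ (zero_lt_iff.2 h8)] at h9
        rwa [Valuation.comap_apply, Valuation.comap_apply, map_sub, hr, ha]
    refine H g (fun x => ?_) g2 (h3 w ?_ g hg)
    · rw [← hr, h5, AlgEquiv.one_apply]
    · rw [← map_natCast (algebraMap K E'), hw.eq_one, Nat.cast_mul, map_mul, hn, h1, mul_one]
  · rw [mul_comm, pow_mul, hϖ, map_pow]
  · rw [map_pow, map_pow, hw, one_pow]

end Pool.Agent.ZCy
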