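import Pool.Agent.Lib.MP_751085_ag.ZC.V.Cv
import Pool.Agent.Lib.MP_751085_ag.ZC.CDefs

/-! Block V: no subextension splits along an inert hyperplane. -/

namespace Pool.Agent.ZCy

open scoped Classical WithZero Polynomial PowerSeries LaurentSeries
open WithZero (exp)
open IsLocalRing

variable {k σ K N F : Type} [Field k] [Field K] [Field N] [Field F] [Algebra K N] [Algebra K F]

/-- the expansion along the hyperplane where the variable `none` vanishes -/
noncomputable def yxv (k σ : Type) [Field k] : MP (Option σ) k →+* PowerSeries (RF σ k) :=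
  MvPolynomial.eval₂Hom (PowerSeries.C.comp ((algebraMap (MP σ k) _).comp MvPolynomial.C))
    fun i => i.elim PowerSeries.X fun j => PowerSeries.C (algebraMap (MP σ k) _ (MvPolynomial.X j))

/-- `yxv` is `optionEquivLeft` followed by the inclusion of `(MP σ k)[X]` -/
theorem yxv_eq (p : MP (Option σ) k) :
    yxv k σ p = ((tp p).map (algebraMap (MP σ k) (RF σ k)) : (RF σ k)[X]) := by
  have : yxv k σ = Polynomial.coeToPowerSeries.ringHom.comp
      ((Polynomial.mapRingHom (algebraMap (MP σ k) (RF σ k))).comp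
        (MvPolynomial.optionEquivLeft k σ : MP (Option σ) k →+* (MP σ k)[X])) := by
    refine MvPolynomial.ringHom_ext (fun a => by simp [yxv]) fun i => ?_
    cases i <;> simp [yxv]
  exact DFunLike.congr_fun this p

theorem X_dvd_yxv (p : MP (Option σ) k) :
    PowerSeries.X ∣ yxv k σ p ↔ MvPolynomial.X none ∣ p := by
  rw [PowerSeries.X_dvd_iff, yxv_eq, Polynomial.constantCoeff_coe, Polynomial.coeff_map,
    map_eq_zero_iff _ (IsFractionRing.injective (MP σ k) (RF σ k)), ← Polynomial.X_dvd_iff,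
    ← MvPolynomial.optionEquivLeft_X_none k σ, map_dvd_iff]

theorem vscp_up (a : MP σ k) : yxv k σ (up a) = PowerSeries.C (algebraMap _ (RF σ k) a) := by
  have : (yxv k σ).comp (MvPolynomial.rename some : MP σ k →ₐ[k] _).toRingHom =
      PowerSeries.C.comp (algebraMap _ (RF σ k)) :=
    MvPolynomial.ringHom_ext (fun a => by simp [yxv]) fun i => by simp [yxv]
  exact DFunLike.congr_fun this a

theorem vscp_nrm {α : MP (Option σ) k →+* K} {φ : K →+* Fr (RF σ k)⟦X⟧}
    (hφ : ∀ p, φ (α p) = algebraMap (RF σ k)⟦X⟧ _ (yxv k σ p)) {u : Vl (Fr (RF σ k)⟦X⟧)}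
    (hu : IsVR (algebraMap (RF σ k)⟦X⟧ _) u) : Nrm (u.comap φ) := ⟨α (MvPolynomial.X none), by
  rw [Valuation.comap_apply, hφ, ← hu.irreducible_iff]
  simpa [yxv] using PowerSeries.X_prime.irreducible⟩

/-- the image of `K` contains `X` and the constants -/
theorem dns_yxv {α : MP (Option σ) k →+* K} (hα : IsFr α) {φ : K →+* Fr (RF σ k)⟦X⟧}
    (hφ : ∀ p, φ (α p) = algebraMap (RF σ k)⟦X⟧ _ (yxv k σ p)) {u : Vl (Fr (RF σ k)⟦X⟧)}
    (hu : IsVR (algebraMap (RF σ k)⟦X⟧ _) u) (x : Fr (RF σ k)⟦X⟧) : Dns φ u x := by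
  refine dns_of_red (v := u.comap φ) (vscp_nrm hφ hu) (idx_one_iff.2 fun _ => rfl)
    (fun y hy => ?_) x
  obtain ⟨f, rfl⟩ := (hu.2.2 y).1 hy
  obtain ⟨a, b, -, e⟩ := IsFractionRing.div_surjective (A := MP σ k) (PowerSeries.constantCoeff f)
  have h := map_div₀ ((algebraMap (RF σ k)⟦X⟧ (Fr (RF σ k)⟦X⟧)).comp PowerSeries.C)
    (algebraMap (MP σ k) _ a) (algebraMap (MP σ k) _ b)
  simp only [RingHom.comp_apply] at h
  refine ⟨α (up a) / α (up b), ?_⟩
  rw [map_div₀, hφ, hφ, vscp_up, vscp_up, ← h, e, ← map_sub,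
    (hu.cen PowerSeries.X_prime.irreducible).2, PowerSeries.X_dvd_iff]
  simp

/-- `i x` is a limit of elements of `K`, so it is fixed by the decomposition group -/
theorem scp [FiniteDimensional K N] [IsGalois K N] {α : MP (Option σ) k →+* K} (hα : IsFr α)
    (hI : Inert K (tE N α) (MvPolynomial.X none)) (i : F →ₐ[K] N) (j : F →+* Fr (RF σ k)⟦X⟧)
    (hj : ∀ p, j (tE F α p) = algebraMap (RF σ k)⟦X⟧ _ (yxv k σ p)) (x : F) :
    ∃ a, algebraMap K F a = x := by
  obtain ⟨u, hu⟩ := exists_isVR (isFr_alg (RF σ k)⟦X⟧ (Fr (RF σ k)⟦X⟧))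
  let : Algebra F N := (i : F →+* N).toAlgebra
  have : IsScalarTower K F N := IsScalarTower.of_algebraMap_eq fun a => (i.commutes a).symm
  have : FiniteDimensional F N := FiniteDimensional.right K F N
  obtain ⟨w, ho⟩ := exists_over (E := N) (u.comap j)
  have hc : Cen (tE F α) (u.comap j) (MvPolynomial.X none) := by
    refine ⟨fun p => ?_, fun p => ?_⟩ <;> rw [Valuation.comap_apply, hj]
    exacts [hu.le_one _, ((hu.cen PowerSeries.X_prime.irreducible).2 _).trans (X_dvd_yxv p)]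
  have hd := hI w (by
    rw [tE, IsScalarTower.algebraMap_eq K F N]
    exact (cen_of_over ho).2 hc)
  obtain ⟨e, he, hi⟩ := ho.idx (vscp_nrm (α := tE F α) hj hu)
  have hx : Dns (algebraMap K N) w (i x) := fun n => by
    obtain ⟨a, ha⟩ := dns_yxv hα (φ := j.comp (algebraMap K F)) hj hu (j x) n
    refine ⟨a, ?_⟩
    rw [← i.commutes, ← map_sub]
    by_cases h0 : x - algebraMap K F a = 0
    · simp [h0]
    · rw [RingHom.comp_apply, ← map_sub] at ha
      refine (hi _ h0).trans_le ((pow_le_of_le_one zero_le (ha.trans ?_) he).trans ha)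
      rw [← WithZero.exp_zero, WithZero.exp_le_exp]
      omega
  obtain ⟨a, ha⟩ := mem_range_of_fix fun g => hx.fix (hd ▸ Subgroup.mem_top g)
  exact ⟨a, i.injective ((i.commutes a).trans ha)⟩

end Pool.Agent.ZCy
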