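import Pool.Agent.Lib.MP_751085_ag.ZC.V.Tam
import Pool.Agent.Lib.MP_751085_ag.ZC.V.Enl
import Pool.Agent.Lib.MP_751085_ag.ZC.V.Hen
import Pool.Agent.Lib.MP_751085_ag.ZC.V.Ufd
import Pool.Agent.Lib.MP_751085_ag.ZC.V.Scp
import Pool.Agent.Lib.MP_751085_ag.ZC.Iface

/-! Block V in the form used by block L. -/

namespace Pool.Agent.ZCy

open scoped Classical WithZero Polynomial

variable {K E : Type} [Field K] [Field E] [Algebra K E]

theorem lv_exists [FiniteDimensional K E] (v : Vl K) : ∃ w : Vl E, Over (algebraMap K E) v w :=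
  exists_over v

theorem lv_conj [FiniteDimensional K E] [IsGalois K E] {w w' : Vl E}
    (h : ∀ a : K, w' (algebraMap K E a) ≤ 1 ↔ w (algebraMap K E a) ≤ 1) :
    ∃ g : E ≃ₐ[K] E, ∀ x, w' x ≤ 1 ↔ w (g x) ≤ 1 := conj (Over.comap _ w) h

theorem lv_nrm {w : Vl E} {x : E} (h0 : x ≠ 0) (h : w x < 1) :
    ∃ w' : Vl E, Nrm w' ∧ ∀ x, w' x ≤ 1 ↔ w x ≤ 1 :=
  let ⟨u, _, h1, h2, h3⟩ := exists_nrm h0 h.ne
  ⟨u, h1, fun x => (h3.over h2 x).symm⟩

theorem lv_congr [FiniteDimensional K E] {w w' : Vl E} (e : ∀ x, w' x ≤ 1 ↔ w x ≤ 1) :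
    Dec K w' = Dec K w ∧ Ine K w' = Ine K w := ⟨dec_congr e, ine_congr e⟩

theorem lv_dec [FiniteDimensional K E] {w : Vl E} {g : E ≃ₐ[K] E}
    (h : ∀ x, w (g x) ≤ 1 ↔ w x ≤ 1) : g ∈ Dec K w := mem_dec.2 h

theorem lv_theta [FiniteDimensional K E] {w : Vl E} {π : E} (hπ : w π = WithZero.exp (-1))
    {g : E ≃ₐ[K] E} (hg : g ∈ Ine K w) (ho : w (orderOf g : E) = 1) (h : w (g π / π - 1) < 1) :
    g = 1 := eq_one_of_theta hπ hg ho h

theorem lv_cyclic [FiniteDimensional K E] {w : Vl E} (h : Tame K w) : IsCyclic (Ine K w) :=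
  ine_cyclic h

theorem lv_unr [FiniteDimensional K E] [IsGalois K E] {w : Vl E}
    (ht : w (Nat.card (E ≃ₐ[K] E) : E) = 1) (he : ∀ x, ∃ a : K, w x = w (algebraMap K E a)) :
    Ine K w = ⊥ := ine_bot_of_e1 (tame_of_card ht) he

theorem lv_prime {A : Type} [CommRing A] [IsDomain A] [UniqueFactorizationMonoid A] [Algebra A K]
    [IsFractionRing A K] {P : A} (hP : Prime P) :
    ∃ v : Vl K, Cen (algebraMap A K) v P ∧ v (algebraMap A K P) = WithZero.exp (-1) :=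
  exists_vcen (isFr_alg A K) hP

theorem isFr_of_div {A : Type} [CommRing A] [Nontrivial A] {φ : A →+* K} (hi : Function.Injective φ)
    (hs : ∀ z, ∃ a b, z = φ a / φ b) : IsFr φ := ⟨hi, fun z => by
  obtain ⟨a, b, rfl⟩ := hs z
  rcases eq_or_ne b 0 with rfl | h
  · exact ⟨0, 1, one_ne_zero, by simp⟩
  · exact ⟨a, b, h, div_mul_cancel₀ _ ((map_ne_zero_iff φ hi).2 h)⟩⟩

theorem lv_cen {A : Type} [CommRing A] [IsDomain A] [UniqueFactorizationMonoid A] {φ : A →+* K}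
    (hi : Function.Injective φ) (hs : ∀ z, ∃ a b, z = φ a / φ b) {P : A} (hP : Prime P)
    {v v' : Vl K} (h : Cen φ v P) (h' : Cen φ v' P) : ∀ x, v' x ≤ 1 ↔ v x ≤ 1 :=
  h.iff (isFr_of_div hi hs) hP h'

theorem lv_red [FiniteDimensional K E] [IsGalois K E] {Ω : Type} [Field Ω] {w : Vl E}
    {ρ ρ' : w.integer →+* Ω} (h : IsRed w ρ) (h' : IsRed w ρ')
    (e : ∀ (a : K) (y : w.integer), (y : E) = algebraMap K E a → ρ' y = ρ y) :
    ∃ g ∈ Dec K w, ∀ y y' : w.integer, (y' : E) = g y → ρ' y = ρ y' :=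
  let ⟨g, hg, H⟩ := red_conj (K := K) h h' fun a _ => e a _ rfl
  ⟨g, hg, fun y ⟨_, hy⟩ e => by obtain rfl : _ = g y := e; exact H _ y.2 hy⟩

theorem lv_hensel {A τ : Type} [CommRing A] [Finite τ] (h : (MvPowerSeries τ A)[X]) (hm : h.Monic)
    (z₀ : A) (h0 : h.eval₂ MvPowerSeries.constantCoeff z₀ = 0)
    (hu : IsUnit (h.derivative.eval₂ MvPowerSeries.constantCoeff z₀)) :
    ∃! z, h.eval z = 0 ∧ MvPowerSeries.constantCoeff z = z₀ := mv_hensel h hm z₀ h0 hu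

theorem lv_normal (M τ : Type) [Field M] [Finite τ] : IsIntegrallyClosed (MvPowerSeries τ M) :=
  isIntegrallyClosed_mv M τ

theorem lv_enl {A : Type} [CommRing A] (φ : A →+* K) [FiniteDimensional K E] [IsGalois K E] {Θ : A}
    (hU : UnrOff K ((algebraMap K E).comp φ) Θ) {h α β : A[X]} (hm : h.Monic) {D : A} (hD0 : φ D ≠ 0)
    (hb : Polynomial.C D = α * h + β * h.derivative) {r : ℕ} (hD : D ∣ Θ ^ r) :
    ∃ (E' : Type) (_ : Field E') (_ : Algebra K E') (_ : FiniteDimensional K E') (_ : IsGalois K E')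
      (_ : E →ₐ[K] E'), UnrOff K ((algebraMap K E').comp φ) Θ ∧
      (h.map ((algebraMap K E').comp φ)).Splits :=
  let ⟨N, i1, i2, _, _, i5, i6, H⟩ := enl_gen hU hm hD0 hb hD
  ⟨N, i1, i2, i5, i6, IsScalarTower.toAlgHom K E N, H⟩

/-- the expansion along the hyperplane where the variable `none` vanishes -/
noncomputable def yx (k σ : Type) [Field k] : MP (Option σ) k →+* PowerSeries (RF σ k) :=
  MvPolynomial.eval₂Hom (PowerSeries.C.comp ((algebraMap (MP σ k) _).comp MvPolynomial.C))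
    fun i => i.elim PowerSeries.X fun j => PowerSeries.C (algebraMap (MP σ k) _ (MvPolynomial.X j))

theorem lv_scp (hZ : Z1H) {k σ : Type} [Field k] [CharZero k] [Fintype σ] {Θ : MP (Option σ) k}
    {a b : Option σ → k} (ha : a none = 0) (hb : b none = 0) (hb0 : b ≠ 0) (hg : GoodLine Θ a b)
    {N : Type} [Field N] [Algebra (RF (Option σ) k) N] [FiniteDimensional (RF (Option σ) k) N]
    [IsGalois (RF (Option σ) k) N] (hU : UnrOff (RF (Option σ) k) (toE (MP (Option σ) k) N) Θ)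
    (M : IntermediateField (RF (Option σ) k) N) (j : M →+* Fr (PowerSeries (RF σ k)))
    (hj : ∀ p, j (toE (MP (Option σ) k) M p) = algebraMap (PowerSeries (RF σ k)) _ (yx k σ p)) :
    M = ⊥ := eq_bot_iff.2 fun x hx =>
  let ⟨c, hc⟩ := scp (isFr_alg _ _) (hZ k _ none Θ a b ha hb hb0 hg N hU) M.val j hj ⟨x, hx⟩
  IntermediateField.mem_bot.2 ⟨c, congrArg Subtype.val hc⟩

end Pool.Agent.ZCy
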