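import Pool.Agent.Lib.MP_751085_ag.ZC.V.Cv

/-! Block V: completion, maximal extensions of index one, coefficient fields. -/

namespace Pool.Agent.ZCy

open scoped Classical WithZero Polynomial PowerSeries LaurentSeries
open WithZero (exp)
open IsLocalRing

variable {K κ k : Type} [Field K] [Field κ] [Field k] {v : Vl K}

theorem vcmp_dvr {R : Type} [CommRing R] [IsLocalRing R] [IsHausdorff (maximalIdeal R) R] {p : R}
    (hp : maximalIdeal R = Ideal.span {p}) (hr : ∀ x, p * x = 0 → x = 0) :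
    ∃ _ : IsDomain R, IsDiscreteValuationRing R := by
  have h1 : ∀ y : R, y ≠ 0 → ∃ n, Associated (p ^ n) y := fun y hy => by
    have h2 : ∃ n, ¬p ^ (n + 1) ∣ y := by
      by_contra h
      refine hy (IsHausdorff.haus ‹_› y fun n => ?_)
      rw [SModEq.zero, smul_eq_mul, Ideal.mul_top, hp, Ideal.span_singleton_pow,
        Ideal.mem_span_singleton]
      exact (pow_dvd_pow p n.le_succ).trans (not_not.1 (not_exists.1 h n))
    have h3 : p ^ Nat.find h2 ∣ y := by
      rcases h : Nat.find h2 with _ | m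
      · simp
      · exact not_not.1 (Nat.find_min h2 (h ▸ m.lt_succ_self))
    obtain ⟨u, hu⟩ := h3
    have h4 : IsUnit u := by
      by_contra h
      have h5 : u ∈ Ideal.span {p} := hp ▸ h
      exact Nat.find_spec h2 (by
        rw [pow_succ]
        exact (mul_dvd_mul_left _ (Ideal.mem_span_singleton.1 h5)).trans hu.symm.dvd)
    exact ⟨_, h4.unit, hu.symm⟩
  have h2 : ∀ n, p ^ n ≠ 0 := fun n => by
    induction n with
    | zero => simp
    | succ n ih => exact fun e => ih (hr _ (by rw [← pow_succ', e]))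
  have : NoZeroDivisors R := ⟨fun {a b} e => by
    by_contra h
    obtain ⟨m, hm⟩ := h1 a (not_or.1 h).1
    obtain ⟨n, hn⟩ := h1 b (not_or.1 h).2
    have h3 := hm.mul_mul hn
    rw [e, ← pow_add, associated_zero_iff_eq_zero] at h3
    exact h2 _ h3⟩
  have : IsDomain R := NoZeroDivisors.to_isDomain R
  exact ⟨‹_›, IsDiscreteValuationRing.ofHasUnitMulPowIrreducibleFactorization
    ⟨p, IsDiscreteValuationRing.irreducible_of_span_eq_maximalIdeal p (by simpa using h2 1) hp,
      fun {x} hx => h1 x hx⟩⟩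

/-- The adic completion of a discrete valuation ring. -/
theorem exists_cmp_ring (O : Type) [CommRing O] [IsDomain O] [IsDiscreteValuationRing O] :
    ∃ (R : Type) (_ : CommRing R) (_ : IsDomain R) (_ : CDVR R) (φ : O →+* R),
      Function.Injective φ ∧ (maximalIdeal O).map φ = maximalIdeal R ∧
      ∀ y : R, ∃ a, residue R (φ a) = residue R y := by
  obtain ⟨π, hπ⟩ := IsDiscreteValuationRing.exists_irreducible O
  have hr : ∀ a : O, a ≠ 0 → ∀ x : AdicCompletion (maximalIdeal O) O,
      algebraMap O _ a * x = 0 → x = 0 := fun a ha x hx =>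
    Module.Flat.isSMulRegular_of_nonZeroDivisors (M := AdicCompletion (maximalIdeal O) O)
      (mem_nonZeroDivisors_of_ne_zero ha) (by simpa [Algebra.smul_def] using hx)
  have hm := AdicCompletion.maximalIdeal_eq_map (R := O)
  obtain ⟨_, _⟩ := vcmp_dvr (p := algebraMap O (AdicCompletion (maximalIdeal O) O) π)
    (by rw [hm, ← Set.image_singleton, ← Ideal.map_span, ← hπ.maximalIdeal_eq]) (hr π hπ.ne_zero)
  refine ⟨AdicCompletion (maximalIdeal O) O, inferInstance, inferInstance, {}, algebraMap O _,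
    (injective_iff_map_eq_zero _).2 fun a ha => ?_, hm.symm, fun y => ?_⟩
  · by_contra h
    exact one_ne_zero (hr a h 1 (by rw [ha, zero_mul]))
  · obtain ⟨b, hb⟩ := (AdicCompletion.residueField_map_bijective O).2 (residue _ y)
    obtain ⟨a, rfl⟩ := residue_surjective b
    exact ⟨a, hb⟩

theorem exists_idx_one {O R : Type} [CommRing O] [CommRing R] [IsDomain O] [IsDomain R]
    [IsDiscreteValuationRing O] [IsDiscreteValuationRing R] {ι : O →+* K} (h : IsVR ι v)
    {φ : O →+* R} (hφ : Function.Injective φ) (hm : (maximalIdeal O).map φ = maximalIdeal R) :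
    ∃ (w : Vl (Fr R)) (ψ : K →+* Fr R), IsVR (algebraMap R (Fr R)) w ∧ Idx ψ v w 1 ∧
      ∀ a, ψ (ι a) = algebraMap R (Fr R) (φ a) := by
  obtain ⟨w, hw⟩ := exists_isVR (isFr_alg R (Fr R))
  obtain ⟨ψ, hψ⟩ := h.isFr.exists_lift (β := (algebraMap R (Fr R)).comp φ)
    ((IsFractionRing.injective R (Fr R)).comp hφ)
  obtain ⟨π, hπ⟩ := IsDiscreteValuationRing.exists_irreducible O
  have hπ' : Irreducible (φ π) := (IsDiscreteValuationRing.irreducible_iff_uniformizer _).2
    (by rw [← hm, hπ.maximalIdeal_eq, Ideal.map_span, Set.image_singleton])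
  have key : ∀ a, w (algebraMap R (Fr R) (φ a)) = v (ι a) := fun a => by
    by_cases ha : a = 0
    · simp [ha]
    · obtain ⟨n, u, rfl⟩ := IsDiscreteValuationRing.eq_unit_mul_pow_irreducible ha hπ
      simp only [map_mul, map_pow]
      rw [hw.irreducible_iff.1 hπ', h.irreducible_iff.1 hπ, (h.eq_one _).2 u.isUnit,
        (hw.eq_one _).2 (u.isUnit.map φ)]
  refine ⟨w, ψ, hw, idx_one_iff.2 fun x => ?_, hψ⟩
  obtain ⟨a, b, hb, e⟩ := h.isFr.2 x
  have h0 : v (ι b) ≠ 0 := by simpa [map_eq_zero_iff _ h.2.1] using hb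
  refine mul_right_cancel₀ h0 ?_
  rw [← map_mul, e, ← key, ← key]
  have e' := congrArg (fun z => w (ψ z)) e
  simpa only [map_mul, hψ, RingHom.comp_apply] using e'

theorem exists_cmp (hv : Nrm v) : ∃ (R : Type) (_ : CommRing R) (_ : IsDomain R) (_ : CDVR R)
    (w : Vl (Fr R)) (ψ : K →+* Fr R), IsVR (algebraMap R (Fr R)) w ∧ Idx ψ v w 1 ∧
      ∀ x, Dns ψ w x := by
  have h := hv.isVR
  have := h.dvr
  obtain ⟨R, _, _, _, φ, hφ, hm, hs⟩ := exists_cmp_ring v.integer
  obtain ⟨w, ψ, hw, hi, e⟩ := exists_idx_one h hφ hm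
  refine ⟨R, inferInstance, inferInstance, inferInstance, w, ψ, hw, hi,
    dns_of_red hv hi fun x hx => ?_⟩
  obtain ⟨y, rfl⟩ := (hw.2.2 x).1 hx
  obtain ⟨a, ha⟩ := hs y
  refine ⟨v.integer.subtype a, ?_⟩
  rw [e, ← map_sub, hw.lt_one, map_sub, ha, sub_self]

end Pool.Agent.ZCy
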