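import Pool.Agent.Lib.MP_751085_ag.ZC.V.Z1o
import Pool.Agent.Lib.MP_751085_ag.ZC.Iface

/-! Block V: the statements of the interface. -/

namespace Pool.Agent.ZCy

open scoped Classical WithZero Polynomial PowerSeries LaurentSeries
open WithZero (exp)
open IsLocalRing

theorem thmZNP : ZNP := by
  intro k _ _ ι _ E _ _ _ _ Θ hu M _ _ a ha
  obtain ⟨M', _, _, _, _, j, h, -⟩ := znp (isFr_alg (MP ι k) (RF ι k)) hu (algebraMap k M) a ha
  exact ⟨M', _, _, ‹_›, ‹_›, j, h⟩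

theorem thmZ1H : Z1H := fun k _ _ ι _ _ _ _ _ ha hb h0 hg _ _ _ _ _ hu =>
  z1h (isFr_alg (MP ι k) (RF ι k)) (Nat.cast_ne_zero.2 Nat.card_pos.ne') hu hg h0 ha hb

theorem thmLE2 : LE2 := by
  intro k _ _ ι _ L E _ _ _ _ _ φ hi hs Th _ hu κ _ _ ψ w hψ hw h0 hS t ht
  have hφ : IsFr φ := ⟨hi, fun x => by
    obtain ⟨a, b, rfl⟩ := hs x
    by_cases hb : b = 0
    · exact ⟨0, 1, one_ne_zero, by simp [hb]⟩
    · exact ⟨a, b, hb, div_mul_cancel₀ _ ((map_ne_zero_iff φ hi).2 hb)⟩⟩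
  let e : (MP ι k)[X] ≃+* MP (Option ι) k := (MvPolynomial.optionEquivLeft k ι).symm.toRingEquiv
  have he : ∀ p, e (tp p) = p := (MvPolynomial.optionEquivLeft k ι).symm_apply_apply
  have hα := hφ.comp_equiv e
  have hα' := isFr_alg κ⟦X⟧[X] (Fr κ⟦X⟧[X])
  obtain ⟨φ', hφ'⟩ := hα.exists_lift (β := (algebraMap _ (Fr κ⟦X⟧[X])).comp (Polynomial.mapRingHom ψ))
    (hα'.1.comp (Polynomial.map_injective ψ hψ))
  obtain ⟨E', _, _, _, _, j, r, hj, hr, hi', -⟩ := exists_bc E φ'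
  have hc : ∀ f : (MP ι k)[X], j (tE E (φ.comp (e : _ →+* _)) f) =
      tE E' (algebraMap _ (Fr κ⟦X⟧[X])) (f.map ψ) := fun f => (hj _).trans (congrArg _ (hφ' f))
  have hu' := unrOff_bc_dvr hα hψ hw (fun a => by
    rw [PowerSeries.isUnit_iff_constantCoeff, isUnit_iff_ne_zero, not_not, h0]) hc hr hi'
    (Θ := tp Th) ((unrOff_equiv (φ := tE E φ) e).2 (by rwa [he]))
  have := isAlgClosed_res_ps κ
  have : CharZero κ⟦X⟧ := charZero_of_injective_ringHom (ψ.comp MvPolynomial.C).injective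
  obtain ⟨j', h, -⟩ := le_fin hα' Nat.card_pos.ne' dvd_rfl (Nat.cast_ne_zero.2 Nat.card_pos.ne')
    hS.map hu' (t := t) (Or.inr (by rwa [Polynomial.eval_map]))
  refine ⟨Nat.card (E' ≃ₐ[Fr κ⟦X⟧[X]] E'), j'.comp j, Nat.card_pos, fun p => ?_⟩
  have h1 := (congrArg j' (hc (tp p))).trans (h _)
  rw [sbs, Polynomial.coe_eval₂RingHom, Polynomial.eval₂_map] at h1
  exact (congrArg (fun q => j' (j (algebraMap L E (φ q)))) (he p)).symm.trans h1

theorem vfin_good {k K ι : Type} [Field k] [Field K] (f : k →+* K) {Θ : MP ι k} {a b : ι → k}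
    (h : GoodLine Θ a b) : GoodLine (MvPolynomial.map f Θ) (f ∘ a) (f ∘ b) := by
  have e : (line (RingHom.id K) (f ∘ a) (f ∘ b)).comp (MvPolynomial.map f) =
      (Polynomial.mapRingHom f).comp (line (RingHom.id k) a b) :=
    MvPolynomial.ringHom_ext (fun c => by simp [line]) fun i => by simp [line]
  have e' : line (RingHom.id K) (f ∘ a) (f ∘ b) (MvPolynomial.map f Θ) =
    (line (RingHom.id k) a b Θ).map f := RingHom.congr_fun e Θ
  refine ⟨?_, e' ▸ h.2.1.map, ?_⟩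
  · rw [← MvPolynomial.map_eval]
    exact h.1.map f
  · rw [e', Polynomial.coeff_map, MvPolynomial.totalDegree,
      MvPolynomial.support_map_of_injective _ f.injective]
    exact h.2.2.map f

theorem thmZ1L : Z1L := by
  intro k _ _ σ _ c c' Θ a b hG hh ⟨r, hr⟩ ha hb h0 hg
  let f := algebraMap k (AlgebraicClosure k)
  obtain ⟨s, hs⟩ := c.dvd
  obtain ⟨u, hu⟩ := hs.trans (pow_dvd_pow_of_dvd ((dvd_mul_right _ _).trans hr) s)
  obtain ⟨α, β, hB⟩ := c.bez
  have hm : (mq f c.χ).Monic := c.monic.map _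
  have h1 := z1l (N := r * s) (p := mq f (Polynomial.C u * α)) (q := mq f (Polynomial.C u * β)) hm hG
    (Nat.cast_ne_zero.2 (Nat.factorial_ne_zero _)) (by
      rw [← map_pow, pow_mul, hu, Polynomial.coe_mapRingHom, Polynomial.derivative_map,
        ← Polynomial.map_mul, ← Polynomial.map_mul, ← Polynomial.map_add, mul_assoc, mul_assoc,
        ← mul_add, ← hB, ← map_mul Polynomial.C, Polynomial.map_C, mul_comm])
    (vfin_good f hg) fun e => h0 (funext fun i => f.injective ((congrFun e i).trans f.map_zero.symm))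
  have e1 : line (RingHom.id _) (f ∘ a) (f ∘ b) =
      (line (RingHom.id _) (f ∘ a ∘ skip) (f ∘ b ∘ skip)).comp hyp :=
    MvPolynomial.ringHom_ext (fun c => by simp [line, hyp]) fun i => by
      rcases i with _ | _ | i <;> simp [line, hyp, skip, ha, hb]
  have e2 : (MvPolynomial.map f).comp (hyp (σ := σ)) = hyp.comp (MvPolynomial.map f) :=
    MvPolynomial.ringHom_ext (fun c => by simp [hyp]) fun i => by
      rcases i with _ | _ | i <;> simp [hyp]
  rw [e1, ← Polynomial.map_map] at h1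
  rw [PChart.GI, hh.χ, Polynomial.coe_mapRingHom, Polynomial.map_map, e2, ← Polynomial.map_map]
  exact Polynomial.Monic.irreducible_of_irreducible_map _ _ (hm.map _) h1

end Pool.Agent.ZCy
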