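import Pool.Agent.Lib.MP_751085_ag.ZC.V.Red
import Pool.Agent.Lib.MP_751085_ag.ZC.V.Gal

/-! Block V: elementary facts on decomposition and inertia groups, base change. -/

namespace Pool.Agent.ZCy

open scoped Classical WithZero Polynomial PowerSeries LaurentSeries
open WithZero (exp)

variable {A K K' E E' F Ω : Type} [CommRing A] [Field K] [Field K'] [Field E] [Field E'] [Field F]
  [Field Ω] [Algebra K E] [Algebra K' E'] {w u : Vl E} {w' : Vl E'} {g h : E ≃ₐ[K] E}

theorem mem_dec : g ∈ Dec K w ↔ ∀ x, w (g x) ≤ 1 ↔ w x ≤ 1 := by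
  refine ⟨fun H x => by rw [H x], fun H x => ?_⟩
  have n0 : ∀ y : E, y ≠ 0 → g y ≠ 0 := fun y => (map_ne_zero g).2
  rcases eq_or_ne x 0 with rfl | hx
  · rw [map_zero]
  by_cases ht : ∀ y, y ≠ 0 → w y = 1
  · rw [ht _ hx, ht _ (n0 x hx)]
  push Not at ht
  obtain ⟨y, hy, hy1⟩ := ht
  obtain ⟨v, e, ⟨π, hπ⟩, he, hi⟩ := exists_nrm hy hy1
  have ho := hi.over he
  have := Nrm.eq_of_iff (u := v.comap (g : E →+* E)) ⟨π, hπ⟩ ⟨g.symm π, by simpa using hπ⟩
    fun z => (ho (g z)).symm.trans ((H z).trans (ho z))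
  exact (hi _ (n0 x hx)).trans ((congrArg (fun u : Vl E => u x ^ e) this).trans (hi x hx).symm)

theorem dec_congr (e : ∀ x, u x ≤ 1 ↔ w x ≤ 1) : Dec K u = Dec K w := Subgroup.ext fun g => by
  simp only [mem_dec, e]

theorem ine_congr (e : ∀ x, u x ≤ 1 ↔ w x ≤ 1) : Ine K u = Ine K w := Subgroup.ext fun g =>
  and_congr (by rw [dec_congr e]) (forall_congr' fun x => imp_congr (e x)
    (Over.lt_one (φ := RingHom.id E) e _))

theorem tame_congr (e : ∀ x, u x ≤ 1 ↔ w x ≤ 1) : Tame K u ↔ Tame K w := by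
  rw [Tame, Tame, ine_congr e]
  exact Over.eq_one (φ := RingHom.id E) e _

theorem ine_le_dec : Ine K w ≤ Dec K w := fun _ h => h.1

theorem mem_dec_comap : h ∈ Dec K (w.comap (g : E →+* E)) ↔ g * h * g⁻¹ ∈ Dec K w :=
  ⟨fun H y => by simpa using H (g.symm y), fun H x => by simpa using H (g x)⟩

theorem mem_ine_comap : h ∈ Ine K (w.comap (g : E →+* E)) ↔ g * h * g⁻¹ ∈ Ine K w :=
  and_congr mem_dec_comap ⟨fun H y hy => by simpa using H (g.symm y) (by simpa using hy),
    fun H x hx => by simpa using H (g x) hx⟩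

theorem ine_conj_v (hg : g ∈ Dec K w) (hh : h ∈ Ine K w) : g * h * g⁻¹ ∈ Ine K w :=
  mem_ine_comap.1 (by rwa [show w.comap (g : E →+* E) = w from Valuation.ext hg])

theorem card_ine_comap : Nat.card (Ine K (w.comap (g : E →+* E))) = Nat.card (Ine K w) :=
  Nat.card_congr ((MulAut.conj g).toEquiv.subtypeEquiv fun _ => mem_ine_comap)

theorem ine_bot_of_conj (e : ∀ x, u x ≤ 1 ↔ w (g x) ≤ 1) (hw : Ine K w = ⊥) : Ine K u = ⊥ := by
  rw [ine_congr (w := w.comap (g : E →+* E)) e, eq_bot_iff]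
  intro h hh
  have := mem_ine_comap.1 hh
  rwa [hw, Subgroup.mem_bot, conj_eq_one_iff] at this

theorem dec_top_of_conj (e : ∀ x, u x ≤ 1 ↔ w (g x) ≤ 1) (hw : Dec K w = ⊤) : Dec K u = ⊤ := by
  rw [dec_congr (w := w.comap (g : E →+* E)) e, eq_top_iff]
  exact fun h _ => mem_dec_comap.2 (hw ▸ Subgroup.mem_top _)

theorem ine_bot_of_triv (hw : ∀ x, x ≠ 0 → w x = 1) : Ine K w = ⊥ := by
  refine eq_bot_iff.2 fun g hg => Subgroup.mem_bot.2 (AlgEquiv.ext fun x => ?_)
  by_contra hx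
  refine (hg.2 x ?_).ne (hw _ (sub_ne_zero.2 hx))
  rcases eq_or_ne x 0 with rfl | h0
  · simp
  · exact (hw x h0).le

theorem dec_top_of_triv (hw : ∀ x, x ≠ 0 → w x = 1) : Dec K w = ⊤ := by
  refine eq_top_iff.2 fun g _ x => ?_
  rcases eq_or_ne x 0 with rfl | h0
  · rw [map_zero]
  · rw [hw x h0, hw _ ((map_ne_zero g).2 h0)]

/-- limits of elements of `K` are fixed by the decomposition group -/
theorem Dns.fix {x : E} (hx : Dns (algebraMap K E) w x) (hg : g ∈ Dec K w) : g x = x := by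
  refine sub_eq_zero.1 (eq_zero_of_le_exp w fun n => ?_)
  obtain ⟨a, ha⟩ := hx n
  rw [← sub_sub_sub_cancel_right _ _ (algebraMap K E a)]
  refine w.map_sub_le ?_ ha
  rwa [← g.commutes a, ← map_sub, hg]

/-- a simple root modulo `w` is fixed by inertia -/
theorem root_fix (hg : g ∈ Ine K w) {f : E[X]} (hf : ∀ i, g (f.coeff i) = f.coeff i)
    (hi : ∀ i, w (f.coeff i) ≤ 1) {x : E} (hx : w x ≤ 1) (h0 : f.eval x = 0)
    (h1 : w (f.derivative.eval x) = 1) : g x = x := by
  obtain ⟨p, rfl⟩ := (Polynomial.mem_lifts _).1 ((Polynomial.lifts_iff_coeff_lifts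
    (f := w.integer.subtype) f).2 fun i => ⟨⟨_, hi i⟩, rfl⟩)
  have hy := hg.2 x hx
  obtain ⟨k, hk⟩ := p.binomExpansion ⟨x, hx⟩ ⟨g x - x, hy.le⟩
  have ev : ∀ (q : w.integer[X]) (z : w.integer), ((q.eval z : w.integer) : E) =
      (q.map w.integer.subtype).eval (z : E) := fun q z =>
    (Polynomial.eval_map_apply (f := w.integer.subtype) z).symm
  have e := congrArg Subtype.val hk
  have e0 : (p.map w.integer.subtype).eval (g x) = 0 := by
    have := Polynomial.eval_map_apply (p := p.map w.integer.subtype) (f := (g : E →+* E)) x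
    rwa [h0, map_zero, show (p.map _).map (g : E →+* E) = p.map _ from
      Polynomial.ext fun i => (Polynomial.coeff_map _ _).trans (hf i)] at this
  simp only [Subring.coe_add, Subring.coe_mul, SubmonoidClass.coe_pow, ev, add_sub_cancel, h0, e0,
    zero_add, ← Polynomial.derivative_map] at e
  rw [pow_two, ← mul_assoc, ← add_mul, zero_eq_mul] at e
  refine sub_eq_zero.1 (e.resolve_left fun e => ?_)
  have := w.map_add_eq_of_lt_left (lt_of_lt_of_eq (show w (k * (g x - x)) < 1 by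
    rw [map_mul]; exact (mul_le_of_le_one_left' k.2).trans_lt hy) h1.symm)
  rw [e, map_zero, h1] at this
  exact zero_ne_one this

/-- a root of unity that is congruent to one -/
theorem eq_one_of_pow {ζ : E} {M : ℕ} (hM : w (M : E) = 1) (h1 : ζ ^ M = 1) (h2 : w (ζ - 1) < 1) :
    ζ = 1 := by
  have hζ : w ζ = 1 := by simpa using w.map_one_add_of_lt h2
  have hi : ∀ i : ℕ, w (ζ ^ i - 1) < 1 := fun i => by
    induction i with
    | zero => simp
    | succ i ih =>
      rw [show ζ ^ (i + 1) - 1 = ζ * (ζ ^ i - 1) + (ζ - 1) by ring]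
      exact w.map_add_lt (by rwa [map_mul, hζ, one_mul]) h2
  have hs := w.map_sum_lt (s := Finset.range M) one_ne_zero fun i _ => hi i
  have e := geom_sum_mul ζ M
  rw [h1, sub_self, mul_eq_zero] at e
  refine sub_eq_zero.1 (e.resolve_left fun e => ?_)
  rw [Finset.sum_sub_distrib, e] at hs
  simp [hM] at hs

/-- KUM -/
theorem kum (hg : g ∈ Ine K w) {M : ℕ} (hM : w (M : E) = 1) {r a : E} (hr : g (r ^ M) = r ^ M)
    (ha : g a = a) (e : w r = w a) : g r = r := by
  rcases eq_or_ne r 0 with rfl | h0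
  · exact map_zero g
  have hw : w r ≠ 0 := (map_ne_zero w).2 h0
  have ha0 : a ≠ 0 := (map_ne_zero w).1 (e ▸ hw)
  have h1 : w (r / a) = 1 := by rw [map_div₀, ← e, div_self hw]
  refine (div_eq_one_iff_eq h0).1 (eq_one_of_pow hM ?_ ?_)
  · rw [div_pow, ← map_pow, hr, div_self (pow_ne_zero _ h0)]
  · have := hg.2 _ h1.le
    rwa [map_div₀, ha, show g r / a - r / a = (g r / r - 1) * (r / a) by field_simp, map_mul, h1,
      mul_one] at this

/-- KUM for radicands in the ground field -/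
theorem kum' {v : Vl K} (hv : Nrm v) (ho : Over (algebraMap K E) v w) (hg : g ∈ Ine K w) {M : ℕ}
    (hM : v (M : K) = 1) {r : E} {a : K} (hr : r ^ M = algebraMap K E a) (hd : (M : ℤ) ∣ ord v a) :
    g r = r := by
  have hM0 : M ≠ 0 := by rintro rfl; simp at hM
  rcases eq_or_ne a 0 with rfl | h0
  · rw [map_zero, pow_eq_zero_iff hM0] at hr
    rw [hr, map_zero]
  obtain ⟨n, hn⟩ := hd
  obtain ⟨b, hb⟩ := hv.surj (exp (-n))
  refine kum hg (by simpa using (ho.eq_one _).2 hM) (by rw [hr, g.commutes]) (g.commutes b) ?_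
  rw [← pow_left_inj₀ zero_le zero_le hM0, ← map_pow, ← map_pow, ← map_pow, hr, ho.eq_iff, map_pow,
    hb, exp_neg_ord v h0, hn, ← WithZero.exp_nsmul, nsmul_eq_mul, mul_neg]

variable {j : E →+* E'} {r : (E' ≃ₐ[K'] E') →* (E ≃ₐ[K] E)}

theorem Rs.dec (hr : Rs j r) (ho : Over j w w') {g : E' ≃ₐ[K'] E'} (hg : g ∈ Dec K' w') :
    r g ∈ Dec K w := mem_dec.2 fun x => by rw [← ho, ← ho, hr, hg]

theorem Rs.ine (hr : Rs j r) (ho : Over j w w') {g : E' ≃ₐ[K'] E'} (hg : g ∈ Ine K' w') :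
    r g ∈ Ine K w :=
  ⟨hr.dec ho hg.1, fun x hx => (ho.lt_one _).1 (by rw [map_sub, hr]; exact hg.2 _ ((ho x).2 hx))⟩

theorem Rs.ine_bot (hr : Rs j r) (hi : Function.Injective r) (ho : Over j w w')
    (hw : Ine K w = ⊥) : Ine K' w' = ⊥ :=
  eq_bot_iff.2 fun _ hg => Subgroup.mem_bot.2 (hi ((Subgroup.mem_bot.1 (hw ▸ hr.ine ho hg)).trans
    (map_one r).symm))

theorem Rs.card_ine_dvd (hr : Rs j r) (hi : Function.Injective r) (ho : Over j w w') :
    Nat.card (Ine K' w') ∣ Nat.card (Ine K w) :=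
  Subgroup.card_dvd_of_injective ((r.comp (Ine K' w').subtype).codRestrict _ fun g => hr.ine ho g.2)
    fun _ _ e => Subtype.ext (hi (congrArg Subtype.val e))

theorem Rs.tame (hr : Rs j r) (hi : Function.Injective r) (ho : Over j w w') (hw : Tame K w) :
    Tame K' w' := by
  obtain ⟨m, hm⟩ := hr.card_ine_dvd hi ho
  have h1 := (ho.eq_one _).2 hw
  rw [map_natCast, hm, Nat.cast_mul, map_mul] at h1
  exact le_antisymm (natCast_mem w'.integer _)
    (h1.symm.trans_le (mul_le_of_le_one_right' (natCast_mem w'.integer m)))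

/-- ONTO: the group of a field in which `K` is dense maps onto an undecomposed group -/
theorem Rs.surj_of_dns [FiniteDimensional K E] [IsGalois K E] [FiniteDimensional K' E']
    [IsGalois K' E'] {φ : K →+* K'} (hj : Sq φ j) (hr : Rs j r) (hd : Dec K (w'.comap j) = ⊤)
    (hy : ∀ y, Dns φ (w'.comap (algebraMap K' E')) y) : Function.Surjective r := by
  refine hr.surj fun x hx g => Dns.fix (w := w'.comap j) (fun n => ?_) (hd ▸ Subgroup.mem_top g)
  obtain ⟨y, e⟩ := mem_range_of_fix hx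
  refine (hy y n).imp fun a ha => ?_
  rwa [Valuation.comap_apply, map_sub, hj, ← e, ← map_sub]

end Pool.Agent.ZCy
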