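import Pool.Agent.Lib.MP_751085_ag.ZC.V.HarB

/-! Block V: the integral closure of a factorial ring in a Galois extension. -/

namespace Pool.Agent.ZCy

open scoped Classical WithZero Polynomial PowerSeries LaurentSeries
open WithZero (exp)

variable {A A' K K' E E' T : Type} [CommRing A] [UniqueFactorizationMonoid A] [CommRing A']
  [Field K] [Field K'] [Field E] [Field E'] [CommRing T] [Algebra K E] [FiniteDimensional K E]
  [IsGalois K E] {α : A →+* K} {P Θ : A} {w : Vl E} {x : E}

omit [UniqueFactorizationMonoid A] in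
theorem vint_scale {φ : A →+* E} {q : E[X]} (hq : q.Monic) (h0 : q.eval x = 0) {s : A}
    (h : ∀ i < q.natDegree, q.coeff i * φ s ∈ φ.range) : φ.IsIntegralElem (φ s * x) := by
  have hl : q.scaleRoots (φ s) ∈ Polynomial.lifts φ := by
    refine (Polynomial.lifts_iff_coeff_lifts _).2 fun i => ?_
    change _ ∈ φ.range
    rw [Polynomial.coeff_scaleRoots]
    rcases lt_trichotomy i q.natDegree with hi | rfl | hi
    · obtain ⟨k, hk⟩ : ∃ k, q.natDegree - i = k + 1 := ⟨q.natDegree - i - 1, by omega⟩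
      rw [hk, pow_succ', ← mul_assoc]
      exact mul_mem (h i hi) (pow_mem (φ.mem_range_self s) k)
    · simp [hq.coeff_natDegree]
    · simp [Polynomial.coeff_eq_zero_of_natDegree_lt hi]
  obtain ⟨p, h1, -, h2⟩ := Polynomial.lifts_and_natDegree_eq_and_monic hl
    ((Polynomial.monic_scaleRoots_iff _).2 hq)
  refine ⟨p, h2, ?_⟩
  rw [← Polynomial.eval_map, h1, Polynomial.scaleRoots_eval_mul, h0, mul_zero]

theorem vint_coeff (x : E) (i : ℕ) :
    ∃ a, algebraMap K E a = (MulSemiringAction.charpoly (E ≃ₐ[K] E) x).coeff i :=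
  mem_range_of_fix fun g => MulSemiringAction.smul_coeff_charpoly x i g

theorem exists_int_of_intOff (hα : IsFr α) (hx : x ∈ IntOff (tE E α) Θ) :
    ∃ m : ℕ, (tE E α).IsIntegralElem (tE E α Θ ^ m * x) := by
  set q := MulSemiringAction.charpoly (E ≃ₐ[K] E) x with hq
  have e : q = (∏ g : E ≃ₐ[K] E, (Polynomial.X - Polynomial.C (gI α Θ g ⟨x, hx⟩))).map
      (IntOff (tE E α) Θ).subtype := by
    simp [hq, MulSemiringAction.charpoly_eq, Polynomial.map_prod]
  have h1 : ∀ i, ∃ (m : ℕ) (a : A), q.coeff i * tE E α Θ ^ m = tE E α a := fun i => by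
    obtain ⟨c, hc⟩ := vint_coeff (K := K) x i
    have : algebraMap K E c ∈ IntOff (tE E α) Θ := by
      rw [hc, ← hq, e, Polynomial.coeff_map]; exact Subtype.prop _
    obtain ⟨m, a, h⟩ := hartogs hα ((alg_mem_intOff hα).1 this)
    exact ⟨m, a, by simpa [hc] using congrArg (algebraMap K E) h⟩
  choose m a h using h1
  refine ⟨∑ i ∈ Finset.range q.natDegree, m i, ?_⟩
  rw [← map_pow]
  refine vint_scale (q := q) (MulSemiringAction.monic_charpoly _ x)
    (MulSemiringAction.eval_charpoly _ x) fun i hi => ?_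
  rw [← Finset.add_sum_erase _ _ (Finset.mem_range.2 hi), map_pow, pow_add, ← mul_assoc, h]
  exact mul_mem (RingHom.mem_range_self _ _) (pow_mem (RingHom.mem_range_self _ _) _)

theorem mem_intOff_one (hα : IsFr α) : x ∈ IntOff (tE E α) 1 ↔ (tE E α).IsIntegralElem x :=
  ⟨fun h => by simpa using exists_int_of_intOff hα h, mem_intOff_of_int⟩

theorem exists_pow_mul_mem (hα : IsFr α) (hx : x ∈ IntOff (tE E α) Θ) :
    ∃ m : ℕ, tE E α Θ ^ m * x ∈ IntOff (tE E α) 1 :=
  (exists_int_of_intOff hα hx).imp fun _ => mem_intOff_of_int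

theorem exists_mul_mem_intOff (hα : IsFr α) (x : E) :
    ∃ a, a ≠ 0 ∧ tE E α a * x ∈ IntOff (tE E α) 1 := by
  have := hα.isDomain
  set q := MulSemiringAction.charpoly (E ≃ₐ[K] E) x with hq
  have h1 : ∀ i, ∃ a b : A, b ≠ 0 ∧ q.coeff i * tE E α b = tE E α a := fun i => by
    obtain ⟨c, hc⟩ := vint_coeff (K := K) x i
    obtain ⟨a, b, h0, h⟩ := hα.2 c
    exact ⟨a, b, h0, by simpa [hc] using congrArg (algebraMap K E) h⟩
  choose a b h0 h using h1
  refine ⟨∏ i ∈ Finset.range q.natDegree, b i, Finset.prod_ne_zero_iff.2 fun i _ => h0 i,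
    mem_intOff_of_int (vint_scale (q := q) (MulSemiringAction.monic_charpoly _ x)
      (MulSemiringAction.eval_charpoly _ x) fun i hi => ?_)⟩
  rw [← Finset.mul_prod_erase _ _ (Finset.mem_range.2 hi), map_mul, ← mul_assoc, h]
  exact mul_mem (RingHom.mem_range_self _ _) (RingHom.mem_range_self _ _)

theorem fix_intOff_one (hα : IsFr α) (hx : x ∈ IntOff (tE E α) 1) (h : ∀ g : E ≃ₐ[K] E, g x = x) :
    ∃ a, tE E α a = x := by
  obtain ⟨c, rfl⟩ := mem_range_of_fix h
  obtain ⟨m, a, e⟩ := hartogs hα ((alg_mem_intOff hα).1 hx)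
  exact ⟨a, by simpa using (congrArg (algebraMap K E) e).symm⟩

/-- a valuation that is integral on `A` is integral on the integral closure -/
theorem le_one_of_intOff (hα : IsFr α) {j : E →+* E'} {w' : Vl E'}
    (h : ∀ a, w' (j (tE E α a)) ≤ 1) (hΘ : w' (j (tE E α Θ)) = 1) (hx : x ∈ IntOff (tE E α) Θ) :
    w' (j x) ≤ 1 := by
  obtain ⟨m, hm⟩ := exists_int_of_intOff hα hx
  have := le_one_of_int (v := w'.comap j) h hm
  rwa [Valuation.comap_apply, map_mul, map_mul, map_pow, map_pow, hΘ, one_pow, one_mul] at this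

theorem intOff_map (hα : IsFr α) {j : E →+* E'} {ψ : A →+* A'} {φ' : A' →+* E'}
    (h : ∀ a, j (tE E α a) = φ' (ψ a)) (hx : x ∈ IntOff (tE E α) Θ) :
    j x ∈ IntOff φ' (ψ Θ) := fun _ _ _ h2 h3 =>
  le_one_of_intOff hα (fun a => by rw [h]; exact h3.1 _) (by rw [h]; exact (h3.eq_one _).2 h2) hx

/-- finiteness of the integral closure -/
theorem exists_gen [IsNoetherianRing A] (hα : IsFr α) : ∃ (m : ℕ) (b : Fin m → E),
    (∀ i, b i ∈ IntOff (tE E α) 1) ∧
      ∀ x ∈ IntOff (tE E α) 1, ∃ a : Fin m → A, x = ∑ i, tE E α (a i) * b i := by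
  have := hα.isDomain
  let := α.toAlgebra
  let := (tE E α).toAlgebra
  have : IsScalarTower A K E := IsScalarTower.of_algebraMap_eq fun _ => rfl
  have := hα.frac
  have := IsIntegralClosure.finite A K E (integralClosure A E)
  obtain ⟨m, s, hs⟩ := Module.Finite.exists_fin (R := A) (M := integralClosure A E)
  refine ⟨m, fun i => s i, fun i => mem_intOff_of_int (s i).2, fun x hx => ?_⟩
  obtain ⟨a, ha⟩ := (Submodule.mem_span_range_iff_exists_fun A).1
    (hs ▸ Submodule.mem_top : (⟨x, (mem_intOff_one hα).1 hx⟩ : integralClosure A E) ∈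
      Submodule.span A (Set.range s))
  refine ⟨a, ?_⟩
  have := congrArg (integralClosure A E).val ha
  simp only [map_sum, Algebra.smul_def] at this
  exact this.symm

/-- homomorphisms of `IntOff` into domains are injective if they are injective on `A` -/
theorem inj_of_toInt (hα : IsFr α) [IsDomain T] (β : IntOff (tE E α) Θ →+* T)
    (h : Function.Injective (β.comp (toInt _ Θ))) : Function.Injective β := by
  refine (injective_iff_map_eq_zero β).2 fun y hy => by_contra fun h0 => ?_
  obtain ⟨c, hc⟩ := mem_range_of_fix (K := K) (x := ∏ g : E ≃ₐ[K] E, g y) fun g => by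
    rw [map_prod]; exact Fintype.prod_equiv (Equiv.mulLeft g) _ _ fun _ => rfl
  obtain ⟨a, b, hb, e⟩ := hα.2 c
  have e1 : (∏ g : E ≃ₐ[K] E, g y) * tE E α b = tE E α a := by
    simpa [hc] using congrArg (algebraMap K E) e
  have e2 : (∏ g : E ≃ₐ[K] E, gI α Θ g y) * toInt _ Θ b = toInt _ Θ a :=
    Subtype.ext (by simpa using e1)
  have e3 : β.comp (toInt _ Θ) a = 0 := by
    rw [RingHom.comp_apply, ← e2, map_mul, map_prod,
      Finset.prod_eq_zero (Finset.mem_univ 1) (show β (gI α Θ 1 y) = 0 from hy), zero_mul]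
  rw [(injective_iff_map_eq_zero _).1 h a e3, map_zero, mul_eq_zero,
    Finset.prod_eq_zero_iff] at e1
  rcases e1 with ⟨g, -, hg⟩ | e1
  · exact h0 (Subtype.ext ((map_eq_zero g).1 hg))
  · exact hb (hα.1 (((map_eq_zero (algebraMap K E)).1 e1).trans (map_zero α).symm))

theorem exists_embT (hα : IsFr α) [IsDomain T] (β : IntOff (tE E α) Θ →+* T)
    (h : Function.Injective (β.comp (toInt _ Θ))) :
    ∃ j : E →+* Fr T, ∀ x : IntOff (tE E α) Θ, j x = algebraMap T (Fr T) (β x) := by
  have h1 : IsFr (IntOff (tE E α) Θ).subtype := ⟨Subtype.val_injective, fun x => by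
    obtain ⟨a, h0, ha⟩ := exists_mul_mem_intOff hα x
    refine ⟨⟨_, intOff_mono (n := 0) (by simp) ha⟩, toInt _ Θ a, fun e => h0 (h ?_), mul_comm _ _⟩
    rw [RingHom.comp_apply, e, map_zero, map_zero]⟩
  exact h1.exists_lift (β := (algebraMap T (Fr T)).comp β)
    ((IsFractionRing.injective T (Fr T)).comp (inj_of_toInt hα β h))

omit [UniqueFactorizationMonoid A] [FiniteDimensional K E] [IsGalois K E] [Algebra K E] in
theorem EmbT.exists_hom [IsDomain T] {φ : A →+* E} {S : Subring E} {ψ : A →+* T} {j : E →+* Fr T}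
    (h : EmbT φ S ψ j) : ∃ β : S →+* T, ∀ x : S, j x = algebraMap T (Fr T) (β x) := by
  choose y hy using fun x : S => h.2 x x.2
  have hi := IsFractionRing.injective T (Fr T)
  exact ⟨{ toFun := y
           map_one' := hi (by simp [← hy])
           map_mul' := fun a b => hi (by simp [← hy])
           map_zero' := hi (by simp [← hy])
           map_add' := fun a b => hi (by simp [← hy]) }, hy⟩

end Pool.Agent.ZCy
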