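import Pool.Agent.Lib.MP_751085_ag.ZC.V.Zn2
import Pool.Agent.Lib.MP_751085_ag.ZC.V.Lift
import Pool.Agent.Lib.MP_751085_ag.ZC.V.Hen

/-! Block V: lifting places to power series. -/

namespace Pool.Agent.ZCy

open scoped Classical WithZero Polynomial PowerSeries LaurentSeries
open WithZero (exp)

variable {A K₀ K E E₁ T : Type} [CommRing A] [IsDomain A] [UniqueFactorizationMonoid A]
  [IsNoetherianRing A] [Field K₀] [Field K] [Field E] [Field E₁] [CommRing T] [Algebra K E]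
  [FiniteDimensional K E] [IsGalois K E] {α₀ : A →+* K₀} {α : A[X] →+* K} {Θ : A[X]}

omit [IsNoetherianRing A] [IsDomain A] in
theorem vpur0_i (hα : IsFr α) : ∃ i : IntOff α Θ →+* IntOff (tE E α) Θ, Function.Injective i ∧
    (∀ p, i (toInt α Θ p) = toInt _ Θ p) ∧ ∀ b : IntOff (tE E α) Θ,
      (∀ g ∈ (⊤ : Subgroup (E ≃ₐ[K] E)), g (b : E) = b) ↔ b ∈ i.range := by
  refine ⟨((algebraMap K E).comp (IntOff α Θ).subtype).codRestrict _ fun x =>
    (alg_mem_intOff hα).2 x.2, fun x y e => Subtype.ext ((algebraMap K E).injective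
      (congrArg Subtype.val e)), fun _ => rfl, fun b => ⟨fun hb => ?_, ?_⟩⟩
  · obtain ⟨a, ha⟩ := mem_range_of_fix fun g => hb g trivial
    exact ⟨⟨a, (alg_mem_intOff hα).1 (ha ▸ b.2)⟩, Subtype.ext ha⟩
  · rintro ⟨a, rfl⟩ g -
    exact g.commutes _

omit [IsNoetherianRing A] [IsDomain A] in
theorem vpur0_ext (hα : IsFr α) (h0 : Θ ≠ 0) (β β' : IntOff α Θ →+* T)
    (h : ∀ p, β (toInt α Θ p) = β' (toInt α Θ p)) : β = β' := RingHom.ext fun x => by
  obtain ⟨m, a, e⟩ := hartogs hα x.2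
  have e' : x * toInt α Θ Θ ^ m = toInt α Θ a := Subtype.ext e
  apply (((isUnit_toInt ((map_ne_zero_iff _ hα.1).2 h0)).map β).pow m).mul_right_cancel
  rw [← map_pow, ← map_mul, e', h, ← e', map_mul, map_pow, map_pow, h]

theorem vpur0_id {B : Type} [CommRing B] {u : Vl E₁} (ρ : B →+* E₁) (h : ∀ x, u (ρ x) ≤ 1) :
    ∃ n : Ideal B, n.IsPrime ∧ ∀ x, x ∈ n ↔ u (ρ x) < 1 := by
  refine ⟨⟨⟨⟨{x | u (ρ x) < 1}, fun ha hb => ?_⟩, by simp⟩, fun c x hx => ?_⟩,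
    ⟨(Ideal.ne_top_iff_one _).2 (by simp), fun {a b} hab => ?_⟩, fun _ => Iff.rfl⟩
  · change u (ρ _) < 1
    rw [map_add]
    exact u.map_add_lt ha hb
  · change u (ρ (c * x)) < 1
    rw [map_mul, map_mul]
    exact (mul_le_of_le_one_left' (h c)).trans_lt hx
  · by_contra hn
    have e : u (ρ (a * b)) < 1 := hab
    rw [map_mul, map_mul, (h a).eq_of_not_lt (not_or.1 hn).1, (h b).eq_of_not_lt (not_or.1 hn).2,
      one_mul] at e
    exact e.false

omit [IsNoetherianRing A] in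
/-- A place `ρ` of `S = IntOff _ Θ` above `X = 0` with a separating element lifts to power series
(`exists_hom_intOff` for the invariants, `Stab.lift_place`, `henselian_ps`). -/
theorem pur_lift (hα : IsFr α) (h0 : Θ ≠ 0) (f : A →+* T) (hΘ : IsUnit (f (Θ.coeff 0)))
    (ρ : IntOff (tE E α) Θ →+* T) (hρ : ∀ p, ρ (toInt _ Θ p) = f (p.coeff 0))
    (z : IntOff (tE E α) Θ) (hz : ∀ g : E ≃ₐ[K] E, g ≠ 1 → IsUnit (ρ (gI α Θ g z - z))) :
    ∃ β : IntOff (tE E α) Θ →+* T⟦X⟧, (∀ p, β (toInt _ Θ p) = PowerSeries.map f (p : A⟦X⟧)) ∧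
      ∀ x, PowerSeries.constantCoeff (β x) = ρ x := by
  obtain ⟨i, hi, h1, h2⟩ := vpur0_i (E := E) (Θ := Θ) hα
  obtain ⟨γ, hγ⟩ := exists_hom_intOff hα h0
    ((PowerSeries.map f).comp Polynomial.coeToPowerSeries.ringHom)
    (PowerSeries.isUnit_iff_constantCoeff.2 hΘ)
  have := henselian_ps T
  obtain ⟨β, e1, e2⟩ := (stab_intOff α Θ).lift_place i γ PowerSeries.constantCoeff ρ hi h2
    PowerSeries.constantCoeff_surj (DFunLike.congr_fun (vpur0_ext hα h0 (ρ.comp i)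
      (PowerSeries.constantCoeff.comp γ) fun a => by simp [h1, hρ, hγ]; rfl)) z fun g _ hg => hz g hg
  exact ⟨β, fun p => by rw [← h1, e1, hγ]; rfl, e2⟩

omit [IsNoetherianRing A] in
theorem pur_unique (hα : IsFr α) (h0 : Θ ≠ 0) (β β' : IntOff (tE E α) Θ →+* T⟦X⟧)
    (h1 : ∀ p, β' (toInt _ Θ p) = β (toInt _ Θ p))
    (h2 : ∀ x, PowerSeries.constantCoeff (β' x) = PowerSeries.constantCoeff (β x))
    (z : IntOff (tE E α) Θ) (hz : ∀ g : E ≃ₐ[K] E, g ≠ 1 →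
      IsUnit (PowerSeries.constantCoeff (β (gI α Θ g z - z)))) : β' = β := by
  obtain ⟨i, -, e, h3⟩ := vpur0_i (E := E) (Θ := Θ) hα
  refine (stab_intOff α Θ).lift_unique PowerSeries.constantCoeff
    (fun _ => PowerSeries.isUnit_iff_constantCoeff.2) z β β' (fun g _ hg => hz g hg)
    (fun b hb => ?_) h2
  obtain ⟨a, rfl⟩ := (h3 b).1 hb
  exact DFunLike.congr_fun (vpur0_ext hα h0 (β'.comp i) (β.comp i) fun p => by simp [e, h1]) a

/-- The composite of `ρ` with a valuation `u` above a prime `P`: `ρ` takes `u`-integral values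
(`exists_int_of_intOff`), and `zn2`, `Stab.sep_el` give a separating element. -/
theorem pur_sep (hα : IsFr α) (hu : UnrOff K (tE E α) Θ) {f : A →+* E₁}
    (ρ : IntOff (tE E α) Θ →+* E₁) (hρ : ∀ p, ρ (toInt _ Θ p) = f (p.coeff 0)) {P : A}
    (hP : Prime P) (hΘ : ¬P ∣ Θ.coeff 0) {u : Vl E₁} (h : Cen f u P) : (∀ x, u (ρ x) ≤ 1) ∧
      ∃ z, ∀ g : E ≃ₐ[K] E, g ≠ 1 → u (ρ (gI α Θ g z - z)) = 1 := by
  have h1 : ∀ x, u (ρ x) ≤ 1 := fun x => by
    obtain ⟨m, p, hm, hp⟩ := exists_int_of_intOff hα x.2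
    have e : p.eval₂ (toInt (tE E α) Θ) (toInt _ Θ Θ ^ m * x) = 0 :=
      Subtype.ext ((Polynomial.hom_eval₂ p _ (IntOff (tE E α) Θ).subtype _).trans hp)
    have e' := le_one_of_int (v := u) (f := ρ.comp (toInt (tE E α) Θ)) (fun a => (hρ a).symm ▸ h.1 _)
      ⟨p, hm, (Polynomial.hom_eval₂ p _ ρ _).symm.trans ((congrArg ρ e).trans (map_zero ρ))⟩
    rwa [map_mul, map_pow, map_mul, map_pow, hρ, (h.eq_one _).2 hΘ, one_pow, one_mul] at e'
  obtain ⟨n, _, hn⟩ := vpur0_id ρ h1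
  have le : IntOff (tE E α) 1 ≤ IntOff (tE E α) Θ := intOff_mono (n := 1) (one_dvd _)
  obtain ⟨z, hz⟩ := (stab_intOff α Θ).sep_el n fun g _ hg => by
    obtain ⟨x, hx⟩ := zn2 hα hP (fun Q w hQ hd hc => hu Q w hQ (fun ⟨r, e⟩ => hΘ
      (by rw [e, Polynomial.mul_coeff_zero]; exact hd.mul_right _)) hc)
      (n.comap (Subring.inclusion le)) (fun p => (hn (toInt _ Θ p)).trans
        (by rw [hρ]; exact h.2 _)) hg
    exact ⟨Subring.inclusion le x, hx⟩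
  exact ⟨h1, z, fun g hg => (h1 _).eq_of_not_lt fun l => hz g trivial hg ((hn _).2 l)⟩

end Pool.Agent.ZCy
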