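import Pool.Agent.Lib.MP_751085_ag.ZC.V.D

/-! Block V: a change of variables that makes a power series regular. -/

namespace Pool.Agent.ZCy

open scoped Classical WithZero Polynomial PowerSeries LaurentSeries
open WithZero (exp)
open IsLocalRing

theorem vreg_weights {σ : Type} (s : Finset σ) : ∀ S : Set (Option σ →₀ ℕ), S.Nonempty →
    ∃ N : σ → ℕ, (∀ i, 0 < N i) ∧ ∃ m ∈ S, ∀ m' ∈ S,
      m' none + ∑ i ∈ s, m' (some i) * N i ≤ m none + ∑ i ∈ s, m (some i) * N i →
        m' none = m none ∧ ∀ i ∈ s, m' (some i) = m (some i) := by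
  have key : ∀ (S : Set (Option σ →₀ ℕ)) (j : Option σ), S.Nonempty →
      ∃ m ∈ S, ∀ m' ∈ S, m j ≤ m' j := fun S j hS =>
    ⟨Function.argminOn (fun m => m j) S hS, Function.argminOn_mem _ S hS,
      fun m' h => Function.argminOn_le (fun m : Option σ →₀ ℕ => m j) S h⟩
  induction s using Finset.induction_on with
  | empty =>
    intro S hS
    obtain ⟨m, hm, h⟩ := key S none hS
    exact ⟨fun _ => 1, fun _ => one_pos, m, hm, fun m' hm' h' =>
      ⟨le_antisymm (by simpa using h') (h m' hm'), by simp⟩⟩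
  | insert j s hj ih =>
    intro S hS
    obtain ⟨m0, hm0, h0⟩ := key S (some j) hS
    obtain ⟨N, hN, m, hm, h⟩ := ih {m | m ∈ S ∧ m (some j) = m0 (some j)} ⟨m0, hm0, rfl⟩
    obtain ⟨W, hW⟩ : ∃ W, W = m none + ∑ i ∈ s, m (some i) * N i := ⟨_, rfl⟩
    have hs : ∀ x : Option σ →₀ ℕ, ∑ i ∈ insert j s, x (some i) * Function.update N j (W + 1) i
        = x (some j) * (W + 1) + ∑ i ∈ s, x (some i) * N i := fun x => by
      rw [Finset.sum_insert hj, Function.update_self]
      exact congrArg _ (Finset.sum_congr rfl fun i hi => by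
        rw [Function.update_of_ne (ne_of_mem_of_not_mem hi hj)])
    refine ⟨Function.update N j (W + 1), fun i => ?_, m, hm.1, fun m' hm' h' => ?_⟩
    · by_cases hi : i = j
      · simp [hi]
      · simpa [Function.update_of_ne hi] using hN i
    · rw [hs, hs] at h'
      have e : m' (some j) = m (some j) := by
        refine le_antisymm (not_lt.1 fun hlt => ?_) (hm.2 ▸ h0 m' hm')
        have := Nat.mul_le_mul_right (W + 1) (Nat.succ_le_of_lt hlt)
        rw [Nat.succ_mul] at this
        omega
      rw [e] at h'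
      obtain ⟨h1, h2⟩ := h m' ⟨hm', e.trans hm.2⟩ (by omega)
      exact ⟨h1, fun i hi => (Finset.mem_insert.1 hi).elim (fun h => h ▸ e) (h2 i)⟩

/-- Weights that single out one exponent. -/
theorem exists_weights {σ : Type} [Finite σ] (S : Set (Option σ →₀ ℕ)) (hS : S.Nonempty) :
    ∃ N : Option σ → ℕ, N none = 1 ∧ (∀ i, 0 < N i) ∧ ∃ m ∈ S, ∀ m' ∈ S,
      Finsupp.weight N m' = Finsupp.weight N m → m' = m := by
  cases nonempty_fintype σ
  obtain ⟨N, hN, m, hm, h⟩ := vreg_weights Finset.univ S hS
  refine ⟨fun o => o.elim 1 N, rfl, fun o => by cases o <;> simp [hN], m, hm, fun m' hm' h' => ?_⟩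
  simp only [Finsupp.weight_eq_sum, Fintype.sum_option, Option.elim, smul_eq_mul, mul_one] at h'
  obtain ⟨h1, h2⟩ := h m' hm' h'.le
  ext o
  cases o with
  | none => exact h1
  | some i => exact h2 i (Finset.mem_univ i)

open MvPowerSeries in
/-- The shear of the variables. -/
noncomputable def vreg_sh {σ R : Type} [CommRing R] (N : Option σ → ℕ) (c : R) :
    Option σ → MvPowerSeries (Option σ) R
  | none => X none
  | some i => X (some i) + c • X none ^ N (some i)

open MvPowerSeries in
theorem vreg_has {σ R : Type} [Finite σ] [CommRing R] {N : Option σ → ℕ} (hN : ∀ i, 0 < N i)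
    (c : R) : HasSubst (vreg_sh N c) :=
  hasSubst_of_constantCoeff_zero fun o => by
    cases o <;> simp [vreg_sh, (hN _).ne']

open MvPowerSeries in
theorem vreg_inv {σ R : Type} [Finite σ] [CommRing R] {N : Option σ → ℕ} (hN : ∀ i, 0 < N i)
    {c d : R} (h : c + d = 0) (f : MvPowerSeries (Option σ) R) :
    subst (vreg_sh N c) (subst (vreg_sh N d) f) = f := by
  have : (fun s => subst (vreg_sh N c) (vreg_sh N d s)) = X := by
    funext o
    cases o with
    | none => exact subst_X (vreg_has hN c) none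
    | some i =>
      rw [vreg_sh, subst_add (vreg_has hN c), subst_smul (vreg_has hN c), subst_pow (vreg_has hN c),
        subst_X (vreg_has hN c), subst_X (vreg_has hN c), vreg_sh, vreg_sh, add_assoc, ← add_smul,
        h, zero_smul, add_zero]
  rw [subst_comp_subst_apply (vreg_has hN d) (vreg_has hN c), this, subst_self, id]

/-- A shear of the variables followed by `MvPowerSeries.optionEquivLeft`. -/
theorem exists_regular {σ R κ : Type} [Finite σ] [CommRing R] [CommRing κ] (ρ : R →+* κ)
    {f : MvPowerSeries (Option σ) R} (hf : MvPowerSeries.map ρ f ≠ 0) :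
    ∃ e : MvPowerSeries (Option σ) R ≃+* (MvPowerSeries σ R)⟦X⟧,
      PowerSeries.map (ρ.comp MvPowerSeries.constantCoeff) (e f) ≠ 0 := by
  obtain ⟨N, h1, hN, m, hm, h⟩ := exists_weights {d | ρ (MvPowerSeries.coeff d f) ≠ 0} (by
    by_contra h
    exact hf (MvPowerSeries.ext fun d => by
      by_contra h'
      exact h ⟨d, by simpa using h'⟩))
  have ha := vreg_has hN (1 : R)
  let φ : MvPowerSeries (Option σ) R ≃+* MvPowerSeries (Option σ) R :=
    RingEquiv.ofRingHom (MvPowerSeries.substAlgHom ha).toRingHom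
      (MvPowerSeries.substAlgHom (vreg_has hN (-1 : R))).toRingHom
      (RingHom.ext fun g => by simpa using vreg_inv hN (add_neg_cancel 1) g)
      (RingHom.ext fun g => by simpa using vreg_inv hN (neg_add_cancel 1) g)
  let ψ : MvPowerSeries (Option σ) R →+* R⟦X⟧ := (PowerSeries.map MvPowerSeries.constantCoeff).comp
    (MvPowerSeries.optionEquivLeft σ R).toRingEquiv.toRingHom
  have hψ : ∀ g n, PowerSeries.coeff n (ψ g) = MvPowerSeries.coeff (Finsupp.single none n) g :=
    fun g n => by
      rw [← Finsupp.optionElim_zero, ← MvPowerSeries.coeff_coeff_optionEquivLeft]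
      simp [ψ]
  have hX : ∀ o, ψ (vreg_sh N 1 o) = PowerSeries.X ^ N o := fun o => by
    cases o <;> simp [ψ, vreg_sh, h1]
  have hd : ∀ d : Option σ →₀ ℕ, ψ (d.prod fun s e => vreg_sh N 1 s ^ e)
      = PowerSeries.X ^ Finsupp.weight N d := fun d => by
    simp only [Finsupp.prod, map_prod, map_pow, hX, ← pow_mul, Finset.prod_pow_eq_pow_sum,
      Finsupp.weight_apply, Finsupp.sum, smul_eq_mul, mul_comm]
  refine ⟨φ.trans (MvPowerSeries.optionEquivLeft σ R).toRingEquiv, fun h0 => hm ?_⟩
  have h2 : ρ (PowerSeries.coeff (Finsupp.weight N m) (ψ (MvPowerSeries.subst (vreg_sh N 1) f)))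
      = 0 := by
    simpa [ψ, φ] using congrArg (PowerSeries.coeff (Finsupp.weight N m)) h0
  rw [hψ, MvPowerSeries.coeff_subst ha, map_finsum ρ (MvPowerSeries.coeff_subst_finite ha _ _),
    finsum_eq_single _ m fun d hdm => ?_] at h2
  · simpa [← hψ, hd] using h2
  · rw [← hψ, hd, PowerSeries.coeff_X_pow]
    split_ifs with hw
    · simpa using not_not.1 fun h' => hdm (h d h' hw.symm)
    · simp

end Pool.Agent.ZCy
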