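import Pool.Agent.Lib.MP_751085_ag.ZC.V.Le0

/-! Block V: integrality of Laurent expansions. -/

namespace Pool.Agent.ZCy

open scoped Classical WithZero Polynomial PowerSeries LaurentSeries
open WithZero (exp)
open IsLocalRing

variable {R KK K E : Type} [CommRing R] [IsDomain R] [CDVR R] [Field KK] [Field K] [Field E]
  [Algebra K E] [FiniteDimensional K E] [IsGalois K E] {ι : R →+* KK} {π : R}

theorem vrig0_X (hι : IsFr ι) {α : R[X] →+* K} (hα : IsFr α)
    (hG : IsUnit (Nat.card (E ≃ₐ[K] E) : R)) (J : E →+* KK⸨X⸩)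
    (hJ : ∀ p, J (tE E α p) = lau ι (p : R⟦X⟧)) (w : Vl E) (hw : Cen (tE E α) w Polynomial.X) :
    Ine K w = ⊥ := by
  have h := (isVR_lval KK).cen PowerSeries.X_prime.irreducible
  have e : ∀ p, (lval KK).comap (J.comp (algebraMap K E)) (α p) =
      lval KK (lau (RingHom.id KK) (PowerSeries.map ι p)) := fun p =>
    congrArg (lval KK) (hJ p)
  have hc : Cen α ((lval KK).comap (J.comp (algebraMap K E))) Polynomial.X :=
    ⟨fun p => (e p).trans_le (h.1 _), fun p => by
      rw [e, h.2, PowerSeries.X_dvd_iff, Polynomial.X_dvd_iff, ← Polynomial.polynomial_map_coe,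
        Polynomial.constantCoeff_coe, Polynomial.coeff_map, map_eq_zero_iff _ hι.1]⟩
  refine unr_of_emb_v (φ := J.comp (algebraMap K E)) (v' := lval KK) ⟨α Polynomial.X, ?_⟩
    (idx_one_iff.2 fun _ => rfl) ?_ ⟨J, fun _ => rfl⟩ w ((hc.over hα Polynomial.prime_X).1 hw)
  · rw [e, Polynomial.coe_X, PowerSeries.map_X, lau_X, lval_single]
  · rw [← map_natCast α, hc.eq_one, ← map_natCast (Polynomial.C : R →+* R[X])]
    exact fun e => Polynomial.prime_X.not_isUnit (isUnit_of_dvd_unit e (hG.map _))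

theorem vrig0_cap {R' KK' : Type} [CommRing R'] [Field KK'] (hι : IsFr ι) {f : R →+* R'}
    [IsLocalHom f] {ι' : R' →+* KK'} (hι' : Function.Injective ι') {κ : KK →+* KK'}
    (hκ : ∀ a, κ (ι a) = ι' (f a)) {z : KK} {y : R'} (h : κ z = ι' y) : ∃ a, ι a = z := by
  obtain ⟨a, b, hb, e⟩ := hι.2 z
  have hb' : ι b ≠ 0 := (map_ne_zero_iff _ hι.1).2 hb
  suffices b ∣ a by
    obtain ⟨c, rfl⟩ := this
    exact ⟨c, mul_right_cancel₀ hb' (by rw [e, map_mul, mul_comm])⟩
  refine (ValuationRing.dvd_total a b).elim ?_ id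
  rintro ⟨c, rfl⟩
  have e1 : z * ι c = 1 := mul_left_cancel₀ (left_ne_zero_of_mul (map_mul ι a c ▸ hb')) (by
    rw [mul_left_comm, ← map_mul, e, mul_one])
  have e2 : y * f c = 1 := hι' (by rw [map_mul, ← h, ← hκ, ← map_mul, e1, map_one, map_one])
  exact (isUnit_of_map_unit f c (IsUnit.of_mul_eq_one_right _ e2)).mul_right_dvd.2 dvd_rfl

theorem vrig0_coe {A L : Type} [CommRing A] [Field L] {ι : A →+* L} (h : Function.Injective ι) :
    Function.Injective ((lau ι).comp Polynomial.coeToPowerSeries.ringHom) :=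
  (lau_inj h).comp (Polynomial.coe_injective A)

/-- The core of RIG: extract a root of `π` and apply purity on the disc. -/
theorem rig_int [IsAlgClosed (ResidueField R)] (hι : IsFr ι) (hπ : Irreducible π)
    {α : R[X] →+* K} (hα : IsFr α) (hG : IsUnit (Nat.card (E ≃ₐ[K] E) : R)) (J : E →+* KK⸨X⸩)
    (hJ : ∀ p, J (tE E α p) = lau ι (p : R⟦X⟧)) {Θ : R[X]} (h0 : IsUnit (Θ.coeff 0))
    (hu : UnrOff K (tE E α) (Polynomial.C π * (Polynomial.X * Θ))) {x : E}
    (hx : x ∈ IntOff (tE E α) 1) : ∃ y, J x = lau ι y := by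
  rw [mul_left_comm] at hu
  replace hu := hu.of_mul Polynomial.prime_X (vrig0_X hι hα hG J hJ)
  obtain ⟨R', _, _, _, f, r, hf, -, _, hr, hc⟩ := exists_root_ext hι hG.ne_zero π
  have := hc inferInstance
  let ι' := algebraMap R' (Fr R')
  let α' := algebraMap R'[X] (Fr R'[X])
  have hι' : IsFr ι' := isFr_alg _ _
  have hα' : IsFr α' := isFr_alg _ _
  have hψ : Function.Injective (Polynomial.mapRingHom f) := Polynomial.map_injective f hf
  obtain ⟨κ, hκ⟩ := hι.exists_lift (β := ι'.comp f) (hι'.1.comp hf)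
  obtain ⟨φ, hφ⟩ := hα.exists_lift (β := α'.comp (Polynomial.mapRingHom f)) (hα'.1.comp hψ)
  obtain ⟨T, hT⟩ := (isVR_lval KK).isFr.exists_lift (lau_inj κ.injective)
  obtain ⟨U, hU⟩ := hα'.exists_lift (vrig0_coe hι'.1)
  obtain ⟨L, hL⟩ := (isFr_alg R'⟦X⟧ (Fr R'⟦X⟧)).exists_lift (lau_inj hι'.1)
  let _ := U.toAlgebra
  have hj : Sq φ (T.comp J) := fun a => DFunLike.congr_fun
    (hα.hom_ext (φ := (T.comp J).comp (algebraMap K E)) (φ' := U.comp φ) fun p => by
      refine (congrArg T (hJ p)).trans ((hT (PowerSeries.map ι p)).trans ?_)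
      rw [RingHom.comp_apply, hφ, RingHom.comp_apply, hU, RingHom.comp_apply,
        Polynomial.coe_mapRingHom, Polynomial.coeToPowerSeries.ringHom_apply,
        Polynomial.polynomial_map_coe]
      change lau (κ.comp ι) _ = lau (ι'.comp f) _
      rw [show κ.comp ι = ι'.comp f from RingHom.ext hκ]) a
  obtain ⟨_, _, j, ρ, h1, h2, h3, h4⟩ := bc_in hj
  have h5 : ∀ p, j (tE E α p) = tE _ α' (Polynomial.mapRingHom f p) := fun p =>
    (h2 _).trans (congrArg _ (hφ p))
  have h6 := unrOff_bc hα (flat_poly (flat_pid hf)) hψ h5 h3 h4 hu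
  obtain ⟨ϖ, hϖ⟩ := IsDiscreteValuationRing.exists_irreducible R'
  obtain ⟨n, hn⟩ := IsDiscreteValuationRing.associated_pow_irreducible
    ((map_ne_zero_iff _ hf).2 hπ.ne_zero) hϖ
  have h7 := (unrOff_mono (Θ' := Polynomial.C ϖ * Θ.map f) (n := n + 1) (by
    rw [map_mul, mul_pow, Polynomial.coe_mapRingHom, Polynomial.map_C, ← map_pow]
    exact mul_dvd_mul (map_dvd _ (hn.dvd.trans (pow_dvd_pow _ n.le_succ)))
      (dvd_pow_self _ n.succ_ne_zero)) h6).of_mul (Polynomial.prime_C_iff.2 hϖ.prime) fun w hw => by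
    have hP := Polynomial.prime_C_iff.2 hπ.prime
    have hw' : Cen (j.comp (tE E α)) w (Polynomial.C π) :=
      ⟨fun a => (congrArg w (h5 a)).trans_le (hw.1 _), fun a => by
        rw [RingHom.comp_apply, h5, hw.2, Polynomial.C_dvd_iff_dvd_coeff,
          Polynomial.C_dvd_iff_dvd_coeff]
        refine forall_congr' fun i => ?_
        rw [Polynomial.coe_mapRingHom, Polynomial.coeff_map, ← Ideal.mem_span_singleton,
          ← Ideal.mem_span_singleton, ← hϖ.maximalIdeal_eq, ← hπ.maximalIdeal_eq, mem_maximalIdeal,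
          mem_maximalIdeal, mem_nonunits_iff, mem_nonunits_iff, isUnit_map_iff]⟩
    refine ine_bot_root hα h2 h3 h4 hP hw' (tame_of_card ?_) (b := α' (Polynomial.C r))
      Nat.card_pos.ne' dvd_rfl ?_
    · rw [← map_natCast (tE E α), ← map_natCast (Polynomial.C : R →+* R[X])]
      exact (hw'.eq_one _).2 fun e => hP.not_isUnit (isUnit_of_dvd_unit e (hG.map _))
    · rw [hφ, ← map_pow, ← map_pow, hr]
      exact congrArg α' (Polynomial.map_C f)
  obtain ⟨β, hβ⟩ := zn_disc hα' (by rw [Polynomial.coeff_map]; exact h0.map f) h7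
  obtain ⟨i, hi⟩ := exists_embT hα' β fun a b e =>
    Polynomial.coe_injective R' ((hβ a).symm.trans (e.trans (hβ b)))
  obtain ⟨g, hg⟩ := exists_twist (K := Fr R'[X]) (L.comp i) (IntermediateField.val _).toRingHom
    fun a => DFunLike.congr_fun (hα'.hom_ext (φ := U) (φ' := (L.comp i).comp (algebraMap _ _))
      fun p => by
        refine (hU p).trans (Eq.trans ?_ (congrArg L (hi (toInt _ _ p))).symm)
        rw [hL, hβ]
        rfl) a
  have h8 := intOff_map hα h5 hx
  rw [map_one] at h8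
  have h9 := (h1 x).symm.trans ((hg (j x)).trans ((congrArg L (hi ⟨_, stab_intOff α' _ g trivial _
    (intOff_mono (n := 0) (one_dvd _) h8)⟩)).trans (hL _)))
  obtain ⟨z, hz⟩ := ((isVR_lval KK).2.2 (J x)).1 (le_one_of_intOff hα
    (fun a => by rw [hJ]; exact (isVR_lval KK).le_one (PowerSeries.map ι a)) (by simp) hx)
  rw [RingHom.comp_apply, ← hz, hT] at h9
  choose y hy using fun m => vrig0_cap hι hι'.1 hκ
    ((coeff_lau z m).symm.trans ((congrArg (·.coeff (m : ℤ)) h9).trans (coeff_lau _ m)))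
  refine ⟨PowerSeries.mk y, hz.symm.trans ?_⟩
  rw [show z = PowerSeries.map ι (PowerSeries.mk y) from PowerSeries.ext fun m => by simp [hy]]
  rfl

end Pool.Agent.ZCy
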