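import Pool.Agent.Lib.MP_751085_ag.ZC.V.Cv
import Pool.Agent.Lib.MP_751085_ag.ZC.V.Hen

/-! Block V: tools for the reduction of tame covers. -/

namespace Pool.Agent.ZCy

open scoped Classical WithZero Polynomial PowerSeries LaurentSeries
open WithZero (exp)
open IsLocalRing

theorem vta0_cc {κ : Type} [Field κ] {e : ℕ} (he : e ≠ 0) (t : κ) (f : κ[X]) :
    PowerSeries.constantCoeff (sbs (RingHom.id κ) t e f) = f.eval t := by
  have : (PowerSeries.constantCoeff.comp (sbs (RingHom.id κ) t e)) = Polynomial.evalRingHom t :=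
    Polynomial.ringHom_ext (fun a => by simp [sbs_C]) (by simp [sbs_X, he])
  exact RingHom.congr_fun this f

/-- If `g(t + s ^ e)` divides `f(t + s ^ e)` in `κ⟦s⟧` for all `t`, then `g ∣ f`. -/
theorem dvd_of_sbs_dvd {κ : Type} [Field κ] [IsAlgClosed κ] {e : ℕ} (he : e ≠ 0) {f g : κ[X]}
    (hg : g ≠ 0) (h : ∀ t, sbs (RingHom.id κ) t e g ∣ sbs (RingHom.id κ) t e f) : g ∣ f := by
  rcases eq_or_ne f 0 with rfl | hf
  · exact dvd_zero _
  refine (IsAlgClosed.dvd_iff_roots_le_roots hg hf).2 (Multiset.le_iff_count.2 fun t => ?_)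
  rw [Polynomial.count_roots, Polynomial.count_roots]
  obtain ⟨g₁, e1, -⟩ := Polynomial.exists_eq_pow_rootMultiplicity_mul_and_not_dvd g hg t
  obtain ⟨f₁, e2, h2⟩ := Polynomial.exists_eq_pow_rootMultiplicity_mul_and_not_dvd f hf t
  have hX : sbs (RingHom.id κ) t e (Polynomial.X - Polynomial.C t) = PowerSeries.X ^ e := by
    rw [map_sub, sbs_X, sbs_C]; simp
  have hu : IsUnit (sbs (RingHom.id κ) t e f₁) := by
    rw [PowerSeries.isUnit_iff_constantCoeff, vta0_cc he]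
    exact IsUnit.mk0 _ fun h0 => h2 (Polynomial.dvd_iff_isRoot.2 h0)
  have h3 := h t
  rw [e1, e2, map_mul, map_mul, map_pow, map_pow, hX, hu.dvd_mul_right, ← pow_mul,
    ← pow_mul] at h3
  have h4 := (pow_dvd_pow_iff (PowerSeries.X_ne_zero (R := κ))
    PowerSeries.X_prime.not_isUnit).1 (dvd_of_mul_right_dvd h3)
  exact Nat.le_of_mul_le_mul_left h4 (Nat.pos_of_ne_zero he)

/-- a series of polynomials of bounded degree converges coefficientwise -/
theorem exists_poly_lim {R : Type} [CommRing R] [IsDomain R] [CDVR R] {π : R} (hπ : Irreducible π)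
    (p : ℕ → R[X]) {m : ℕ} (hp : ∀ n, (p n).natDegree ≤ m) : ∃ q : R[X], ∀ n,
      Polynomial.C (π ^ n) ∣ q - ∑ i ∈ Finset.range n, Polynomial.C (π ^ i) * p i := by
  have hm : ∀ (n : ℕ) (a b : R), a ≡ b [SMOD (maximalIdeal R ^ n • ⊤ : Submodule R R)] ↔
      π ^ n ∣ a - b := fun n a b => by
    rw [SModEq.sub_mem, smul_eq_mul, Ideal.mul_top, hπ.maximalIdeal_eq, Ideal.span_singleton_pow,
      Ideal.mem_span_singleton]
  have key : ∀ k, ∃ L : R, ∀ n, π ^ n ∣ L - ∑ i ∈ Finset.range n, π ^ i * (p i).coeff k := by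
    intro k
    obtain ⟨L, hL⟩ := IsPrecomplete.prec (I := maximalIdeal R) (M := R) inferInstance
      (f := fun n => ∑ i ∈ Finset.range n, π ^ i * (p i).coeff k) fun {a b} hab => by
        rw [hm, ← dvd_neg, neg_sub, ← Finset.sum_Ico_eq_sub _ hab]
        exact Finset.dvd_sum fun i hi =>
          (pow_dvd_pow π (Finset.mem_Ico.1 hi).1).mul_right _
    exact ⟨L, fun n => by rw [← dvd_neg, neg_sub]; exact (hm _ _ _).1 (hL n)⟩
  choose L hL using key
  refine ⟨∑ k ∈ Finset.range (m + 1), Polynomial.monomial k (L k), fun n => ?_⟩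
  rw [Polynomial.C_dvd_iff_dvd_coeff]
  intro k
  simp only [Polynomial.coeff_sub, Polynomial.finsetSum_coeff, Polynomial.coeff_C_mul,
    Polynomial.coeff_monomial, Finset.sum_ite_eq', Finset.mem_range]
  split_ifs with hk
  · exact hL k n
  · rw [Finset.sum_eq_zero fun i _ => by
      rw [Polynomial.coeff_eq_zero_of_natDegree_lt ((hp i).trans_lt (by omega)), mul_zero]]
    simp

variable {R K E : Type} [CommRing R] [IsDomain R] [CDVR R] [Field K] [Field E] [Algebra K E]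
  [FiniteDimensional K E] [IsGalois K E] {α : R[X] →+* K} {Ψ : R[X]} {π : R} {w : Vl E}

/-- `j` induces `w` through the `π`-adic valuation of `R⟦X⟧` -/
def IndV (j : E →+* Fr R⟦X⟧) (π : R) (w : Vl E) : Prop :=
  ∀ x y, j x = algebraMap R⟦X⟧ _ y → w x ≤ 1 ∧ (w x < 1 ↔ PowerSeries.C π ∣ y)

/-- twist an embedding so that it induces `w` -/
theorem exists_ind (hα : IsFr α) (hπ : Irreducible π) (hw : Cen (tE E α) w (Polynomial.C π))
    (j : E →+* Fr R⟦X⟧) (h : ∀ p, ∃ a b : R⟦X⟧, ¬PowerSeries.C π ∣ b ∧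
      j (tE E α p) * algebraMap R⟦X⟧ _ b = algebraMap R⟦X⟧ _ a ∧
      (PowerSeries.C π ∣ a ↔ Polynomial.C π ∣ p)) :
    ∃ g : E ≃ₐ[K] E, IndV (j.comp (g : E →+* E)) π w := by
  obtain ⟨u, hu, -⟩ := exists_vcen (isFr_alg R⟦X⟧ (Fr R⟦X⟧)) (prime_ps_C hπ.prime)
  have hc : Cen (tE E α) (u.comap j) (Polynomial.C π) := by
    have : ∀ p, ∃ a, u (j (tE E α p)) = u (algebraMap R⟦X⟧ _ a) ∧
        (PowerSeries.C π ∣ a ↔ Polynomial.C π ∣ p) := fun p => by
      obtain ⟨a, b, h1, h2, h3⟩ := h p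
      exact ⟨a, by rw [← h2, map_mul, (hu.eq_one b).2 h1, mul_one], h3⟩
    refine ⟨fun p => ?_, fun p => ?_⟩ <;> obtain ⟨a, h1, h2⟩ := this p <;>
      rw [Valuation.comap_apply, h1]
    exacts [hu.1 a, (hu.2 a).trans h2]
  obtain ⟨g, hg⟩ := Cen.conj hα (Polynomial.prime_C_iff.2 hπ.prime) hc hw
  have ho : Over (g : E →+* E) w (u.comap j) := fun x => (hg x).symm
  refine ⟨g, fun x y e => ?_⟩
  have e' : u.comap j ((g : E →+* E) x) = u (algebraMap R⟦X⟧ _ y) := congrArg u e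
  exact ⟨(ho x).1 (e' ▸ hu.1 y), (ho.lt_one x).symm.trans (e' ▸ hu.2 y)⟩

end Pool.Agent.ZCy
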