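import Pool.Agent.Lib.MP_751085_ag.ZC.V.Ta0
import Pool.Agent.Lib.MP_751085_ag.ZC.V.Dec

/-! Block V: the approximation step. -/

namespace Pool.Agent.ZCy

open scoped Classical WithZero Polynomial PowerSeries LaurentSeries
open WithZero (exp)
open IsLocalRing

variable {R K E : Type} [CommRing R] [IsDomain R] [CDVR R] [Field K] [Field E] [Algebra K E]
  [FiniteDimensional K E] [IsGalois K E] {α : R[X] →+* K} {Ψ : R[X]} {π : R} {w : Vl E}

theorem vtas_res (hπ : Irreducible π) (a : R) : residue R a = 0 ↔ π ∣ a := by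
  rw [residue_eq_zero_iff, hπ.maximalIdeal_eq, Ideal.mem_span_singleton]

theorem vtas_ps (hπ : Irreducible π) (y : R⟦X⟧) :
    PowerSeries.C π ∣ y ↔ PowerSeries.map (residue R) y = 0 := by
  simp only [ps_C_dvd, PowerSeries.ext_iff, PowerSeries.coeff_map, map_zero, vtas_res hπ]

theorem vtas_poly (hπ : Irreducible π) (p : R[X]) :
    Polynomial.C π ∣ p ↔ p.map (residue R) = 0 := by
  simp only [Polynomial.C_dvd_iff_dvd_coeff, Polynomial.ext_iff, Polynomial.coeff_map,
    Polynomial.coeff_zero, vtas_res hπ]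

theorem vtas_sbs {A B : Type} [CommRing A] [CommRing B] (f : A →+* B) (t : A) (e : ℕ) (p : A[X]) :
    PowerSeries.map f (sbs (RingHom.id A) t e p) = sbs (RingHom.id B) (f t) e (p.map f) := by
  refine RingHom.congr_fun (f := (PowerSeries.map f).comp (sbs (RingHom.id A) t e))
    (g := (sbs (RingHom.id B) (f t) e).comp (Polynomial.mapRingHom f))
    (Polynomial.ringHom_ext (fun a => ?_) ?_) p <;> simp [sbs]

theorem vtas_inf {A T : Type} [CommRing A] [CommRing T] (ψ : A[X] →+* T) (β : A⟦X⟧ →+* T) {e : ℕ}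
    (he : e ≠ 0) (hC : ∀ c, ψ (Polynomial.C c) = β (PowerSeries.C c))
    (hX : ψ Polynomial.X * β (PowerSeries.X ^ e) = 1) {p : A[X]} {n : ℕ} (hp : p.natDegree ≤ n) :
    ∃ y, ψ p * β (PowerSeries.X ^ e) ^ n = β y ∧ PowerSeries.constantCoeff y = p.coeff n := by
  refine ⟨∑ k ∈ Finset.range (n + 1), PowerSeries.C (p.coeff k) * (PowerSeries.X ^ e) ^ (n - k),
    ?_, ?_⟩
  · conv_lhs => rw [p.as_sum_range_C_mul_X_pow' (Nat.lt_succ_of_le hp)]
    rw [map_sum, map_sum, Finset.sum_mul]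
    refine Finset.sum_congr rfl fun k hk => ?_
    have e1 : n = k + (n - k) := by
      have := Finset.mem_range.1 hk
      omega
    rw [map_mul, map_mul, hC, map_pow ψ, map_pow β _ (n - k), mul_assoc]
    congr 1
    conv_lhs => rw [e1, pow_add, ← mul_assoc, ← mul_pow, hX, one_pow, one_mul]
  · rw [map_sum, Finset.sum_range_succ, Finset.sum_eq_zero fun k hk => ?_]
    · simp
    · simp [he, Nat.sub_ne_zero_of_lt (Finset.mem_range.1 hk)]

/-- One step. By `dns_of_dec` and `Cen.le_one_iff` there are `f`, `g` with `¬ C π ∣ g` and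
`w (g z - f) < 1`; reduce modulo `π` and use `dvd_of_sbs_dvd`; lift the quotient to `p` of the same
degree; the expansion at infinity bounds the degree. -/
theorem ta_step [IsAlgClosed (ResidueField R)] (hα : IsFr α) (hπ : Irreducible π)
    (hw : Cen (tE E α) w (Polynomial.C π)) {e m : ℕ} (he : e ≠ 0) (t : ResidueField R → R)
    (ht : ∀ c, residue R (t c) = c) (j : ResidueField R → E →+* Fr R⟦X⟧) (i : E →+* Fr R⟦X⟧)
    (hj : ∀ c p, j c (tE E α p) = algebraMap R⟦X⟧ _ (sbs (RingHom.id R) (t c) e p))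
    (hj' : ∀ c, IndV (j c) π w)
    (hC : ∀ c, i (tE E α (Polynomial.C c)) = algebraMap R⟦X⟧ _ (PowerSeries.C c))
    (hX : i (tE E α Polynomial.X) * algebraMap R⟦X⟧ _ (PowerSeries.X ^ e) = 1) (hi : IndV i π w)
    {z : E} (hz : ∀ g ∈ Dec K w, g z = z) (h1 : ∀ c, ∃ y, j c z = algebraMap R⟦X⟧ _ y)
    (h2 : ∃ y, i z * algebraMap R⟦X⟧ _ (PowerSeries.X ^ (e * m)) = algebraMap R⟦X⟧ _ y) :
    ∃ (p : R[X]) (z' : E), p.natDegree ≤ m ∧ z = tE E α p + tE E α (Polynomial.C π) * z' ∧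
      (∀ g ∈ Dec K w, g z' = z') ∧ (∀ c, ∃ y, j c z' = algebraMap R⟦X⟧ _ y) ∧
      ∃ y, i z' * algebraMap R⟦X⟧ _ (PowerSeries.X ^ (e * m)) = algebraMap R⟦X⟧ _ y := by
  have hP : Prime (Polynomial.C π) := Polynomial.prime_C_iff.2 hπ.prime
  have hA : Function.Injective (algebraMap R⟦X⟧ (Fr R⟦X⟧)) := IsFractionRing.injective _ _
  have hπ0 : algebraMap R⟦X⟧ (Fr R⟦X⟧) (PowerSeries.C π) ≠ 0 := fun h =>
    (prime_ps_C hπ.prime).ne_zero (hA (h.trans (map_zero _).symm))
  have hφ0 : tE E α (Polynomial.C π) ≠ 0 := fun h => hπ0 (by rw [← hC, h, map_zero])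
  have hz1 : w z ≤ 1 := by
    obtain ⟨y, hy⟩ := h1 0
    exact (hj' 0 z y hy).1
  obtain ⟨a, ha⟩ := dns_of_dec hz 1
  have ha1 : w (z - algebraMap K E a) < 1 := (lt_one_iff_le_exp _).2 (by simpa using ha)
  have ha2 : w (algebraMap K E a) ≤ 1 := by
    rw [← sub_sub_cancel z (algebraMap K E a)]
    exact w.map_sub_le hz1 ha1.le
  obtain ⟨f, g, hg, hfg⟩ :=
    (Cen.le_one_iff (v := w.comap (algebraMap K E)) hα hP hw a).1 ha2
  have hg1 := (hw.eq_one g).2 hg
  have h3 : w (tE E α g * z - tE E α f) < 1 := by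
    have : tE E α g * z - tE E α f = tE E α g * (z - algebraMap K E a) := by
      rw [RingHom.comp_apply, RingHom.comp_apply, ← hfg, map_mul]
      ring
    rwa [this, map_mul, hg1, one_mul]
  obtain ⟨q, hq⟩ : g.map (residue R) ∣ f.map (residue R) := by
    refine dvd_of_sbs_dvd he (mt (vtas_poly hπ g).2 hg) fun c => ?_
    obtain ⟨y, hy⟩ := h1 c
    have := (vtas_ps hπ _).1 ((hj' c _ (sbs (RingHom.id R) (t c) e g * y -
      sbs (RingHom.id R) (t c) e f) (by simp only [map_sub, map_mul, hj, hy])).2.1 h3)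
    rw [map_sub, map_mul, vtas_sbs, vtas_sbs, ht, sub_eq_zero] at this
    exact ⟨_, this.symm⟩
  obtain ⟨p, rfl, hp⟩ := Polynomial.exists_natDegree_eq_of_mem_lifts
    ((Polynomial.mem_lifts q).2 (Polynomial.map_surjective _ residue_surjective q))
  have h4 : w (z - tE E α p) < 1 := by
    have e1 := (hw.2 (f - g * p)).2 ((vtas_poly hπ _).2 (by
      rw [Polynomial.map_sub, Polynomial.map_mul, hq, sub_self]))
    have e2 := w.map_add_lt h3 e1
    have : tE E α g * z - tE E α f + tE E α (f - g * p) = tE E α g * (z - tE E α p) := by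
      rw [map_sub, map_mul]
      ring
    rwa [this, map_mul, hg1, one_mul] at e2
  have hX1 : w (tE E α Polynomial.X) = 1 := (hw.eq_one _).2 fun h => by
    simpa using (vtas_poly hπ _).1 h
  obtain ⟨y, hy⟩ := h2
  rw [pow_mul, map_pow] at hy
  have h5 : ∀ n, m ≤ n → p.natDegree ≤ n → ∃ y', i (z - tE E α p) *
      algebraMap R⟦X⟧ _ (PowerSeries.X ^ e) ^ n = algebraMap R⟦X⟧ _ (PowerSeries.C π * y') ∧
      (m < n → π ∣ p.coeff n) := fun n hn hn' => by
    obtain ⟨u, hu, hu'⟩ := vtas_inf (i.comp (tE E α)) (algebraMap R⟦X⟧ _) he hC hX hn'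
    obtain ⟨k, rfl⟩ := Nat.exists_eq_add_of_le hn
    have e1 : i (z - tE E α p) * algebraMap R⟦X⟧ _ (PowerSeries.X ^ e) ^ (m + k) =
        algebraMap R⟦X⟧ _ (y * (PowerSeries.X ^ e) ^ k - u) := by
      rw [map_sub, sub_mul, map_sub, ← hu, map_mul, ← hy, map_pow _ _ k, mul_assoc, ← pow_add]
      rfl
    obtain ⟨y', hy'⟩ := (hi ((z - tE E α p) * (tE E α Polynomial.X)⁻¹ ^ (m + k)) _ (by
      rw [← e1, map_mul, map_pow, map_inv₀, ← eq_inv_of_mul_eq_one_right hX])).2.1 (by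
      rwa [map_mul, map_pow, map_inv₀, hX1, inv_one, one_pow, mul_one])
    refine ⟨y', e1.trans (congrArg _ hy'), fun h => ?_⟩
    have e2 := congrArg PowerSeries.constantCoeff hy'
    have hk : k ≠ 0 := by omega
    simp only [map_sub, map_mul, map_pow, PowerSeries.constantCoeff_X, zero_pow he, zero_pow hk,
      mul_zero, zero_sub, PowerSeries.constantCoeff_C, hu'] at e2
    exact dvd_neg.1 ⟨_, e2⟩
  have hm : p.natDegree ≤ m := not_lt.1 fun h => by
    obtain ⟨-, -, e1⟩ := h5 _ h.le le_rfl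
    have e2 : p.map (residue R) = 0 := by
      rw [← Polynomial.leadingCoeff_eq_zero, Polynomial.leadingCoeff, ← hp, Polynomial.coeff_map]
      exact (vtas_res hπ _).2 (e1 h)
    rw [e2, Polynomial.natDegree_zero] at hp
    omega
  refine ⟨p, (z - tE E α p) / tE E α (Polynomial.C π), hm, ?_, fun s hs => ?_, fun c => ?_, ?_⟩
  · rw [mul_div_cancel₀ _ hφ0, add_sub_cancel]
  · rw [map_div₀, map_sub, hz s hs, RingHom.comp_apply, RingHom.comp_apply, s.commutes, s.commutes]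
  · obtain ⟨x, hx⟩ := h1 c
    have e1 : j c (z - tE E α p) = algebraMap R⟦X⟧ _ (x - sbs (RingHom.id R) (t c) e p) := by
      rw [map_sub, map_sub, hx, hj]
    obtain ⟨x', hx'⟩ := (hj' c _ _ e1).2.1 h4
    have e2 : sbs (RingHom.id R) (t c) e (Polynomial.C π) = PowerSeries.C π := by simp [sbs]
    exact ⟨x', by rw [map_div₀, e1, hx', hj, e2, map_mul, mul_div_cancel_left₀ _ hπ0]⟩
  · obtain ⟨y', e1, -⟩ := h5 m le_rfl hm
    exact ⟨y', by rw [map_div₀, div_mul_eq_mul_div, pow_mul, map_pow, e1, hC, map_mul,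
      mul_div_cancel_left₀ _ hπ0]⟩

end Pool.Agent.ZCy
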