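import Pool.Agent.Lib.MP_751085_ag.ZC.V.Z1g
import Pool.Agent.Lib.MP_751085_ag.ZC.V.Pur
import Pool.Agent.Lib.MP_751085_ag.ZC.V.Irr

/-! Block V: the prime above a good line is unique. -/

namespace Pool.Agent.ZCy

open scoped Classical WithZero Polynomial PowerSeries LaurentSeries
open WithZero (exp)
open IsLocalRing

variable {σ k κ K E : Type} [Fintype σ] [Field k] [Field κ] [Field K] [Field E] [Algebra K E]
  [FiniteDimensional K E] [IsGalois K E] {α : MP σ k →+* K} {Θ : MP σ k} {a b : σ → k}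

/-- The arithmetic part: the group of `k' / k` acts on coefficients (`Stab.place_conj`). -/
theorem z1_const (hα : IsFr α) {k' : Type} [Field k'] [Algebra k k'] [FiniteDimensional k k']
    [IsGalois k k'] (β : IntOff (tE E α) 1 →+* MvPowerSeries σ k')
    (hβ : ∀ p, β (toInt _ 1 p) = MvPowerSeries.map (algebraMap k k') (pt (RingHom.id k) a p)) :
    ∃ H : Subgroup (E ≃ₐ[K] E), (∀ g ∈ H, ∃ γ : k' ≃ₐ[k] k', ∀ x,
        β (gI α 1 g x) = MvPowerSeries.map (γ : k' →+* k') (β x)) ∧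
      ∀ x : IntOff (tE E α) 1, (∀ g ∈ H, g (x : E) = x) →
        ∃ y, β x = MvPowerSeries.map (algebraMap k k') y := by
  have : IsDomain (MvPowerSeries σ k') := NoZeroDivisors.to_isDomain _
  let H : Subgroup (E ≃ₐ[K] E) :=
    { carrier := {g | ∃ γ : k' ≃ₐ[k] k', ∀ x,
        β (gI α 1 g x) = MvPowerSeries.map (γ : k' →+* k') (β x)}
      one_mem' := ⟨1, fun x => MvPowerSeries.ext fun _ => rfl⟩
      mul_mem' := fun {_ h} ⟨γ, hγ⟩ ⟨γ', hγ'⟩ => ⟨γ * γ', fun x =>
        (hγ (gI α 1 h x)).trans (by rw [hγ']; exact MvPowerSeries.ext fun _ => rfl)⟩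
      inv_mem' := fun {g} ⟨γ, hγ⟩ => ⟨γ⁻¹, fun x => by
        have := hγ (gI α 1 g⁻¹ x)
        rw [show gI α 1 g (gI α 1 g⁻¹ x) = x from Subtype.ext (g.apply_symm_apply x)] at this
        rw [this]
        exact MvPowerSeries.ext fun _ => (γ.symm_apply_apply _).symm⟩ }
  refine ⟨H, fun _ h => h, fun x hx => ?_⟩
  have : ∀ m, ∃ c : k, algebraMap k k' c = MvPowerSeries.coeff m (β x) := fun m =>
    mem_range_of_fix fun γ => by
      obtain ⟨g, _, hg⟩ := (stab_intOff α 1).place_conj β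
        ((MvPowerSeries.map (γ : k' →+* k')).comp β) fun y hy => by
          obtain ⟨p, hp⟩ := fix_intOff_one hα y.2 fun g => hy g trivial
          obtain rfl : toInt _ 1 p = y := Subtype.ext hp
          rw [RingHom.comp_apply, hβ]
          exact MvPowerSeries.ext fun _ => γ.commutes _
      have h1 : gI α 1 g x = x := Subtype.ext (hx g ⟨γ, fun y => (hg y).symm⟩)
      exact congrArg (MvPowerSeries.coeff m) ((hg x).trans (congrArg β h1))
  choose c hc using this
  exact ⟨c, MvPowerSeries.ext fun m => (hc m).symm⟩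

theorem vz1c_dvd {R : Type} [CommRing R] (z : R⟦X⟧⟦X⟧) :
    PowerSeries.C PowerSeries.X ∣ z ↔ PowerSeries.map PowerSeries.constantCoeff z = 0 := by
  refine ⟨?_, fun h => ?_⟩
  · rintro ⟨y, rfl⟩
    rw [map_mul, PowerSeries.map_C, PowerSeries.constantCoeff_X, map_zero, zero_mul]
  · have : ∀ n, ∃ c, PowerSeries.coeff n z = PowerSeries.X * c := fun n =>
      PowerSeries.X_dvd_iff.2 (by rw [← PowerSeries.coeff_map, h, map_zero])
    choose c hc using this
    exact ⟨PowerSeries.mk c, PowerSeries.ext fun n => by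
      rw [PowerSeries.coeff_C_mul, PowerSeries.coeff_mk, hc]⟩

theorem vz1c_ray (f : k →+* κ) (p : MP σ k) : ray f (fun i => f (b i)) (pt (RingHom.id k) a p) =
    (((line (RingHom.id k) a b p).map f : κ[X]) : κ⟦X⟧) := by
  have : (ray f fun i => f (b i)).comp (pt (RingHom.id k) a) =
      Polynomial.coeToPowerSeries.ringHom.comp
        ((Polynomial.mapRingHom f).comp (line (RingHom.id k) a b)) := by
    refine MvPolynomial.ringHom_ext (fun r => ?_) fun i => ?_
    · simp [pt_C, ray_C, line]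
    · simp [pt_X, ray_C, ray_X, line]
  exact RingHom.congr_fun this p

omit [Fintype σ] [FiniteDimensional K E] [IsGalois K E] in
/-- the stabiliser of an ideal -/
def vz1c_st (n : Ideal (IntOff (tE E α) 1)) : Subgroup (E ≃ₐ[K] E) where
  carrier := {g | ∀ x, gI α 1 g x ∈ n ↔ x ∈ n}
  one_mem' := fun _ => Iff.rfl
  mul_mem' := fun {_ h} hg hh x => (hg (gI α 1 h x)).trans (hh x)
  inv_mem' := fun {g} hg x => by
    rw [← hg (gI α 1 g⁻¹ x)]
    exact iff_of_eq (congrArg (· ∈ n) (Subtype.ext (g.apply_symm_apply x)))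

omit [Fintype σ] [FiniteDimensional K E] [IsGalois K E] in
theorem vz1c_le {n : Ideal (IntOff (tE E α) 1)} {H : Subgroup (E ≃ₐ[K] E)}
    (h : ∀ g ∈ H, ∀ x, x ∈ n → gI α 1 g x ∈ n) : H ≤ vz1c_st n := fun g hg x =>
  ⟨fun e => by
    have := h _ (inv_mem hg) _ e
    rwa [show gI α 1 g⁻¹ (gI α 1 g x) = x from Subtype.ext (g.symm_apply_apply x)] at this,
  h g hg x⟩

/-- Both subgroups stabilise `n`, and an element fixed by both is a polynomial over `k`. -/
theorem z1_exists (hα : IsFr α) (hG : (Nat.card (E ≃ₐ[K] E) : k) ≠ 0) (hu : UnrOff K (tE E α) Θ)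
    (hg : GoodLine Θ a b) : ∃ n : Ideal (IntOff (tE E α) 1), n.IsPrime ∧
      (∀ p, toInt _ 1 p ∈ n ↔ line (RingHom.id k) a b p = 0) ∧
      ∀ (g : E ≃ₐ[K] E) (x), x ∈ n → gI α 1 g x ∈ n := by
  obtain ⟨k', _, _, _, _, β₁, h₁⟩ := znp_hom hα hu (RingHom.id k) a hg.1.ne_zero
  have : IsDomain (MvPowerSeries σ k') := NoZeroDivisors.to_isDomain _
  let β₀ := β₁.comp (Subring.inclusion (intOff_mono (φ := tE E α) (one_dvd (Θ ^ 1))))
  have h₀ : ∀ p, β₀ (toInt _ 1 p) =
      MvPowerSeries.map (algebraMap k k') (pt (RingHom.id k) a p) := h₁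
  obtain ⟨κ, _, _, f', d, hd'⟩ := exists_generic_dir σ k'
  let f := f'.comp (algebraMap k k')
  have hd : Function.Injective (MvPolynomial.eval₂Hom f d) := fun p q e =>
    MvPolynomial.map_injective _ (algebraMap k k').injective (hd' (by
      simpa only [MvPolynomial.eval₂Hom_map_hom] using e))
  let β := (ray (PowerSeries.C.comp f') (dirn f b d)).comp β₀
  obtain ⟨H₁, s₁, t₁⟩ := z1_const hα β₀ h₀
  obtain ⟨H₂, s₂, t₂⟩ := z1_geo hα hG hu hg hd β fun p => by
    rw [RingHom.comp_apply, h₀, ray_map, coe_gline]; rfl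
  let ν := (ray (RingHom.id k') fun i => algebraMap k k' (b i)).comp β₀
  have e₂ : ∀ x, PowerSeries.C PowerSeries.X ∣ β x ↔ ν x = 0 := fun x => by
    rw [vz1c_dvd, ← map_eq_zero_iff _ (PowerSeries.map_injective f' f'.injective) (x := ν x),
      RingHom.comp_apply _ β₀, RingHom.comp_apply _ β₀, map_ray, map_ray]
    refine iff_of_eq (congrArg (· = 0) (congrArg₂ (fun u v => ray u v (β₀ x))
      (RingHom.ext fun r => ?_) (funext fun i => ?_)))
    · simp
    · simp [dirn, f]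
  have l₁ : H₁ ≤ vz1c_st (RingHom.ker ν) := vz1c_le fun g h x hx => by
    obtain ⟨γ, hγ⟩ := s₁ g h
    have := congrArg (PowerSeries.map (γ : k' →+* k')) (RingHom.mem_ker.1 hx)
    rw [map_zero, RingHom.comp_apply, map_ray] at this
    rw [RingHom.mem_ker, RingHom.comp_apply, hγ, ray_map, ← this]
    exact congrArg (fun v => ray _ v (β₀ x)) (funext fun i => (γ.commutes _).symm)
  have l₂ : H₂ ≤ vz1c_st (RingHom.ker ν) := vz1c_le fun g h x hx =>
    (e₂ _).1 (s₂ g h x ((e₂ x).2 hx))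
  have top : IntermediateField.fixedField (vz1c_st (RingHom.ker ν)) = ⊥ := by
    refine eq_bot_iff.2 fun x hx => ?_
    obtain ⟨c, c0, hc⟩ := exists_mul_mem_intOff hα x
    have fx : ∀ g ∈ vz1c_st (RingHom.ker ν), g (tE E α c * x) = tE E α c * x := fun g h => by
      rw [map_mul, (IntermediateField.mem_fixedField_iff _ _).1 hx g h]
      exact congrArg (· * x) (g.commutes _)
    obtain ⟨z, hz⟩ := t₁ ⟨_, hc⟩ fun g h => fx g (l₁ h)
    obtain ⟨q, hq⟩ := t₂ ⟨_, hc⟩ fun g h => fx g (l₂ h)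
    rw [RingHom.comp_apply, hz, ray_map] at hq
    obtain ⟨p', hp'⟩ := exists_poly_of_blow (f := z) (N := q.natDegree + 1) fun n hn =>
      dirn_indep (b := b) hd (by
        have := congrArg (PowerSeries.coeff n) hq
        rw [Polynomial.coeff_coe, Polynomial.coeff_eq_zero_of_natDegree_lt hn] at this
        rw [map_zero]
        exact this)
    obtain ⟨p, rfl⟩ := (tr_bij a).2 p'
    rw [← hp', ← pt_eq, ← h₀] at hz
    have hi := inj_of_toInt hα β₀ fun u v e => pt_inj (y := a) (f := RingHom.id k)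
      Function.injective_id (MvPowerSeries.ext fun m => (algebraMap k k').injective
        (congrArg (MvPowerSeries.coeff m) ((h₀ u).symm.trans (e.trans (h₀ v)))))
    have e : tE E α c * x = tE E α p := congrArg Subtype.val (hi hz)
    have c1 : algebraMap K E (α c) ≠ 0 := (map_ne_zero _).2 ((map_ne_zero_iff _ hα.1).2 c0)
    refine IntermediateField.mem_bot.2 ⟨α p / α c, ?_⟩
    rw [map_div₀]
    exact (div_eq_iff c1).2 (e.symm.trans (mul_comm _ _))
  refine ⟨RingHom.ker ν, RingHom.ker_isPrime ν, fun p => ?_, fun g x hx => ?_⟩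
  · rw [RingHom.mem_ker, RingHom.comp_apply, h₀, ray_map, RingHom.id_comp, vz1c_ray,
      Polynomial.coe_eq_zero_iff, Polynomial.map_eq_zero]
  · have : g ∈ vz1c_st (RingHom.ker ν) := by
      rw [← IntermediateField.fixingSubgroup_fixedField (vz1c_st _), top,
        IntermediateField.fixingSubgroup_bot]
      trivial
    exact (this x).2 hx

theorem z1_stable (hα : IsFr α) (hG : (Nat.card (E ≃ₐ[K] E) : k) ≠ 0) (hu : UnrOff K (tE E α) Θ)
    (hg : GoodLine Θ a b) {Ω : Type} [CommRing Ω] [IsDomain Ω] (ρ : IntOff (tE E α) Θ →+* Ω)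
    (hρ : ∀ p, ρ (toInt _ Θ p) = 0 ↔ line (RingHom.id k) a b p = 0) (g : E ≃ₐ[K] E) {x}
    (hx : ρ x = 0) : ρ (gI α Θ g x) = 0 := by
  obtain ⟨n₀, _, h₀, s₀⟩ := z1_exists hα hG hu hg
  let ι := Subring.inclusion (intOff_mono (φ := tE E α) (one_dvd (Θ ^ 1)))
  have := RingHom.ker_isPrime (ρ.comp ι)
  obtain ⟨m, hm⟩ := exists_pow_mul_mem hα x.2
  have h1 := stable_of_exists hα n₀ (RingHom.ker (ρ.comp ι)) s₀
    (fun p => (hρ p).trans (h₀ p).symm) g ⟨_, hm⟩ (by
      have e : ι ⟨_, hm⟩ = toInt _ Θ Θ ^ m * x := rfl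
      rw [RingHom.mem_ker, RingHom.comp_apply, e, map_mul, hx, mul_zero])
  have e : ι (gI α 1 g ⟨_, hm⟩) = toInt _ Θ Θ ^ m * gI α Θ g x := Subtype.ext (by
    change g (_ * _) = _ ^ m * g _
    rw [map_mul, map_pow]
    exact congrArg (· ^ m * g x) (g.commutes _))
  rw [RingHom.mem_ker, RingHom.comp_apply, e, map_mul, map_pow] at h1
  exact (mul_eq_zero.1 h1).resolve_left
    (pow_ne_zero _ fun h => hg.2.1.ne_zero ((hρ Θ).1 h))

/-- Z1L -/
theorem z1l {χ p q : (MP σ k)[X]} (hm : χ.Monic) (hi : Irreducible χ)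
    (hδ : (χ.natDegree.factorial : k) ≠ 0) {N : ℕ}
    (hb : Polynomial.C (Θ ^ N) = p * χ + q * χ.derivative) (hg : GoodLine Θ a b) (h0 : b ≠ 0) :
    Irreducible (χ.map (line (RingHom.id k) a b)) := by
  have hα := isFr_alg (MP σ k) (Fr (MP σ k))
  refine irr_core hα hm hi hb (fun r => ?_) hg.2.1.ne_zero fun E _ _ _ _ hd hu n _ hn g x hx => ?_
  · obtain ⟨i, hi⟩ := Function.ne_iff.1 h0
    refine ⟨r.eval₂ MvPolynomial.C
      (MvPolynomial.C (b i)⁻¹ * (MvPolynomial.X i - MvPolynomial.C (a i))), ?_⟩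
    have e1 : (line (RingHom.id k) a b).comp MvPolynomial.C = Polynomial.C :=
      RingHom.ext fun c => by simp [line]
    have e2 : line (RingHom.id k) a b
        (MvPolynomial.C (b i)⁻¹ * (MvPolynomial.X i - MvPolynomial.C (a i))) = Polynomial.X := by
      simp [line, ← mul_assoc, ← map_mul, inv_mul_cancel₀ (show b i ≠ 0 from hi)]
    rw [Polynomial.hom_eval₂, e1, e2, Polynomial.eval₂_C_X]
  · obtain ⟨n₀, _, h₀, s₀⟩ := z1_exists hα
      (fun e => hδ (eq_zero_of_zero_dvd (e ▸ Nat.cast_dvd_cast hd))) hu hg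
    exact stable_of_exists hα n₀ n s₀ (fun f => (hn f).trans (h₀ f).symm) g x hx

end Pool.Agent.ZCy
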