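import Pool.Agent.Lib.MP_751085_ag.ZC.V.Z1a
import Pool.Agent.Lib.MP_751085_ag.ZC.V.Ta

/-! Block V: the generic line near a good line is inert. -/

namespace Pool.Agent.ZCy

open scoped Classical WithZero Polynomial PowerSeries LaurentSeries
open WithZero (exp)
open IsLocalRing

section aux

variable {A T K' E' : Type} [CommRing A] [CommRing T] [IsDomain T] [Field K'] [Field E']
  [Algebra K' E'] {α' : A →+* K'} {co : A →+* T} {ι : E' →+* Fr T} {P : A}

theorem vz1g_cen (hι : ∀ p, ι (tE E' α' p) = algebraMap T (Fr T) (co p)) {V : Vl (Fr T)}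
    (hV : Cen (algebraMap T (Fr T)) V (co P)) (hP : ∀ p, co P ∣ co p ↔ P ∣ p) :
    Cen (tE E' α') (V.comap ι) P :=
  ⟨fun p => by rw [Valuation.comap_apply, hι]; exact hV.1 _,
    fun p => by rw [Valuation.comap_apply, hι, hV.2, hP]⟩

theorem vz1g_unr [WfDvdMonoid A] [WfDvdMonoid T] [FiniteDimensional K' E'] [IsGalois K' E']
    (hα : IsFr α') (hι : ∀ p, ι (tE E' α' p) = algebraMap T (Fr T) (co p)) (h1 : Prime P)
    (h2 : Prime (co P)) (hP : ∀ p, co P ∣ co p ↔ P ∣ p)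
    (hG : IsUnit (Nat.card (E' ≃ₐ[K'] E') : A)) {w : Vl E'} (hw : Cen (tE E' α') w P) :
    Ine K' w = ⊥ := by
  obtain ⟨V, hV, hV1⟩ := exists_vcen (isFr_alg T (Fr T)) h2
  have hc := vz1g_cen hι hV hP
  have hc' : Cen α' (V.comap (ι.comp (algebraMap K' E'))) P := hc
  refine unr_of_emb_v (φ := ι.comp (algebraMap K' E')) (v' := V) ⟨α' P, ?_⟩
    (idx_one_iff.2 fun _ => rfl) ?_ ⟨ι, fun _ => rfl⟩ w ((hc'.over hα h1).1 hw)
  · exact (congrArg V (hι P)).trans hV1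
  · rw [← map_natCast α', hc'.eq_one]
    exact fun h => h1.not_isUnit (isUnit_of_dvd_unit h hG)

end aux

theorem vz1g_C {R : Type} [CommRing R] (c : R) (p : R[X]) :
    Polynomial.coeToPowerSeries.ringHom (Polynomial.C c) ∣ Polynomial.coeToPowerSeries.ringHom p ↔
      Polynomial.C c ∣ p := by
  rw [Polynomial.coeToPowerSeries.ringHom_apply, Polynomial.coeToPowerSeries.ringHom_apply,
    Polynomial.coe_C, Polynomial.C_dvd_iff_dvd_coeff]
  refine ⟨fun ⟨q, hq⟩ n => ⟨PowerSeries.coeff n q, ?_⟩, fun h => ?_⟩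
  · rw [← Polynomial.coeff_coe, hq, PowerSeries.coeff_C_mul]
  · choose q hq using h
    refine ⟨PowerSeries.mk q, PowerSeries.ext fun n => ?_⟩
    rw [Polynomial.coeff_coe, hq, PowerSeries.coeff_C_mul, PowerSeries.coeff_mk]

theorem vz1g_X {R : Type} [CommRing R] (p : R[X]) :
    Polynomial.coeToPowerSeries.ringHom (Polynomial.X : R[X]) ∣
      Polynomial.coeToPowerSeries.ringHom p ↔ Polynomial.X ∣ p := by
  rw [Polynomial.coeToPowerSeries.ringHom_apply, Polynomial.coeToPowerSeries.ringHom_apply,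
    Polynomial.coe_X, PowerSeries.X_dvd_iff, Polynomial.X_dvd_iff, Polynomial.constantCoeff_coe]

variable {σ k κ K E : Type} [Fintype σ] [Field k] [Field κ] [Field K] [Field E] [Algebra K E]
  [FiniteDimensional K E] [IsGalois K E] {α : MP σ k →+* K} {Θ : MP σ k} {a b : σ → k}

/-- The geometric part: base change to the generic line, then `ta_int`. -/
theorem z1_geo [IsAlgClosed κ] (hα : IsFr α) (hG : (Nat.card (E ≃ₐ[K] E) : k) ≠ 0)
    (hu : UnrOff K (tE E α) Θ) (hg : GoodLine Θ a b) {f : k →+* κ} {d : σ → κ}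
    (hd : Function.Injective (MvPolynomial.eval₂Hom f d)) (β : IntOff (tE E α) 1 →+* κ⟦X⟧⟦X⟧)
    (hβ : ∀ p, β (toInt _ 1 p) = (gline f a b d p : κ⟦X⟧⟦X⟧)) :
    ∃ H : Subgroup (E ≃ₐ[K] E),
      (∀ g ∈ H, ∀ x, PowerSeries.C PowerSeries.X ∣ β x →
        PowerSeries.C PowerSeries.X ∣ β (gI α 1 g x)) ∧
      ∀ x : IntOff (tE E α) 1, (∀ g ∈ H, g (x : E) = x) → ∃ q : κ⟦X⟧[X], β x = q := by
  let co : κ⟦X⟧[X] →+* κ⟦X⟧⟦X⟧ := Polynomial.coeToPowerSeries.ringHom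
  have hco : Function.Injective co := Polynomial.coe_injective _
  have hT : Function.Injective (algebraMap κ⟦X⟧⟦X⟧ (Fr κ⟦X⟧⟦X⟧)) := IsFractionRing.injective _ _
  obtain ⟨K', _, α', hα'⟩ : ∃ (K' : Type) (_ : Field K') (α' : κ⟦X⟧[X] →+* K'), IsFr α' :=
    ⟨_, _, _, isFr_alg κ⟦X⟧[X] (Fr κ⟦X⟧[X])⟩
  obtain ⟨ψ, hψ⟩ := hα'.exists_lift (β := (algebraMap κ⟦X⟧⟦X⟧ (Fr κ⟦X⟧⟦X⟧)).comp co) (hT.comp hco)
  obtain ⟨φ, hφ⟩ := hα.exists_lift (β := α'.comp (gline f a b d)) (hα'.1.comp (gline_inj hd))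
  obtain ⟨J, hJ⟩ := exists_embT hα β fun p q e => gline_inj (a := a) (b := b) hd
    (hco ((hβ p).symm.trans (e.trans (hβ q))))
  obtain ⟨E', _, _, _, _, ι, j, r, hιj, hι, hj, hr, hi⟩ : ∃ (E' : Type) (_ : Field E')
      (_ : Algebra K' E') (_ : FiniteDimensional K' E') (_ : IsGalois K' E')
      (ι : E' →+* Fr κ⟦X⟧⟦X⟧) (j : E →+* E') (r : (E' ≃ₐ[K'] E') →* (E ≃ₐ[K] E)),
      (∀ x, ι (j x) = J x) ∧ (∀ x, ι (algebraMap K' E' x) = ψ x) ∧ Sq φ j ∧ Rs j r ∧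
        Function.Injective r := by
    let := ψ.toAlgebra
    have hs : J.comp (algebraMap K E) = ψ.comp φ := hα.hom_ext fun p =>
      (hJ (toInt _ 1 p)).trans (by rw [hβ, RingHom.comp_apply, hφ, RingHom.comp_apply, hψ]; rfl)
    obtain ⟨h1, h2, j, r, h3, h4⟩ := bc_in (φ := φ) (j := J) fun x => RingHom.congr_fun hs x
    exact ⟨_, _, _, h1, h2, (IntermediateField.adjoin K' (Set.range J)).val.toRingHom, j, r, h3,
      fun _ => rfl, h4⟩
  have hι' : ∀ p, ι (tE E' α' p) = algebraMap κ⟦X⟧⟦X⟧ _ (co p) := fun p => (hι _).trans (hψ p)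
  have hjα : j.comp (tE E α) = (tE E' α').comp (gline f a b d) := RingHom.ext fun p =>
    (hj _).trans (congrArg _ (hφ p))
  have hG' : IsUnit (Nat.card (E' ≃ₐ[K'] E') : κ⟦X⟧) := by
    obtain ⟨c, hc⟩ := Subgroup.card_dvd_of_injective r hi
    rw [hc, Nat.cast_mul] at hG
    simpa only [map_natCast] using
      (left_ne_zero_of_mul hG).isUnit.map ((PowerSeries.C : κ →+* κ⟦X⟧).comp f)
  have hG'' : IsUnit (Nat.card (E' ≃ₐ[K'] E') : κ⟦X⟧[X]) := by
    simpa only [map_natCast] using hG'.map (Polynomial.C : κ⟦X⟧ →+* κ⟦X⟧[X])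
  have hy : Prime (Polynomial.C PowerSeries.X : κ⟦X⟧[X]) :=
    Polynomial.prime_C_iff.2 PowerSeries.X_prime
  have hcy : co (Polynomial.C PowerSeries.X) = PowerSeries.C PowerSeries.X := Polynomial.coe_C _
  have hcx : co Polynomial.X = PowerSeries.X := Polynomial.coe_X
  have hy' : Prime (co (Polynomial.C PowerSeries.X)) := hcy ▸ prime_ps_C PowerSeries.X_prime
  have hu' : UnrOff K' (tE E' α') (gline f a b d Θ) := fun P w hP hn hw => by
    by_cases h1 : P ∣ Polynomial.C PowerSeries.X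
    · exact vz1g_unr hα' hι' hy hy' (vz1g_C _) hG'' (hw.assoc (hP.associated_of_dvd hy h1))
    by_cases h2 : P ∣ Polynomial.X
    · exact vz1g_unr hα' hι' Polynomial.prime_X (hcx ▸ PowerSeries.X_prime) vz1g_X hG''
        (hw.assoc (hP.associated_of_dvd Polynomial.prime_X h2))
    refine ine_bot_of_cen hα hr hi hu
      ((congrArg w (RingHom.congr_fun hjα Θ)).trans ((hw.eq_one _).2 hn)) ?_
    have := cen_gline (a := a) (b := b) hd hw.1 (fun c hc => (hw.eq_one _).2 fun h => by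
      obtain ⟨n, u, rfl⟩ :=
        IsDiscreteValuationRing.eq_unit_mul_pow_irreducible hc PowerSeries.X_irreducible
      rw [map_mul, map_pow] at h
      exact h1 (hP.dvd_of_dvd_pow ((u.isUnit.map Polynomial.C).dvd_mul_left.1 h)))
      ((hw.eq_one _).2 h2)
    rw [← hjα] at this
    exact this.imp_left fun h p hp => (congrArg w (RingHom.congr_fun hjα p)).trans (h p hp)
  obtain ⟨V, hV, -⟩ := exists_vcen (isFr_alg κ⟦X⟧⟦X⟧ (Fr κ⟦X⟧⟦X⟧)) hy'
  have := isAlgClosed_res_ps κ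
  have hD : Dec K' (V.comap ι) = ⊤ := ta_int hα' hG'.ne_zero (gline_good hg).1 (gline_good hg).2.1
    hu' PowerSeries.X_irreducible (vz1g_cen hι' hV (vz1g_C _))
  refine ⟨r.range, ?_, fun x hx => ?_⟩
  · rintro _ ⟨g, rfl⟩ x h
    rw [← hcy, ← hV.2, ← hJ, ← hιj] at h ⊢
    rw [coe_gI, hr]
    exact ((hD.ge (Subgroup.mem_top g)) (j x)).trans_lt h
  · have h1 := intOff_map hα (j := j) (ψ := gline f a b d) (φ' := tE E' α')
      (fun p => RingHom.congr_fun hjα p) x.2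
    rw [map_one] at h1
    obtain ⟨q, hq⟩ := fix_intOff_one hα' h1 fun g => by rw [← hr, hx _ ⟨g, rfl⟩]
    exact ⟨q, hT (by rw [← hJ, ← hιj, ← hq, hι']; rfl)⟩

end Pool.Agent.ZCy
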