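import Pool.Agent.Lib.MP_751085_ag.ZC.V.IntB

/-! Block V: generators of the integral closure at a prime of height two. -/

namespace Pool.Agent.ZCy

open scoped Classical WithZero Polynomial PowerSeries LaurentSeries
open WithZero (exp)

variable {A K E : Type} [CommRing A] [IsDomain A] [UniqueFactorizationMonoid A] [IsNoetherianRing A]
  [Field K] [Field E] [Algebra K E] [FiniteDimensional K E] [IsGalois K E] {α : A[X] →+* K} {P : A}

omit [IsNoetherianRing A] [FiniteDimensional K E] [IsGalois K E] in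
/-- `B / X B` is torsion free over `A`: test at every prime of `A[X]`. -/
theorem zn2_tf (hα : IsFr α) {a : A} (ha : a ≠ 0) {x : E} (hx : x ∈ IntOff (tE E α) 1)
    (h : tE E α (Polynomial.C a) * x / tE E α Polynomial.X ∈ IntOff (tE E α) 1) :
    x / tE E α Polynomial.X ∈ IntOff (tE E α) 1 := by
  intro Q w hQ h1 hw
  by_cases hX : Q ∣ Polynomial.X
  · have h2 : ¬Q ∣ Polynomial.C a := fun h3 => ha (by
      simpa using Polynomial.X_dvd_iff.1
        ((hQ.associated_of_dvd Polynomial.prime_X hX).symm.dvd.trans h3))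
    have h4 := h Q w hQ h1 hw
    rwa [mul_div_assoc, map_mul, (hw.eq_one _).2 h2, one_mul] at h4
  · rw [map_div₀, (hw.eq_one _).2 hX, div_one]
    exact hx Q w hQ h1 hw

theorem vzn1_desc {R ι : Type} [CommRing R] [IsDomain R] [WfDvdMonoid R] {p : R} (hp : Prime p)
    {S : (ι → R) → Prop} (h : ∀ a, S a → ∃ a', S a' ∧ ∀ i, a i = p * a' i) {a : ι → R} (ha : S a)
    (i : ι) : a i = 0 := by
  have key : ∀ n a, S a → p ^ n ∣ a i := by
    intro n
    induction n with
    | zero => simp
    | succ n ih =>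
      intro a ha
      obtain ⟨a', h1, h2⟩ := h a ha
      rw [h2, pow_succ']
      exact mul_dvd_mul_left _ (ih a' h1)
  by_contra h0
  obtain ⟨n, hn⟩ := FiniteMultiplicity.of_prime_left hp h0
  exact hn (key _ a ha)

/-- independence modulo `(C P, X)` -/
def vzn1_Ind (φ : A[X] →+* E) (P : A) {m : ℕ} (b : Fin m → E) : Prop :=
  (∀ i, b i ∈ IntOff φ 1) ∧ ∀ (a : Fin m → A[X]), ∀ u ∈ IntOff φ 1, ∀ v ∈ IntOff φ 1,
    ∑ i, φ (a i) * b i = φ (Polynomial.C P) * u + φ Polynomial.X * v → ∀ i, P ∣ (a i).coeff 0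

omit [IsNoetherianRing A] [IsGalois K E] in
theorem vzn1_le (hα : IsFr α) (hP : Prime P) {m : ℕ} {b : Fin m → E}
    (h : vzn1_Ind (tE E α) P b) : m ≤ Module.finrank K E := by
  have hi : Function.Injective (tE E α) := (algebraMap K E).injective.comp hα.1
  have hX : tE E α Polynomial.X ≠ 0 := (map_ne_zero_iff _ hi).2 Polynomial.X_ne_zero
  have hB : ∀ a : Fin m → A[X], ∑ i, tE E α (a i) * b i ∈ IntOff (tE E α) 1 := fun a =>
    sum_mem fun i _ => mul_mem (toInt (tE E α) 1 (a i)).2 (h.1 i)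
  have h1 : ∀ c : Fin m → A, (∑ i, tE E α (Polynomial.C (c i)) * b i) / tE E α Polynomial.X ∈
      IntOff (tE E α) 1 → ∀ i, c i = 0 := fun c hc => vzn1_desc hP (fun c hc => by
    choose c' hc' using h.2 (fun i => Polynomial.C (c i)) 0 (zero_mem _) _ hc
      (by rw [mul_zero, zero_add, mul_div_cancel₀ _ hX])
    simp only [Polynomial.coeff_C_zero] at hc'
    refine ⟨c', zn2_tf hα hP.ne_zero (hB _) ?_, hc'⟩
    simpa only [hc', map_mul, Finset.mul_sum, mul_assoc] using hc) hc
  have h2 : ∀ a : Fin m → A[X], ∑ i, tE E α (a i) * b i = 0 → ∀ i, a i = 0 := fun a ha =>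
    vzn1_desc (S := fun a => ∑ i, tE E α (a i) * b i = 0) Polynomial.prime_X (fun a ha => by
      have e : tE E α Polynomial.X * ∑ i, tE E α (a i).divX * b i +
          ∑ i, tE E α (Polynomial.C ((a i).coeff 0)) * b i = 0 := by
        rw [← ha, Finset.mul_sum, ← Finset.sum_add_distrib]
        refine Finset.sum_congr rfl fun i _ => ?_
        rw [← mul_assoc, ← add_mul, ← map_mul, ← map_add, Polynomial.X_mul_divX_add]
      have h3 := h1 (fun i => (a i).coeff 0) (by
        rw [eq_neg_of_add_eq_zero_right e, neg_div, mul_div_cancel_left₀ _ hX]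
        exact neg_mem (hB _))
      simp only [h3, map_zero, zero_mul, Finset.sum_const_zero, add_zero] at e
      refine ⟨fun i => (a i).divX, (mul_eq_zero.1 e).resolve_left hX, fun i => ?_⟩
      rw [← add_zero (_ * _), ← map_zero Polynomial.C, ← h3 i, Polynomial.X_mul_divX_add]) ha
  let _ := α.toAlgebra
  let _ := (tE E α).toAlgebra
  have := hα.frac
  have : IsScalarTower A[X] K E := IsScalarTower.of_algebraMap_eq fun _ => rfl
  have h4 : LinearIndependent A[X] b := Fintype.linearIndependent_iff.2 h2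
  simpa using ((LinearIndependent.iff_fractionRing A[X] K).1 h4).fintype_card_le_finrank

/-- A maximal family that is independent modulo `(C P, X)` generates after a localisation. -/
theorem zn2_gen (hα : IsFr α) (hP : Prime P) : ∃ (m : ℕ) (b : Fin m → E) (s : A[X]),
    m ≤ Module.finrank K E ∧ (∀ i, b i ∈ IntOff (tE E α) 1) ∧ ¬P ∣ s.coeff 0 ∧
      ∀ x ∈ IntOff (tE E α) 1, ∃ a : Fin m → A[X], tE E α s * x = ∑ i, tE E α (a i) * b i := by
  obtain ⟨n, g, hg, hg'⟩ := exists_gen (E := E) hα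
  obtain ⟨m, ⟨b, hb⟩, hm⟩ : ∃ m, (∃ b : Fin m → E, vzn1_Ind (tE E α) P b) ∧
      ¬∃ b : Fin (m + 1) → E, vzn1_Ind (tE E α) P b := by
    by_contra h0
    push Not at h0
    have h1 : ∀ m, ∃ b : Fin m → E, vzn1_Ind (tE E α) P b := fun m => by
      induction m with
      | zero => exact ⟨Fin.elim0, fun i => i.elim0, fun _ _ _ _ _ _ i => i.elim0⟩
      | succ m ih => exact h0 m ih
    obtain ⟨b, hb⟩ := h1 (Module.finrank K E + 1)
    exact Nat.not_succ_le_self _ (vzn1_le hα hP hb)
  have key : ∀ j, ∃ (s : A[X]) (a : Fin m → A[X]) (c : Fin n → A[X]), ¬P ∣ s.coeff 0 ∧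
      (∀ k, P ∣ (c k).coeff 0) ∧
      tE E α s * g j - ∑ k, tE E α (c k) * g k = ∑ i, tE E α (a i) * b i := by
    intro j
    have h1 : ¬vzn1_Ind (tE E α) P (Fin.cons (g j) b : Fin (m + 1) → E) := fun h => hm ⟨_, h⟩
    rw [vzn1_Ind, not_and] at h1
    have h2 := h1 fun i => Fin.cases (hg j) (fun i => hb.1 i) i
    push Not at h2
    obtain ⟨a, u, hu, v, hv, e, i, hi⟩ := h2
    simp only [Fin.sum_univ_succ, Fin.cons_zero, Fin.cons_succ] at e
    obtain ⟨u', rfl⟩ := hg' u hu
    obtain ⟨v', rfl⟩ := hg' v hv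
    refine ⟨a 0, fun i => -a i.succ, fun k => Polynomial.C P * u' k + Polynomial.X * v' k,
      fun ⟨c, hc⟩ => hi (Fin.cases ⟨c, hc⟩ (hb.2 (fun i => a i.succ)
        _ (sub_mem hu (mul_mem (toInt _ 1 (Polynomial.C c)).2 (hg j)))
        _ (sub_mem hv (mul_mem (toInt _ 1 (a 0).divX).2 (hg j))) ?_) i), fun k => by simp, ?_⟩
    · have e1 := congrArg (tE E α) (a 0).X_mul_divX_add
      rw [hc, map_add, map_mul, map_mul, map_mul] at e1
      simp only [coe_toInt]
      linear_combination e + g j * e1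
    · simp only [map_add, map_mul, map_neg, add_mul, neg_mul, Finset.sum_add_distrib,
        Finset.sum_neg_distrib, mul_assoc, ← Finset.mul_sum]
      linear_combination e
  choose s a c hs hc e using key
  let D : Matrix (Fin n) (Fin n) A[X] := Matrix.diagonal s - Matrix.of c
  have e1 : (D.map (tE E α)).mulVec g = ((Matrix.of a).map (tE E α)).mulVec b := funext fun j => by
    refine Eq.trans ?_ (e j)
    simp [D, Matrix.mulVec, dotProduct, Matrix.diagonal_apply, sub_mul, apply_ite,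
      Finset.sum_sub_distrib]
  have e2 : tE E α D.det • g = ((D.adjugate * Matrix.of a).map (tE E α)).mulVec b := by
    rw [Matrix.map_mul, ← Matrix.mulVec_mulVec, ← e1, Matrix.mulVec_mulVec, ← Matrix.map_mul,
      Matrix.adjugate_mul]
    funext j
    simp [Matrix.mulVec, dotProduct, Matrix.one_apply, apply_ite]
  refine ⟨m, b, D.det, vzn1_le hα hP hb, hb.1, fun h => ?_, fun x hx => ?_⟩
  · let ψ := (Ideal.Quotient.mk (Ideal.span {P})).comp (Polynomial.constantCoeff (R := A))
    have hψ : ∀ f, ψ f = 0 ↔ P ∣ f.coeff 0 := fun f =>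
      Ideal.Quotient.eq_zero_iff_mem.trans Ideal.mem_span_singleton
    have h1 : ψ.mapMatrix D = ψ.mapMatrix (Matrix.diagonal s) := by
      ext j k
      simp [D, (hψ _).2 (hc j k)]
    have h2 := (hψ _).2 h
    rw [RingHom.map_det, h1, ← RingHom.map_det, Matrix.det_diagonal, hψ,
      ← Polynomial.constantCoeff_apply, map_prod] at h2
    obtain ⟨j, -, hj⟩ := hP.exists_mem_finset_dvd h2
    exact hs j hj
  · obtain ⟨r, rfl⟩ := hg' x hx
    refine ⟨Matrix.vecMul r (D.adjugate * Matrix.of a), ?_⟩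
    have e3 : ∀ j, tE E α D.det * g j = ∑ i, tE E α ((D.adjugate * Matrix.of a) j i) * b i :=
      congrFun e2
    simp only [Finset.mul_sum, mul_left_comm (tE E α D.det), e3, Matrix.vecMul, dotProduct,
      map_sum, map_mul, Finset.sum_mul, mul_assoc]
    exact Finset.sum_comm

end Pool.Agent.ZCy
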