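import Pool.Agent.Lib.MP_751085_ag.ZC.V.Zn1
import Pool.Agent.Lib.MP_751085_ag.ZC.V.Jid

/-! Block V: purity in codimension two. -/

namespace Pool.Agent.ZCy

open scoped Classical WithZero Polynomial PowerSeries LaurentSeries
open WithZero (exp)

variable {A K E : Type} [CommRing A] [IsDomain A] [UniqueFactorizationMonoid A] [IsNoetherianRing A]
  [Field K] [Field E] [Algebra K E] [FiniteDimensional K E] [IsGalois K E] {α : A[X] →+* K} {P : A}

omit [IsDomain A] [UniqueFactorizationMonoid A] [IsNoetherianRing A] [IsGalois K E] in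
/-- Galois coordinates give an inverse of the matrix `g (b i)` up to `c`. -/
theorem det_dvd {S : Subring E} (hS : Stab (⊤ : Subgroup (E ≃ₐ[K] E)) S) (b x : (E ≃ₐ[K] E) → S)
    (c : S) (hc : ∀ g : E ≃ₐ[K] E, g (c : E) = c)
    (h : ∀ g : E ≃ₐ[K] E, ∑ i, (x i : E) * g (b i) = if g = 1 then (c : E) else 0) :
    (Matrix.of fun g i => hS.act (Subgroup.mem_top g) (b i)).det ∣
      c ^ Fintype.card (E ≃ₐ[K] E) := by
  have e : (Matrix.of fun g i => hS.act (Subgroup.mem_top g) (b i)) *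
      (Matrix.of fun i g => hS.act (Subgroup.mem_top g) (x i)) = Matrix.diagonal fun _ => c := by
    ext g g'
    have h1 := congrArg g' (h (g'⁻¹ * g))
    rw [map_sum, apply_ite g', hc, map_zero] at h1
    rw [Matrix.mul_apply, Matrix.diagonal_apply, AddSubmonoidClass.coe_finsetSum,
      apply_ite Subtype.val, ZeroMemClass.coe_zero,
      ← if_congr (inv_mul_eq_one.trans eq_comm) rfl rfl, ← h1]
    refine Finset.sum_congr rfl fun i _ => ?_
    rw [map_mul, ← AlgEquiv.mul_apply, mul_inv_cancel_left, mul_comm]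
    rfl
  have e' := congrArg Matrix.det e
  rw [Matrix.det_mul, Matrix.det_diagonal, Finset.prod_const, Finset.card_univ] at e'
  exact ⟨_, e'.symm⟩

/-- the centre of a valuation on a subring -/
theorem vzn2_ideal (S : Subring E) (w : Vl E) (h : ∀ x ∈ S, w x ≤ 1) :
    ∃ n : Ideal S, n.IsPrime ∧ ∀ x : S, x ∉ n ↔ w x = 1 := by
  let n : Ideal S :=
    { carrier := {x | w x < 1}
      add_mem' := fun ha hb => w.map_add_lt ha hb
      zero_mem' := by simp
      smul_mem' := fun c x hx => by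
        change w ((c : E) * x) < 1
        rw [map_mul]
        exact (mul_le_mul_left (h _ c.2) _).trans_lt (by rwa [one_mul]) }
  have hn : ∀ x : S, x ∉ n ↔ w x = 1 := fun x =>
    ⟨fun e => le_antisymm (h _ x.2) (not_lt.1 e), fun e e' => (show w x < 1 from e').ne e⟩
  refine ⟨n, ⟨(Ideal.ne_top_iff_one _).2 ((hn 1).2 (by simp)), fun {x y} e => ?_⟩, hn⟩
  by_contra h1
  rw [not_or, hn, hn] at h1
  exact (hn _).2 (by rw [Subring.coe_mul, map_mul, h1.1, h1.2, one_mul]) e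

omit [IsDomain A] [IsNoetherianRing A] in
theorem vzn2_prime (hP : Prime P) (f : A[X]) :
    f ≠ 0 → P ∣ f.coeff 0 → ∃ Q, Prime Q ∧ P ∣ Q.coeff 0 ∧ Q ∣ f := by
  induction f using UniqueFactorizationMonoid.induction_on_prime with
  | h₁ => exact fun h => absurd rfl h
  | h₂ f hf =>
    exact fun _ h => absurd (isUnit_of_dvd_unit h (hf.map Polynomial.constantCoeff)) hP.not_isUnit
  | h₃ f Q hf hQ ih =>
    intro _ h
    rw [Polynomial.mul_coeff_zero] at h
    rcases hP.dvd_or_dvd h with h | h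
    · exact ⟨Q, hQ, h, dvd_mul_right _ _⟩
    · obtain ⟨Q', h1, h2, h3⟩ := ih hf h
      exact ⟨Q', h1, h2, h3.mul_left _⟩

/-- the generators indexed by the group -/
theorem vzn2_gen (hα : IsFr α) (hP : Prime P) :
    ∃ (b : (E ≃ₐ[K] E) → IntOff (tE E α) 1) (s : A[X]), ¬P ∣ s.coeff 0 ∧
      ∀ x ∈ IntOff (tE E α) 1, ∃ a : (E ≃ₐ[K] E) → A[X],
        tE E α s * x = ∑ i, tE E α (a i) * b i := by
  obtain ⟨m, b, s, hm, hb, hs, h⟩ := zn2_gen (E := E) hα hP
  obtain ⟨e⟩ : Nonempty (Fin m ↪ (E ≃ₐ[K] E)) := Function.Embedding.nonempty_of_card_le (by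
    rwa [Fintype.card_fin, ← Nat.card_eq_fintype_card, IsGalois.card_aut_eq_finrank])
  refine ⟨Function.extend e (fun i => ⟨b i, hb i⟩) 0, s, hs, fun x hx => ?_⟩
  obtain ⟨a, ha⟩ := h x hx
  refine ⟨Function.extend e a 0, ha.trans (Fintype.sum_of_injective e e.injective _ _
    (fun i hi => ?_) fun i => ?_)⟩
  · rw [Function.extend_apply' a _ _ hi, Pi.zero_apply, map_zero, zero_mul]
  · rw [e.injective.extend_apply, e.injective.extend_apply]

omit [IsDomain A] [IsNoetherianRing A] in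
/-- the determinant is a unit at unramified primes -/
theorem vzn2_det (hα : IsFr α) {b : (E ≃ₐ[K] E) → IntOff (tE E α) 1} {s Q : A[X]}
    (h : ∀ x ∈ IntOff (tE E α) 1, ∃ a : (E ≃ₐ[K] E) → A[X],
      tE E α s * x = ∑ i, tE E α (a i) * b i) (hQ : Prime Q) (hs : ¬Q ∣ s) {w : Vl E}
    (hc : Cen (tE E α) w Q) (hw : Ine K w = ⊥) :
    w ((Matrix.of fun g i => gI α 1 g (b i)).det : IntOff (tE E α) 1) = 1 := by
  obtain ⟨n, hn, hn'⟩ := vzn2_ideal (IntOff (tE E α) 1) w fun x hx => hx Q w hQ hQ.not_dvd_one hc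
  obtain ⟨s', m, x, y, h1, h2, h3⟩ := (stab_intOff α 1).gal_coord n fun g _ hg => by
    obtain ⟨z, hz, hz'⟩ := hc.sep hα hQ hw hg
    exact ⟨⟨z, hz⟩, (hn' _).2 hz'⟩
  choose a ha using fun i => h (y i) (y i).2
  have h4 := det_dvd (stab_intOff α 1) b (fun j => ∑ i, x i * toInt _ 1 (a i j))
    (toInt _ 1 s * s') (fun g => by
      rw [Subring.coe_mul, map_mul, h2 g trivial, coe_toInt, RingHom.comp_apply, g.commutes])
    fun g => by
      have h5 := congrArg (tE E α s * ·) (h3 g trivial)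
      simp only [mul_ite, mul_zero, Finset.mul_sum] at h5
      rw [Subring.coe_mul, coe_toInt, ← h5]
      simp only [AddSubmonoidClass.coe_finsetSum, Subring.coe_mul, coe_toInt, Finset.sum_mul]
      rw [Finset.sum_comm]
      refine Finset.sum_congr rfl fun i _ => ?_
      have h6 := congrArg g (ha i)
      simp only [map_mul, map_sum, RingHom.comp_apply, AlgEquiv.commutes] at h6
      simp only [RingHom.comp_apply]
      rw [mul_left_comm, h6, Finset.mul_sum]
      exact Finset.sum_congr rfl fun j _ => mul_assoc _ _ _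
  refine (hn' _).1 fun e => ?_
  rcases hn.mem_or_mem (hn.mem_of_pow_mem _ (n.mem_of_dvd h4 e)) with h5 | h5
  · exact (hn' _).2 ((hc.eq_one s).2 hs) h5
  · exact h1 h5

/-- ZN2: purity at the prime `(P, X)`. -/
theorem zn2 (hα : IsFr α) (hP : Prime P)
    (hu : ∀ (Q : A[X]) (w : Vl E), Prime Q → P ∣ Q.coeff 0 → Cen (tE E α) w Q → Ine K w = ⊥)
    (n : Ideal (IntOff (tE E α) 1)) [n.IsPrime] (hn : ∀ f, toInt _ 1 f ∈ n ↔ P ∣ f.coeff 0)
    {g : E ≃ₐ[K] E} (hg : g ≠ 1) : ∃ x, gI α 1 g x - x ∉ n := by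
  obtain ⟨b, s, hs, h⟩ := vzn2_gen (E := E) hα hP
  set D := (Matrix.of fun g i => gI α 1 g (b i)).det with hD
  obtain ⟨d, hd⟩ := fix_intOff_one hα (x := ∏ g : E ≃ₐ[K] E, g D)
    (prod_mem fun g _ => (gI α 1 g D).2) fun g => by
      rw [map_prod]
      exact Fintype.prod_equiv (Equiv.mulLeft g) _ _ fun _ => rfl
  have h1 : ∀ Q, Prime Q → P ∣ Q.coeff 0 → ¬Q ∣ d := fun Q hQ hPQ => by
    obtain ⟨w, -, hc⟩ := exists_cen_ext (E := E) hα hQ
    rw [← hc.eq_one, hd, map_prod]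
    refine Finset.prod_eq_one fun g _ => ?_
    have hc' : Cen (tE E α) (w.comap (g : E →+* E)) Q := by simpa [Cen] using hc
    exact vzn2_det hα h hQ (fun e => hs (hPQ.trans (map_dvd Polynomial.constantCoeff e))) hc'
      (hu Q _ hQ hPQ hc')
  have h2 : toInt (tE E α) 1 d ∉ n := fun e => by
    obtain ⟨Q, q1, q2, q3⟩ := vzn2_prime hP d
      (fun e' => h1 _ Polynomial.prime_X (by simp) (e' ▸ dvd_zero _)) ((hn d).1 e)
    exact h1 Q q1 q2 q3
  have h3 : toInt (tE E α) 1 d = ∏ g : E ≃ₐ[K] E, gI α 1 g D :=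
    Subtype.ext (hd.trans (by rw [SubmonoidClass.coe_finsetProd]; rfl))
  by_contra hx
  refine h2 (h3 ▸ n.mem_of_dvd (Finset.dvd_prod_of_mem _ (Finset.mem_univ 1)) ?_)
  change D ∈ n
  rw [← Ideal.Quotient.eq_zero_iff_mem, hD, RingHom.map_det]
  refine Matrix.det_zero_of_row_eq hg (funext fun i => Ideal.Quotient.eq.2 ?_)
  by_contra e
  exact hx ⟨b i, e⟩

end Pool.Agent.ZCy
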